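import Mathlib
import Pool.Agent.H204R3.CM.Main

/-!
# Definitions for project ZC: on which power of an abelian variety the exotic classes appear
-/

set_option autoImplicit false

namespace Pool.Agent.Q271.ZC

open NumberField Module Pool.Agent.H204R3.CM

/-! ### Hodge classes on abelian varieties of CM type -/

/-- `A = ∏ j, A (t j)`, where `A i` is the abelian variety of CM type `(E i, Φ i)`: all Hodge classes
on `A`, of all degrees `2 m`, are linear combinations of wedge products of `m` Hodge classes of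
degree two (these are classes of divisors). -/
def Generated {ι : Type} {E : ι → Type} [∀ i, Field (E i)] [∀ i, NumberField (E i)]
    (Φ : ∀ i, Set (E i →+* ℂ)) {J : Type} (t : J → ι) : Prop :=
  ∀ (m : ℕ) (f : (∀ j, E (t j)) [⋀^Fin m × Fin 2]→ₗ[ℚ] ℚ), IsHodge (per Φ t) f →
    f ∈ Submodule.span ℚ {g : (∀ j, E (t j)) [⋀^Fin m × Fin 2]→ₗ[ℚ] ℚ |
      ∃ B : Fin m → (∀ j, E (t j)) [⋀^Fin 2]→ₗ[ℚ] ℚ, (∀ l, IsHodge (per Φ t) (B l)) ∧
        ∀ v, g v = ∑ σ : Equiv.Perm (Fin m × Fin 2), (Equiv.Perm.sign σ : ℤ) *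
          ∏ l, B l ![v (σ (l, 0)), v (σ (l, 1))]}

/-- The abelian varieties `A i` of CM type `(E i, Φ i)` are simple and not isogenous to each other:
the complex embeddings of the fields are determined by the position of their conjugates with respect
to the CM types. -/
def Reduced {ι : Type} {E : ι → Type} [∀ i, Field (E i)] (Φ : ∀ i, Set (E i →+* ℂ)) : Prop :=
  ∀ x y : Σ i, (E i →+* ℂ),
    (∀ σ : ℂ ≃+* ℂ, (σ : ℂ →+* ℂ).comp x.2 ∈ Φ x.1 ↔ (σ : ℂ →+* ℂ).comp y.2 ∈ Φ y.1) → x = y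

section

variable {ι : Type} {E : ι → Type} [∀ i, Field (E i)] {L : Type} [Field L] [NumberField L]

open Classical in
/-- the sign of an embedding into the Galois closure -/
noncomputable def sg (Φ : ∀ i, Set (E i →+* ℂ)) (j : L →+* ℂ) (x : Σ i, (E i →+* L)) : ℤ :=
  if j.comp x.2 ∈ Φ x.1 then 1 else -1

/-- the exponents of Hodge monomials -/
def HVec [Fintype ι] [∀ i, NumberField (E i)] (Φ : ∀ i, Set (E i →+* ℂ)) (j : L →+* ℂ)
    (c : (Σ i, (E i →+* L)) → ℕ) : Prop :=
  ∀ σ : L ≃ₐ[ℚ] L, ∑ x, (c x : ℤ) * sg Φ j ⟨x.1, (σ : L →+* L).comp x.2⟩ = 0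

/-- the conjugate embedding -/
noncomputable def bar [∀ i, NumberField (E i)] [∀ i, IsCMField (E i)] (x : Σ i, (E i →+* L)) :
    Σ i, (E i →+* L) := ⟨x.1, cbar x.2⟩

/-- `Reduced` in terms of the Galois closure -/
def RedL (Φ : ∀ i, Set (E i →+* ℂ)) (j : L →+* ℂ) : Prop :=
  ∀ x y : Σ i, (E i →+* L), (∀ σ : L ≃ₐ[ℚ] L, sg Φ j ⟨x.1, (σ : L →+* L).comp x.2⟩ =
    sg Φ j ⟨y.1, (σ : L →+* L).comp y.2⟩) → x = y

end

/-! ### Tate classes on abelian varieties over finite fields -/

/-- `V` is the rational Tate module `V_ℓ(X)`, with coefficients in `K`, of an abelian variety over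
the field with `q` elements and `F` the Frobenius endomorphism: all Tate classes, of all degrees
`2 m`, are linear combinations of wedge products of `m` Tate classes of degree two (these are
combinations of classes of divisors). -/
def TateGenerated {K V : Type} [Field K] [AddCommGroup V] [Module K V] (F : V →ₗ[K] V) (q : ℕ) :
    Prop :=
  ∀ (m : ℕ) (f : V [⋀^Fin m × Fin 2]→ₗ[K] K), (∀ v, f (fun l => F (v l)) = (q : K) ^ m * f v) →
    f ∈ Submodule.span K {g : V [⋀^Fin m × Fin 2]→ₗ[K] K |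
      ∃ B : Fin m → V [⋀^Fin 2]→ₗ[K] K,
        (∀ l v, B l (fun i => F (v i)) = (q : K) * B l v) ∧
        ∀ v, g v = ∑ σ : Equiv.Perm (Fin m × Fin 2), (Equiv.Perm.sign σ : ℤ) *
          ∏ l, B l ![v (σ (l, 0)), v (σ (l, 1))]}

/-- The exponents `c` of an exotic Tate monomial in the eigenvalues `z`, with multiplicities at most
`r z`: `∏ z ^ (c z) = q ^ (∑ c / 2)`, and `c z ≠ c (q / z)` for some `z`. -/
def ExoticVec {K : Type} [Field K] (q : ℕ) (r : K → ℕ) (c : K →₀ ℕ) : Prop :=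
  (∀ z, c z ≤ r z) ∧ (∃ m : ℕ, c.sum (fun _ k => k) = 2 * m ∧
    c.prod (fun z k => z ^ k) = (q : K) ^ m) ∧ ∃ z, c z ≠ c (q / z)

/-! ### Extraspecial groups -/

/-- The Heisenberg group `{± 1} × V × Hom (V, ± 1)` of an elementary abelian 2-group `V`. -/
@[ext] structure EG (V : Type) [AddCommGroup V] where
  /-- the sign -/
  e : ZMod 2
  /-- the translation -/
  a : V
  /-- the character -/
  b : V →+ ZMod 2

namespace EG

variable {V : Type} [AddCommGroup V]

instance : Mul (EG V) := ⟨fun x y => ⟨x.e + y.e + x.b y.a, x.a + y.a, x.b + y.b⟩⟩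
instance : One (EG V) := ⟨⟨0, 0, 0⟩⟩
instance : Inv (EG V) := ⟨fun x => ⟨-x.e + x.b x.a, -x.a, -x.b⟩⟩

theorem mul_e (x y : EG V) : (x * y).e = x.e + y.e + x.b y.a := rfl
theorem mul_a (x y : EG V) : (x * y).a = x.a + y.a := rfl
theorem mul_b (x y : EG V) : (x * y).b = x.b + y.b := rfl
theorem one_e : (1 : EG V).e = 0 := rfl
theorem one_a : (1 : EG V).a = 0 := rfl
theorem one_b : (1 : EG V).b = 0 := rfl
theorem inv_e (x : EG V) : (x⁻¹).e = -x.e + x.b x.a := rfl
theorem inv_a (x : EG V) : (x⁻¹).a = -x.a := rfl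
theorem inv_b (x : EG V) : (x⁻¹).b = -x.b := rfl

instance : Group (EG V) where
  mul_assoc x y z := by
    apply EG.ext
    · rw [mul_e, mul_e, mul_e, mul_e, mul_a, mul_b, map_add, AddMonoidHom.add_apply]
      ring
    · rw [mul_a, mul_a, mul_a, mul_a, add_assoc]
    · rw [mul_b, mul_b, mul_b, mul_b, add_assoc]
  one_mul x := by
    apply EG.ext
    · rw [mul_e, one_e, one_b, AddMonoidHom.zero_apply, add_zero, zero_add]
    · rw [mul_a, one_a, zero_add]
    · rw [mul_b, one_b, zero_add]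
  mul_one x := by
    apply EG.ext
    · rw [mul_e, one_e, one_a, map_zero, add_zero, add_zero]
    · rw [mul_a, one_a, add_zero]
    · rw [mul_b, one_b, add_zero]
  inv_mul_cancel x := by
    apply EG.ext
    · rw [mul_e, inv_e, inv_b, one_e, AddMonoidHom.neg_apply]
      ring
    · rw [mul_a, inv_a, one_a, neg_add_cancel]
    · rw [mul_b, inv_b, one_b, neg_add_cancel]

end EG

end Pool.Agent.Q271.ZC
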