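import Mathlib
import Pool.Agent.Q271.ZC.Def
import Pool.Agent.Q277.ZC.Sel

/-!
# Systems of classes closed under cup products, pull-back and push-forward; statements of jobs

Second part of project ZC (helper271): the Hodge conjecture for one explicit power of an abelian
variety of CM type implies it for all powers (and the same for Tate classes over finite fields).
-/

set_option autoImplicit false
set_option linter.unusedSectionVars false

namespace Pool.Agent.Q271.ZC

open NumberField Module Pool.Agent.H204R3.CM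

/-- The cup product of alternating forms, up to a nonzero factor. -/
def cup {W R : Type} [CommRing R] {k k' : ℕ} (f : (Fin k → W) → R) (f' : (Fin k' → W) → R)
    (v : Fin (k + k') → W) : R :=
  ∑ σ : Equiv.Perm (Fin (k + k')), ((Equiv.Perm.sign σ : ℤ) : R) *
    (f (fun l => v (σ (Fin.castAdd k' l))) * f' (fun l => v (σ (Fin.natAdd k l))))

/-- Monomials in linear forms, as alternating forms. -/
def mono {X W R : Type} [CommRing R] (ξ : X → W → R) {k : ℕ} (I : Fin k → X) (v : Fin k → W) : R :=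
  ∑ σ : Equiv.Perm (Fin k), ((Equiv.Perm.sign σ : ℤ) : R) * ∏ l, ξ (I l) (v (σ l))

section

variable {ι : Type} {E : ι → Type} [∀ i, Field (E i)]

/-- The rational homology of `A ^ n` is contained in that of `A ^ (n + 1)`, `A = ∏ i, A i`. -/
def inc {n : ℕ} (w : ∀ x : ι × Fin n, E x.1) : ∀ x : ι × Fin (n + 1), E x.1 :=
  fun x => if h : (x.2 : ℕ) < n then w (x.1, ⟨x.2, h⟩) else 0

/-- The rational homology of the last factor of `A ^ (n + 1)`. -/
def last {n : ℕ} (u : ∀ i, E i) : ∀ x : ι × Fin (n + 1), E x.1 :=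
  fun x => if (x.2 : ℕ) < n then 0 else u x.1

/-- The map between the rational homology groups of `A ^ n` and `A ^ n'` is given by a homomorphism
(up to isogeny). -/
def IsHom (Φ : ∀ i, Set (E i →+* ℂ)) {n n' : ℕ}
    (h : (∀ x : ι × Fin n, E x.1) → (∀ x : ι × Fin n', E x.1)) : Prop :=
  ∃ H : Tan Φ (Prod.fst : ι × Fin n → ι) →ₗ[ℂ] Tan Φ (Prod.fst : ι × Fin n' → ι),
    ∀ w, H (per Φ (Prod.fst : ι × Fin n → ι) w) = per Φ (Prod.fst : ι × Fin n' → ι) (h w)

/-- The homomorphism with the matrices `γ i` with entries in `E i = End (A i) ⊗ ℚ`. -/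
def hmap {n n' : ℕ} (γ : ∀ i, Matrix (Fin n') (Fin n) (E i)) (w : ∀ x : ι × Fin n, E x.1) :
    ∀ x : ι × Fin n', E x.1 :=
  fun x => ∑ b, γ x.1 x.2 b * w (x.1, b)

end

section

variable {ι J : Type} {E : ι → Type} [∀ i, Field (E i)] {L : Type} [Field L]

/-- the coordinate functions -/
def ch (t : J → ι) : XX E t L → (∀ a, E (t a)) → L := fun y w => chi E t L w y

/-- The exponents of a monomial. -/
noncomputable def cnt (t : J → ι) {k : ℕ} (I : Fin k → XX E t L) :
    (Σ i, (E i →+* L)) → ℕ :=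
  fun x => Nat.card {l : Fin k // (⟨t (I l).1, (I l).2⟩ : Σ i, (E i →+* L)) = x}

end

/-- JOB ZC-CUP: the product of two monomials.

Proof. Insert the definitions; for permutations `τ`, `τ'` of `Fin k`, `Fin k'` substitute
`σ ↦ σ * (τ ⊔ τ')⁻¹`, where `τ ⊔ τ'` is the permutation of `Fin (k + k')` acting by `τ` and `τ'` on the two
parts (`Equiv.Perm.sumCongr` and `finSumFinEquiv`; its sign is the product of the signs). -/
def S_CUP : Prop :=
  ∀ (X W R : Type) [CommRing R] (ξ : X → W → R) (k k' : ℕ) (I : Fin k → X) (I' : Fin k' → X)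
    (v : Fin (k + k') → W), cup (mono ξ I) (mono ξ I') v =
      ((k.factorial * k'.factorial : ℕ) : R) * mono ξ (Fin.append I I') v

/-- JOB ZC-GEN: combinatorial lemma.

Proof. (1) `Λ` is generated, as a group, by its elements `u` with `|u x| ≤ #Ω * Y * mu x`: choose among
the small elements a `ℚ`-basis `u 1, ..., u r` of their span (`r ≤ #Ω`; `exists_linearIndependent` or
`Submodule.exists_fun_fin_finrank_span_eq`); for `c ∈ Λ`, `c = ∑ a i • u i` with rational `a i`, the
element `c - ∑ ⌊a i⌋ • u i = ∑ fract (a i) • u i` of `Λ` has entries at most `r * Y * mu x`. (2) Put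
`T = #Ω * Y`. If `u` is such a generator, `u + T • mu` and `T • mu` are nonnegative elements of `Λ` with
entries at most `2 * T * mu x`, so they are in `S`. So each `c ∈ Λ` is a difference `c = a - b` with
`a`, `b` in `S` (sums of elements of `S`; `AddSubgroup.closure_induction`; `0 ∈ S` by the first hypothesis), and
also `b` with its conjugate: prove by induction that `c = a - b` where `a`, `b`, `a ∘ br`, `b ∘ br` are
all in `S` (the small nonnegative elements of `Λ` are stable under `br`). (3) If `c ≥ 0`, then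
`c + (b + b ∘ br) = a + b ∘ br ∈ S`, and `b + b ∘ br = ∑ x, b x • (single x 1 + single (br x) 1)`, so that
`c ∈ S` by the last hypothesis on `S`, applied `∑ b` times. -/
def S_GEN : Prop :=
  ∀ (Ω : Type) [Fintype Ω] [DecidableEq Ω] (br : Ω → Ω) (mu : Ω → ℕ) (Y : ℕ)
    (Λ : AddSubgroup (Ω → ℤ)), (∀ x, br (br x) = x) → (∀ x, mu (br x) = mu x) →
    (∀ c ∈ Λ, (fun x => c (br x)) ∈ Λ) → (fun x => (mu x : ℤ)) ∈ Λ →
    (∀ c ∈ Λ, (fun x => (c x : ℚ)) ∈ Submodule.span ℚ {u : Ω → ℚ |
      ∃ z : Ω → ℤ, z ∈ Λ ∧ (∀ x, |z x| ≤ Y * mu x) ∧ ∀ x, u x = z x}) →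
    ∀ S : Set (Ω → ℕ),
    (∀ c : Ω → ℕ, (fun x => (c x : ℤ)) ∈ Λ → (∀ x, c x ≤ 2 * Fintype.card Ω * Y * mu x) → c ∈ S) →
    (∀ c ∈ S, ∀ c' ∈ S, c + c' ∈ S) →
    (∀ (c : Ω → ℕ) (x : Ω), c + Pi.single x 1 + Pi.single (br x) 1 ∈ S → c ∈ S) →
    ∀ c : Ω → ℕ, (fun x => (c x : ℤ)) ∈ Λ → c ∈ S

/-- JOB ZC-HP: pull-back of a monomial by homomorphisms gives all monomials with the same exponents.

Proof. Let `I l = ((i l, a l), φ l)`. For `γ` one has (`ch`, `chi`, `hmap`)
`ch (I l) (hmap γ w) = ∑ b, φ l (γ (i l) (a l) b) * φ l (w (i l, b))`. So the function in the hypothesis is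
`∑ β : Fin k → Fin n, χ_β γ • mono ch (J_β)`, `χ_β γ = ∏ l, φ l (γ (i l) (a l) (β l))`,
`J_β l = ((i l, β l), φ l)`, and `J = J_β` for one `β`. The `χ_β` are multiplicative functions of `γ` (for
the entrywise product, `Pi` monoid; take the monoid `∀ i, Fin n' → Fin n → E i`) and they are different:
if `β l ≠ β' l`, then in the entry `(i l, a l, β l)` they are products of the embeddings in
two sets `T`, `T'` of embeddings of `E (i l)`, and `φ l` is in `T` only, as `I` is injective; and
`∏_{T} φ (x - θ) = ∏_{T'} φ (x - θ)` for all integers `x` (`θ` a primitive element) would give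
`T = T'` (compare the roots of the two polynomials in `x`). By `linearIndependent_monoidHom` the `χ_β` are
linearly independent, so there are finitely many `γ` and coefficients `λ_γ` in `L` such that
`∑ λ_γ χ_β' γ = 1` if `β' = β` and `0` otherwise, and `mono ch J = ∑ λ_γ • (…) ∈ A`. -/
def S_HP : Prop :=
  ∀ (ι : Type) [Fintype ι] (E : ι → Type) [∀ i, Field (E i)] [∀ i, NumberField (E i)]
    (L : Type) [Field L] [NumberField L] (n n' k : ℕ)
    (I : Fin k → XX E (Prod.fst : ι × Fin n' → ι) L)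
    (J : Fin k → XX E (Prod.fst : ι × Fin n → ι) L), Function.Injective I →
    (∀ l, (⟨(I l).1.1, (I l).2⟩ : Σ i, (E i →+* L)) = ⟨(J l).1.1, (J l).2⟩) →
    ∀ A : Submodule L ((Fin k → ∀ x : ι × Fin n, E x.1) → L),
    (∀ γ : ∀ i, Matrix (Fin n') (Fin n) (E i), (fun v => mono (ch Prod.fst) I (fun l => hmap γ (v l))) ∈ A) →
    mono (ch Prod.fst) J ∈ A

/-- JOB ZC-HS: monomials with Hodge exponents are combinations of Hodge classes.

Proof. For `α : L` the alternatization of `trForm t I α` (`Pool/Agent/Q277/ZC/Form.lean`) is a Hodge class by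
`hodge_trForm` (with `κ = Fin k`), and its values are (`trForm_coe`) those of `∑ τ, τ α • mono (ch t) (act t τ ∘ I)`.
By the linear independence of the automorphisms (`linearIndependent_monoidHom`, or the dual basis of
the trace form) there are finitely many `α` and coefficients `λ_α` in `L` with
`∑ λ_α * τ α = 1` for `τ = 1` and `0` for the other `τ`; so `mono (ch t) I` is the combination
`∑ λ_α • (…)` of the values of these Hodge classes. -/
def S_HS : Prop :=
  ∀ (ι J : Type) [Fintype ι] [Fintype J] (E : ι → Type) [∀ i, Field (E i)]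
    [∀ i, NumberField (E i)] [∀ i, IsCMField (E i)] (L : Type) [Field L] [NumberField L]
    [IsGalois ℚ L] (Φ : ∀ i, Set (E i →+* ℂ)) (t : J → ι) (j : L →+* ℂ),
    (∀ i, IsCMType (Φ i)) → (∀ i, ∀ ψ : E i →+* ℂ, ∃ φ : E i →+* L, j.comp φ = ψ) →
    ∀ (k : ℕ) (I : Fin k → XX E t L), HVec Φ j (cnt t I) →
    mono (ch t) I ∈ Submodule.span L {F : (Fin k → ∀ a, E (t a)) → L |
      ∃ f : (∀ a, E (t a)) [⋀^Fin k]→ₗ[ℚ] ℚ, IsHodge (per Φ t) f ∧ ∀ v, F v = ((f v : ℚ) : L)}

/-- JOB ZC-HE: Hodge classes are combinations of monomials with Hodge exponents.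

Proof. As in the proof of `hl1` (`Pool/Agent/Q177/ZC/HL1.lean`) `f v = ∑ I, c I * ∏ l, chi E t L (v l) (I l)`, and
`c I ≠ 0` implies that `I` is injective (`I_inj`) and that the exponents `cnt t I` satisfy `HVec` (`balanced_of_hodge`).
As `f` is alternating, `k! * f v = ∑ σ, sign σ * f (v ∘ σ) = ∑ I, c I * mono (ch t) I v`. -/
def S_HE : Prop :=
  ∀ (ι J : Type) [Fintype ι] [Fintype J] (E : ι → Type) [∀ i, Field (E i)]
    [∀ i, NumberField (E i)] [∀ i, IsCMField (E i)] (L : Type) [Field L] [NumberField L]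
    (Φ : ∀ i, Set (E i →+* ℂ)) (t : J → ι) (j : L →+* ℂ),
    (∀ i, IsCMType (Φ i)) → (∀ i, ∀ ψ : E i →+* ℂ, ∃ φ : E i →+* L, j.comp φ = ψ) →
    ∀ (k : ℕ) (f : (∀ a, E (t a)) [⋀^Fin k]→ₗ[ℚ] ℚ), IsHodge (per Φ t) f →
    (fun v => ((f v : ℚ) : L)) ∈ Submodule.span L {F : (Fin k → ∀ a, E (t a)) → L |
      ∃ I : Fin k → XX E t L, Function.Injective I ∧ HVec Φ j (cnt t I) ∧ F = mono (ch t) I}

end Pool.Agent.Q271.ZC
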