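import Mathlib
import Pool.Agent.Q271.ZC.Sys

/-!
# Push-forward of monomials
-/

set_option autoImplicit false
set_option linter.unusedSectionVars false

namespace Pool.Agent.Q271.ZC

open NumberField Module Pool.Agent.H204R3.CM

theorem mono_det {X W R : Type} [CommRing R] (ξ : X → W → R) {k : ℕ} (I : Fin k → X)
    (v : Fin k → W) : mono ξ I v = (Matrix.of fun l m => ξ (I l) (v m)).det := by
  rw [← Matrix.det_transpose, Matrix.det_apply']
  rfl

/-- a monomial containing all variables of the last factor, evaluated on a basis of the homology of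
the last factor -/
theorem mono_push {X X' W W' R : Type} [CommRing R] (ξ : X → W → R) (ξ' : X' → W' → R) {k M : ℕ}
    (J : Fin k → X) (J' : Fin k → X') (top : Fin M → X') (v : Fin k → W) (v' : Fin k → W')
    (e : Fin M → W') (h1 : ∀ l m, ξ' (J' l) (v' m) = ξ (J l) (v m)) (h2 : ∀ l i, ξ' (J' l) (e i) = 0)
    (h3 : ∀ i m, ξ' (top i) (v' m) = 0) :
    mono ξ' (Fin.append J' top) (Fin.append v' e) =
      mono ξ J v * (Matrix.of fun i j => ξ' (top i) (e j)).det := by
  rw [mono_det, mono_det, ← Matrix.det_submatrix_equiv_self finSumFinEquiv]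
  have h4 : (Matrix.of fun l m => ξ' (Fin.append J' top l) (Fin.append v' e m)).submatrix
      finSumFinEquiv finSumFinEquiv = Matrix.fromBlocks (Matrix.of fun l m => ξ (J l) (v m)) 0 0
        (Matrix.of fun i j => ξ' (top i) (e j)) := by
    ext a b
    rw [Matrix.submatrix_apply, Matrix.of_apply]
    rcases a with a | a <;> rcases b with b | b
    · rw [finSumFinEquiv_apply_left, finSumFinEquiv_apply_left, Fin.append_left, Fin.append_left,
        Matrix.fromBlocks_apply₁₁, Matrix.of_apply, h1]
    · rw [finSumFinEquiv_apply_left, finSumFinEquiv_apply_right, Fin.append_left, Fin.append_right,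
        Matrix.fromBlocks_apply₁₂, h2, Matrix.zero_apply]
    · rw [finSumFinEquiv_apply_right, finSumFinEquiv_apply_left, Fin.append_right, Fin.append_left,
        Matrix.fromBlocks_apply₂₁, h3, Matrix.zero_apply]
    · rw [finSumFinEquiv_apply_right, finSumFinEquiv_apply_right, Fin.append_right,
        Fin.append_right, Matrix.fromBlocks_apply₂₂, Matrix.of_apply]
  rw [h4, Matrix.det_fromBlocks_zero₂₁]

/-- the determinant of the embeddings on a basis -/
theorem det_emb {ι : Type} [Fintype ι] {E : ι → Type} [∀ i, Field (E i)] [∀ i, NumberField (E i)]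
    {L : Type} [Field L] [NumberField L] {M : ℕ} (b : Basis (Fin M) ℚ (∀ i, E i))
    (e : Fin M ≃ Σ i, (E i →+* L)) :
    (Matrix.of fun a c => (e a).2 (b c (e a).1)).det ≠ 0 := by
  classical
  intro h
  obtain ⟨lam, hlam, h0⟩ := Matrix.exists_vecMul_eq_zero_iff.2 h
  apply hlam
  -- the relation on all elements
  have h1 : ∀ w : ∀ i, E i, ∑ a, lam a * (e a).2 (w (e a).1) = 0 := by
    intro w
    rw [← b.sum_repr w]
    have h2 : ∀ a, (e a).2 ((∑ c, b.repr w c • b c : ∀ i, E i) (e a).1) =
        ∑ c, ((b.repr w c : ℚ) : L) * (e a).2 (b c (e a).1) := by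
      intro a
      rw [Finset.sum_apply, map_sum]
      refine Finset.sum_congr rfl fun c _ => ?_
      rw [Pi.smul_apply, Algebra.smul_def, map_mul, eq_ratCast, map_ratCast]
    rw [Finset.sum_congr rfl fun a _ => by rw [h2 a, Finset.mul_sum], Finset.sum_comm]
    refine Finset.sum_eq_zero fun c _ => ?_
    have h3 := congrFun h0 c
    rw [Matrix.vecMul, dotProduct, Pi.zero_apply] at h3
    have h4 : ∀ a, lam a * (((b.repr w c : ℚ) : L) * (e a).2 (b c (e a).1)) =
        ((b.repr w c : ℚ) : L) * (lam a * (Matrix.of fun a c => (e a).2 (b c (e a).1)) a c) := by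
      intro a
      rw [Matrix.of_apply]
      ring
    rw [Finset.sum_congr rfl fun a _ => h4 a, ← Finset.mul_sum, h3, mul_zero]
  -- one field at a time
  have h5 : ∀ i, ∀ u : E i, ∑ φ : E i →+* L, lam (e.symm ⟨i, φ⟩) * φ u = 0 := by
    intro i u
    have h6 := h1 (Pi.single i u)
    rw [← Equiv.sum_comp e.symm, Fintype.sum_sigma, Finset.sum_eq_single i] at h6
    · rw [← h6]
      refine Finset.sum_congr rfl fun φ _ => ?_
      rw [Equiv.apply_symm_apply]
      change _ = lam (e.symm ⟨i, φ⟩) * φ (Pi.single i u i)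
      rw [Pi.single_eq_same]
    · intro i' _ hi'
      refine Finset.sum_eq_zero fun φ _ => ?_
      rw [Equiv.apply_symm_apply]
      change lam (e.symm ⟨i', φ⟩) * φ (Pi.single i u i') = 0
      rw [Pi.single_eq_of_ne hi', map_zero, mul_zero]
    · intro h7
      exact absurd (Finset.mem_univ _) h7
  funext a
  obtain ⟨x, rfl⟩ := e.symm.surjective a
  obtain ⟨i, φ⟩ := x
  have hli : LinearIndependent L (fun φ : E i →+* L => (φ : E i → L)) := by
    have h8 := linearIndependent_monoidHom (E i) L
    have h9 : Function.Injective (fun φ : E i →+* L => (φ : E i →* L)) := by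
      intro φ ψ h
      ext x
      exact DFunLike.congr_fun h x
    exact h8.comp _ h9
  have h10 := Fintype.linearIndependent_iff.1 hli (fun φ => lam (e.symm ⟨i, φ⟩)) (by
    funext u
    rw [Finset.sum_apply, Pi.zero_apply, ← h5 i u]
    rfl) φ
  exact h10

end Pool.Agent.Q271.ZC
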