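import Mathlib
import Pool.Agent.Q271.ZC.Push

/-!
# Systems of rational classes on the powers of an abelian variety of CM type
-/

set_option autoImplicit false
set_option linter.unusedSectionVars false

namespace Pool.Agent.Q271.ZC

open NumberField Module Pool.Agent.H204R3.CM

/-- Let `A = ∏ i, A i`, where `A i` is the abelian variety of CM type `(E i, Φ i)`. A family of
rational subspaces `cl n k` of the cohomology groups `H ^ k (A ^ n, ℚ)` which is closed under cup
products, pull-back by homomorphisms `A ^ n → A ^ n'` and push-forward by the projections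
`A ^ (n + 1) → A ^ n` (such as: the spaces spanned by the classes of algebraic cycles). -/
structure HSys {ι : Type} (E : ι → Type) [∀ i, Field (E i)] [∀ i, NumberField (E i)]
    (Φ : ∀ i, Set (E i →+* ℂ)) where
  /-- the classes in `H ^ k (A ^ n, ℚ)` -/
  cl : ∀ n k : ℕ, Submodule ℚ ((∀ x : ι × Fin n, E x.1) [⋀^Fin k]→ₗ[ℚ] ℚ)
  cup_mem : ∀ (n k k' : ℕ) (f : (∀ x : ι × Fin n, E x.1) [⋀^Fin k]→ₗ[ℚ] ℚ)
    (f' : (∀ x : ι × Fin n, E x.1) [⋀^Fin k']→ₗ[ℚ] ℚ)
    (g : (∀ x : ι × Fin n, E x.1) [⋀^Fin (k + k')]→ₗ[ℚ] ℚ), f ∈ cl n k → f' ∈ cl n k' →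
    (∀ v, g v = cup f f' v) → g ∈ cl n (k + k')
  pull_mem : ∀ (n n' k : ℕ) (h : (∀ x : ι × Fin n, E x.1) →ₗ[ℚ] (∀ x : ι × Fin n', E x.1)),
    IsHom Φ h → ∀ f ∈ cl n' k, f.compLinearMap h ∈ cl n k
  push_mem : ∀ (n k M : ℕ) (b : Basis (Fin M) ℚ (∀ i, E i))
    (f : (∀ x : ι × Fin (n + 1), E x.1) [⋀^Fin (k + M)]→ₗ[ℚ] ℚ)
    (g : (∀ x : ι × Fin n, E x.1) [⋀^Fin k]→ₗ[ℚ] ℚ), f ∈ cl (n + 1) (k + M) →
    (∀ v, g v = f (Fin.append (fun l => inc (v l)) (fun l => last (b l)))) → g ∈ cl n k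

section

variable {W : Type} [AddCommGroup W] [Module ℚ W] (L : Type) [Field L] [CharZero L]

/-- the `L`-span of a space of rational forms -/
def spanL {k : ℕ} (U : Submodule ℚ (W [⋀^Fin k]→ₗ[ℚ] ℚ)) : Submodule L ((Fin k → W) → L) :=
  Submodule.span L {F | ∃ f ∈ U, ∀ v, F v = ((f v : ℚ) : L)}

theorem mem_spanL {k : ℕ} {U : Submodule ℚ (W [⋀^Fin k]→ₗ[ℚ] ℚ)} {f : W [⋀^Fin k]→ₗ[ℚ] ℚ}
    (hf : f ∈ U) : (fun v => ((f v : ℚ) : L)) ∈ spanL L U :=
  Submodule.subset_span ⟨f, hf, fun _ => rfl⟩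

variable {L}

theorem descent {k : ℕ} {U : Submodule ℚ (W [⋀^Fin k]→ₗ[ℚ] ℚ)} {f : W [⋀^Fin k]→ₗ[ℚ] ℚ}
    (hf : (fun v => ((f v : ℚ) : L)) ∈ spanL L U) : f ∈ U := by
  classical
  obtain ⟨ℓ, hℓ⟩ : ∃ ℓ : L →ₗ[ℚ] ℚ, ℓ 1 = 1 := by
    obtain ⟨ℓ, hℓ⟩ := (Algebra.linearMap ℚ L).exists_leftInverse_of_injective
      (LinearMap.ker_eq_bot.2 (algebraMap ℚ L).injective)
    refine ⟨ℓ, ?_⟩
    have h1 := LinearMap.congr_fun hℓ 1
    simpa using h1
  have hrat : ∀ (μ : L) (q : ℚ), ℓ (μ * (q : L)) = ℓ μ * q := by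
    intro μ q
    have h1 : μ * (q : L) = q • μ := by
      rw [Algebra.smul_def, eq_ratCast, mul_comm]
    rw [h1, map_smul, smul_eq_mul, mul_comm]
  have key : ∀ F ∈ spanL L U, ∀ μ : L, ∃ g ∈ U, ∀ v, ℓ (μ * F v) = g v := by
    intro F hF
    unfold spanL at hF
    induction hF using Submodule.span_induction with
    | mem F hF =>
      obtain ⟨f, hf, h⟩ := hF
      intro μ
      refine ⟨ℓ μ • f, U.smul_mem _ hf, fun v => ?_⟩
      rw [h, hrat, AlternatingMap.smul_apply, smul_eq_mul]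
    | zero =>
      intro μ
      refine ⟨0, U.zero_mem, fun v => ?_⟩
      rw [Pi.zero_apply, mul_zero, map_zero, AlternatingMap.zero_apply]
    | add F F' _ _ hF hF' =>
      intro μ
      obtain ⟨g, hg, h⟩ := hF μ
      obtain ⟨g', hg', h'⟩ := hF' μ
      refine ⟨g + g', U.add_mem hg hg', fun v => ?_⟩
      rw [Pi.add_apply, mul_add, map_add, h, h', AlternatingMap.add_apply]
    | smul a F _ hF =>
      intro μ
      obtain ⟨g, hg, h⟩ := hF (μ * a)
      refine ⟨g, hg, fun v => ?_⟩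
      rw [← h, Pi.smul_apply, smul_eq_mul, mul_assoc]
  obtain ⟨g, hg, h⟩ := key _ hf 1
  have h1 : f = g := by
    ext v
    have h2 := h v
    rw [hrat, hℓ, one_mul] at h2
    exact h2
  rw [h1]
  exact hg

/-- the cup product as an alternating map -/
theorem exists_cup {k k' : ℕ} (f : W [⋀^Fin k]→ₗ[ℚ] ℚ) (f' : W [⋀^Fin k']→ₗ[ℚ] ℚ) :
    ∃ g : W [⋀^Fin (k + k')]→ₗ[ℚ] ℚ, ∀ v, g v = cup f f' v := by
  let m : MultilinearMap ℚ (fun _ : Fin (k + k') => W) ℚ :=
    ((LinearMap.mul' ℚ ℚ).compMultilinearMap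
      (MultilinearMap.domCoprod f.toMultilinearMap f'.toMultilinearMap)).domDomCongr finSumFinEquiv
  refine ⟨MultilinearMap.alternatization m, fun v => ?_⟩
  rw [MultilinearMap.alternatization_apply, cup]
  refine Finset.sum_congr rfl fun σ _ => ?_
  rw [Units.smul_def, zsmul_eq_mul]
  congr 1

theorem cup_add_left {R W : Type} [CommRing R] {k k' : ℕ} (F F₂ : (Fin k → W) → R)
    (F' : (Fin k' → W) → R) : cup (F + F₂) F' = cup F F' + cup F₂ F' := by
  funext v
  simp only [cup, Pi.add_apply, add_mul, mul_add, Finset.sum_add_distrib]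

theorem cup_add_right {R W : Type} [CommRing R] {k k' : ℕ} (F : (Fin k → W) → R)
    (F' F₂ : (Fin k' → W) → R) : cup F (F' + F₂) = cup F F' + cup F F₂ := by
  funext v
  simp only [cup, Pi.add_apply, mul_add, Finset.sum_add_distrib]

theorem cup_smul_left {R W : Type} [CommRing R] {k k' : ℕ} (a : R) (F : (Fin k → W) → R)
    (F' : (Fin k' → W) → R) : cup (a • F) F' = a • cup F F' := by
  funext v
  simp only [cup, Pi.smul_apply, smul_eq_mul, Finset.mul_sum]
  exact Finset.sum_congr rfl fun σ _ => by ring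

theorem cup_smul_right {R W : Type} [CommRing R] {k k' : ℕ} (a : R) (F : (Fin k → W) → R)
    (F' : (Fin k' → W) → R) : cup F (a • F') = a • cup F F' := by
  funext v
  simp only [cup, Pi.smul_apply, smul_eq_mul, Finset.mul_sum]
  exact Finset.sum_congr rfl fun σ _ => by ring

theorem cup_zero_left {R W : Type} [CommRing R] {k k' : ℕ} (F' : (Fin k' → W) → R) :
    cup (0 : (Fin k → W) → R) F' = 0 := by
  funext v
  simp only [cup, Pi.zero_apply, zero_mul, mul_zero, Finset.sum_const_zero]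

theorem cup_zero_right {R W : Type} [CommRing R] {k k' : ℕ} (F : (Fin k → W) → R) :
    cup F (0 : (Fin k' → W) → R) = 0 := by
  funext v
  simp only [cup, Pi.zero_apply, mul_zero, Finset.sum_const_zero]

/-- a span is closed under cup products if the generators are -/
theorem span_cup {R W : Type} [CommRing R] {k k' : ℕ} {s : Set ((Fin k → W) → R)}
    {s' : Set ((Fin k' → W) → R)} {A : Submodule R ((Fin (k + k') → W) → R)}
    (h : ∀ F ∈ s, ∀ F' ∈ s', cup F F' ∈ A) {F : (Fin k → W) → R} (hF : F ∈ Submodule.span R s)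
    {F' : (Fin k' → W) → R} (hF' : F' ∈ Submodule.span R s') : cup F F' ∈ A := by
  induction hF using Submodule.span_induction with
  | mem F hF =>
    induction hF' using Submodule.span_induction with
    | mem F' hF' => exact h F hF F' hF'
    | zero =>
      rw [cup_zero_right]
      exact A.zero_mem
    | add F' F₂ _ _ h1 h2 =>
      rw [cup_add_right]
      exact A.add_mem h1 h2
    | smul a F' _ h1 =>
      rw [cup_smul_right]
      exact A.smul_mem _ h1
  | zero =>
    rw [cup_zero_left]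
    exact A.zero_mem
  | add F F₂ _ _ h1 h2 =>
    rw [cup_add_left]
    exact A.add_mem h1 h2
  | smul a F _ h1 =>
    rw [cup_smul_left]
    exact A.smul_mem _ h1

/-- a permutation of the variables of a monomial -/
theorem mono_perm {X W R : Type} [CommRing R] (ξ : X → W → R) {k : ℕ} (I : Fin k → X)
    (e : Equiv.Perm (Fin k)) : mono ξ (I ∘ e) = ((Equiv.Perm.sign e : ℤ) : R) • mono ξ I := by
  funext v
  rw [Pi.smul_apply, smul_eq_mul, mono_det, mono_det]
  have h1 : (Matrix.of fun l m => ξ ((I ∘ e) l) (v m)) =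
      (Matrix.of fun l m => ξ (I l) (v m)).submatrix e id := rfl
  rw [h1, Matrix.det_permute]

end

section

variable {ι : Type} {E : ι → Type} [∀ i, Field (E i)] [∀ i, NumberField (E i)]

/-- `hmap` as a linear map -/
def hlin {n n' : ℕ} (γ : ∀ i, Matrix (Fin n') (Fin n) (E i)) :
    (∀ x : ι × Fin n, E x.1) →ₗ[ℚ] (∀ x : ι × Fin n', E x.1) where
  toFun := hmap γ
  map_add' w w' := by
    funext x
    change ∑ b, γ x.1 x.2 b * (w (x.1, b) + w' (x.1, b)) =
      ∑ b, γ x.1 x.2 b * w (x.1, b) + ∑ b, γ x.1 x.2 b * w' (x.1, b)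
    rw [← Finset.sum_add_distrib]
    exact Finset.sum_congr rfl fun b _ => mul_add _ _ _
  map_smul' c w := by
    funext x
    change ∑ b, γ x.1 x.2 b * (c • w (x.1, b)) = c • ∑ b, γ x.1 x.2 b * w (x.1, b)
    rw [Finset.smul_sum]
    exact Finset.sum_congr rfl fun b _ => mul_smul_comm _ _ _

theorem isHom_hlin (Φ : ∀ i, Set (E i →+* ℂ)) {n n' : ℕ} (γ : ∀ i, Matrix (Fin n') (Fin n) (E i)) :
    IsHom Φ (hlin γ) := by
  let H : Tan Φ (Prod.fst : ι × Fin n → ι) →ₗ[ℂ] Tan Φ (Prod.fst : ι × Fin n' → ι) :=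
    { toFun := fun u x φ => ∑ b, φ.1 (γ x.1 x.2 b) * u (x.1, b) φ
      map_add' := by
        intro u u'
        funext x φ
        change ∑ b, φ.1 (γ x.1 x.2 b) * (u (x.1, b) φ + u' (x.1, b) φ) =
          ∑ b, φ.1 (γ x.1 x.2 b) * u (x.1, b) φ + ∑ b, φ.1 (γ x.1 x.2 b) * u' (x.1, b) φ
        rw [← Finset.sum_add_distrib]
        exact Finset.sum_congr rfl fun b _ => mul_add _ _ _
      map_smul' := by
        intro c u
        funext x φ
        change ∑ b, φ.1 (γ x.1 x.2 b) * (c * u (x.1, b) φ) = c * ∑ b, φ.1 (γ x.1 x.2 b) * u (x.1, b) φ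
        rw [Finset.mul_sum]
        exact Finset.sum_congr rfl fun b _ => by ring }
  refine ⟨H, fun w => ?_⟩
  funext x φ
  change ∑ b, φ.1 (γ x.1 x.2 b) * φ.1 (w (x.1, b)) = φ.1 (∑ b, γ x.1 x.2 b * w (x.1, b))
  rw [map_sum]
  exact Finset.sum_congr rfl fun b _ => (map_mul _ _ _).symm

theorem inc_add {n : ℕ} (w w' : ∀ x : ι × Fin n, E x.1) : inc (w + w') = inc w + inc w' := by
  funext x
  by_cases h : (x.2 : ℕ) < n
  · simp only [inc, dif_pos h, Pi.add_apply]
  · simp only [inc, dif_neg h, Pi.add_apply, add_zero]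

theorem inc_smul {n : ℕ} (c : ℚ) (w : ∀ x : ι × Fin n, E x.1) : inc (c • w) = c • inc w := by
  funext x
  by_cases h : (x.2 : ℕ) < n
  · simp only [inc, dif_pos h, Pi.smul_apply]
  · simp only [inc, dif_neg h, Pi.smul_apply, smul_zero]

/-- `inc` as a linear map -/
def incL {n : ℕ} : (∀ x : ι × Fin n, E x.1) →ₗ[ℚ] (∀ x : ι × Fin (n + 1), E x.1) where
  toFun := inc
  map_add' := inc_add
  map_smul' := inc_smul

/-- contraction of an alternating map -/
theorem exists_push {W W' : Type} [AddCommGroup W] [Module ℚ W] [AddCommGroup W'] [Module ℚ W']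
    {k M : ℕ} (f : W' [⋀^Fin (k + M)]→ₗ[ℚ] ℚ) (i : W →ₗ[ℚ] W') (e : Fin M → W') :
    ∃ g : W [⋀^Fin k]→ₗ[ℚ] ℚ, ∀ v, g v = f (Fin.append (fun l => i (v l)) e) := by
  have hupd : ∀ (v : Fin k → W) (l : Fin k) (x : W),
      Fin.append (fun m => i (Function.update v l x m)) e =
        Function.update (Fin.append (fun m => i (v m)) e) (Fin.castAdd M l) (i x) := by
    intro v l x
    funext a
    refine Fin.addCases (fun m => ?_) (fun m => ?_) a
    · rw [Fin.append_left]
      by_cases h : m = l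
      · rw [h, Function.update_self, Function.update_self]
      · rw [Function.update_of_ne h, Function.update_of_ne, Fin.append_left]
        intro h'
        exact h (Fin.castAdd_injective k M h')
    · rw [Fin.append_right, Function.update_of_ne, Fin.append_right]
      intro h
      have h2 := congrArg Fin.val h
      simp only [Fin.val_natAdd, Fin.val_castAdd] at h2
      omega
  refine ⟨{ toFun := fun v => f (Fin.append (fun l => i (v l)) e)
            map_update_add' := ?_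
            map_update_smul' := ?_
            map_eq_zero_of_eq' := ?_ }, fun v => rfl⟩
  · intro inst v l x y
    have : inst = instDecidableEqFin k := Subsingleton.elim _ _
    subst this
    rw [hupd, hupd, hupd, map_add]
    exact f.map_update_add _ _ _ _
  · intro inst v l c x
    have : inst = instDecidableEqFin k := Subsingleton.elim _ _
    subst this
    rw [hupd, hupd, map_smul]
    exact f.map_update_smul _ _ _ _
  · intro v l m h hlm
    refine f.map_eq_zero_of_eq _ (i := Fin.castAdd M l) (j := Fin.castAdd M m) ?_ ?_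
    · rw [Fin.append_left, Fin.append_left, h]
    · intro h'
      exact hlm (Fin.castAdd_injective k M h')

variable {Φ : ∀ i, Set (E i →+* ℂ)} (𝒜 : HSys E Φ) {L : Type} [Field L] [NumberField L]

theorem HSys.pullL {n n' k : ℕ} (γ : ∀ i, Matrix (Fin n') (Fin n) (E i))
    {F : (Fin k → ∀ x : ι × Fin n', E x.1) → L} (hF : F ∈ spanL L (𝒜.cl n' k)) :
    (fun v => F (fun l => hmap γ (v l))) ∈ spanL L (𝒜.cl n k) := by
  unfold spanL at hF
  induction hF using Submodule.span_induction with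
  | mem F hF =>
    obtain ⟨f, hf, h⟩ := hF
    refine Submodule.subset_span ⟨f.compLinearMap (hlin γ),
      𝒜.pull_mem n n' k (hlin γ) (isHom_hlin Φ γ) f hf, fun v => ?_⟩
    exact h _
  | zero => exact Submodule.zero_mem _
  | add F F' _ _ h1 h2 => exact Submodule.add_mem _ h1 h2
  | smul a F _ h1 => exact Submodule.smul_mem _ a h1

theorem HSys.cupL {n k k' : ℕ} {F : (Fin k → ∀ x : ι × Fin n, E x.1) → L}
    (hF : F ∈ spanL L (𝒜.cl n k)) {F' : (Fin k' → ∀ x : ι × Fin n, E x.1) → L}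
    (hF' : F' ∈ spanL L (𝒜.cl n k')) : cup F F' ∈ spanL L (𝒜.cl n (k + k')) := by
  refine span_cup ?_ hF hF'
  rintro F ⟨f, hf, h⟩ F' ⟨f', hf', h'⟩
  obtain ⟨g, hg⟩ := exists_cup f f'
  refine Submodule.subset_span ⟨g, 𝒜.cup_mem n k k' f f' g hf hf' hg, fun v => ?_⟩
  rw [hg]
  simp only [cup, h, h']
  push_cast
  rfl

theorem HSys.pushL {n k M : ℕ} (b : Basis (Fin M) ℚ (∀ i, E i))
    {F : (Fin (k + M) → ∀ x : ι × Fin (n + 1), E x.1) → L}
    (hF : F ∈ spanL L (𝒜.cl (n + 1) (k + M))) :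
    (fun v => F (Fin.append (fun l => inc (v l)) (fun l => last (b l)))) ∈
      spanL L (𝒜.cl n k) := by
  unfold spanL at hF
  induction hF using Submodule.span_induction with
  | mem F hF =>
    obtain ⟨f, hf, h⟩ := hF
    obtain ⟨g, hg⟩ := exists_push f incL (fun l => last (n := n) (b l))
    refine Submodule.subset_span ⟨g, 𝒜.push_mem n k M b f g hf hg, fun v => ?_⟩
    rw [hg]
    exact h _
  | zero => exact Submodule.zero_mem _
  | add F F' _ _ h1 h2 => exact Submodule.add_mem _ h1 h2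
  | smul a F _ h1 => exact Submodule.smul_mem _ a h1

end

end Pool.Agent.Q271.ZC
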