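import Mathlib
import Pool.Agent.Q271.ZC.HSys

/-!
# Exponents of families of variables
-/

set_option autoImplicit false
set_option linter.unusedSectionVars false

namespace Pool.Agent.Q271.ZC

section

variable {X X' Ω : Type} (ty : X → Ω) (ty' : X' → Ω)

/-- the number of variables of a given type -/
noncomputable def ct {k : ℕ} (I : Fin k → X) (x : Ω) : ℕ := Nat.card {l : Fin k // ty (I l) = x}

/-- the number of variables of a given type, as the cardinality of a filter -/
theorem ct_filter [DecidableEq Ω] {k : ℕ} (I : Fin k → X) (x : Ω) :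
    ct ty I x = (Finset.univ.filter fun l => ty (I l) = x).card := by
  rw [ct, Nat.card_eq_fintype_card, Fintype.card_subtype]

theorem exists_retype {k : ℕ} (J : Fin k → X') [Finite X]
    (h : ∀ x, ct ty' J x ≤ Nat.card {y : X // ty y = x}) :
    ∃ I : Fin k → X, Function.Injective I ∧ ∀ l, ty (I l) = ty' (J l) := by
  classical
  have h1 : ∀ x : Ω, ∃ f : {l : Fin k // ty' (J l) = x} → {y : X // ty y = x},
      Function.Injective f := by
    intro x
    have h2 := h x
    let _ : Fintype {y : X // ty y = x} := Fintype.ofFinite _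
    rw [ct, Nat.card_eq_fintype_card, Nat.card_eq_fintype_card] at h2
    obtain ⟨f⟩ : Nonempty ({l : Fin k // ty' (J l) = x} ↪ {y : X // ty y = x}) := by
      rw [Function.Embedding.nonempty_iff_card_le]
      exact h2
    exact ⟨f, f.injective⟩
  choose f hf using h1
  refine ⟨fun l => (f (ty' (J l)) ⟨l, rfl⟩).1, ?_, fun l => (f (ty' (J l)) ⟨l, rfl⟩).2⟩
  have haux : ∀ (l : Fin k) (x : Ω) (hx : ty' (J l) = x),
      (f (ty' (J l)) ⟨l, rfl⟩).1 = (f x ⟨l, hx⟩).1 := by
    intro l x hx
    subst hx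
    rfl
  intro l l' hll
  have h3 : ty' (J l) = ty' (J l') := by
    rw [← (f (ty' (J l)) ⟨l, rfl⟩).2, ← (f (ty' (J l')) ⟨l', rfl⟩).2]
    exact congrArg ty hll
  have h4 : (f (ty' (J l')) ⟨l, h3⟩).1 = (f (ty' (J l')) ⟨l', rfl⟩).1 := by
    rw [← haux l _ h3]
    exact hll
  exact congrArg Subtype.val (hf _ (Subtype.ext h4))

theorem ct_congr {k : ℕ} (I : Fin k → X) (J : Fin k → X') (h : ∀ l, ty (I l) = ty' (J l)) :
    ct ty I = ct ty' J := by
  funext x
  unfold ct
  simp only [h]

theorem ct_append {k k' : ℕ} (I : Fin k → X) (I' : Fin k' → X) :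
    ct ty (Fin.append I I') = ct ty I + ct ty I' := by
  classical
  funext x
  rw [Pi.add_apply, ct, ct, ct, ← Nat.card_sum]
  refine Nat.card_congr ?_
  refine (Equiv.subtypeEquiv finSumFinEquiv.symm (q := fun a : Fin k ⊕ Fin k' =>
    ty (Sum.elim I I' a) = x) ?_).trans (Equiv.subtypeSum)
  intro a
  refine Fin.addCases (fun m => ?_) (fun m => ?_) a
  · rw [Fin.append_left, finSumFinEquiv_symm_apply_castAdd, Sum.elim_inl]
  · rw [Fin.append_right, finSumFinEquiv_symm_apply_natAdd, Sum.elim_inr]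

theorem sum_ct [Fintype Ω] {k : ℕ} (I : Fin k → X) : ∑ x, ct ty I x = k := by
  classical
  simp only [ct_filter]
  have h1 := Finset.card_eq_sum_card_fiberwise (f := fun l => ty (I l)) (s := Finset.univ)
    (t := Finset.univ) (fun l _ => Finset.mem_univ _)
  rw [Finset.card_univ, Fintype.card_fin] at h1
  exact h1.symm

/-- splitting a family of variables -/
theorem exists_split_vars [Fintype Ω] {k : ℕ} (J : Fin k → X) (hJ : Function.Injective J)
    (c c' : Ω → ℕ) (h : ct ty J = c + c') :
    ∃ (k₁ k₂ : ℕ) (hk : k₁ + k₂ = k) (e : Equiv.Perm (Fin (k₁ + k₂))) (I : Fin k₁ → X)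
      (I' : Fin k₂ → X), Function.Injective I ∧ Function.Injective I' ∧
      ct ty I = c ∧ ct ty I' = c' ∧
      (fun l : Fin (k₁ + k₂) => J (Fin.cast hk l)) ∘ e = Fin.append I I' := by
  classical
  -- a subset with the exponents `c`
  have h1 : ∀ x : Ω, ∃ T : Finset (Fin k),
      T ⊆ Finset.univ.filter (fun l => ty (J l) = x) ∧ T.card = c x := by
    intro x
    apply Finset.exists_subset_card_eq
    have h2 := congrFun h x
    rw [ct_filter, Pi.add_apply] at h2
    omega
  choose T hT hTc using h1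
  let U : Finset (Fin k) := Finset.univ.biUnion T
  have hU : ∀ l, l ∈ U ↔ l ∈ T (ty (J l)) := by
    intro l
    simp only [U, Finset.mem_biUnion, Finset.mem_univ, true_and]
    constructor
    · rintro ⟨x, hx⟩
      have h3 := (Finset.mem_filter.1 (hT x hx)).2
      rwa [h3]
    · exact fun h3 => ⟨_, h3⟩
  have hcard : U.card + Uᶜ.card = k := by
    rw [Finset.card_add_card_compl, Fintype.card_fin]
  have hcoe : ∀ S : Finset (Fin k), S.card = Nat.card S := fun S => by
    rw [Nat.card_eq_fintype_card, Fintype.card_coe]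
  let e₁ : Fin U.card ≃ U := U.equivFin.symm
  let e₂ : Fin Uᶜ.card ≃ (Uᶜ : Finset (Fin k)) := (Uᶜ).equivFin.symm
  let E₀ : Fin (U.card + Uᶜ.card) ≃ Fin k :=
    finSumFinEquiv.symm.trans ((Equiv.sumCongr e₁ e₂).trans
      ((Equiv.sumCongr (Equiv.refl _) (Equiv.subtypeEquivRight fun l => Finset.mem_compl)).trans
        (Equiv.sumCompl fun l => l ∈ U)))
  refine ⟨U.card, Uᶜ.card, hcard, E₀.trans (finCongr hcard).symm, fun l => J (e₁ l),
    fun l => J (e₂ l), ?_, ?_, ?_, ?_, ?_⟩
  · intro l l' hl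
    exact e₁.injective (Subtype.ext (hJ hl))
  · intro l l' hl
    exact e₂.injective (Subtype.ext (hJ hl))
  · funext x
    have h6 : ct ty (fun l => J (e₁ l)) x = Nat.card (T x) := by
      refine Nat.card_congr ⟨fun l => ⟨(e₁ l.1).1, ?_⟩, fun y => ⟨e₁.symm ⟨y.1, ?_⟩, ?_⟩, ?_, ?_⟩
      · have h3 := (hU _).1 (e₁ l.1).2
        rwa [l.2] at h3
      · rw [hU]
        have h3 := (Finset.mem_filter.1 (hT x y.2)).2
        rw [h3]
        exact y.2
      · simp only [Equiv.apply_symm_apply]
        exact (Finset.mem_filter.1 (hT x y.2)).2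
      · intro l
        exact Subtype.ext (by simp)
      · intro y
        exact Subtype.ext (by simp)
    rw [h6, ← hcoe, hTc]
  · funext x
    have h2 := congrFun h x
    rw [Pi.add_apply, ct_filter] at h2
    have h4 : ct ty (fun l => J (e₂ l)) x =
        Nat.card ↥((Finset.univ.filter (fun l => ty (J l) = x)) \ T x) := by
      refine Nat.card_congr ⟨fun l => ⟨(e₂ l.1).1, ?_⟩, fun y => ⟨e₂.symm ⟨y.1, ?_⟩, ?_⟩, ?_, ?_⟩
      · rw [Finset.mem_sdiff]
        refine ⟨Finset.mem_filter.2 ⟨Finset.mem_univ _, l.2⟩, ?_⟩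
        have h5 := Finset.mem_compl.1 (e₂ l.1).2
        rw [hU, l.2] at h5
        exact h5
      · have h5 := Finset.mem_sdiff.1 y.2
        rw [Finset.mem_compl, hU, (Finset.mem_filter.1 h5.1).2]
        exact h5.2
      · simp only [Equiv.apply_symm_apply]
        exact (Finset.mem_filter.1 (Finset.mem_sdiff.1 y.2).1).2
      · intro l
        exact Subtype.ext (by simp)
      · intro y
        exact Subtype.ext (by simp)
    rw [h4, ← hcoe, Finset.card_sdiff_of_subset (hT x), hTc, h2]
    omega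
  · funext a
    refine Fin.addCases (fun m => ?_) (fun m => ?_) a
    · rw [Fin.append_left]
      simp [E₀]
    · rw [Fin.append_right]
      simp [E₀]

end

end Pool.Agent.Q271.ZC
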