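import Mathlib

/-!
# Box principle lemmas
-/

set_option autoImplicit false

namespace Pool.Agent.Q271.ZC

open Finset

/-- pigeonhole: a large fibre -/
theorem exists_fibre {α β : Type*} [DecidableEq β] (F : Finset α) (f : α → β) (M : ℕ)
    (hM : (F.image f).card ≤ M) (hF : F.Nonempty) :
    ∃ b ∈ F.image f, F.card ≤ M * (F.filter fun x => f x = b).card := by
  classical
  by_contra hcon
  push Not at hcon
  have h1 : F.card = ∑ b ∈ F.image f, (F.filter fun x => f x = b).card :=
    Finset.card_eq_sum_card_image f F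
  have hne : (F.image f).Nonempty := hF.image f
  have hMpos : 0 < M := lt_of_lt_of_le (Finset.card_pos.2 hne) hM
  have h2 : ∀ b ∈ F.image f, (F.filter fun x => f x = b).card * M < F.card := by
    intro b hb
    rw [mul_comm]
    exact hcon b hb
  have h3 : (∑ b ∈ F.image f, (F.filter fun x => f x = b).card * M) <
      ∑ _b ∈ F.image f, F.card := Finset.sum_lt_sum_of_nonempty hne h2
  rw [← Finset.sum_mul, ← h1, Finset.sum_const, smul_eq_mul] at h3
  have h4 : (F.image f).card * F.card ≤ M * F.card := Nat.mul_le_mul_right _ hM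
  rw [mul_comm F.card M] at h3
  omega

variable {V ι : Type*} [AddCommGroup V] [Module ℚ V] [FiniteDimensional ℚ V]

/-- many points in one class of a subspace given by linear forms which take few values -/
theorem exists_coset (φ : ι → V →ₗ[ℚ] ℚ) (W : Submodule ℚ V) (hW : ∀ v ∈ W, ∀ i, φ i v = 0)
    (M : ℕ) : ∀ (n : ℕ) (U : Submodule ℚ V), W ≤ U → (∀ v ∈ U, (∀ i, φ i v = 0) → v ∈ W) →
      Module.finrank ℚ U = Module.finrank ℚ W + n → ∀ F : Finset V, F.Nonempty →
      (∀ x ∈ F, ∀ y ∈ F, x - y ∈ U) → (∀ i, (F.image (φ i)).card ≤ M) →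
      ∃ F' ⊆ F, F.card ≤ M ^ n * F'.card ∧ ∀ x ∈ F', ∀ y ∈ F', x - y ∈ W := by
  classical
  intro n
  induction n with
  | zero =>
    intro U hWU _ hU F _ hF _
    refine ⟨F, Finset.Subset.refl _, by simp, ?_⟩
    have : W = U := Submodule.eq_of_le_of_finrank_eq hWU (by simpa using hU.symm)
    rw [this]
    exact hF
  | succ n ih =>
    intro U hWU hUW hU F hne hF hM
    have hlt : W ≠ U := by
      rintro rfl
      omega
    obtain ⟨u, huU, huW⟩ := SetLike.exists_of_lt (lt_of_le_of_ne hWU hlt)
    obtain ⟨i, hi⟩ : ∃ i, φ i u ≠ 0 := by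
      by_contra hcon
      push Not at hcon
      exact huW (hUW u huU hcon)
    obtain ⟨b, hb, hcard⟩ := exists_fibre F (φ i) M (hM i) hne
    set F1 := F.filter fun x => φ i x = b with hF1
    set U' : Submodule ℚ V := U ⊓ LinearMap.ker (φ i) with hU'
    have hWU' : W ≤ U' := by
      refine le_inf hWU ?_
      intro v hv
      rw [LinearMap.mem_ker]
      exact hW v hv i
    have hfin : Module.finrank ℚ U' = Module.finrank ℚ W + n := by
      have h1 := (LinearMap.finrank_range_add_finrank_ker ((φ i).domRestrict U))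
      have h2 : LinearMap.range ((φ i).domRestrict U) = ⊤ := by
        rw [LinearMap.range_eq_top]
        intro q
        refine ⟨⟨(q / φ i u) • u, U.smul_mem _ huU⟩, ?_⟩
        rw [LinearMap.domRestrict_apply, map_smul, smul_eq_mul, div_mul_cancel₀ _ hi]
      have h3 : Module.finrank ℚ (LinearMap.ker ((φ i).domRestrict U)) = Module.finrank ℚ U' := by
        have : U' = Submodule.map U.subtype (LinearMap.ker ((φ i).domRestrict U)) := by
          ext v
          rw [hU', Submodule.mem_inf, Submodule.mem_map]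
          constructor
          · rintro ⟨h1, h2⟩
            exact ⟨⟨v, h1⟩, h2, rfl⟩
          · rintro ⟨⟨w, hw⟩, h2, rfl⟩
            exact ⟨hw, h2⟩
        rw [this]
        exact (Submodule.equivMapOfInjective U.subtype (Submodule.subtype_injective U)
          (LinearMap.ker ((φ i).domRestrict U))).finrank_eq
      rw [h2, finrank_top, Module.finrank_self, h3] at h1
      omega
    have hF1ne : F1.Nonempty := by
      obtain ⟨x, hx, hxb⟩ := Finset.mem_image.1 hb
      exact ⟨x, Finset.mem_filter.2 ⟨hx, hxb⟩⟩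
    obtain ⟨F', hF', hc, hd⟩ := ih U' hWU' (fun v hv => hUW v hv.1) hfin F1 hF1ne (by
      intro x hx y hy
      rw [hF1, Finset.mem_filter] at hx hy
      refine ⟨hF x hx.1 y hy.1, ?_⟩
      show φ i (x - y) = 0
      rw [map_sub, hx.2, hy.2, sub_self]) (by
      intro j
      refine le_trans (Finset.card_le_card ?_) (hM j)
      exact Finset.image_subset_image (Finset.filter_subset _ _))
    refine ⟨F', hF'.trans (Finset.filter_subset _ _), ?_, hd⟩
    calc F.card ≤ M * F1.card := hcard
      _ ≤ M * (M ^ n * F'.card) := Nat.mul_le_mul_left _ hc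
      _ = M ^ (n + 1) * F'.card := by ring

/-- counting points in a subspace by coordinates -/
theorem card_le_pow (φ : ι → V →ₗ[ℚ] ℚ) (U : Submodule ℚ V)
    (hφ : ∀ v ∈ U, (∀ i, φ i v = 0) → v = 0) (M : ℕ) (hM1 : 1 ≤ M) (F : Finset V)
    (hF : ∀ x ∈ F, ∀ y ∈ F, x - y ∈ U)
    (hM : ∀ i, (F.image (φ i)).card ≤ M) : F.card ≤ M ^ Module.finrank ℚ U := by
  classical
  rcases F.eq_empty_or_nonempty with rfl | hne
  · simp
  obtain ⟨F', hF', hc, hd⟩ := exists_coset φ ⊥ (fun v hv i => by
      rw [(Submodule.mem_bot ℚ).1 hv, map_zero]) M (Module.finrank ℚ U) U bot_le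
    (fun v hv h => (Submodule.mem_bot ℚ).2 (hφ v hv h)) (by rw [finrank_bot, zero_add]) F
    hne hF hM
  have h1 : F'.card ≤ 1 := by
    rw [Finset.card_le_one]
    intro x hx y hy
    exact sub_eq_zero.1 ((Submodule.mem_bot ℚ).1 (hd x hx y hy))
  calc F.card ≤ M ^ Module.finrank ℚ U * F'.card := hc
    _ ≤ M ^ Module.finrank ℚ U * 1 := Nat.mul_le_mul_left _ h1
    _ = _ := mul_one _

/-- classes modulo several moduli -/
theorem exists_class {κ : Type} [Fintype κ] (nn : κ → ℕ) (hn : ∀ l, 1 ≤ nn l) (k : ℕ)
    (z : κ → Fin k → ℤ) (F : Finset (Fin k → ℤ)) (hne : F.Nonempty) :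
    ∃ F' ⊆ F, F.card ≤ (∏ n ∈ univ.image nn, n ^ min k (univ.filter fun l => nn l = n).card) *
      F'.card ∧ ∀ c ∈ F', ∀ c' ∈ F', ∀ l, (nn l : ℤ) ∣ ∑ i, z l i * (c i - c' i) := by
  classical
  have key : ∀ T : Finset ℕ, (∀ n ∈ T, 1 ≤ n) → ∃ F' ⊆ F, F'.Nonempty ∧
      F.card ≤ (∏ n ∈ T, n ^ min k (univ.filter fun l => nn l = n).card) * F'.card ∧
      ∀ c ∈ F', ∀ c' ∈ F', ∀ l, nn l ∈ T → (nn l : ℤ) ∣ ∑ i, z l i * (c i - c' i) := by
    intro T
    induction T using Finset.induction_on with
    | empty =>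
      intro _
      exact ⟨F, Finset.Subset.refl _, hne, by simp, fun c _ c' _ l hl => by simp at hl⟩
    | insert n T hnT ih =>
      intro hT
      obtain ⟨F1, h1, h1ne, h2, h3⟩ := ih (fun m hm => hT m (Finset.mem_insert_of_mem hm))
      have hn1 : 1 ≤ n := hT n (Finset.mem_insert_self _ _)
      haveI : NeZero n := ⟨by omega⟩
      -- it suffices to find a good map
      have main : ∃ (β : Type) (_ : DecidableEq β) (f : (Fin k → ℤ) → β),
          (F1.image f).card ≤ n ^ min k (univ.filter fun l => nn l = n).card ∧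
          ∀ c c', f c = f c' → ∀ l, nn l = n → (nn l : ℤ) ∣ ∑ i, z l i * (c i - c' i) := by
        rcases le_total k (univ.filter fun l => nn l = n).card with hk | hk
        · refine ⟨Fin k → ZMod n, inferInstance, fun c i => (c i : ZMod n), ?_, ?_⟩
          · rw [min_eq_left hk]
            refine (Finset.card_le_univ _).trans (le_of_eq ?_)
            rw [Fintype.card_fun, ZMod.card, Fintype.card_fin]
          · intro c c' hcc l hl
            rw [hl]
            refine Finset.dvd_sum fun i _ => Dvd.dvd.mul_left ?_ _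
            have := congrFun hcc i
            have h5 : ((c i - c' i : ℤ) : ZMod n) = 0 := by
              push_cast
              exact sub_eq_zero.2 this
            exact (ZMod.intCast_zmod_eq_zero_iff_dvd _ _).1 h5
        · refine ⟨{l // l ∈ univ.filter fun l => nn l = n} → ZMod n, inferInstance,
            fun c l => ((∑ i, z l.1 i * c i : ℤ) : ZMod n), ?_, ?_⟩
          · rw [min_eq_right hk]
            refine (Finset.card_le_univ _).trans (le_of_eq ?_)
            rw [Fintype.card_fun, ZMod.card, Fintype.card_coe]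
          · intro c c' hcc l hl
            have := congrFun hcc ⟨l, by simpa using hl⟩
            have h5 : ((∑ i, z l i * (c i - c' i) : ℤ) : ZMod n) = 0 := by
              have h6 : ∑ i, z l i * (c i - c' i) = (∑ i, z l i * c i) - ∑ i, z l i * c' i := by
                rw [← Finset.sum_sub_distrib]
                exact Finset.sum_congr rfl fun i _ => by ring
              rw [h6, Int.cast_sub]
              exact sub_eq_zero.2 this
            rw [hl]
            exact (ZMod.intCast_zmod_eq_zero_iff_dvd _ _).1 h5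
      obtain ⟨β, _, f, hf1, hf2⟩ := main
      obtain ⟨b, hb, hcard⟩ := exists_fibre F1 f _ hf1 h1ne
      refine ⟨F1.filter fun x => f x = b, (Finset.filter_subset _ _).trans h1, ?_, ?_, ?_⟩
      · obtain ⟨x, hx, hxb⟩ := Finset.mem_image.1 hb
        exact ⟨x, Finset.mem_filter.2 ⟨hx, hxb⟩⟩
      · rw [Finset.prod_insert hnT]
        calc F.card ≤ (∏ n ∈ T, n ^ min k (univ.filter fun l => nn l = n).card) * F1.card := h2
          _ ≤ (∏ n ∈ T, n ^ min k (univ.filter fun l => nn l = n).card) *
              (n ^ min k (univ.filter fun l => nn l = n).card *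
                (F1.filter fun x => f x = b).card) := Nat.mul_le_mul_left _ hcard
          _ = _ := by ring
      · intro c hc c' hc' l hl
        rw [Finset.mem_filter] at hc hc'
        rcases Finset.mem_insert.1 hl with h | h
        · exact hf2 c c' (by rw [hc.2, hc'.2]) l h
        · exact h3 c hc.1 c' hc'.1 l h
  obtain ⟨F', h1, -, h2, h3⟩ := key (univ.image nn) (by
    intro n hn'
    obtain ⟨l, -, rfl⟩ := Finset.mem_image.1 hn'
    exact hn l)
  exact ⟨F', h1, h2, fun c hc c' hc' l => h3 c hc c' hc' l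
    (Finset.mem_image_of_mem _ (Finset.mem_univ _))⟩

/-- few members of each value: the number of members is small -/
theorem sum_min_sq (T : Finset ℕ) (m : ℕ → ℕ) (k : ℕ) (hT : ∀ n ∈ T, 1 ≤ n)
    (hm : ∀ n ∈ T, m n ≤ k) :
    (∑ n ∈ T, m n) ^ 2 ≤ 2 * k * ∑ n ∈ T, n * m n := by
  classical
  induction T using Finset.induction_on_max with
  | empty => simp
  | insert a s ha ih =>
    have hna : a ∉ s := fun h => lt_irrefl _ (ha a h)
    rw [Finset.sum_insert hna, Finset.sum_insert hna]
    have h1 := ih (fun n hn => hT n (Finset.mem_insert_of_mem hn))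
      (fun n hn => hm n (Finset.mem_insert_of_mem hn))
    obtain ⟨b, rfl⟩ : ∃ b, a = b + 1 := ⟨a - 1, by
      have := hT a (Finset.mem_insert_self _ _)
      omega⟩
    have h2 : ∑ n ∈ s, m n ≤ k * b := by
      calc ∑ n ∈ s, m n ≤ ∑ _n ∈ s, k :=
            Finset.sum_le_sum fun n hn => hm n (Finset.mem_insert_of_mem hn)
        _ = s.card * k := by rw [Finset.sum_const, smul_eq_mul]
        _ ≤ b * k := Nat.mul_le_mul_right _ (by
            have : s ⊆ Finset.Icc 1 b := fun n hn => Finset.mem_Icc.2
              ⟨hT n (Finset.mem_insert_of_mem hn), by have := ha n hn; omega⟩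
            simpa using Finset.card_le_card this)
        _ = k * b := mul_comm _ _
    have h3 : m (b + 1) ≤ k := hm _ (Finset.mem_insert_self _ _)
    set J := ∑ n ∈ s, m n with hJ
    set G := ∑ n ∈ s, n * m n with hG
    set c := m (b + 1) with hc
    have h5 : c * J ≤ c * (k * b) := Nat.mul_le_mul_left _ h2
    have h6 : c * c ≤ c * k := Nat.mul_le_mul_left _ h3
    nlinarith

end Pool.Agent.Q271.ZC
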