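import Mathlib

/-!
# Algebras of rational matrices stable under transposition

`A` is a set of rational square matrices closed under multiplication and transposition. A bimodule is
a subspace `W ≤ A` with `A W ≤ W` and `W A ≤ W`.
-/

set_option autoImplicit false

namespace Pool.Agent.Q271.ZC

open Matrix

variable {Ω : Type} [Fintype Ω] [DecidableEq Ω]

/-- a subspace closed under multiplication and transposition, with one -/
structure IsStar (A : Submodule ℚ (Matrix Ω Ω ℚ)) : Prop where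
  one : (1 : Matrix Ω Ω ℚ) ∈ A
  mul : ∀ x ∈ A, ∀ y ∈ A, x * y ∈ A
  star : ∀ x ∈ A, xᵀ ∈ A

/-- two-sided ideals -/
structure IsBi (A W : Submodule ℚ (Matrix Ω Ω ℚ)) : Prop where
  le : W ≤ A
  left : ∀ a ∈ A, ∀ w ∈ W, a * w ∈ W
  right : ∀ a ∈ A, ∀ w ∈ W, w * a ∈ W

theorem trace_self_nonneg (x : Matrix Ω Ω ℚ) : 0 ≤ (xᵀ * x).trace := by
  rw [trace]
  refine Finset.sum_nonneg fun i _ => ?_
  rw [diag_apply, mul_apply]
  exact Finset.sum_nonneg fun j _ => by rw [transpose_apply]; exact mul_self_nonneg _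

theorem eq_zero_of_trace {x : Matrix Ω Ω ℚ} (h : (xᵀ * x).trace = 0) : x = 0 := by
  rw [trace, Finset.sum_eq_zero_iff_of_nonneg] at h
  · ext i j
    have h1 := h j (Finset.mem_univ _)
    rw [diag_apply, mul_apply, Finset.sum_eq_zero_iff_of_nonneg] at h1
    · have h2 := h1 i (Finset.mem_univ _)
      rw [transpose_apply, mul_self_eq_zero] at h2
      exact h2
    · intro j _
      rw [transpose_apply]
      exact mul_self_nonneg _
  · intro i _
    rw [diag_apply, mul_apply]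
    exact Finset.sum_nonneg fun j _ => by rw [transpose_apply]; exact mul_self_nonneg _

/-- the trace form -/
noncomputable def form : LinearMap.BilinForm ℚ (Matrix Ω Ω ℚ) :=
  LinearMap.mk₂ ℚ (fun x y => (xᵀ * y).trace)
    (by intro x y z; rw [transpose_add, add_mul, trace_add])
    (by intro c x y; rw [transpose_smul, smul_mul, trace_smul])
    (by intro x y z; rw [mul_add, trace_add])
    (by intro c x y; rw [Matrix.mul_smul, trace_smul])

theorem form_apply (x y : Matrix Ω Ω ℚ) : form x y = (xᵀ * y).trace := rfl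

theorem form_symm (x y : Matrix Ω Ω ℚ) : form x y = form y x := by
  rw [form_apply, form_apply, ← trace_transpose, transpose_mul, transpose_transpose]

/-- orthogonal decomposition -/
theorem exists_orth (W : Submodule ℚ (Matrix Ω Ω ℚ)) (x : Matrix Ω Ω ℚ) :
    ∃ e ∈ W, ∀ w ∈ W, form w (x - e) = 0 := by
  have hsym : (form (Ω := Ω)).IsSymm := ⟨fun x y => form_symm x y⟩
  have hrefl : (form (Ω := Ω)).IsRefl := hsym.isRefl
  have hdis : (form.restrict W).Nondegenerate := by
    refine ⟨?_, ?_⟩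
    · intro w hw
      have := hw w
      rw [LinearMap.BilinForm.restrict_apply, LinearMap.domRestrict_apply] at this
      ext1
      exact eq_zero_of_trace this
    · intro w hw
      have := hw w
      rw [LinearMap.BilinForm.restrict_apply, LinearMap.domRestrict_apply] at this
      ext1
      exact eq_zero_of_trace this
  have hc := LinearMap.BilinForm.isCompl_orthogonal_of_restrict_nondegenerate hrefl hdis
  have hx : x ∈ W ⊔ (form.orthogonal W) := by
    rw [hc.sup_eq_top]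
    trivial
  obtain ⟨e, he, f, hf, rfl⟩ := Submodule.mem_sup.1 hx
  refine ⟨e, he, fun w hw => ?_⟩
  rw [add_sub_cancel_left]
  exact (LinearMap.BilinForm.mem_orthogonal_iff.1 hf) w hw

variable {A : Submodule ℚ (Matrix Ω Ω ℚ)}

/-- the identity element of a two-sided ideal -/
theorem IsBi.exists_one (hA : IsStar A) {W : Submodule ℚ (Matrix Ω Ω ℚ)} (hW : IsBi A W) :
    ∃ e ∈ W, (∀ w ∈ W, e * w = w) ∧ (∀ w ∈ W, w * e = w) ∧ eᵀ = e ∧ (∀ a ∈ A, e * a = a * e) := by
  obtain ⟨e, he, h⟩ := exists_orth W 1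
  have h1 : ∀ w ∈ W, e * w = w := by
    intro w hw
    have h2 : w - e * w ∈ W := W.sub_mem hw (hW.left e (hW.le he) w hw)
    have h3 : form (w - e * w) (w - e * w) = 0 := by
      have h4 : form ((w - e * w) * wᵀ) (1 - e) = 0 :=
        h _ (hW.right _ (hA.star _ (hW.le hw)) _ h2)
      rw [form_apply] at h4 ⊢
      rw [transpose_mul, transpose_transpose, mul_assoc, trace_mul_comm, mul_assoc] at h4
      have h5 : (1 - e) * w = w - e * w := by rw [sub_mul, one_mul]
      rw [h5] at h4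
      exact h4
    have := eq_zero_of_trace h3
    exact (sub_eq_zero.1 this).symm
  have h2 : ∀ w ∈ W, w * e = w := by
    intro w hw
    have h2 : w - w * e ∈ W := W.sub_mem hw (hW.left w (hW.le hw) e he)
    have h3 : form (w - w * e) (w - w * e) = 0 := by
      have h4 : form (wᵀ * (w - w * e)) (1 - e) = 0 :=
        h _ (hW.left _ (hA.star _ (hW.le hw)) _ h2)
      rw [form_apply] at h4 ⊢
      rw [transpose_mul, transpose_transpose, mul_assoc] at h4
      have h5 : w * (1 - e) = w - w * e := by rw [mul_sub, mul_one]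
      rw [h5] at h4
      exact h4
    have := eq_zero_of_trace h3
    exact (sub_eq_zero.1 this).symm
  have h3 : eᵀ = e := by
    have a1 : eᵀ * e ∈ W := hW.left _ (hA.star _ (hW.le he)) _ he
    have a2 : e * (eᵀ * e) = eᵀ * e := h1 _ a1
    have a3 : eᵀ * e * eᵀ = eᵀ * e := by
      have := congrArg transpose a2
      rw [transpose_mul, transpose_mul, transpose_transpose] at this
      exact this
    have a4 : e * e = e := h1 e he
    have a5 : eᵀ * eᵀ = eᵀ := by rw [← transpose_mul, a4]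
    have a6 : e - eᵀ * e = 0 := by
      apply eq_zero_of_trace
      have : (e - eᵀ * e)ᵀ * (e - eᵀ * e) = 0 := by
        rw [transpose_sub, transpose_mul, transpose_transpose, sub_mul, mul_sub, mul_sub]
        have b1 : eᵀ * (eᵀ * e) = eᵀ * e := by rw [← mul_assoc, a5]
        have b2 : eᵀ * e * e = eᵀ * e := by rw [mul_assoc, a4]
        have b3 : eᵀ * e * (eᵀ * e) = eᵀ * e := by rw [← mul_assoc, a3, b2]
        rw [b1, b2, b3]
        simp
      rw [this, trace_zero]
    have a7 : e = eᵀ * e := sub_eq_zero.1 a6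
    calc eᵀ = (eᵀ * e)ᵀ := by rw [← a7]
      _ = eᵀ * e := by rw [transpose_mul, transpose_transpose]
      _ = e := a7.symm
  refine ⟨e, he, h1, h2, h3, fun a ha => ?_⟩
  have c1 : e * a * e = e * a := h2 _ (hW.right a ha e he)
  have c2 : e * (a * e) = a * e := h1 _ (hW.left a ha e he)
  rw [← c1, mul_assoc, c2]

/-- a minimal two-sided ideal on which two left ideals differ -/
theorem exists_minimal (hA : IsStar A) (I₀ I₁ : Submodule ℚ (Matrix Ω Ω ℚ))
    (hI₀ : ∀ a ∈ A, ∀ x ∈ I₀, a * x ∈ I₀) (hI₁ : ∀ a ∈ A, ∀ x ∈ I₁, a * x ∈ I₁)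
    (hne : ∃ x ∈ A, x ∈ I₁ ∧ x ∉ I₀) :
    ∃ S : Submodule ℚ (Matrix Ω Ω ℚ), IsBi A S ∧ (∃ x ∈ S, x ∈ I₁ ∧ x ∉ I₀) ∧
      ∀ x ∈ S, (∀ y ∈ S, y ∈ I₁ → x * y ∈ I₀) → x = 0 := by
  classical
  set Q : Submodule ℚ (Matrix Ω Ω ℚ) → Prop := fun S =>
    IsBi A S ∧ ∃ x ∈ S, x ∈ I₁ ∧ x ∉ I₀ with hQ
  have hex : ∃ n : ℕ, ∃ S, Q S ∧ Module.finrank ℚ S = n := by
    refine ⟨_, A, ⟨⟨le_rfl, fun a ha w hw => hA.mul a ha w hw, fun a ha w hw => hA.mul w hw a ha⟩,
      ?_⟩, rfl⟩
    obtain ⟨x, h1, h2, h3⟩ := hne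
    exact ⟨x, h1, h2, h3⟩
  obtain ⟨S, hS, hn⟩ := Nat.find_spec hex
  have hmin : ∀ S', Q S' → Module.finrank ℚ S ≤ Module.finrank ℚ S' := by
    intro S' h'
    rw [hn]
    exact Nat.find_min' hex ⟨S', h', rfl⟩
  refine ⟨S, hS.1, hS.2, ?_⟩
  intro x hx hxI
  -- the two-sided ideal of all such `x`
  set Z : Submodule ℚ (Matrix Ω Ω ℚ) :=
    { carrier := {x | x ∈ S ∧ ∀ y ∈ S, y ∈ I₁ → x * y ∈ I₀}
      add_mem' := by
        rintro a b ⟨h1, h2⟩ ⟨h3, h4⟩
        refine ⟨S.add_mem h1 h3, fun y hy hy1 => ?_⟩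
        rw [add_mul]
        exact I₀.add_mem (h2 y hy hy1) (h4 y hy hy1)
      zero_mem' := ⟨S.zero_mem, fun y _ _ => by rw [zero_mul]; exact I₀.zero_mem⟩
      smul_mem' := by
        rintro c a ⟨h1, h2⟩
        refine ⟨S.smul_mem c h1, fun y hy hy1 => ?_⟩
        rw [smul_mul]
        exact I₀.smul_mem c (h2 y hy hy1) } with hZ
  have hZmem : ∀ z, z ∈ Z ↔ z ∈ S ∧ ∀ y ∈ S, y ∈ I₁ → z * y ∈ I₀ := fun z => Iff.rfl
  have hZbi : IsBi A Z := by
    refine ⟨fun z hz => hS.1.le hz.1, ?_, ?_⟩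
    · intro a ha z hz
      refine ⟨hS.1.left a ha z hz.1, fun y hy hy1 => ?_⟩
      rw [mul_assoc]
      exact hI₀ a ha _ (hz.2 y hy hy1)
    · intro a ha z hz
      refine ⟨hS.1.right a ha z hz.1, fun y hy hy1 => ?_⟩
      rw [mul_assoc]
      exact hz.2 _ (hS.1.left a ha y hy) (hI₁ a ha y hy1)
  obtain ⟨e, he, h1, h2, h3, h4⟩ := hZbi.exists_one hA
  -- the complement
  set S' : Submodule ℚ (Matrix Ω Ω ℚ) :=
    { carrier := {x | x ∈ S ∧ e * x = 0}
      add_mem' := by
        rintro a b ⟨g1, g2⟩ ⟨g3, g4⟩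
        refine ⟨S.add_mem g1 g3, ?_⟩
        rw [mul_add, g2, g4, add_zero]
      zero_mem' := ⟨S.zero_mem, mul_zero _⟩
      smul_mem' := by
        rintro c a ⟨g1, g2⟩
        refine ⟨S.smul_mem c g1, ?_⟩
        rw [Matrix.mul_smul, g2, smul_zero] } with hS'
  have hS'bi : IsBi A S' := by
    refine ⟨fun z hz => hS.1.le hz.1, ?_, ?_⟩
    · intro a ha z hz
      refine ⟨hS.1.left a ha z hz.1, ?_⟩
      rw [← mul_assoc, h4 a ha, mul_assoc, hz.2, mul_zero]
    · intro a ha z hz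
      refine ⟨hS.1.right a ha z hz.1, ?_⟩
      rw [← mul_assoc, hz.2, zero_mul]
  have hQ' : Q S' := by
    refine ⟨hS'bi, ?_⟩
    obtain ⟨t, ht, ht1, ht0⟩ := hS.2
    have heS : e ∈ S := he.1
    have g1 : e * t ∈ I₀ := he.2 t ht ht1
    refine ⟨t - e * t, ⟨S.sub_mem ht (hS.1.left e (hS.1.le heS) t ht), ?_⟩,
      I₁.sub_mem ht1 (hI₁ e (hS.1.le heS) t ht1), ?_⟩
    · rw [mul_sub, ← mul_assoc, h1 e he, sub_self]
    · intro hc
      exact ht0 (by have := I₀.add_mem hc g1; rwa [sub_add_cancel] at this)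
  have hle : S' ≤ S := fun z hz => hz.1
  have heq : S' = S := Submodule.eq_of_le_of_finrank_le hle (hmin S' hQ')
  have he0 : e = 0 := by
    have : e ∈ S' := by rw [heq]; exact he.1
    rw [← h1 e he]
    exact this.2
  have hxZ : x ∈ Z := ⟨hx, hxI⟩
  rw [← h1 x hxZ, he0, zero_mul]

end Pool.Agent.Q271.ZC
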