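import Mathlib

/-!
# The trace of the product of an idempotent with an integral matrix commuting with it
-/

set_option autoImplicit false

namespace Pool.Agent.Q271.ZC

open Matrix

variable {Ω : Type} [Fintype Ω] [DecidableEq Ω]

theorem ev_of_root {K : Type*} [Field K] (B : Matrix Ω Ω K) (r : K) (h : B.charpoly.IsRoot r) :
    ∃ v : Ω → K, v ≠ 0 ∧ B *ᵥ v = r • v := by
  have h1 : r ∈ spectrum K B := mem_spectrum_iff_isRoot_charpoly.2 h
  rw [spectrum.mem_iff, Matrix.isUnit_iff_isUnit_det, isUnit_iff_ne_zero, not_not] at h1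
  obtain ⟨v, hv, hv0⟩ := Matrix.exists_mulVec_eq_zero_iff.2 h1
  refine ⟨v, hv, ?_⟩
  rw [sub_mulVec, sub_eq_zero] at hv0
  rw [← hv0, Algebra.algebraMap_eq_smul_one, smul_mulVec, one_mulVec]

theorem root_of_ev {K : Type*} [Field K] (B : Matrix Ω Ω K) (r : K) (v : Ω → K) (hv : v ≠ 0)
    (h : B *ᵥ v = r • v) : B.charpoly.IsRoot r := by
  rw [← mem_spectrum_iff_isRoot_charpoly, spectrum.mem_iff, Matrix.isUnit_iff_isUnit_det,
    isUnit_iff_ne_zero, not_not]
  refine Matrix.exists_mulVec_eq_zero_iff.1 ⟨v, hv, ?_⟩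
  rw [sub_mulVec, h, Algebra.algebraMap_eq_smul_one, smul_mulVec, one_mulVec, sub_self]

/-- the trace of the product of an idempotent with an integral matrix commuting with it is an
integer -/
theorem trace_int (e : Matrix Ω Ω ℚ) (N : Matrix Ω Ω ℤ) (he : e * e = e)
    (hc : e * N.map (Int.castRingHom ℚ) = N.map (Int.castRingHom ℚ) * e) :
    ∃ z : ℤ, (e * N.map (Int.castRingHom ℚ)).trace = z := by
  classical
  set M : Matrix Ω Ω ℚ := N.map (Int.castRingHom ℚ) with hM
  set K := AlgebraicClosure ℚ with hK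
  set B : Matrix Ω Ω K := (e * M).map (algebraMap ℚ K) with hB
  set e' : Matrix Ω Ω K := e.map (algebraMap ℚ K) with he'
  set M' : Matrix Ω Ω K := M.map (algebraMap ℚ K) with hM'
  have hB' : B = e' * M' := by rw [hB, he', hM', Matrix.map_mul]
  have hee : e' * e' = e' := by rw [he', ← Matrix.map_mul, he]
  have hcc : e' * M' = M' * e' := by rw [he', hM', ← Matrix.map_mul, hc, Matrix.map_mul]
  have hM'' : M' = N.map (algebraMap ℤ K) := by
    ext i j
    simp [hM', hM]
  have htr : IsIntegral ℤ (algebraMap ℚ K (e * M).trace) := by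
    have h1 : algebraMap ℚ K (e * M).trace = B.trace := by
      rw [hB, trace, trace, map_sum]
      rfl
    rw [h1, Matrix.trace_eq_sum_roots_charpoly]
    refine IsIntegral.multiset_sum fun r hr => ?_
    obtain ⟨v, hv, hBv⟩ := ev_of_root B r (Polynomial.mem_roots'.1 hr).2
    by_cases hr0 : r = 0
    · rw [hr0]
      exact isIntegral_zero
    have h2 : e' *ᵥ v = v := by
      have h3 : v = r⁻¹ • (B *ᵥ v) := by rw [hBv, smul_smul, inv_mul_cancel₀ hr0, one_smul]
      have h4 : e' *ᵥ (B *ᵥ v) = B *ᵥ v := by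
        rw [mulVec_mulVec, hB', ← mul_assoc, hee]
      rw [h3, mulVec_smul, h4]
    have h5 : M' *ᵥ v = r • v := by
      rw [← hBv, hB', hcc, ← mulVec_mulVec, h2]
    have h6 := root_of_ev M' r v hv h5
    rw [hM''] at h6
    refine ⟨N.charpoly, N.charpoly_monic, ?_⟩
    have h7 : ((algebraMap ℤ K).mapMatrix N).charpoly = N.charpoly.map (algebraMap ℤ K) :=
      Matrix.charpoly_map N _
    have h8 : (N.charpoly.map (algebraMap ℤ K)).IsRoot r := by
      rw [← h7]
      exact h6
    rw [Polynomial.IsRoot, Polynomial.eval_map] at h8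
    exact h8
  have h7 : IsIntegral ℤ (e * M).trace :=
    (isIntegral_algebraMap_iff (algebraMap ℚ K).injective).1 htr
  obtain ⟨z, hz⟩ := IsIntegrallyClosed.isIntegral_iff.1 h7
  exact ⟨z, by rw [← hz]; rfl⟩

end Pool.Agent.Q271.ZC
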