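import Mathlib
import Pool.Agent.Q271.ZC.Alg
import Pool.Agent.Q271.ZC.TraceInt

/-!
# The commutant of a permutation representation
-/

set_option autoImplicit false

namespace Pool.Agent.Q271.ZC

open Matrix

variable (G : Type) [Group G] (Ω : Type) [Fintype Ω] [DecidableEq Ω] [MulAction G Ω]

/-- the matrices commuting with the permutations -/
def comm : Submodule ℚ (Matrix Ω Ω ℚ) where
  carrier := {T | ∀ (g : G) (α β : Ω), T (g • α) (g • β) = T α β}
  add_mem' := by
    intro a b ha hb g α β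
    rw [Matrix.add_apply, Matrix.add_apply, ha, hb]
  zero_mem' := fun g α β => rfl
  smul_mem' := by
    intro c a ha g α β
    rw [Matrix.smul_apply, Matrix.smul_apply, ha]

variable {G Ω}

theorem mem_comm {T : Matrix Ω Ω ℚ} :
    T ∈ comm G Ω ↔ ∀ (g : G) (α β : Ω), T (g • α) (g • β) = T α β := Iff.rfl

theorem comm_star : IsStar (comm G Ω) where
  one := by
    intro g α β
    by_cases h : α = β
    · rw [h, one_apply_eq, one_apply_eq]
    · rw [one_apply_ne h, one_apply_ne (fun h' => h (MulAction.injective g h'))]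
  mul := by
    intro x hx y hy g α β
    rw [mul_apply, mul_apply, ← Equiv.sum_comp (MulAction.toPerm g)]
    refine Finset.sum_congr rfl fun γ _ => ?_
    rw [MulAction.toPerm_apply, hx, hy]
  star := by
    intro x hx g α β
    rw [transpose_apply, transpose_apply, hx]

/-- the relation of being in the same orbit on pairs -/
def same (G : Type) [Group G] {Ω : Type} [MulAction G Ω] (p q : Ω × Ω) : Prop :=
  ∃ g : G, g • p.1 = q.1 ∧ g • p.2 = q.2

theorem same_refl (p : Ω × Ω) : same G p p := ⟨1, one_smul _ _, one_smul _ _⟩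

theorem same_symm {p q : Ω × Ω} (h : same G p q) : same G q p := by
  obtain ⟨g, h1, h2⟩ := h
  exact ⟨g⁻¹, by rw [← h1, inv_smul_smul], by rw [← h2, inv_smul_smul]⟩

theorem same_trans {p q r : Ω × Ω} (h : same G p q) (h' : same G q r) : same G p r := by
  obtain ⟨g, h1, h2⟩ := h
  obtain ⟨g', h3, h4⟩ := h'
  exact ⟨g' * g, by rw [mul_smul, h1, h3], by rw [mul_smul, h2, h4]⟩

open Classical in
/-- the indicator matrix of the orbit of a pair -/
noncomputable def ind (G : Type) [Group G] {Ω : Type} [MulAction G Ω] (p : Ω × Ω) :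
    Matrix Ω Ω ℤ := Matrix.of fun α β => if same G p (α, β) then 1 else 0

open Classical in
/-- the number of pairs in the orbit of `p` with the same first member -/
noncomputable def nn (G : Type) [Group G] {Ω : Type} [Fintype Ω] [MulAction G Ω] (p : Ω × Ω) : ℕ :=
  (Finset.univ.filter fun β : Ω => same G p (p.1, β)).card

open Classical in
/-- the size of an orbit -/
noncomputable def orb (G : Type) [Group G] {Ω : Type} [Fintype Ω] [MulAction G Ω] (α : Ω) : ℕ :=
  (Finset.univ.filter fun β : Ω => ∃ g : G, g • α = β).card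

theorem ind_apply_of (p : Ω × Ω) (α β : Ω) (h : same G p (α, β)) : ind G p α β = 1 := by
  unfold ind
  rw [of_apply, if_pos h]

theorem ind_apply_not (p : Ω × Ω) (α β : Ω) (h : ¬ same G p (α, β)) : ind G p α β = 0 := by
  unfold ind
  rw [of_apply, if_neg h]

theorem ind_inv (p : Ω × Ω) (g : G) (α β : Ω) : ind G p (g • α) (g • β) = ind G p α β := by
  by_cases h : same G p (α, β)
  · rw [ind_apply_of _ _ _ h, ind_apply_of _ _ _ (same_trans h ⟨g, rfl, rfl⟩)]
  · rw [ind_apply_not _ _ _ h, ind_apply_not _ _ _ (fun h' => h (same_trans h'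
      ⟨g⁻¹, inv_smul_smul _ _, inv_smul_smul _ _⟩))]

theorem ind_mem (p : Ω × Ω) : (ind G p).map (Int.castRingHom ℚ) ∈ comm G Ω := by
  intro g α β
  rw [map_apply, map_apply, ind_inv]

theorem comm_congr {T : Matrix Ω Ω ℚ} (hT : T ∈ comm G Ω) {p q : Ω × Ω} (h : same G p q) :
    T p.1 p.2 = T q.1 q.2 := by
  obtain ⟨g, h1, h2⟩ := h
  rw [← h1, ← h2, hT]

theorem orb_smul (g : G) (α : Ω) : orb G (g • α) = orb G α := by
  classical
  unfold orb
  congr 1
  ext β
  rw [Finset.mem_filter, Finset.mem_filter]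
  refine and_congr_right fun _ => ⟨?_, ?_⟩
  · rintro ⟨h, hh⟩
    exact ⟨h * g, by rw [mul_smul, hh]⟩
  · rintro ⟨h, hh⟩
    exact ⟨h * g⁻¹, by rw [mul_smul, inv_smul_smul, hh]⟩

theorem orb_pos (α : Ω) : 1 ≤ orb G α := by
  classical
  unfold orb
  exact Finset.card_pos.2 ⟨α, Finset.mem_filter.2 ⟨Finset.mem_univ _, 1, one_smul _ _⟩⟩

theorem orb_le (α : Ω) : orb G α ≤ Fintype.card Ω := Finset.card_le_univ _

theorem nn_pos (p : Ω × Ω) : 1 ≤ nn G p := by
  classical
  unfold nn
  exact Finset.card_pos.2 ⟨p.2, Finset.mem_filter.2 ⟨Finset.mem_univ _, same_refl _⟩⟩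

theorem nn_le (p : Ω × Ω) : nn G p ≤ Fintype.card Ω := Finset.card_le_univ _

/-- the number of pairs in the orbit of `p` with first member in the orbit of `p.1` -/
theorem card_row (p : Ω × Ω) (α : Ω) (h : ∃ g : G, g • p.1 = α) [DecidablePred fun β : Ω => same G p (α, β)] :
    (Finset.univ.filter fun β : Ω => same G p (α, β)).card = nn G p := by
  classical
  obtain ⟨g, rfl⟩ := h
  unfold nn
  symm
  refine Finset.card_bij (fun β _ => g • β) ?_ ?_ ?_
  · intro β hβ
    rw [Finset.mem_filter] at hβ ⊢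
    exact ⟨Finset.mem_univ _, same_trans hβ.2 ⟨g, rfl, rfl⟩⟩
  · intro β _ β' _ h
    exact MulAction.injective g h
  · intro β hβ
    rw [Finset.mem_filter] at hβ
    refine ⟨g⁻¹ • β, Finset.mem_filter.2 ⟨Finset.mem_univ _, ?_⟩, smul_inv_smul _ _⟩
    exact same_trans hβ.2 ⟨g⁻¹, inv_smul_smul _ _, rfl⟩

/-- pairing with the indicator matrix -/
theorem trace_ind {T : Matrix Ω Ω ℚ} (hT : T ∈ comm G Ω) (p : Ω × Ω) :
    (T * ((ind G p).map (Int.castRingHom ℚ))ᵀ).trace = orb G p.1 * nn G p * T p.1 p.2 := by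
  classical
  have h1 : ∀ α : Ω, (T * ((ind G p).map (Int.castRingHom ℚ))ᵀ) α α =
      if (∃ g : G, g • p.1 = α) then (nn G p : ℚ) * T p.1 p.2 else 0 := by
    intro α
    rw [mul_apply]
    have h2 : ∀ β, T α β * ((ind G p).map (Int.castRingHom ℚ))ᵀ β α =
        if same G p (α, β) then T p.1 p.2 else 0 := by
      intro β
      rw [transpose_apply, map_apply]
      by_cases h : same G p (α, β)
      · rw [ind_apply_of _ _ _ h, if_pos h, comm_congr hT h]
        simp
      · rw [ind_apply_not _ _ _ h, if_neg h]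
        simp
    rw [Finset.sum_congr rfl fun β _ => h2 β, ← Finset.sum_filter, Finset.sum_const]
    by_cases h : ∃ g : G, g • p.1 = α
    · rw [if_pos h, card_row p α h, nsmul_eq_mul]
    · rw [if_neg h]
      have : (Finset.univ.filter fun β : Ω => same G p (α, β)) = ∅ := by
        rw [Finset.filter_eq_empty_iff]
        rintro β _ ⟨g, hg, _⟩
        exact h ⟨g, hg⟩
      rw [this, Finset.card_empty, zero_smul]
  have h0 : (T * ((ind G p).map (Int.castRingHom ℚ))ᵀ).trace =
      ∑ α : Ω, if (∃ g : G, g • p.1 = α) then (nn G p : ℚ) * T p.1 p.2 else 0 :=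
    Finset.sum_congr rfl fun α _ => h1 α
  rw [h0, ← Finset.sum_filter, Finset.sum_const, nsmul_eq_mul]
  unfold orb
  ring

/-- integrality of the values of the product with an idempotent, up to the factor `nn` -/
theorem nn_mul_int (e : Matrix Ω Ω ℚ) (he : e * e = e) (heA : e ∈ comm G Ω)
    (hcen : ∀ a ∈ comm G Ω, e * a = a * e) (M : Matrix Ω Ω ℤ)
    (hM : M.map (Int.castRingHom ℚ) ∈ comm G Ω) (p : Ω × Ω) :
    ∃ z : ℤ, (nn G p : ℚ) * (orb G p.1 * (e * M.map (Int.castRingHom ℚ)) p.1 p.2) = z := by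
  set B : Matrix Ω Ω ℤ := M * (ind G p)ᵀ with hB
  have h1 : B.map (Int.castRingHom ℚ) =
      M.map (Int.castRingHom ℚ) * ((ind G p).map (Int.castRingHom ℚ))ᵀ := by
    rw [hB, Matrix.map_mul, transpose_map]
  have h2 : B.map (Int.castRingHom ℚ) ∈ comm G Ω := by
    rw [h1]
    exact comm_star.mul _ hM _ (comm_star.star _ (ind_mem p))
  obtain ⟨z, hz⟩ := trace_int e B he (hcen _ h2)
  refine ⟨z, ?_⟩
  rw [← hz, h1, ← Matrix.mul_assoc e, trace_ind (comm_star.mul _ heA _ hM)]
  ring

end Pool.Agent.Q271.ZC
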