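import Mathlib
import Pool.Agent.Q271.ZC.Orb
import Pool.Agent.Q271.ZC.Count

/-!
# Relations between the translates of rational vectors, and matrices in the commutant
-/

set_option autoImplicit false

namespace Pool.Agent.Q271.ZC

open Matrix

variable {G : Type} [Group G] {Ω : Type} [Fintype Ω] [DecidableEq Ω] [MulAction G Ω] {J : Type}

/-- the rational relations -/
def relQ (G : Type) [Group G] {Ω : Type} [Fintype Ω] [MulAction G Ω] {J : Type} (s : J → Ω → ℚ) :
    Submodule ℚ (Ω → ℚ) where
  carrier := {n | ∀ (g : G) (j : J), ∑ α, n α * s j (g • α) = 0}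
  add_mem' := by
    intro a b ha hb g j
    simp only [Pi.add_apply, add_mul, Finset.sum_add_distrib]
    rw [ha, hb, add_zero]
  zero_mem' := by
    intro g j
    simp
  smul_mem' := by
    intro c a ha g j
    simp only [Pi.smul_apply, smul_eq_mul, mul_assoc]
    rw [← Finset.mul_sum, ha, mul_zero]

theorem mem_relQ {s : J → Ω → ℚ} {n : Ω → ℚ} :
    n ∈ relQ G s ↔ ∀ (g : G) (j : J), ∑ α, n α * s j (g • α) = 0 := Iff.rfl

theorem relQ_smul {s : J → Ω → ℚ} {n : Ω → ℚ} (hn : n ∈ relQ G s) (g : G) :
    (fun α => n (g • α)) ∈ relQ G s := by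
  intro h j
  rw [← hn (h * g⁻¹) j, ← Equiv.sum_comp (MulAction.toPerm g) (fun α => n α * s j ((h * g⁻¹) • α))]
  refine Finset.sum_congr rfl fun α _ => ?_
  rw [MulAction.toPerm_apply, mul_smul, inv_smul_smul]

/-- the span of the integral relations with coefficients at most `Y` -/
def small (G : Type) [Group G] {Ω : Type} [Fintype Ω] [MulAction G Ω] {J : Type} (s : J → Ω → ℚ)
    (Y : ℕ) : Submodule ℚ (Ω → ℚ) :=
  Submodule.span ℚ {n | n ∈ relQ G s ∧ ∀ α, ∃ z : ℤ, |z| ≤ Y ∧ n α = z}

theorem small_le (s : J → Ω → ℚ) (Y : ℕ) : small G s Y ≤ relQ G s :=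
  Submodule.span_le.2 fun _ hn => hn.1

theorem small_smul {s : J → Ω → ℚ} {Y : ℕ} {n : Ω → ℚ} (hn : n ∈ small G s Y) (g : G) :
    (fun α => n (g • α)) ∈ small G s Y := by
  unfold small at hn ⊢
  induction hn using Submodule.span_induction with
  | mem x hx => exact Submodule.subset_span ⟨relQ_smul hx.1 g, fun α => hx.2 _⟩
  | zero => exact Submodule.zero_mem _
  | add x y _ _ hx hy => exact Submodule.add_mem _ hx hy
  | smul a x _ hx => exact Submodule.smul_mem _ a hx

/-- matrices killing the vectors -/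
def ann {Ω : Type} [Fintype Ω] {J : Type} (s : J → Ω → ℚ) : Submodule ℚ (Matrix Ω Ω ℚ) where
  carrier := {T | ∀ j, T *ᵥ s j = 0}
  add_mem' := by
    intro a b ha hb j
    rw [add_mulVec, ha, hb, add_zero]
  zero_mem' := fun j => zero_mulVec _
  smul_mem' := by
    intro c a ha j
    rw [smul_mulVec, ha, smul_zero]

/-- matrices with rows in a subspace -/
def rows {Ω : Type} (U : Submodule ℚ (Ω → ℚ)) : Submodule ℚ (Matrix Ω Ω ℚ) where
  carrier := {T | ∀ α, T α ∈ U}
  add_mem' := fun ha hb α => U.add_mem (ha α) (hb α)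
  zero_mem' := fun _ => U.zero_mem
  smul_mem' := fun c _ ha α => U.smul_mem c (ha α)

theorem ann_left {s : J → Ω → ℚ} (a : Matrix Ω Ω ℚ) (x : Matrix Ω Ω ℚ) (hx : x ∈ ann s) :
    a * x ∈ ann s := by
  intro j
  rw [← mulVec_mulVec, hx j, mulVec_zero]

theorem rows_left (U : Submodule ℚ (Ω → ℚ)) (a : Matrix Ω Ω ℚ) (x : Matrix Ω Ω ℚ)
    (hx : x ∈ rows U) : a * x ∈ rows U := by
  intro α
  have : (a * x) α = ∑ β, a α β • x β := by
    ext γ
    rw [mul_apply, Finset.sum_apply]
    exact Finset.sum_congr rfl fun β _ => by rw [Pi.smul_apply, smul_eq_mul]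
  rw [this]
  exact U.sum_mem fun β _ => U.smul_mem _ (hx β)

/-- the rows of a matrix of the commutant killing the vectors are relations -/
theorem row_mem_relQ {s : J → Ω → ℚ} {T : Matrix Ω Ω ℚ} (hT : T ∈ comm G Ω) (h : T ∈ ann s)
    (α : Ω) : T α ∈ relQ G s := by
  intro g j
  have h1 : ∑ β, T α β * s j (g • β) = (T *ᵥ s j) (g • α) := by
    have h2 : (T *ᵥ s j) (g • α) = ∑ β, T (g • α) (g • β) * s j (g • β) :=
      (Equiv.sum_comp (MulAction.toPerm g) (fun β => T (g • α) β * s j β)).symm
    rw [h2]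
    exact Finset.sum_congr rfl fun β _ => congrArg (· * s j (g • β)) (hT g α β).symm
  rw [h1, h j]
  rfl

/-- integral matrices with small entries have rows in the span of the small relations -/
theorem mem_rows_small {s : J → Ω → ℚ} {T : Matrix Ω Ω ℚ} (hT : T ∈ comm G Ω) (h : T ∈ ann s)
    {Y : ℕ} (hY : ∀ α β, ∃ z : ℤ, |z| ≤ Y ∧ T α β = z) : T ∈ rows (small G s Y) :=
  fun α => Submodule.subset_span ⟨row_mem_relQ hT h α, hY α⟩

/-- orthogonal projection for the standard form on rational vectors -/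
theorem exists_orth_vec (U : Submodule ℚ (Ω → ℚ)) (n : Ω → ℚ) :
    ∃ m ∈ U, ∀ u ∈ U, ∑ α, u α * (n α - m α) = 0 := by
  set f : LinearMap.BilinForm ℚ (Ω → ℚ) :=
    LinearMap.mk₂ ℚ (fun x y => ∑ α, x α * y α)
      (by intro x y z; simp only [Pi.add_apply, add_mul, Finset.sum_add_distrib])
      (by intro c x y; simp only [Pi.smul_apply, smul_eq_mul, mul_assoc, Finset.mul_sum])
      (by intro x y z; simp only [Pi.add_apply, mul_add, Finset.sum_add_distrib])
      (by
        intro c x y
        simp only [Pi.smul_apply, smul_eq_mul, Finset.mul_sum]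
        exact Finset.sum_congr rfl fun α _ => by ring) with hf
  have happ : ∀ x y, f x y = ∑ α, x α * y α := fun x y => rfl
  have hsymm : ∀ x y, f x y = f y x := fun x y => by
    rw [happ, happ]
    exact Finset.sum_congr rfl fun α _ => mul_comm _ _
  have hpos : ∀ x, f x x = 0 → x = 0 := by
    intro x hx
    rw [happ, Finset.sum_eq_zero_iff_of_nonneg fun α _ => mul_self_nonneg _] at hx
    ext α
    exact mul_self_eq_zero.1 (hx α (Finset.mem_univ _))
  have hsym : f.IsSymm := ⟨fun x y => hsymm x y⟩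
  have hdis : (f.restrict U).Nondegenerate := by
    refine ⟨?_, ?_⟩
    · intro w hw
      have := hw w
      rw [LinearMap.BilinForm.restrict_apply, LinearMap.domRestrict_apply] at this
      ext1
      exact hpos _ this
    · intro w hw
      have := hw w
      rw [LinearMap.BilinForm.restrict_apply, LinearMap.domRestrict_apply] at this
      ext1
      exact hpos _ this
  have hc := LinearMap.BilinForm.isCompl_orthogonal_of_restrict_nondegenerate hsym.isRefl hdis
  have hx : n ∈ U ⊔ (f.orthogonal U) := by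
    rw [hc.sup_eq_top]
    trivial
  obtain ⟨m, hm, r, hr, rfl⟩ := Submodule.mem_sup.1 hx
  refine ⟨m, hm, fun u hu => ?_⟩
  have := (LinearMap.BilinForm.mem_orthogonal_iff.1 hr) u hu
  have h9 : f u r = 0 := this
  rw [happ] at h9
  rw [← h9]
  exact Finset.sum_congr rfl fun α _ => by rw [Pi.add_apply, add_sub_cancel_left]

/-- if the small relations do not span, there is a matrix in the commutant killing the vectors with
rows not all in the span -/
theorem exists_matrix [Finite G] (s : J → Ω → ℚ) (Y : ℕ) (h : ¬ relQ G s ≤ small G s Y) :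
    ∃ x ∈ comm G Ω, x ∈ ann s ∧ x ∉ rows (small G s Y) := by
  classical
  haveI := Fintype.ofFinite G
  obtain ⟨n, hn, hns⟩ := SetLike.not_le_iff_exists.1 h
  obtain ⟨m, hm, horth⟩ := exists_orth_vec (small G s Y) n
  set r : Ω → ℚ := n - m with hr
  have hrrel : r ∈ relQ G s := (relQ G s).sub_mem hn (small_le s Y hm)
  have hr0 : r ≠ 0 := by
    intro h0
    rw [sub_eq_zero.1 h0] at hns
    exact hns hm
  have hort : ∀ u ∈ small G s Y, ∑ α, u α * r α = 0 := horth
  set T : Matrix Ω Ω ℚ := Matrix.of fun α β => ∑ g : G, r (g • α) * r (g • β) with hT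
  have hTapp : ∀ α β, T α β = ∑ g : G, r (g • α) * r (g • β) := fun α β => rfl
  refine ⟨T, ?_, ?_, ?_⟩
  · intro h α β
    rw [hTapp, hTapp, ← Equiv.sum_comp (Equiv.mulRight h) (fun g => r (g • α) * r (g • β))]
    refine Finset.sum_congr rfl fun g _ => ?_
    rw [Equiv.coe_mulRight, mul_smul, mul_smul]
  · intro j
    ext α
    rw [mulVec, dotProduct]
    simp only [hTapp, Finset.sum_mul]
    rw [Finset.sum_comm, Pi.zero_apply]
    refine Finset.sum_eq_zero fun g _ => ?_
    have h1 := (relQ_smul hrrel g) 1 j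
    have h2 : ∑ β, r (g • α) * r (g • β) * s j β =
        r (g • α) * ∑ β, r (g • β) * s j ((1 : G) • β) := by
      rw [Finset.mul_sum]
      exact Finset.sum_congr rfl fun β _ => by rw [one_smul, mul_assoc]
    rw [h2, h1, mul_zero]
  · intro hrow
    have hz : ∀ α, T α = 0 := by
      intro α
      have h1 : ∑ β, T α β * T α β = 0 := by
        have h2 : ∀ β, T α β * T α β = ∑ g : G, r (g • α) * (T α β * r (g • β)) := by
          intro β
          conv_lhs => rw [hTapp α β]
          rw [Finset.sum_mul]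
          exact Finset.sum_congr rfl fun g _ => by rw [← hTapp α β]; ring
        rw [Finset.sum_congr rfl fun β _ => h2 β, Finset.sum_comm]
        refine Finset.sum_eq_zero fun g _ => ?_
        rw [← Finset.mul_sum]
        have h3 := hort _ (small_smul (hrow α) g⁻¹)
        have h4 : ∑ β, T α β * r (g • β) = ∑ β, T α (g⁻¹ • β) * r β := by
          rw [← Equiv.sum_comp (MulAction.toPerm g) (fun β => T α (g⁻¹ • β) * r β)]
          exact Finset.sum_congr rfl fun β _ => by rw [MulAction.toPerm_apply, inv_smul_smul]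
        rw [h4, h3, mul_zero]
      rw [Finset.sum_eq_zero_iff_of_nonneg fun β _ => mul_self_nonneg _] at h1
      ext β
      exact mul_self_eq_zero.1 (h1 β (Finset.mem_univ _))
    apply hr0
    ext α
    have h1 : T α α = 0 := by rw [hz α]; rfl
    rw [hTapp, Finset.sum_eq_zero_iff_of_nonneg fun β _ => mul_self_nonneg _] at h1
    have h2 := h1 1 (Finset.mem_univ _)
    rw [one_smul] at h2
    exact mul_self_eq_zero.1 h2

end Pool.Agent.Q271.ZC
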