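import Mathlib
import Pool.Agent.Q271.ZC.Rel

/-!
# Relations with small coefficients span all relations
-/

set_option autoImplicit false

namespace Pool.Agent.Q271.ZC

open Matrix

/-- a simple algebra is small in terms of a faithful quotient of left ideals -/
theorem finrank_le_sq {Ω : Type} [Fintype Ω] [DecidableEq Ω]
    (S I I' : Submodule ℚ (Matrix Ω Ω ℚ)) (hI' : I' ≤ I)
    (h1 : ∀ x ∈ S, ∀ t ∈ I, x * t ∈ I) (h2 : ∀ x ∈ S, ∀ t ∈ I', x * t ∈ I')
    (h3 : ∀ x ∈ S, (∀ t ∈ I, x * t ∈ I') → x = 0) :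
    Module.finrank ℚ S ≤ (Module.finrank ℚ I - Module.finrank ℚ I') ^ 2 := by
  set q : Submodule ℚ I := I'.comap I.subtype with hq
  -- multiplication on `I`
  set m : S →ₗ[ℚ] (I →ₗ[ℚ] I) :=
    { toFun := fun x =>
        { toFun := fun t => ⟨x.1 * t.1, h1 x.1 x.2 t.1 t.2⟩
          map_add' := fun a b => Subtype.ext (mul_add _ _ _)
          map_smul' := fun c a => Subtype.ext (Matrix.mul_smul _ _ _) }
      map_add' := fun a b => LinearMap.ext fun t => Subtype.ext (add_mul _ _ _)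
      map_smul' := fun c a => LinearMap.ext fun t => Subtype.ext (Matrix.smul_mul _ _ _) } with hm
  have hmapp : ∀ (x : S) (t : I), ((m x) t : Matrix Ω Ω ℚ) = x.1 * t.1 := fun x t => rfl
  have hmq : ∀ x : S, q ≤ q.comap (m x) := by
    intro x t ht
    exact h2 x.1 x.2 t.1 ht
  set M : S →ₗ[ℚ] ((I ⧸ q) →ₗ[ℚ] (I ⧸ q)) :=
    { toFun := fun x => Submodule.mapQ q q (m x) (hmq x)
      map_add' := by
        intro a b
        ext t
        simp [Submodule.mapQ_apply]
      map_smul' := by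
        intro c a
        ext t
        simp [Submodule.mapQ_apply] } with hM
  have hinj : Function.Injective M := by
    rw [← LinearMap.ker_eq_bot, LinearMap.ker_eq_bot']
    intro x hx
    ext1
    refine h3 x.1 x.2 fun t ht => ?_
    have h4 : M x (Submodule.Quotient.mk ⟨t, ht⟩) = 0 := by rw [hx]; rfl
    have h5 : (Submodule.Quotient.mk ((m x) ⟨t, ht⟩) : I ⧸ q) = 0 := h4
    rw [Submodule.Quotient.mk_eq_zero] at h5
    exact h5
  have h6 := LinearMap.finrank_le_finrank_of_injective hinj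
  rw [Module.finrank_linearMap, ← pow_two] at h6
  have h7 : Module.finrank ℚ (I ⧸ q) = Module.finrank ℚ I - Module.finrank ℚ I' := by
    have h8 := Submodule.finrank_quotient_add_finrank q
    have h9 : Module.finrank ℚ q = Module.finrank ℚ I' :=
      (Submodule.comapSubtypeEquivOfLe hI').finrank_eq
    omega
  rwa [h7] at h6

variable {G : Type} [Group G] {Ω : Type} [Fintype Ω] [DecidableEq Ω] [MulAction G Ω] {J : Type}

/-- the number of values of a linear form -/
theorem card_values {V : Type*} [DecidableEq V] (F : Finset V) (φ : V → ℚ) (w K : ℕ) (hw : 1 ≤ w)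
    (h : ∀ x ∈ F, ∃ z : ℤ, (w : ℚ) * φ x = z ∧ |z| ≤ K) : (F.image φ).card ≤ 2 * K + 1 := by
  classical
  have h1 : F.image φ ⊆ (Finset.Icc (-(K : ℤ)) K).image fun z : ℤ => (z : ℚ) / w := by
    intro y hy
    obtain ⟨x, hx, rfl⟩ := Finset.mem_image.1 hy
    obtain ⟨z, hz, hz'⟩ := h x hx
    refine Finset.mem_image.2 ⟨z, Finset.mem_Icc.2 (abs_le.1 hz'), ?_⟩
    rw [← hz]
    have : (w : ℚ) ≠ 0 := by exact_mod_cast (by omega : w ≠ 0)
    field_simp
  refine (Finset.card_le_card h1).trans (Finset.card_image_le.trans ?_)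
  rw [Int.card_Icc]
  omega

/-- the number of orbits on pairs, counted with the sizes -/
theorem sum_nn_le (t : ℕ) (f : Fin t → Ω) (hf : ∀ α, ∃ i, ∃ g : G, g • f i = α)
    {κ : Type} [Fintype κ] (r : κ → Ω × Ω) (hr : ∀ k k', same G (r k) (r k') → k = k') :
    ∑ k, nn G (r k) ≤ t * Fintype.card Ω := by
  classical
  set T : Matrix Ω Ω ℚ := Matrix.of fun α _ => ((orb G α : ℕ) : ℚ)⁻¹ with hT
  have hTapp : ∀ α β, T α β = ((orb G α : ℕ) : ℚ)⁻¹ := fun α β => rfl
  have hTc : T ∈ comm G Ω := by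
    intro g α β
    rw [hTapp, hTapp, orb_smul]
  have h1 : ∀ k, (nn G (r k) : ℚ) = (T * ((ind G (r k)).map (Int.castRingHom ℚ))ᵀ).trace := by
    intro k
    rw [trace_ind hTc, hTapp]
    have : (orb G (r k).1 : ℚ) ≠ 0 := by
      have := orb_pos (G := G) (r k).1
      exact_mod_cast (by omega : orb G (r k).1 ≠ 0)
    field_simp
  have h2 : ∑ k, (nn G (r k) : ℚ) = ∑ α, ∑ β, T α β * ∑ k, (ind G (r k) α β : ℚ) := by
    rw [Finset.sum_congr rfl fun k _ => h1 k]
    have h3 : ∀ k, (T * ((ind G (r k)).map (Int.castRingHom ℚ))ᵀ).trace =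
        ∑ α, ∑ β, T α β * (ind G (r k) α β : ℚ) := by
      intro k
      refine Finset.sum_congr rfl fun α _ => ?_
      rw [diag_apply, mul_apply]
      exact Finset.sum_congr rfl fun β _ => rfl
    rw [Finset.sum_congr rfl fun k _ => h3 k, Finset.sum_comm]
    refine Finset.sum_congr rfl fun α _ => ?_
    rw [Finset.sum_comm]
    exact Finset.sum_congr rfl fun β _ => (Finset.mul_sum _ _ _).symm
  have h3 : ∀ α β, ∑ k, (ind G (r k) α β : ℚ) ≤ 1 := by
    intro α β
    by_cases h : ∃ k, same G (r k) (α, β)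
    · obtain ⟨k, hk⟩ := h
      rw [Finset.sum_eq_single k]
      · rw [ind_apply_of _ _ _ hk]
        simp
      · intro k' _ hne
        rw [ind_apply_not _ _ _ fun h' => hne (hr _ _ (same_trans h' (same_symm hk)))]
        simp
      · intro h
        exact absurd (Finset.mem_univ _) h
    · push Not at h
      rw [Finset.sum_eq_zero fun k _ => by rw [ind_apply_not _ _ _ (h k)]; simp]
      exact zero_le_one
  have h4 : ∑ k, (nn G (r k) : ℚ) ≤ ∑ α : Ω, ∑ _β : Ω, ((orb G α : ℕ) : ℚ)⁻¹ := by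
    rw [h2]
    refine Finset.sum_le_sum fun α _ => Finset.sum_le_sum fun β _ => ?_
    rw [hTapp]
    exact mul_le_of_le_one_right (by positivity) (h3 α β)
  have h5 : ∑ α : Ω, ((orb G α : ℕ) : ℚ)⁻¹ ≤ t := by
    have h6 : ∑ α : Ω, ((orb G α : ℕ) : ℚ)⁻¹ ≤
        ∑ i : Fin t, ∑ α ∈ Finset.univ.filter (fun β : Ω => ∃ g : G, g • f i = β),
          ((orb G α : ℕ) : ℚ)⁻¹ := by
      have h7 : ∀ i : Fin t, ∑ α ∈ Finset.univ.filter (fun β : Ω => ∃ g : G, g • f i = β),
          ((orb G α : ℕ) : ℚ)⁻¹ =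
          ∑ α : Ω, if (∃ g : G, g • f i = α) then ((orb G α : ℕ) : ℚ)⁻¹ else 0 := by
        intro i
        rw [Finset.sum_filter]
      rw [Finset.sum_congr rfl fun i _ => h7 i, Finset.sum_comm]
      refine Finset.sum_le_sum fun α _ => ?_
      obtain ⟨i, hi⟩ := hf α
      have h8 : (if (∃ g : G, g • f i = α) then ((orb G α : ℕ) : ℚ)⁻¹ else 0) ≤
          ∑ i : Fin t, if (∃ g : G, g • f i = α) then ((orb G α : ℕ) : ℚ)⁻¹ else 0 :=
        Finset.single_le_sum (f := fun i : Fin t =>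
          if (∃ g : G, g • f i = α) then ((orb G α : ℕ) : ℚ)⁻¹ else 0)
          (fun j _ => by split_ifs <;> positivity) (Finset.mem_univ i)
      rw [if_pos hi] at h8
      exact h8
    refine h6.trans (le_of_eq ?_)
    have h9 : ∀ i : Fin t, ∑ α ∈ Finset.univ.filter (fun β : Ω => ∃ g : G, g • f i = β),
        ((orb G α : ℕ) : ℚ)⁻¹ = 1 := by
      intro i
      have h10 : ∀ α ∈ Finset.univ.filter (fun β : Ω => ∃ g : G, g • f i = β),
          ((orb G α : ℕ) : ℚ)⁻¹ = ((orb G (f i) : ℕ) : ℚ)⁻¹ := by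
        intro α hα
        obtain ⟨g, rfl⟩ := (Finset.mem_filter.1 hα).2
        rw [orb_smul]
      rw [Finset.sum_congr rfl h10, Finset.sum_const, nsmul_eq_mul]
      have h11 : (Finset.univ.filter (fun β : Ω => ∃ g : G, g • f i = β)).card = orb G (f i) := by
        unfold orb
        congr 1
      rw [h11]
      have := orb_pos (G := G) (f i)
      exact mul_inv_cancel₀ (by exact_mod_cast (by omega : orb G (f i) ≠ 0))
    rw [Finset.sum_congr rfl fun i _ => h9 i]
    simp
  have h6 : ((∑ k, nn G (r k) : ℕ) : ℚ) ≤ ((t * Fintype.card Ω : ℕ) : ℚ) := by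
    push_cast
    refine h4.trans ?_
    have h7 : ∀ α : Ω, ∑ _β : Ω, ((orb G α : ℕ) : ℚ)⁻¹ =
        Fintype.card Ω * ((orb G α : ℕ) : ℚ)⁻¹ := by
      intro α
      rw [Finset.sum_const, nsmul_eq_mul, Finset.card_univ]
    rw [Finset.sum_congr rfl fun α _ => h7 α, ← Finset.mul_sum, mul_comm (t : ℚ)]
    exact mul_le_mul_of_nonneg_left h5 (Nat.cast_nonneg _)
  exact_mod_cast h6

end Pool.Agent.Q271.ZC
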