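import Mathlib
import Pool.Agent.Q271.ZC.Core

/-!
# Relations with small coefficients span all relations: the box principle
-/

set_option autoImplicit false

namespace Pool.Agent.Q271.ZC

open Matrix

variable {G : Type} [Group G] {Ω : Type} [Fintype Ω] [DecidableEq Ω] [MulAction G Ω] {J : Type}

theorem idem_entry_le {e : Matrix Ω Ω ℚ} (h : e * e = e) (hT : eᵀ = e) (α β : Ω) :
    |e α β| ≤ 1 := by
  have h0 : ∀ α β, e β α = e α β := fun α β => congrFun (congrFun hT α) β
  have h1 : e α α = ∑ γ, e α γ * e α γ := by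
    conv_lhs => rw [← h]
    rw [mul_apply]
    exact Finset.sum_congr rfl fun γ _ => by rw [h0 α γ]
  have h2 : ∀ γ, e α γ * e α γ ≤ e α α := by
    intro γ
    rw [h1]
    exact Finset.single_le_sum (f := fun γ => e α γ * e α γ) (fun γ _ => mul_self_nonneg _)
      (Finset.mem_univ γ)
  have h3 : e α α ≤ 1 := by
    have := h2 α
    nlinarith
  have h4 := h2 β
  rw [abs_le]
  constructor <;> nlinarith

/-- the equivalence relation on pairs -/
def pairSetoid (G : Type) [Group G] (Ω : Type) [Fintype Ω] [DecidableEq Ω] [MulAction G Ω] :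
    Setoid (Ω × Ω) where
  r := same G
  iseqv := ⟨same_refl, same_symm, same_trans⟩

theorem pair_exact {a b : Ω × Ω} (h : Quotient.mk (pairSetoid G Ω) a = Quotient.mk _ b) :
    same G a b := Quotient.exact h

theorem pair_sound {a b : Ω × Ω} (h : same G a b) :
    Quotient.mk (pairSetoid G Ω) a = Quotient.mk _ b := Quotient.sound h

/-- an element of the commutant is a combination of the indicator matrices -/
theorem sum_ind {x : Matrix Ω Ω ℚ} (hx : x ∈ comm G Ω) {κ : Type} [Fintype κ] (r : κ → Ω × Ω)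
    (hr : ∀ k k', same G (r k) (r k') → k = k') (hr' : ∀ p, ∃ k, same G (r k) p) :
    x = ∑ k, x (r k).1 (r k).2 • (ind G (r k)).map (Int.castRingHom ℚ) := by
  classical
  ext α β
  rw [Matrix.sum_apply]
  obtain ⟨k, hk⟩ := hr' (α, β)
  rw [Finset.sum_eq_single k]
  · rw [Matrix.smul_apply, map_apply, ind_apply_of _ _ _ hk, comm_congr hx hk]
    simp
  · intro k' _ hne
    rw [Matrix.smul_apply, map_apply, ind_apply_not _ _ _ fun h' =>
      hne (hr _ _ (same_trans h' (same_symm hk)))]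
    simp
  · intro h
    exact absurd (Finset.mem_univ _) h

theorem core [Finite G] (s : J → Ω → ℚ) (t : ℕ) (f : Fin t → Ω)
    (hf : ∀ α, ∃ i, ∃ g : G, g • f i = α) (w : J → Ω → ℕ)
    (hw : ∀ j α, 1 ≤ w j α ∧ w j α ≤ Fintype.card Ω) (B : ℕ) (hB : ∀ j α, |s j α| ≤ B)
    (hint : ∀ T : Matrix Ω Ω ℤ, T.map (Int.castRingHom ℚ) ∈ comm G Ω → ∀ j α,
      ∃ z : ℤ, (w j α : ℚ) * (T.map (Int.castRingHom ℚ) *ᵥ s j) α = z) (X : ℕ)
    (hX : ∀ k d e : ℕ, 1 ≤ k → k ≤ t * Fintype.card Ω → k ≤ d ^ 2 →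
      e ^ 2 ≤ 2 * k * (t * Fintype.card Ω) →
      Fintype.card Ω ^ e * (3 * Fintype.card Ω ^ 6 * (B + 1)) ^ k < X ^ d) :
    relQ G s ≤ small G s (Fintype.card Ω ^ 4 * X) := by
  classical
  by_contra hcon
  set N := Fintype.card Ω with hN
  obtain ⟨T0, hT0, hT0a, hT0r⟩ := exists_matrix s (N ^ 4 * X) hcon
  set I₁ : Submodule ℚ (Matrix Ω Ω ℚ) := ann s with hI₁
  set I₀ : Submodule ℚ (Matrix Ω Ω ℚ) := rows (small G s (N ^ 4 * X)) with hI₀
  obtain ⟨S, hSbi, ⟨x0, hx0S, hx0a, hx0r⟩, hSmin⟩ := exists_minimal (comm_star (G := G)) I₀ I₁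
    (fun a _ x hx => rows_left _ a x hx) (fun a _ x hx => ann_left a x hx) ⟨T0, hT0, hT0a, hT0r⟩
  obtain ⟨e, heS, he1, he2, heT, hecen⟩ := hSbi.exists_one comm_star
  have hee : e * e = e := he1 e heS
  have heA : e ∈ comm G Ω := hSbi.le heS
  -- orbits on pairs
  letI st := pairSetoid G Ω
  letI : Fintype (Quotient st) := Fintype.ofFinite _
  set r : Quotient st → Ω × Ω := Quotient.out with hr
  have hr1 : ∀ k k', same G (r k) (r k') → k = k' := by
    intro k k' h
    have := pair_sound h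
    rwa [hr, Quotient.out_eq, Quotient.out_eq] at this
  have hr2 : ∀ p, ∃ k, same G (r k) p := fun p =>
    ⟨Quotient.mk st p, pair_exact (Quotient.out_eq _)⟩
  have hsum := sum_nn_le t f hf r hr1
  have hcardκ : Fintype.card (Quotient st) ≤ t * N := by
    refine le_trans ?_ hsum
    rw [← Finset.card_univ, Finset.card_eq_sum_ones]
    exact Finset.sum_le_sum fun k _ => nn_pos _
  -- generators of `S`
  set gens : Set (Matrix Ω Ω ℚ) :=
    Set.range fun k : Quotient st => e * (ind G (r k)).map (Int.castRingHom ℚ) with hgens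
  have hspan : Submodule.span ℚ gens = S := by
    apply le_antisymm
    · rw [Submodule.span_le]
      rintro _ ⟨k, rfl⟩
      exact hSbi.right _ (ind_mem _) _ heS
    · intro x hx
      have h1 := sum_ind (hSbi.le hx) r hr1 hr2
      have h2 : x = ∑ k, x (r k).1 (r k).2 • (e * (ind G (r k)).map (Int.castRingHom ℚ)) := by
        conv_lhs => rw [← he1 x hx, h1]
        rw [Finset.mul_sum]
        exact Finset.sum_congr rfl fun k _ => Matrix.mul_smul _ _ _
      rw [h2]
      exact Submodule.sum_mem _ fun k _ => Submodule.smul_mem _ _ (Submodule.subset_span ⟨k, rfl⟩)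
  obtain ⟨k, b, hbmem, hbli, hk⟩ : ∃ (k : ℕ) (b : Fin k → Matrix Ω Ω ℚ), (∀ i, b i ∈ gens) ∧
      LinearIndependent ℚ b ∧ Module.finrank ℚ (Submodule.span ℚ gens) = k := by
    obtain ⟨b, h1, -, h3⟩ := Submodule.exists_fun_fin_finrank_span_eq ℚ gens
    exact ⟨_, b, h1, h3, rfl⟩
  have hkS : Module.finrank ℚ S = k := by rw [← hk, hspan]
  choose p hp using hbmem
  have hk1 : 1 ≤ k := by
    rw [← hkS]
    by_contra h0
    have h1 : Module.finrank ℚ S = 0 := by omega
    have h2 := Submodule.finrank_eq_zero.1 h1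
    rw [h2, Submodule.mem_bot] at hx0S
    rw [hx0S] at hx0r
    exact hx0r I₀.zero_mem
  have hkt : k ≤ t * N := by
    refine le_trans ?_ hcardκ
    rw [← hk]
    exact finrank_range_le_card _
  have hkN : k ≤ N ^ 2 := by
    rw [← hkS]
    refine (Submodule.finrank_le S).trans (le_of_eq ?_)
    rw [Module.finrank_matrix, Module.finrank_self, mul_one, pow_two]
  -- dimensions
  set d₁ := Module.finrank ℚ (S ⊓ I₁ : Submodule ℚ (Matrix Ω Ω ℚ)) with hd₁
  set d₀ := Module.finrank ℚ (S ⊓ I₁ ⊓ I₀ : Submodule ℚ (Matrix Ω Ω ℚ)) with hd₀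
  have hd₁k : d₁ ≤ k := by
    rw [← hkS]
    exact Submodule.finrank_mono inf_le_left
  have hd₀₁ : d₀ ≤ d₁ := Submodule.finrank_mono inf_le_left
  have hkd : k ≤ (d₁ - d₀) ^ 2 := by
    rw [← hkS]
    refine finrank_le_sq S (S ⊓ I₁) (S ⊓ I₁ ⊓ I₀) inf_le_left ?_ ?_ ?_
    · intro x hx y hy
      exact ⟨hSbi.left x (hSbi.le hx) y hy.1, ann_left x y hy.2⟩
    · intro x hx y hy
      exact ⟨⟨hSbi.left x (hSbi.le hx) y hy.1.1, ann_left x y hy.1.2⟩, rows_left _ x y hy.2⟩
    · intro x hx h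
      exact hSmin x hx fun y hy hy1 => (h y ⟨hy, hy1⟩).2
  have hN1 : 1 ≤ N := by
    by_contra h0
    have : N = 0 := by omega
    rw [this] at hkN
    omega
  have hd1 : 1 ≤ d₁ - d₀ := by
    by_contra h0
    have : d₁ - d₀ = 0 := by omega
    rw [this] at hkd
    omega
  -- the exponent of the number of classes
  set m : ℕ → ℕ := fun n => min k (Finset.univ.filter fun l : Quotient st => nn G (r l) = n).card
    with hm
  set T := Finset.univ.image fun l : Quotient st => nn G (r l) with hT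
  set E := ∑ n ∈ T, m n with hE
  have hE2 : E ^ 2 ≤ 2 * k * (t * N) := by
    refine (sum_min_sq T m k ?_ ?_).trans (Nat.mul_le_mul_left _ (le_trans ?_ hsum))
    · intro n hn
      obtain ⟨l, -, rfl⟩ := Finset.mem_image.1 hn
      exact nn_pos _
    · intro n _
      exact min_le_left _ _
    · calc ∑ n ∈ T, n * m n ≤
            ∑ n ∈ T, n * (Finset.univ.filter fun l : Quotient st => nn G (r l) = n).card :=
            Finset.sum_le_sum fun n _ => Nat.mul_le_mul_left _ (min_le_right _ _)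
        _ = ∑ n ∈ T, ∑ l ∈ Finset.univ.filter (fun l : Quotient st => nn G (r l) = n),
              nn G (r l) := by
            refine Finset.sum_congr rfl fun n _ => ?_
            rw [Finset.sum_congr rfl fun l hl => (Finset.mem_filter.1 hl).2, Finset.sum_const,
              smul_eq_mul, mul_comm]
        _ = ∑ l, nn G (r l) :=
            Finset.sum_fiberwise_of_maps_to (fun l hl => Finset.mem_image_of_mem _ hl) _
  have hXd := hX k (d₁ - d₀) E hk1 hkt hkd hE2
  have hX1 : 1 ≤ X := by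
    by_contra h0
    have h1 : X = 0 := by omega
    rw [h1, zero_pow (by omega)] at hXd
    exact absurd hXd (Nat.not_lt_zero _)
  -- the box
  set F0 : Finset (Fin k → ℤ) := Fintype.piFinset fun _ => Finset.Ico (0 : ℤ) X with hF0
  have hF0c : F0.card = X ^ k := by
    rw [hF0, Fintype.card_piFinset]
    simp
  have hF0ne : F0.Nonempty := by
    rw [← Finset.card_pos, hF0c]
    positivity
  have hz : ∀ (q : Quotient st) (i : Fin k), ∃ z : ℤ, (nn G (r q) : ℚ) *
      (orb G (r q).1 * b i (r q).1 (r q).2) = z := by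
    intro q i
    obtain ⟨z, hz⟩ := nn_mul_int e hee heA hecen (ind G (r (p i))) (ind_mem _) (r q)
    refine ⟨z, ?_⟩
    rw [← hz, ← hp i]
  choose z hz using hz
  obtain ⟨F1, hF1, hF1c, hF1d⟩ := exists_class (fun q : Quotient st => nn G (r q))
    (fun q => nn_pos _) k z F0 hF0ne
  have hF1ne : F1.Nonempty := by
    rw [Finset.nonempty_iff_ne_empty]
    rintro rfl
    rw [Finset.card_empty, mul_zero, hF0c] at hF1c
    have : 0 < X ^ k := by positivity
    omega
  -- the matrices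
  set Δ : Matrix Ω Ω ℚ := diagonal fun α => (orb G α : ℚ) with hΔ
  have hΔA : Δ ∈ comm G Ω := by
    intro g α β
    rw [hΔ]
    by_cases h : α = β
    · rw [h, diagonal_apply_eq, diagonal_apply_eq, orb_smul]
    · rw [diagonal_apply_ne _ h, diagonal_apply_ne _ (fun h' => h (MulAction.injective g h'))]
  set y : (Fin k → ℤ) → Matrix Ω Ω ℚ := fun c => Δ * ∑ i, (c i : ℚ) • b i with hy
  have hbS : ∀ i, b i ∈ S := by
    intro i
    rw [← hp i]
    exact hSbi.right _ (ind_mem _) _ heS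
  have hyS : ∀ c, y c ∈ S := fun c =>
    hSbi.left Δ hΔA _ (S.sum_mem fun i _ => S.smul_mem _ (hbS i))
  have hyapp : ∀ c c' α β, (y c - y c') α β =
      orb G α * ∑ i, ((c i - c' i : ℤ) : ℚ) * b i α β := by
    intro c c' α β
    rw [Matrix.sub_apply, hy]
    simp only
    rw [hΔ, diagonal_mul, diagonal_mul, Matrix.sum_apply, Matrix.sum_apply, ← mul_sub,
      ← Finset.sum_sub_distrib]
    congr 1
    refine Finset.sum_congr rfl fun i _ => ?_
    rw [Matrix.smul_apply, Matrix.smul_apply, smul_eq_mul, smul_eq_mul]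
    push_cast
    ring
  have hyinj : Function.Injective y := by
    intro c c' h
    have h1 : ∑ i, ((c i : ℚ) - (c' i : ℚ)) • b i = 0 := by
      have h2 : ∀ α β, (∑ i, ((c i : ℚ) - (c' i : ℚ)) • b i) α β = 0 := by
        intro α β
        have h3 := hyapp c c' α β
        rw [h, sub_self, Matrix.zero_apply] at h3
        have h4 : (orb G α : ℚ) ≠ 0 := by
          have := orb_pos (G := G) α
          exact_mod_cast (by omega : orb G α ≠ 0)
        have h5 := (mul_eq_zero.1 h3.symm).resolve_left h4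
        rw [Matrix.sum_apply, ← h5]
        refine Finset.sum_congr rfl fun i _ => ?_
        rw [Matrix.smul_apply, smul_eq_mul]
        push_cast
        ring
      ext α β
      exact h2 α β
    have h3 := Fintype.linearIndependent_iff.1 hbli _ h1
    funext i
    have := h3 i
    have h4 : (c i : ℚ) = c' i := sub_eq_zero.1 this
    exact_mod_cast h4
  -- integrality
  have hyint : ∀ c ∈ F1, ∀ c' ∈ F1, ∀ α β, ∃ z : ℤ, (y c - y c') α β = z := by
    intro c hc c' hc' α β
    obtain ⟨q, hq⟩ := hr2 (α, β)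
    have h1 : y c - y c' ∈ comm G Ω := hSbi.le (S.sub_mem (hyS c) (hyS c'))
    have h2 : (y c - y c') α β = (y c - y c') (r q).1 (r q).2 := (comm_congr h1 hq).symm
    obtain ⟨a, ha⟩ := hF1d c hc c' hc' q
    refine ⟨a, ?_⟩
    have h3 : (nn G (r q) : ℚ) * (y c - y c') (r q).1 (r q).2 = nn G (r q) * a := by
      rw [hyapp]
      have h4 : ((∑ i, z q i * (c i - c' i) : ℤ) : ℚ) = ((nn G (r q) : ℤ) * a : ℤ) := by
        rw [ha]
      push_cast at h4
      rw [← h4, Finset.mul_sum, Finset.mul_sum]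
      refine Finset.sum_congr rfl fun i _ => ?_
      rw [← hz q i]
      push_cast
      ring
    have h4 : (nn G (r q) : ℚ) ≠ 0 := by
      have := nn_pos (G := G) (r q)
      exact_mod_cast (by omega : nn G (r q) ≠ 0)
    rw [h2]
    exact mul_left_cancel₀ h4 h3
  -- bounds
  have hbb : ∀ i α β, |b i α β| ≤ N := by
    intro i α β
    rw [← hp i]
    simp only
    rw [mul_apply]
    refine (Finset.abs_sum_le_sum_abs _ _).trans ?_
    calc ∑ γ, |e α γ * (ind G (r (p i))).map (Int.castRingHom ℚ) γ β| ≤ ∑ _γ : Ω, (1 : ℚ) := by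
          refine Finset.sum_le_sum fun γ _ => ?_
          rw [abs_mul, map_apply]
          have h1 := idem_entry_le hee heT α γ
          have h2 : |(Int.castRingHom ℚ) (ind G (r (p i)) γ β)| ≤ 1 := by
            by_cases h : same G (r (p i)) (γ, β)
            · rw [ind_apply_of _ _ _ h]
              simp
            · rw [ind_apply_not _ _ _ h]
              simp
          exact mul_le_one₀ h1 (abs_nonneg _) h2
      _ = N := by
          rw [Finset.sum_const, nsmul_eq_mul, mul_one, Finset.card_univ]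
  have hyb : ∀ c ∈ F0, ∀ c' ∈ F0, ∀ α β, |(y c - y c') α β| ≤ ((N ^ 4 * X : ℕ) : ℚ) := by
    intro c hc c' hc' α β
    rw [hyapp, abs_mul, Nat.abs_cast]
    have h1 : |∑ i, ((c i - c' i : ℤ) : ℚ) * b i α β| ≤ ∑ _i : Fin k, (X : ℚ) * N := by
      refine (Finset.abs_sum_le_sum_abs _ _).trans (Finset.sum_le_sum fun i _ => ?_)
      rw [abs_mul]
      refine mul_le_mul ?_ (hbb i α β) (abs_nonneg _) (Nat.cast_nonneg _)
      have h2 := Finset.mem_Ico.1 (Fintype.mem_piFinset.1 hc i)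
      have h3 := Finset.mem_Ico.1 (Fintype.mem_piFinset.1 hc' i)
      have h4 : |c i - c' i| ≤ (X : ℤ) := by
        rw [abs_le]
        constructor <;> omega
      have h5 : ((|c i - c' i| : ℤ) : ℚ) ≤ ((X : ℤ) : ℚ) := by exact_mod_cast h4
      rw [Int.cast_abs] at h5
      exact_mod_cast h5
    rw [Finset.sum_const, nsmul_eq_mul, Finset.card_univ, Fintype.card_fin] at h1
    have h2 : (orb G α : ℚ) ≤ N := by exact_mod_cast orb_le α
    have h3 : (k : ℚ) ≤ (N : ℚ) ^ 2 := by exact_mod_cast hkN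
    have h4 : (k : ℚ) * (X * N) ≤ (N : ℚ) ^ 2 * (X * N) :=
      mul_le_mul_of_nonneg_right h3 (by positivity)
    calc (orb G α : ℚ) * |∑ i, ((c i - c' i : ℤ) : ℚ) * b i α β|
        ≤ N * ((N : ℚ) ^ 2 * (X * N)) :=
          mul_le_mul h2 (h1.trans h4) (abs_nonneg _) (Nat.cast_nonneg _)
      _ = ((N ^ 4 * X : ℕ) : ℚ) := by
          push_cast
          ring
  -- second step: classes modulo the matrices killing the vectors
  obtain ⟨c1, hc1⟩ := hF1ne
  set F2 : Finset (Matrix Ω Ω ℚ) := F1.image fun c => y c - y c1 with hF2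
  have hF2c : F2.card = F1.card := Finset.card_image_of_injective _ fun c c' h =>
    hyinj (sub_left_injective h)
  have hF2ne : F2.Nonempty := ⟨_, Finset.mem_image_of_mem _ hc1⟩
  have hF2S : ∀ x ∈ F2, ∀ x' ∈ F2, x - x' ∈ S := by
    intro x hx x' hx'
    obtain ⟨c, -, rfl⟩ := Finset.mem_image.1 hx
    obtain ⟨c', -, rfl⟩ := Finset.mem_image.1 hx'
    exact S.sub_mem (S.sub_mem (hyS _) (hyS _)) (S.sub_mem (hyS _) (hyS _))
  set φ : J × Ω → Matrix Ω Ω ℚ →ₗ[ℚ] ℚ := fun jα =>
    { toFun := fun T => (T *ᵥ s jα.1) jα.2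
      map_add' := fun a b => by rw [add_mulVec, Pi.add_apply]
      map_smul' := fun c a => by rw [smul_mulVec, Pi.smul_apply, RingHom.id_apply] } with hφ
  have hφapp : ∀ jα T, φ jα T = (T *ᵥ s jα.1) jα.2 := fun _ _ => rfl
  have hval : ∀ jα, (F2.image (φ jα)).card ≤ 3 * N ^ 6 * (B + 1) * X := by
    rintro ⟨j, α⟩
    refine (card_values F2 (φ (j, α)) (w j α) (N ^ 6 * B * X) (hw j α).1 ?_).trans ?_
    · intro x hx
      obtain ⟨c, hc, rfl⟩ := Finset.mem_image.1 hx
      choose M hM using hyint c hc c1 hc1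
      have hMat : y c - y c1 = (Matrix.of M : Matrix Ω Ω ℤ).map (Int.castRingHom ℚ) := by
        ext α β
        rw [hM]
        rfl
      have h1 : y c - y c1 ∈ comm G Ω := hSbi.le (S.sub_mem (hyS c) (hyS c1))
      obtain ⟨z, hz⟩ := hint (Matrix.of M) (by rw [← hMat]; exact h1) j α
      rw [← hMat] at hz
      refine ⟨z, hz, ?_⟩
      have h2 : |(((y c - y c1) *ᵥ s j) α : ℚ)| ≤ ∑ _β : Ω, ((N ^ 4 * X : ℕ) : ℚ) * B := by
        rw [mulVec, dotProduct]
        refine (Finset.abs_sum_le_sum_abs _ _).trans (Finset.sum_le_sum fun β _ => ?_)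
        rw [abs_mul]
        exact mul_le_mul (hyb c (hF1 hc) c1 (hF1 hc1) α β) (hB j β) (abs_nonneg _)
          (Nat.cast_nonneg _)
      rw [Finset.sum_const, nsmul_eq_mul, Finset.card_univ] at h2
      have h3 : |(z : ℚ)| ≤ ((N ^ 6 * B * X : ℕ) : ℚ) := by
        rw [← hz, abs_mul, Nat.abs_cast]
        have h4 : ((w j α : ℕ) : ℚ) ≤ N := by exact_mod_cast (hw j α).2
        calc (w j α : ℚ) * |(((y c - y c1) *ᵥ s j) α : ℚ)|
            ≤ N * (N * (((N ^ 4 * X : ℕ) : ℚ) * B)) :=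
              mul_le_mul h4 h2 (abs_nonneg _) (Nat.cast_nonneg _)
          _ = ((N ^ 6 * B * X : ℕ) : ℚ) := by
              push_cast
              ring
      have h5 : ((|z| : ℤ) : ℚ) ≤ (((N ^ 6 * B * X : ℕ) : ℤ) : ℚ) := by
        rw [Int.cast_abs]
        exact_mod_cast h3
      exact_mod_cast h5
    · have h1 : 1 ≤ N ^ 6 * X := Nat.mul_pos (by positivity) hX1
      nlinarith
  obtain ⟨F3, hF3, hF3c, hF3d⟩ := exists_coset φ (S ⊓ I₁) (by
      rintro v hv ⟨j, α⟩
      rw [hφapp, hv.2 j]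
      rfl) (3 * N ^ 6 * (B + 1) * X) (k - d₁) S inf_le_left (by
      intro v hv h
      refine ⟨hv, fun j => ?_⟩
      ext α
      exact h (j, α)) (by rw [hkS]; omega) F2 hF2ne hF2S hval
  -- third step
  have hF3diff : ∀ x ∈ F3, ∃ c ∈ F1, x = y c - y c1 := by
    intro x hx
    obtain ⟨c, hc, rfl⟩ := Finset.mem_image.1 (hF3 hx)
    exact ⟨c, hc, rfl⟩
  set ψ : Ω × Ω → Matrix Ω Ω ℚ →ₗ[ℚ] ℚ := fun q =>
    { toFun := fun T => T q.1 q.2
      map_add' := fun a b => rfl
      map_smul' := fun c a => rfl } with hψ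
  have hF3c' : F3.card ≤ (3 * N ^ 6 * (B + 1) * X) ^ d₀ := by
    refine card_le_pow ψ (S ⊓ I₁ ⊓ I₀) ?_ (3 * N ^ 6 * (B + 1) * X) ?_ F3 ?_ ?_
    · intro v _ h
      ext α β
      exact h (α, β)
    · exact Nat.succ_le_of_lt (by positivity)
    · intro x hx x' hx'
      have h1 := hF3d x hx x' hx'
      refine ⟨h1, ?_⟩
      obtain ⟨c, hc, rfl⟩ := hF3diff x hx
      obtain ⟨c', hc', rfl⟩ := hF3diff x' hx'
      refine mem_rows_small (hSbi.le h1.1) h1.2 fun α β => ?_
      have h2 : y c - y c1 - (y c' - y c1) = y c - y c' := by abel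
      rw [h2]
      obtain ⟨z, hz⟩ := hyint c hc c' hc' α β
      refine ⟨z, ?_, hz⟩
      have h3 := hyb c (hF1 hc) c' (hF1 hc') α β
      rw [hz] at h3
      have h5 : ((|z| : ℤ) : ℚ) ≤ (((N ^ 4 * X : ℕ) : ℤ) : ℚ) := by
        rw [Int.cast_abs]
        exact_mod_cast h3
      exact_mod_cast h5
    · rintro ⟨α, β⟩
      refine (card_values F3 (ψ (α, β)) 1 (N ^ 4 * X) le_rfl ?_).trans ?_
      · intro x hx
        obtain ⟨c, hc, rfl⟩ := hF3diff x hx
        obtain ⟨z, hz⟩ := hyint c hc c1 hc1 α β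
        refine ⟨z, ?_, ?_⟩
        · rw [Nat.cast_one, one_mul]
          exact hz
        · have h3 := hyb c (hF1 hc) c1 (hF1 hc1) α β
          rw [hz] at h3
          have h5 : ((|z| : ℤ) : ℚ) ≤ (((N ^ 4 * X : ℕ) : ℤ) : ℚ) := by
            rw [Int.cast_abs]
            exact_mod_cast h3
          exact_mod_cast h5
      · have h1 : 1 ≤ N ^ 4 * X := Nat.mul_pos (by positivity) hX1
        have h2 : N ^ 4 * X ≤ N ^ 6 * (B + 1) * X := by
          refine Nat.mul_le_mul_right _ ?_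
          calc N ^ 4 ≤ N ^ 6 := Nat.pow_le_pow_right hN1 (by norm_num)
            _ = N ^ 6 * 1 := (mul_one _).symm
            _ ≤ N ^ 6 * (B + 1) := Nat.mul_le_mul_left _ (by omega)
        nlinarith
  -- the count
  have hP : (∏ n ∈ T, n ^ m n) ≤ N ^ E := by
    rw [hE, ← Finset.prod_pow_eq_pow_sum]
    refine Finset.prod_le_prod' fun n hn => ?_
    obtain ⟨l, -, rfl⟩ := Finset.mem_image.1 hn
    exact Nat.pow_le_pow_left (nn_le _) _
  set A := 3 * N ^ 6 * (B + 1) with hA
  have hA1 : 1 ≤ A := Nat.succ_le_of_lt (by positivity)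
  have htot : X ^ k ≤ N ^ E * ((A * X) ^ (k - d₁) * (A * X) ^ d₀) := by
    calc X ^ k = F0.card := hF0c.symm
      _ ≤ (∏ n ∈ T, n ^ m n) * F1.card := hF1c
      _ ≤ N ^ E * F1.card := Nat.mul_le_mul_right _ hP
      _ = N ^ E * F2.card := by rw [hF2c]
      _ ≤ N ^ E * ((A * X) ^ (k - d₁) * F3.card) := Nat.mul_le_mul_left _ hF3c
      _ ≤ N ^ E * ((A * X) ^ (k - d₁) * (A * X) ^ d₀) :=
          Nat.mul_le_mul_left _ (Nat.mul_le_mul_left _ hF3c')
  rw [← pow_add, mul_pow] at htot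
  have h1 : A ^ (k - d₁ + d₀) ≤ A ^ k := Nat.pow_le_pow_right hA1 (by omega)
  have h2 : X ^ k = X ^ (d₁ - d₀) * X ^ (k - d₁ + d₀) := by
    rw [← pow_add]
    congr 1
    omega
  have h3 : N ^ E * (A ^ (k - d₁ + d₀) * X ^ (k - d₁ + d₀)) ≤
      (N ^ E * A ^ k) * X ^ (k - d₁ + d₀) := by
    rw [← mul_assoc]
    exact Nat.mul_le_mul_right _ (Nat.mul_le_mul_left _ h1)
  have h4 : (N ^ E * A ^ k) * X ^ (k - d₁ + d₀) < X ^ (d₁ - d₀) * X ^ (k - d₁ + d₀) :=
    Nat.mul_lt_mul_of_pos_right hXd (by positivity)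
  rw [← h2] at h4
  exact absurd (htot.trans h3) (not_le.2 h4)

end Pool.Agent.Q271.ZC
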