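import Mathlib
import Pool.Agent.Q271.ZC.Main

/-!
# The bound of the core theorem in terms of the exponential function
-/

set_option autoImplicit false

namespace Pool.Agent.Q271.ZC

variable {G : Type} [Group G] {Ω : Type} [Fintype Ω] [DecidableEq Ω] [MulAction G Ω] {J : Type}

theorem core_real [Finite G] (s : J → Ω → ℚ) (t : ℕ) (f : Fin t → Ω)
    (hf : ∀ α, ∃ i, ∃ g : G, g • f i = α) (w : J → Ω → ℕ)
    (hw : ∀ j α, 1 ≤ w j α ∧ w j α ≤ Fintype.card Ω) (B : ℕ) (hB : ∀ j α, |s j α| ≤ B)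
    (hint : ∀ T : Matrix Ω Ω ℤ, T.map (Int.castRingHom ℚ) ∈ comm G Ω → ∀ j α,
      ∃ z : ℤ, (w j α : ℚ) * (T.map (Int.castRingHom ℚ)).mulVec (s j) α = z)
    (hN : 1 ≤ Fintype.card Ω) (Y : ℕ)
    (hY : Real.exp (20 * Real.sqrt (t * Fintype.card Ω) *
      Real.log (3 * Fintype.card Ω * (B + 1))) ≤ Y) :
    relQ G s ≤ small G s Y := by
  set N := Fintype.card Ω with hNdef
  have hNr : (1 : ℝ) ≤ N := by exact_mod_cast hN
  have ht : 1 ≤ t := by
    obtain ⟨α⟩ : Nonempty Ω := Fintype.card_pos_iff.1 (by omega)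
    obtain ⟨i, -⟩ := hf α
    exact Nat.one_le_iff_ne_zero.2 (by rintro rfl; exact Fin.elim0 i)
  have htr : (1 : ℝ) ≤ t := by exact_mod_cast ht
  set Q : ℝ := Real.sqrt (t * N) with hQ
  have hQ1 : 1 ≤ Q := by
    rw [hQ, ← Real.sqrt_one]
    exact Real.sqrt_le_sqrt (by nlinarith)
  have hQ2 : Q ^ 2 = t * N := Real.sq_sqrt (by positivity)
  set a : ℝ := Real.log N with ha
  have ha0 : 0 ≤ a := Real.log_nonneg hNr
  have hB0 : (0 : ℝ) ≤ B := Nat.cast_nonneg B
  set b : ℝ := Real.log (3 * N ^ 6 * (B + 1)) with hb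
  set l : ℝ := Real.log (3 * N * (B + 1)) with hl
  have hlB : 0 ≤ Real.log (B + 1) := Real.log_nonneg (by linarith)
  have hl1 : l = Real.log 3 + a + Real.log (B + 1) := by
    rw [hl, Real.log_mul (by positivity) (by positivity), Real.log_mul (by norm_num) (by positivity)]
  have hb1 : b = Real.log 3 + 6 * a + Real.log (B + 1) := by
    rw [hb, Real.log_mul (by positivity) (by positivity), Real.log_mul (by norm_num) (by positivity),
      Real.log_pow]
    push_cast
    ring
  have h3 : 1 ≤ Real.log 3 := by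
    rw [Real.le_log_iff_exp_le (by norm_num)]
    exact Real.exp_one_lt_d9.le.trans (by norm_num)
  have hb0 : 0 ≤ b := by rw [hb1]; linarith
  set E : ℝ := Real.sqrt 2 * Q * a + Q * b with hE
  have hs2 : Real.sqrt 2 ≤ 2 := by
    rw [Real.sqrt_le_left (by norm_num)]
    norm_num
  have hE0 : 0 ≤ E := by positivity
  set X : ℕ := ⌊Real.exp E⌋₊ + 1 with hX
  have hXE : Real.exp E < X := by
    rw [hX]
    push_cast
    exact Nat.lt_floor_add_one _
  -- monotonicity of `small`
  have hmono : ∀ Y Y' : ℕ, Y ≤ Y' → small G s Y ≤ small G s Y' := by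
    intro Y Y' hYY
    refine Submodule.span_mono ?_
    rintro n ⟨h1, h2⟩
    refine ⟨h1, fun α => ?_⟩
    obtain ⟨z, hz, hz'⟩ := h2 α
    exact ⟨z, hz.trans (by exact_mod_cast hYY), hz'⟩
  refine (core s t f hf w hw B hB hint X ?_).trans (hmono _ _ ?_)
  · intro k d e hk1 hk2 hkd he
    rw [← hNdef]
    have hkr : (1 : ℝ) ≤ k := by exact_mod_cast hk1
    have hk2r : (k : ℝ) ≤ Q ^ 2 := by rw [hQ2]; exact_mod_cast hk2
    have hkdr : (k : ℝ) ≤ (d : ℝ) ^ 2 := by exact_mod_cast hkd
    have her : (e : ℝ) ^ 2 ≤ 2 * k * Q ^ 2 := by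
      rw [hQ2]
      exact_mod_cast he
    have hsk : Real.sqrt k ≤ d := by
      rw [Real.sqrt_le_left (Nat.cast_nonneg d)]
      exact hkdr
    have hsk2 : Real.sqrt k ≤ Q := by
      rw [Real.sqrt_le_left (by linarith)]
      exact hk2r
    have hsk0 : 0 ≤ Real.sqrt k := Real.sqrt_nonneg _
    have hsks : Real.sqrt k * Real.sqrt k = k := Real.mul_self_sqrt (by linarith)
    have he1 : (e : ℝ) ≤ Real.sqrt 2 * Real.sqrt k * Q := by
      have h1 : (e : ℝ) = Real.sqrt ((e : ℝ) ^ 2) := (Real.sqrt_sq (Nat.cast_nonneg e)).symm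
      rw [h1]
      calc Real.sqrt ((e : ℝ) ^ 2) ≤ Real.sqrt (2 * k * Q ^ 2) := Real.sqrt_le_sqrt her
        _ = Real.sqrt 2 * Real.sqrt k * Q := by
          rw [Real.sqrt_mul (by positivity), Real.sqrt_mul (by norm_num), Real.sqrt_sq (by linarith)]
    have hd1 : 1 ≤ d := by
      by_contra h
      have : d = 0 := by omega
      rw [this] at hkd
      omega
    have h1 : (e : ℝ) * a + k * b ≤ d * E := by
      have h4 : (e : ℝ) * a ≤ Real.sqrt k * (Real.sqrt 2 * Q * a) := by
        calc (e : ℝ) * a ≤ (Real.sqrt 2 * Real.sqrt k * Q) * a := mul_le_mul_of_nonneg_right he1 ha0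
          _ = Real.sqrt k * (Real.sqrt 2 * Q * a) := by ring
      have h5 : (k : ℝ) * b ≤ Real.sqrt k * (Q * b) := by
        calc (k : ℝ) * b = Real.sqrt k * Real.sqrt k * b := by rw [hsks]
          _ = Real.sqrt k * (Real.sqrt k * b) := by ring
          _ ≤ Real.sqrt k * (Q * b) := by gcongr
      calc (e : ℝ) * a + k * b ≤ Real.sqrt k * E := by rw [hE]; linarith
        _ ≤ d * E := mul_le_mul_of_nonneg_right hsk hE0
    have h6 : ((N ^ e * (3 * N ^ 6 * (B + 1)) ^ k : ℕ) : ℝ) = Real.exp (e * a + k * b) := by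
      rw [Real.exp_add, mul_comm (e : ℝ) a, mul_comm (k : ℝ) b, Real.exp_mul, Real.exp_mul, ha, hb,
        Real.exp_log (by positivity), Real.exp_log (by positivity), Real.rpow_natCast,
        Real.rpow_natCast]
      push_cast
      ring
    have h7 : ((N ^ e * (3 * N ^ 6 * (B + 1)) ^ k : ℕ) : ℝ) < ((X ^ d : ℕ) : ℝ) := by
      rw [h6]
      push_cast
      calc Real.exp (e * a + k * b) ≤ Real.exp (d * E) := Real.exp_le_exp.2 h1
        _ = Real.exp E ^ d := by rw [← Real.exp_nat_mul]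
        _ < (X : ℝ) ^ d := pow_lt_pow_left₀ hXE (Real.exp_pos _).le (by omega)
    exact_mod_cast h7
  · have h1 : ((N ^ 4 * X : ℕ) : ℝ) ≤ Y := by
      refine le_trans ?_ hY
      have h2 : (X : ℝ) ≤ 2 * Real.exp E := by
        rw [hX]
        push_cast
        have h4 := Nat.floor_le (Real.exp_pos E).le
        have h5 : (1 : ℝ) ≤ Real.exp E := Real.one_le_exp hE0
        linarith
      push_cast
      calc (N : ℝ) ^ 4 * X ≤ N ^ 4 * (2 * Real.exp E) := by gcongr
        _ ≤ Real.exp (4 * a) * (Real.exp 1 * Real.exp E) := by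
          have h4 : (N : ℝ) ^ 4 = Real.exp (4 * a) := by
            rw [mul_comm, Real.exp_mul, ha, Real.exp_log (by positivity)]
            norm_num
          rw [h4]
          have h5 : (2 : ℝ) ≤ Real.exp 1 := by
            have := Real.add_one_le_exp (1 : ℝ)
            linarith
          gcongr
        _ = Real.exp (4 * a + (1 + E)) := by rw [Real.exp_add (4 * a), Real.exp_add 1 E]
        _ ≤ Real.exp (20 * Q * l) := by
          apply Real.exp_le_exp.2
          have h6 : 0 ≤ l := by rw [hl1]; linarith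
          have h7 : a ≤ l := by rw [hl1]; linarith
          have h8 : 1 ≤ l := by rw [hl1]; linarith
          have h9 : b ≤ 6 * l := by rw [hb1, hl1]; linarith
          have h10 : Real.sqrt 2 * Q * a ≤ 2 * Q * l := by gcongr
          have h11 : Q * b ≤ Q * (6 * l) := by gcongr
          have h12 : l ≤ Q * l := le_mul_of_one_le_left h6 hQ1
          rw [hE]
          nlinarith
    exact_mod_cast h1

end Pool.Agent.Q271.ZC
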