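import Mathlib
import Pool.Agent.Q271.ZC.Num

/-!
# A bound by the size of one orbit
-/

set_option autoImplicit false

namespace Pool.Agent.Q271.ZC

open Matrix

variable {G : Type} [Group G] {Ω : Type} [Fintype Ω] [DecidableEq Ω] [MulAction G Ω]

theorem orbit_bound [Finite G] (s : Unit → Ω → ℚ) (O : Finset Ω)
    (hO : ∀ (g : G), ∀ α ∈ O, g • α ∈ O) (Y : ℕ)
    (hmin : ∀ n ∈ relQ G s, (∀ α ∈ O, n α = 0) → n ∈ small G s Y) (w : Unit → Ω → ℕ)
    (hw : ∀ j α, 1 ≤ w j α ∧ w j α ≤ Fintype.card Ω) (B : ℕ) (hB : ∀ j α, |s j α| ≤ B)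
    (hint : ∀ T : Matrix Ω Ω ℤ, T.map (Int.castRingHom ℚ) ∈ comm G Ω → ∀ j α,
      ∃ z : ℤ, (w j α : ℚ) * (T.map (Int.castRingHom ℚ) *ᵥ s j) α = z) (X : ℕ) (hXY : X ≤ Y)
    (hX : (3 * Fintype.card Ω ^ 2 * (B + 1)) ^ O.card ≤ X) (hN1 : 1 ≤ Fintype.card Ω) :
    relQ G s ≤ small G s Y := by
  classical
  have := Fintype.ofFinite G
  by_contra hcon
  set N := Fintype.card Ω with hN
  -- the matrix
  obtain ⟨n, hn, hns⟩ := SetLike.not_le_iff_exists.1 hcon
  obtain ⟨m, hm, horth⟩ := exists_orth_vec (small G s Y) n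
  set v : Ω → ℚ := n - m with hv
  have hvrel : v ∈ relQ G s := (relQ G s).sub_mem hn (small_le s Y hm)
  have hv0 : v ≠ 0 := by
    intro h0
    rw [sub_eq_zero.1 h0] at hns
    exact hns hm
  have hort : ∀ u ∈ small G s Y, ∑ α, u α * v α = 0 := horth
  obtain ⟨α₀, hα₀, hvα⟩ : ∃ α ∈ O, v α ≠ 0 := by
    by_contra hall
    push Not at hall
    have h1 := hort v (hmin v hvrel hall)
    rw [Finset.sum_eq_zero_iff_of_nonneg fun α _ => mul_self_nonneg _] at h1
    apply hv0
    ext α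
    exact mul_self_eq_zero.1 (h1 α (Finset.mem_univ _))
  set I₀ : Submodule ℚ (Matrix Ω Ω ℚ) := rows (small G s Y) with hI₀
  let U : Submodule ℚ (Matrix Ω Ω ℚ) :=
    { carrier := {T | T ∈ comm G Ω ∧ ∀ α, α ∉ O → ∀ β, T α β = 0}
      add_mem' := by
        rintro a b ⟨ha, ha'⟩ ⟨hb, hb'⟩
        refine ⟨(comm G Ω).add_mem ha hb, fun α hα β => ?_⟩
        rw [Matrix.add_apply, ha' α hα, hb' α hα, add_zero]
      zero_mem' := ⟨(comm G Ω).zero_mem, fun _ _ _ => rfl⟩
      smul_mem' := by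
        rintro c a ⟨ha, ha'⟩
        refine ⟨(comm G Ω).smul_mem c ha, fun α hα β => ?_⟩
        rw [Matrix.smul_apply, ha' α hα, smul_zero] }
  have hUmem : ∀ T, T ∈ U ↔ T ∈ comm G Ω ∧ ∀ α, α ∉ O → ∀ β, T α β = 0 := fun T => Iff.rfl
  have hOiff : ∀ (g : G) α, g • α ∈ O ↔ α ∈ O := by
    intro g α
    refine ⟨fun h => ?_, hO g α⟩
    have := hO g⁻¹ _ h
    rwa [inv_smul_smul] at this
  set T0 : Matrix Ω Ω ℚ := Matrix.of fun α β => if α ∈ O then ∑ g : G, v (g • α) * v (g • β) else 0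
    with hT0
  have hT0app : ∀ α β, T0 α β = if α ∈ O then ∑ g : G, v (g • α) * v (g • β) else 0 :=
    fun α β => rfl
  have hT0U : T0 ∈ U := by
    refine ⟨?_, fun α hα β => by rw [hT0app, if_neg hα]⟩
    intro h α β
    rw [hT0app, hT0app]
    by_cases hα : α ∈ O
    · rw [if_pos hα, if_pos ((hOiff h α).2 hα),
        ← Equiv.sum_comp (Equiv.mulRight h) (fun g => v (g • α) * v (g • β))]
      refine Finset.sum_congr rfl fun g _ => ?_
      rw [Equiv.coe_mulRight, mul_smul, mul_smul]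
    · rw [if_neg hα, if_neg (fun h' => hα ((hOiff h α).1 h'))]
  have hT0ann : T0 ∈ ann s := by
    intro j
    ext α
    rw [mulVec, dotProduct, Pi.zero_apply]
    by_cases hα : α ∈ O
    · simp only [hT0app, if_pos hα, Finset.sum_mul]
      rw [Finset.sum_comm]
      refine Finset.sum_eq_zero fun g _ => ?_
      have h1 := (relQ_smul hvrel g) 1 j
      have h2 : ∑ β, v (g • α) * v (g • β) * s j β =
          v (g • α) * ∑ β, v (g • β) * s j ((1 : G) • β) := by
        rw [Finset.mul_sum]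
        exact Finset.sum_congr rfl fun β _ => by rw [one_smul, mul_assoc]
      rw [h2, h1, mul_zero]
    · refine Finset.sum_eq_zero fun β _ => ?_
      rw [hT0app, if_neg hα, zero_mul]
  have hT0r : T0 ∉ I₀ := by
    intro hrow
    have h1 : ∑ β, T0 α₀ β * T0 α₀ β = 0 := by
      have h2 : ∀ β, T0 α₀ β * T0 α₀ β = ∑ g : G, v (g • α₀) * (T0 α₀ β * v (g • β)) := by
        intro β
        conv_lhs => rw [hT0app α₀ β, if_pos hα₀]
        rw [Finset.sum_mul]
        refine Finset.sum_congr rfl fun g _ => ?_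
        rw [hT0app α₀ β, if_pos hα₀]
        ring
      rw [Finset.sum_congr rfl fun β _ => h2 β, Finset.sum_comm]
      refine Finset.sum_eq_zero fun g _ => ?_
      rw [← Finset.mul_sum]
      have h3 := hort _ (small_smul (hrow α₀) g⁻¹)
      have h4 : ∑ β, T0 α₀ β * v (g • β) = ∑ β, T0 α₀ (g⁻¹ • β) * v β := by
        rw [← Equiv.sum_comp (MulAction.toPerm g) (fun β => T0 α₀ (g⁻¹ • β) * v β)]
        exact Finset.sum_congr rfl fun β _ => by rw [MulAction.toPerm_apply, inv_smul_smul]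
      rw [h4, h3, mul_zero]
    rw [Finset.sum_eq_zero_iff_of_nonneg fun β _ => mul_self_nonneg _] at h1
    have h2 := mul_self_eq_zero.1 (h1 α₀ (Finset.mem_univ _))
    rw [hT0app, if_pos hα₀, Finset.sum_eq_zero_iff_of_nonneg fun β _ => mul_self_nonneg _] at h2
    have h3 := h2 1 (Finset.mem_univ _)
    rw [one_smul] at h3
    exact hvα (mul_self_eq_zero.1 h3)
  -- orbits on pairs
  let st := pairSetoid G Ω
  let _ : Fintype (Quotient st) := Fintype.ofFinite _
  set r : Quotient st → Ω × Ω := Quotient.out with hr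
  have hr1 : ∀ k k', same G (r k) (r k') → k = k' := by
    intro k k' h
    have := pair_sound h
    rwa [hr, Quotient.out_eq, Quotient.out_eq] at this
  have hr2 : ∀ p, ∃ k, same G (r k) p := fun p =>
    ⟨Quotient.mk st p, pair_exact (Quotient.out_eq _)⟩
  let κ := {q : Quotient st // (r q).1 ∈ O}
  set I : κ → Matrix Ω Ω ℚ := fun q => (ind G (r q.1)).map (Int.castRingHom ℚ) with hI
  have hIa : ∀ q α β, I q α β = ((ind G (r q.1) α β : ℤ) : ℚ) := fun _ _ _ => rfl
  have hIU : ∀ q, I q ∈ U := by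
    intro q
    refine ⟨ind_mem _, fun α hα β => ?_⟩
    rw [hIa, ind_apply_not]
    · exact Int.cast_zero
    · rintro ⟨g, h1, -⟩
      have h2 : g • (r q.1).1 = α := h1
      apply hα
      rw [← h2]
      exact hO g _ q.2
  have hIapp : ∀ q q' : κ, I q (r q'.1).1 (r q'.1).2 = if q = q' then 1 else 0 := by
    intro q q'
    rw [hIa]
    by_cases h : q = q'
    · rw [if_pos h, h, ind_apply_of _ _ _ (same_refl _)]
      exact Int.cast_one
    · rw [if_neg h, ind_apply_not]
      · exact Int.cast_zero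
      · intro h'
        exact h (Subtype.ext (hr1 _ _ h'))
  have hUspan : U ≤ Submodule.span ℚ (Set.range I) := by
    rintro T ⟨hT, hT'⟩
    rw [sum_ind hT r hr1 hr2]
    refine Submodule.sum_mem _ fun q _ => ?_
    by_cases hq : (r q).1 ∈ O
    · exact Submodule.smul_mem _ _ (Submodule.subset_span ⟨⟨q, hq⟩, rfl⟩)
    · rw [hT' _ hq, zero_smul]
      exact Submodule.zero_mem _
  have hUdim : Module.finrank ℚ U ≤ Fintype.card κ :=
    (Submodule.finrank_mono hUspan).trans (finrank_range_le_card _)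
  -- the box
  set fm : (κ → Fin (X + 1)) → Matrix Ω Ω ℚ := fun a => ∑ q, ((a q : ℕ) : ℚ) • I q with hfm
  have hfmapp : ∀ a q, fm a (r q.1).1 (r q.1).2 = ((a q : ℕ) : ℚ) := by
    intro a q
    have h0 : fm a = ∑ q, ((a q : ℕ) : ℚ) • I q := rfl
    rw [h0, Matrix.sum_apply, Finset.sum_eq_single q]
    · rw [Matrix.smul_apply, hIapp, if_pos rfl, smul_eq_mul, mul_one]
    · intro q' _ hq'
      rw [Matrix.smul_apply, hIapp, if_neg hq', smul_zero]
    · intro h
      exact absurd (Finset.mem_univ _) h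
  have hfmU : ∀ a, fm a ∈ U := fun a => U.sum_mem fun q _ => U.smul_mem _ (hIU q)
  have hfminj : Function.Injective fm := by
    intro a a' h
    funext q
    have h1 := hfmapp a q
    rw [h, hfmapp a' q] at h1
    have h2 : ((a' q : ℕ)) = (a q : ℕ) := by exact_mod_cast h1
    exact Fin.ext h2.symm
  have hfmint : ∀ a α β, ∃ z : ℕ, z ≤ X ∧ fm a α β = z := by
    intro a α β
    by_cases hα : α ∈ O
    · obtain ⟨q, hq⟩ := hr2 (α, β)
      have hqO : (r q).1 ∈ O := by
        obtain ⟨g, h1, -⟩ := hq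
        exact (hOiff g _).1 (by rw [h1]; exact hα)
      refine ⟨(a ⟨q, hqO⟩ : ℕ), Nat.lt_succ_iff.1 (a ⟨q, hqO⟩).2, ?_⟩
      rw [← hfmapp a ⟨q, hqO⟩]
      exact (comm_congr (hfmU a).1 hq).symm
    · refine ⟨0, Nat.zero_le _, ?_⟩
      rw [(hfmU a).2 α hα, Nat.cast_zero]
  set F : Finset (Matrix Ω Ω ℚ) := Finset.univ.image fm with hF
  have hFc : F.card = (X + 1) ^ Fintype.card κ := by
    rw [hF, Finset.card_image_of_injective _ hfminj, Finset.card_univ, Fintype.card_fun,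
      Fintype.card_fin]
  have hFmem : ∀ T ∈ F, ∃ a, T = fm a := by
    intro T hT
    obtain ⟨a, -, rfl⟩ := Finset.mem_image.1 hT
    exact ⟨a, rfl⟩
  have hFne : F.Nonempty := by
    rw [← Finset.card_pos, hFc]
    positivity
  -- the linear forms
  set φ : Ω → Matrix Ω Ω ℚ →ₗ[ℚ] ℚ := fun α =>
    { toFun := fun T => (T *ᵥ s ()) α
      map_add' := fun a b => by rw [add_mulVec, Pi.add_apply]
      map_smul' := fun c a => by rw [smul_mulVec, Pi.smul_apply, RingHom.id_apply] } with hφ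
  have hφapp : ∀ α T, φ α T = (T *ᵥ s ()) α := fun _ _ => rfl
  set A := 3 * N ^ 2 * (B + 1) with hA
  have hA1 : 1 ≤ A := Nat.succ_le_of_lt (by positivity)
  have hX1 : 1 ≤ X := le_trans (Nat.one_le_pow _ _ hA1) hX
  have hval : ∀ α, (F.image (φ α)).card ≤ A * X := by
    intro α
    refine (card_values F (φ α) (w () α) (N ^ 2 * B * X) (hw () α).1 ?_).trans ?_
    · intro T hT
      obtain ⟨a, rfl⟩ := hFmem T hT
      choose M hMX hM using hfmint a
      have hMat : fm a = (Matrix.of fun α β => (M α β : ℤ) : Matrix Ω Ω ℤ).map (Int.castRingHom ℚ) := by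
        ext α β
        rw [hM]
        simp
      obtain ⟨z, hz⟩ := hint (Matrix.of fun α β => (M α β : ℤ)) (by rw [← hMat]; exact (hfmU a).1) () α
      rw [← hMat] at hz
      refine ⟨z, hz, ?_⟩
      have h2 : |((fm a *ᵥ s ()) α : ℚ)| ≤ ∑ _β : Ω, (X : ℚ) * B := by
        rw [mulVec, dotProduct]
        refine (Finset.abs_sum_le_sum_abs _ _).trans (Finset.sum_le_sum fun β _ => ?_)
        rw [abs_mul]
        refine mul_le_mul ?_ (hB () β) (abs_nonneg _) (Nat.cast_nonneg _)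
        rw [hM, Nat.abs_cast]
        exact_mod_cast hMX α β
      rw [Finset.sum_const, nsmul_eq_mul, Finset.card_univ] at h2
      have h3 : |(z : ℚ)| ≤ ((N ^ 2 * B * X : ℕ) : ℚ) := by
        rw [← hz, abs_mul, Nat.abs_cast]
        have h4 : ((w () α : ℕ) : ℚ) ≤ N := by exact_mod_cast (hw () α).2
        calc (w () α : ℚ) * |((fm a *ᵥ s ()) α : ℚ)|
            ≤ N * (N * ((X : ℚ) * B)) :=
              mul_le_mul h4 h2 (abs_nonneg _) (Nat.cast_nonneg _)
          _ = ((N ^ 2 * B * X : ℕ) : ℚ) := by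
              push_cast
              ring
      have h5 : ((|z| : ℤ) : ℚ) ≤ (((N ^ 2 * B * X : ℕ) : ℤ) : ℚ) := by
        rw [Int.cast_abs]
        exact_mod_cast h3
      exact_mod_cast h5
    · have h1 : 1 ≤ N ^ 2 * X := Nat.mul_pos (by positivity) hX1
      nlinarith
  -- dimensions
  have hWU : Module.finrank ℚ (U ⊓ ann s : Submodule ℚ (Matrix Ω Ω ℚ)) ≤ Module.finrank ℚ U :=
    Submodule.finrank_mono inf_le_left
  obtain ⟨c, hc⟩ := Nat.exists_eq_add_of_le hWU
  have hcO : c ≤ O.card := by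
    let L : U →ₗ[ℚ] (O → ℚ) := LinearMap.pi fun α => (φ α.1).domRestrict U
    have h1 := LinearMap.finrank_range_add_finrank_ker L
    have h2 : Module.finrank ℚ (LinearMap.range L) ≤ O.card := by
      refine (Submodule.finrank_le _).trans (le_of_eq ?_)
      rw [Module.finrank_fintype_fun_eq_card, Fintype.card_coe]
    have h3 : Module.finrank ℚ (LinearMap.ker L) ≤
        Module.finrank ℚ (U ⊓ ann s : Submodule ℚ (Matrix Ω Ω ℚ)) := by
      have h4 : Submodule.map U.subtype (LinearMap.ker L) ≤ U ⊓ ann s := by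
        rintro _ ⟨⟨T, hT⟩, hT2, rfl⟩
        refine ⟨hT, fun j => ?_⟩
        ext α
        by_cases hα : α ∈ O
        · exact congrFun hT2 ⟨α, hα⟩
        · change (T *ᵥ s j) α = 0
          rw [mulVec, dotProduct]
          exact Finset.sum_eq_zero fun β _ => by rw [hT.2 α hα, zero_mul]
      refine le_trans (le_of_eq ?_) (Submodule.finrank_mono h4)
      exact (Submodule.equivMapOfInjective U.subtype (Submodule.subtype_injective U)
        (LinearMap.ker L)).finrank_eq
    omega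
  obtain ⟨F', hF', hF'c, hF'd⟩ := exists_coset φ (U ⊓ ann s) (by
      rintro T hT α
      rw [hφapp, hT.2 ()]
      rfl) (A * X) c U inf_le_left (by
      intro T hT h
      refine ⟨hT, fun j => ?_⟩
      ext α
      exact h α) hc F hFne (by
      intro T hT T' hT'
      obtain ⟨a, rfl⟩ := hFmem T hT
      obtain ⟨a', rfl⟩ := hFmem T' hT'
      exact U.sub_mem (hfmU a) (hfmU a')) hval
  set ψ : Ω × Ω → Matrix Ω Ω ℚ →ₗ[ℚ] ℚ := fun q =>
    { toFun := fun T => T q.1 q.2
      map_add' := fun a b => rfl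
      map_smul' := fun c a => rfl } with hψ
  have hF'c2 : F'.card ≤ (X + 1) ^ Module.finrank ℚ
      (U ⊓ ann s ⊓ I₀ : Submodule ℚ (Matrix Ω Ω ℚ)) := by
    refine card_le_pow ψ _ ?_ (X + 1) (by omega) F' ?_ ?_
    · intro T _ h
      ext α β
      exact h (α, β)
    · intro T hT T' hT'
      have h1 := hF'd T hT T' hT'
      refine ⟨h1, ?_⟩
      obtain ⟨a, rfl⟩ := hFmem T (hF' hT)
      obtain ⟨a', rfl⟩ := hFmem T' (hF' hT')
      refine mem_rows_small h1.1.1 h1.2 fun α β => ?_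
      obtain ⟨z, hz, hz'⟩ := hfmint a α β
      obtain ⟨y, hy, hy'⟩ := hfmint a' α β
      refine ⟨(z : ℤ) - y, ?_, ?_⟩
      · rw [abs_le]
        constructor <;> omega
      · rw [Matrix.sub_apply, hz', hy']
        push_cast
        ring
    · rintro ⟨α, β⟩
      have h1 : F'.image (ψ (α, β)) ⊆ (Finset.range (X + 1)).image fun z : ℕ => (z : ℚ) := by
        intro y hy
        obtain ⟨T, hT, rfl⟩ := Finset.mem_image.1 hy
        obtain ⟨a, rfl⟩ := hFmem T (hF' hT)
        obtain ⟨z, hz, hz'⟩ := hfmint a α β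
        exact Finset.mem_image.2 ⟨z, Finset.mem_range.2 (by omega), hz'.symm⟩
      refine (Finset.card_le_card h1).trans (Finset.card_image_le.trans ?_)
      rw [Finset.card_range]
  have hlt : Module.finrank ℚ (U ⊓ ann s ⊓ I₀ : Submodule ℚ (Matrix Ω Ω ℚ)) <
      Module.finrank ℚ (U ⊓ ann s : Submodule ℚ (Matrix Ω Ω ℚ)) := by
    refine Submodule.finrank_lt_finrank_of_lt (lt_of_le_of_ne inf_le_left ?_)
    intro h
    have h1 : T0 ∈ (U ⊓ ann s : Submodule ℚ (Matrix Ω Ω ℚ)) := ⟨hT0U, hT0ann⟩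
    rw [← h] at h1
    exact hT0r h1.2
  -- the count
  set d := Module.finrank ℚ (U ⊓ ann s : Submodule ℚ (Matrix Ω Ω ℚ)) with hd
  set d' := Module.finrank ℚ (U ⊓ ann s ⊓ I₀ : Submodule ℚ (Matrix Ω Ω ℚ)) with hd'
  have h1 : (X + 1) ^ (d + c) ≤ (A * X) ^ c * (X + 1) ^ d' := by
    calc (X + 1) ^ (d + c) ≤ (X + 1) ^ Fintype.card κ :=
          Nat.pow_le_pow_right (by omega) (by omega)
      _ = F.card := hFc.symm
      _ ≤ (A * X) ^ c * F'.card := hF'c
      _ ≤ _ := Nat.mul_le_mul_left _ hF'c2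
  have h2 : (A * X) ^ c * (X + 1) ^ d' < (X + 1) ^ (d + c) := by
    have h3 : A ^ c ≤ X := (Nat.pow_le_pow_right hA1 hcO).trans hX
    calc (A * X) ^ c * (X + 1) ^ d' = A ^ c * X ^ c * (X + 1) ^ d' := by rw [mul_pow]
      _ ≤ X * (X + 1) ^ c * (X + 1) ^ d' := by
          gcongr
          omega
      _ < (X + 1) * (X + 1) ^ c * (X + 1) ^ d' := by
          have h4 : 0 < (X + 1) ^ c * (X + 1) ^ d' := by positivity
          have h5 : X * ((X + 1) ^ c * (X + 1) ^ d') < (X + 1) * ((X + 1) ^ c * (X + 1) ^ d') :=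
            Nat.mul_lt_mul_of_pos_right (by omega) h4
          rw [mul_assoc, mul_assoc]
          exact h5
      _ = (X + 1) ^ (d' + 1 + c) := by ring
      _ ≤ (X + 1) ^ (d + c) := Nat.pow_le_pow_right (by omega) (by omega)
  exact absurd h1 (not_le.2 h2)

end Pool.Agent.Q271.ZC
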