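import Mathlib
import Pool.Agent.Q271.ZC.OrbB

/-!
# A bound independent of the number of orbits
-/

set_option autoImplicit false

namespace Pool.Agent.Q271.ZC

open Matrix

variable {G : Type} [Group G]

/-- the complement of an invariant subset -/
@[reducible] def subAct {Ω : Type} [MulAction G Ω] (P : Ω → Prop)
    (hP : ∀ (g : G) α, P α → P (g • α)) : MulAction G {α : Ω // P α} where
  smul g x := ⟨g • x.1, hP g x.1 x.2⟩
  one_smul x := Subtype.ext (one_smul G x.1)
  mul_smul g h x := Subtype.ext (mul_smul g h x.1)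

theorem bound_ind [Finite G] (N B Y : ℕ)
    (hY : Real.exp (20 * (N : ℝ) ^ (2 / 3 : ℝ) * Real.log (3 * N * (B + 1))) ≤ Y) :
    ∀ n ≤ N, ∀ (Ω : Type) [Fintype Ω] [DecidableEq Ω] [MulAction G Ω], Fintype.card Ω = n →
    ∀ (s : Unit → Ω → ℚ) (w : Unit → Ω → ℕ), (∀ j α, 1 ≤ w j α ∧ w j α ≤ orb G α) →
    (∀ j α, |s j α| ≤ B) →
    (∀ T : Matrix Ω Ω ℤ, T.map (Int.castRingHom ℚ) ∈ comm G Ω → ∀ j α,
      ∃ z : ℤ, (w j α : ℚ) * (T.map (Int.castRingHom ℚ)).mulVec (s j) α = z) →
    relQ G s ≤ small G s Y := by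
  intro n
  induction n using Nat.strong_induction_on with
  | _ n ih =>
  intro hnN Ω _ _ _ hcard s w hw hB hint
  classical
  rcases Nat.eq_zero_or_pos n with h0 | hn
  · intro ν _
    have : IsEmpty Ω := Fintype.card_eq_zero_iff.1 (by rw [hcard, h0])
    have h1 : ν = 0 := by
      ext α
      exact isEmptyElim α
    rw [h1]
    exact Submodule.zero_mem _
  have hNr : (1 : ℝ) ≤ N := by exact_mod_cast le_trans (Nat.succ_le_of_lt hn) hnN
  have hnr : (1 : ℝ) ≤ n := by exact_mod_cast hn
  have hnNr : (n : ℝ) ≤ N := by exact_mod_cast hnN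
  have hB0 : (0 : ℝ) ≤ B := Nat.cast_nonneg B
  let Q := Quotient (MulAction.orbitRel G Ω)
  let _ : Fintype Q := Fintype.ofFinite _
  set t := Fintype.card Q with ht
  obtain ⟨eq⟩ : Nonempty (Fin t ≃ Q) := ⟨(Fintype.equivFin Q).symm⟩
  have hne : Nonempty Ω := Fintype.card_pos_iff.1 (by omega)
  have ht1 : 1 ≤ t := by
    obtain ⟨α⟩ := hne
    exact Fintype.card_pos_iff.2 ⟨Quotient.mk _ α⟩
  have htr : (1 : ℝ) ≤ t := by exact_mod_cast ht1
  have hl3 : 1 ≤ Real.log 3 := by
    rw [Real.le_log_iff_exp_le (by norm_num)]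
    exact Real.exp_one_lt_d9.le.trans (by norm_num)
  have hlog1 : Real.log (3 * n * (B + 1)) ≤ Real.log (3 * N * (B + 1)) := by
    apply Real.log_le_log (by positivity)
    gcongr
  have hlog0 : 0 ≤ Real.log (3 * n * (B + 1)) := by
    apply Real.log_nonneg
    nlinarith
  have hp0 : 0 ≤ (N : ℝ) ^ (2 / 3 : ℝ) := by positivity
  set u : ℝ := (N : ℝ) ^ (2 / 3 : ℝ) with hu
  have hu2 : u * u = (N : ℝ) ^ (4 / 3 : ℝ) := by
    rw [hu, ← Real.rpow_add (by linarith)]
    norm_num
  have hu3 : (N : ℝ) ^ (4 / 3 : ℝ) * u = (N : ℝ) * N := by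
    rw [hu, ← Real.rpow_add (by linarith)]
    have : (4 / 3 : ℝ) + 2 / 3 = (2 : ℕ) := by norm_num
    rw [this, Real.rpow_natCast]
    ring
  by_cases hcase : (t : ℝ) * n ≤ (N : ℝ) ^ (4 / 3 : ℝ)
  · refine core_real s t (fun i => (eq i).out) ?_ w ?_ B hB hint (by omega) Y ?_
    · intro α
      refine ⟨eq.symm (Quotient.mk _ α), ?_⟩
      rw [Equiv.apply_symm_apply]
      have h1 : (MulAction.orbitRel G Ω).r (Quotient.out (Quotient.mk (MulAction.orbitRel G Ω) α)) α :=
        Quotient.exact (Quotient.out_eq (Quotient.mk (MulAction.orbitRel G Ω) α))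
      obtain ⟨g, hg⟩ := h1
      refine ⟨g⁻¹, ?_⟩
      rw [← hg]
      exact inv_smul_smul _ _
    · exact fun j α => ⟨(hw j α).1, (hw j α).2.trans (orb_le α)⟩
    · refine le_trans (Real.exp_le_exp.2 ?_) hY
      rw [hcard]
      have h1 : Real.sqrt (t * n) ≤ u := by
        rw [Real.sqrt_le_left hp0, sq, hu2]
        exact hcase
      have h2 : 0 ≤ Real.sqrt (t * n) := Real.sqrt_nonneg _
      nlinarith [mul_le_mul h1 hlog1 hlog0 hp0]
  · push Not at hcase
    -- a small orbit
    obtain ⟨q, hq⟩ : ∃ q : Q, t * (Finset.univ.filter fun α : Ω => Quotient.mk _ α = q).card ≤ n := by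
      by_contra hall
      push Not at hall
      have h1 : ∑ q : Q, (Finset.univ.filter fun α : Ω => Quotient.mk _ α = q).card = n := by
        rw [← hcard, ← Finset.card_univ]
        exact (Finset.card_eq_sum_card_fiberwise fun α _ => Finset.mem_univ _).symm
      have h2 : ∑ _q : Q, n < ∑ q : Q, t * (Finset.univ.filter fun α : Ω => Quotient.mk _ α = q).card :=
        Finset.sum_lt_sum_of_nonempty (Finset.univ_nonempty_iff.2 (Fintype.card_pos_iff.1 (by omega)))
          fun q _ => hall q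
      rw [← Finset.mul_sum, h1, Finset.sum_const, Finset.card_univ, smul_eq_mul] at h2
      exact lt_irrefl _ h2
    set O : Finset Ω := Finset.univ.filter fun α : Ω => Quotient.mk _ α = q with hO
    have hOm : ∀ α, α ∈ O ↔ Quotient.mk (MulAction.orbitRel G Ω) α = q := by
      intro α
      rw [hO, Finset.mem_filter]
      exact ⟨fun h => h.2, fun h => ⟨Finset.mem_univ _, h⟩⟩
    have hmk : ∀ (g : G) α, Quotient.mk (MulAction.orbitRel G Ω) (g • α) = Quotient.mk _ α :=
      fun g α => Quotient.sound ⟨g, rfl⟩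
    have hOs : ∀ (g : G), ∀ α ∈ O, g • α ∈ O := by
      intro g α hα
      rw [hOm] at hα ⊢
      rw [hmk, hα]
    have hOs' : ∀ (g : G) α, α ∉ O → g • α ∉ O := by
      intro g α hα h
      apply hα
      rw [hOm] at h ⊢
      rwa [hmk] at h
    have hOne : O.Nonempty := ⟨q.out, by rw [hOm]; exact Quotient.out_eq q⟩
    refine orbit_bound s O hOs Y ?_ w (fun j α => ⟨(hw j α).1, (hw j α).2.trans (orb_le α)⟩) B hB
      hint ((3 * Fintype.card Ω ^ 2 * (B + 1)) ^ O.card) ?_ le_rfl (by omega)
    · -- induction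
      intro ν hν hν0
      let _ : MulAction G {α : Ω // α ∉ O} := subAct (fun α => α ∉ O) hOs'
      have hval : ∀ (g : G) (x : {α : Ω // α ∉ O}), (g • x).1 = g • x.1 := fun _ _ => rfl
      have hcard' : Fintype.card {α : Ω // α ∉ O} < n := by
        rw [← hcard]
        obtain ⟨α, hα⟩ := hOne
        exact Fintype.card_subtype_lt (x := α) (by simpa using hα)
      have hsum : ∀ f : Ω → ℚ, (∀ α ∈ O, f α = 0) → ∑ α, f α = ∑ x : {α : Ω // α ∉ O}, f x.1 := by
        intro f hf
        rw [← Finset.sum_subtype (Finset.univ.filter fun α => α ∉ O) (by simp) f,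
          Finset.sum_filter_of_ne]
        intro α _ h h'
        exact h (hf α h')
      have key := ih (Fintype.card {α : Ω // α ∉ O}) hcard' (by omega) {α : Ω // α ∉ O} rfl
        (fun j x => s j x.1) (fun j x => w j x.1) ?_ (fun j x => hB j x.1) ?_
      · have h1 : (fun x : {α : Ω // α ∉ O} => ν x.1) ∈ relQ G fun j (x : {α : Ω // α ∉ O}) => s j x.1 := by
          intro g j
          rw [← hν g j, hsum _ fun α hα => by rw [hν0 α hα, zero_mul]]
          exact Finset.sum_congr rfl fun x _ => rfl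
        have h2 := key h1
        -- extension by zero
        let ext0 : ({α : Ω // α ∉ O} → ℚ) →ₗ[ℚ] (Ω → ℚ) :=
          { toFun := fun f α => if h : α ∉ O then f ⟨α, h⟩ else 0
            map_add' := by
              intro f f'
              ext α
              by_cases h : α ∉ O
              · simp only [dif_pos h, Pi.add_apply]
              · simp only [dif_neg h, Pi.add_apply, add_zero]
            map_smul' := by
              intro c f
              ext α
              by_cases h : α ∉ O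
              · simp only [dif_pos h, Pi.smul_apply, RingHom.id_apply]
              · simp only [dif_neg h, Pi.smul_apply, RingHom.id_apply, smul_zero] }
        have he1 : ∀ f (x : {α : Ω // α ∉ O}), ext0 f x.1 = f x := fun f x => dif_pos x.2
        have he0 : ∀ f, ∀ α ∈ O, ext0 f α = 0 := fun f α hα => dif_neg (not_not.2 hα)
        have h3 : ext0 (fun x => ν x.1) = ν := by
          ext α
          by_cases h : α ∈ O
          · rw [he0 _ _ h, hν0 α h]
          · exact he1 _ ⟨α, h⟩
        rw [← h3]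
        have h4 : small G (fun j (x : {α : Ω // α ∉ O}) => s j x.1) Y ≤
            (small G s Y).comap ext0 := by
          unfold small
          rw [Submodule.span_le]
          rintro f ⟨hf1, hf2⟩
          refine Submodule.subset_span ⟨?_, ?_⟩
          · intro g j
            rw [hsum _ fun α hα => by rw [he0 _ _ hα, zero_mul], ← hf1 g j]
            exact Finset.sum_congr rfl fun x _ => by rw [he1]; rfl
          · intro α
            by_cases h : α ∈ O
            · exact ⟨0, by simp, by rw [he0 _ _ h, Int.cast_zero]⟩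
            · obtain ⟨z, hz, hz'⟩ := hf2 ⟨α, h⟩
              exact ⟨z, hz, by rw [← hz']; exact he1 _ ⟨α, h⟩⟩
        exact h4 h2
      · intro j x
        refine ⟨(hw j x.1).1, (hw j x.1).2.trans ?_⟩
        unfold orb
        refine Finset.card_le_card_of_surjOn (fun y : {α : Ω // α ∉ O} => y.1) ?_
        intro β hβ
        have hβ2 := (Finset.mem_filter.1 (Finset.mem_coe.1 hβ)).2
        obtain ⟨g, hg⟩ := hβ2
        refine ⟨⟨β, by rw [← hg]; exact hOs' g _ x.2⟩, ?_, rfl⟩
        exact Finset.mem_coe.2 (Finset.mem_filter.2 ⟨Finset.mem_univ _, g, Subtype.ext hg⟩)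
      · intro T hT j x
        set T' : Matrix Ω Ω ℤ := Matrix.of fun α β =>
          if h : α ∉ O ∧ β ∉ O then T ⟨α, h.1⟩ ⟨β, h.2⟩ else 0 with hT'
        have hT'1 : ∀ x y : {α : Ω // α ∉ O}, T' x.1 y.1 = T x y := fun x y => dif_pos ⟨x.2, y.2⟩
        have hT'0 : ∀ α β, ¬ (α ∉ O ∧ β ∉ O) → T' α β = 0 := fun α β h => dif_neg h
        have hT'c : T'.map (Int.castRingHom ℚ) ∈ comm G Ω := by
          intro g α β
          rw [map_apply, map_apply]
          by_cases h : α ∉ O ∧ β ∉ O
          · have h1 := hT'1 (g • ⟨α, h.1⟩) (g • ⟨β, h.2⟩)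
            rw [hval, hval] at h1
            have h2 := hT'1 ⟨α, h.1⟩ ⟨β, h.2⟩
            rw [h1, h2]
            exact hT g _ _
          · rw [hT'0 α β h, hT'0]
            rintro ⟨h1, h2⟩
            apply h
            constructor
            · intro h3
              exact h1 (hOs g α h3)
            · intro h3
              exact h2 (hOs g β h3)
        obtain ⟨z, hz⟩ := hint T' hT'c j x.1
        refine ⟨z, ?_⟩
        rw [← hz]
        congr 1
        rw [mulVec, mulVec, dotProduct, dotProduct, hsum]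
        · exact Finset.sum_congr rfl fun y _ => by rw [map_apply, map_apply, hT'1]
        · intro β hβ
          rw [map_apply, hT'0 _ _ fun h => h.2 hβ, map_zero, zero_mul]
    · -- numerics
      have h1 : ((3 * Fintype.card Ω ^ 2 * (B + 1) : ℕ) : ℝ) ≤
          Real.exp (2 * Real.log (3 * N * (B + 1))) := by
        rw [mul_comm (2 : ℝ), Real.exp_mul, Real.exp_log (by positivity), hcard]
        push_cast
        have h2 : ((3 * (N : ℝ) * (B + 1)) ^ (2 : ℝ)) = (3 * N * (B + 1)) ^ 2 := by
          norm_cast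
        rw [h2]
        have h3 : (1 : ℝ) ≤ B + 1 := by linarith
        calc 3 * (n : ℝ) ^ 2 * (B + 1) ≤ 3 * (N : ℝ) ^ 2 * (B + 1) := by gcongr
          _ ≤ 3 * (N : ℝ) ^ 2 * (B + 1) * (3 * (B + 1)) := by
            refine le_mul_of_one_le_right (by positivity) ?_
            linarith
          _ = _ := by ring
      have h4 : (O.card : ℝ) ≤ u := by
        have h5 : (t : ℝ) * O.card ≤ n := by exact_mod_cast hq
        have h6 : (n : ℝ) * ((t : ℝ) * O.card) ≤ (N : ℝ) * N := by nlinarith
        have h7 : (N : ℝ) ^ (4 / 3 : ℝ) * O.card ≤ (N : ℝ) ^ (4 / 3 : ℝ) * u := by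
          rw [hu3]
          calc (N : ℝ) ^ (4 / 3 : ℝ) * O.card ≤ (t * n) * O.card := by gcongr
            _ = (n : ℝ) * ((t : ℝ) * O.card) := by ring
            _ ≤ _ := h6
        exact le_of_mul_le_mul_left h7 (by positivity)
      have h8 : (((3 * Fintype.card Ω ^ 2 * (B + 1)) ^ O.card : ℕ) : ℝ) ≤ Y := by
        refine le_trans ?_ hY
        rw [Nat.cast_pow]
        calc ((3 * Fintype.card Ω ^ 2 * (B + 1) : ℕ) : ℝ) ^ O.card
            ≤ Real.exp (2 * Real.log (3 * N * (B + 1))) ^ O.card := by gcongr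
          _ = Real.exp (O.card * (2 * Real.log (3 * N * (B + 1)))) := by rw [← Real.exp_nat_mul]
          _ ≤ Real.exp (20 * u * Real.log (3 * N * (B + 1))) := by
            apply Real.exp_le_exp.2
            have h9 := hlog0.trans hlog1
            nlinarith [mul_le_mul_of_nonneg_right h4 h9, mul_nonneg hp0 h9]
      exact_mod_cast h8

/-- the two bounds -/
theorem bound [Finite G] {Ω : Type} [Fintype Ω] [DecidableEq Ω] [MulAction G Ω]
    (s : Unit → Ω → ℚ) (t : ℕ) (f : Fin t → Ω) (hf : ∀ α, ∃ i, ∃ g : G, g • f i = α)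
    (w : Unit → Ω → ℕ) (hw : ∀ j α, 1 ≤ w j α ∧ w j α ≤ orb G α)
    (B : ℕ) (hB : ∀ j α, |s j α| ≤ B)
    (hint : ∀ T : Matrix Ω Ω ℤ, T.map (Int.castRingHom ℚ) ∈ comm G Ω → ∀ j α,
      ∃ z : ℤ, (w j α : ℚ) * (T.map (Int.castRingHom ℚ)).mulVec (s j) α = z)
    (hN : 1 ≤ Fintype.card Ω) (Y : ℕ)
    (hY : Real.exp (20 * min (Real.sqrt (t * Fintype.card Ω))
      ((Fintype.card Ω : ℝ) ^ (2 / 3 : ℝ)) * Real.log (3 * Fintype.card Ω * (B + 1))) ≤ Y) :
    relQ G s ≤ small G s Y := by
  rcases min_choice (Real.sqrt (t * Fintype.card Ω)) ((Fintype.card Ω : ℝ) ^ (2 / 3 : ℝ)) with h | h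
  · rw [h] at hY
    exact core_real s t f hf w (fun j α => ⟨(hw j α).1, (hw j α).2.trans (orb_le α)⟩) B hB hint hN
      Y hY
  · rw [h] at hY
    exact bound_ind (Fintype.card Ω) B Y hY _ le_rfl Ω rfl s w hw hB hint

end Pool.Agent.Q271.ZC
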