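import Mathlib
import Pool.Agent.Q271.ZC.Def

/-!
# Statements of the lemma jobs of project ZC

Project ZC (helper271): on which power of an abelian variety the exotic Hodge classes (CM type) and
Tate classes (finite fields) appear; the exact growth is `exp (Θ (√g log g))` for simple abelian
varieties of dimension `g`. Prove the statements below, as theorems in your own folder.
-/

set_option autoImplicit false

namespace Pool.Agent.Q271.ZC

open NumberField Module Pool.Agent.H204R3.CM
open scoped Pointwise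

/-- JOB ZC-HL1. If all exponents of Hodge monomials on `∏ j, A (t j)` are invariant under complex
conjugation, then all Hodge classes are generated in degree two.

Proof: copy the proof of `Pool.Agent.H204R3.CM.hodge_of_nondeg` (file `Pool/Agent/H204R3/CM/Main.lean`)
and change the step `hbal` only. There `f` is expanded (`form_coeff`) as
`f v = ∑ I, c I * ∏ l, chi E t L (v l) (I l)`, and it must be shown that `c I ≠ 0` gives a perfect
matching `e` of the variables. `exists_matching` needs only that the function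
`N y = #{l | a l = y}`, `a l = ⟨t (I l).1, (I l).2⟩`, satisfies `N (bar y) = N y`. This follows
from the hypothesis applied to `c := N`: `HVec Φ j N` is `balanced_of_hodge` (as in the old proof),
and `N x ≤ #{a : J | t a = x.1}` holds because `I` is injective. `I` is injective: the coefficients
`c I` are unique (next remark), so `c (I ∘ σ) = sign σ * c I` for permutations `σ` of the variables
as `f` is alternating, and so `c I = 0` if `I l = I l'` for some `l ≠ l'` (characteristic zero).
Uniqueness of coefficients: if `∑ I, c I * ∏ l, chi E t L (v l) (I l) = 0` for all `v` then `c = 0`;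
apply `j` and use `formOf`, `formOf_single`, `span_chi` and `multilinear_ext_span` of
`Pool/Agent/H204R3/CM/Expand.lean` (see the proof of `balanced_of_type` there; the transport of
the index set from `L` to `ℂ` is `xEquiv` in `Coef.lean`). -/
def S_HL1 : Prop :=
  ∀ (ι J : Type) [Fintype ι] [Fintype J] (E : ι → Type) [∀ i, Field (E i)]
    [∀ i, NumberField (E i)] [∀ i, IsCMField (E i)] (L : Type) [Field L] [NumberField L]
    (Φ : ∀ i, Set (E i →+* ℂ)) (t : J → ι) (j : L →+* ℂ), (∀ i, IsCMType (Φ i)) →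
    (∀ i, ∀ ψ : E i →+* ℂ, ∃ φ : E i →+* L, j.comp φ = ψ) →
    (∀ c : (Σ i, (E i →+* L)) → ℕ, HVec Φ j c → (∀ x, c x ≤ Nat.card {a : J // t a = x.1}) →
      ∀ x, c (bar x) = c x) →
    Generated Φ t

/-- JOB ZC-HL2. The converse for simple, pairwise non-isogenous `A i`: an exponent of a Hodge
monomial that is not invariant under complex conjugation gives a Hodge class which is not generated
in degree two.

Proof. (1) `HVec` for `σ = 1` gives `∑ c = 2 m`. As `c x ≤ #{a : J | t a = x.1}` there is an
injective `I₀ : Fin m × Fin 2 → XX E t L` with `#{l | ⟨t (I₀ l).1, (I₀ l).2⟩ = x} = c x` for all `x`.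
(2) For `α : L` let `f_α (v) = Tr_{L/ℚ} (α * ∏ l, chi E t L (v l) (I₀ l))`, a rational multilinear
form on `∏ a, E (t a)`, and `f = alternatization f_α`. It satisfies `HodgeMul` (and so its
alternatization is Hodge, `HodgeMul.alternatization`): the real form is
`ψ (u) = Re ∑_{τ : L →+* ℂ} τ α * ∏ l, theta t hΦ (u l) ⟨(I₀ l).1, τ.comp (I₀ l).2⟩` (`theta`,
`theta_per`, `theta_smul` of `Expand.lean`); each `τ` is `j.comp σ`, `σ : L ≃ₐ[ℚ] L`, and by `HVec`
the numbers of factors multiplied by `z` and by `conj z` are equal, so `ψ (z u) = ψ (u)` if `|z| = 1`.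
(3) The coefficient of `f` at `I₀` (uniqueness of coefficients as in HL1) is
`∑_τ ± τ α`, the sum over the `τ : L ≃ₐ[ℚ] L` for which `τ I₀ = I₀ ∘ σ` for some permutation `σ`
(which is unique, as `I₀` is injective), and the term of `τ = 1` is `α`. By the linear
independence of the automorphisms (`linearIndependent_monoidHom` or
`linearIndependent_toLinearMap`) it is not zero for some `α`.
(4) If `f` is in the span, then some product `g` of forms `B l` has a coefficient `≠ 0` at `I₀`; the
coefficient of `g` is `∑_σ ± ∏ l, b_l (I₀ (σ (l, 0)), I₀ (σ (l, 1)))` where `b_l` are the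
coefficients of `B l`. By `balanced_of_hodge` (with `κ = Fin 2`) `b_l (x, y) ≠ 0` implies that
`sg (σ x) + sg (σ y) = 0` for all `σ`, so `RedL` (and `sg (σ (bar y)) = - sg (σ y)`) gives
`⟨t x.1, x.2⟩ = bar ⟨t y.1, y.2⟩`. So the variables are matched in pairs `x, bar x` and
`c (bar x) = c x` for all `x`, a contradiction. -/
def S_HL2 : Prop :=
  ∀ (ι J : Type) [Fintype ι] [Fintype J] (E : ι → Type) [∀ i, Field (E i)]
    [∀ i, NumberField (E i)] [∀ i, IsCMField (E i)] (L : Type) [Field L] [NumberField L]
    [IsGalois ℚ L] (Φ : ∀ i, Set (E i →+* ℂ)) (t : J → ι) (j : L →+* ℂ),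
    (∀ i, IsCMType (Φ i)) → (∀ i, ∀ ψ : E i →+* ℂ, ∃ φ : E i →+* L, j.comp φ = ψ) →
    RedL Φ j → ∀ c : (Σ i, (E i →+* L)) → ℕ, HVec Φ j c →
    (∀ x, c x ≤ Nat.card {a : J // t a = x.1}) → (∃ x, c (bar x) ≠ c x) →
    ¬ Generated Φ t

/-- JOB ZC-SF. CM fields with extraspecial Galois groups times `ℤ/3`, the complex conjugation being
the central involution.

Proof. (1) Choose integers `A i > 1` (`i < k`) such that the `2 k` numbers `A i`, `A i - 1` are
independent modulo squares of rational numbers: for distinct odd primes `p i`, `p' i` take (Chinese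
remainder theorem) `A i ≡ p i (mod p i ^ 2)`, `A i ≡ 1 + p' i (mod p' i ^ 2)` and `A i ≡ 2` modulo
the other primes `p j`, `p' j`: the matrix of valuations modulo 2 at these primes is the identity.
(2) In `ℂ` (or `AlgebraicClosure ℚ` with an embedding) let `r i = √(A i)`, `s i = √(A i - 1)` (real),
`M = ℚ(r i, s i : i < k)`, `θ i = A i + r i` and `δ ^ 2 = - ∏ θ i`, `L₀ = M(δ)`. `M` is totally real
and multiquadratic of degree `2 ^ (2 k)`, with an automorphism for each choice of signs (induction
or Kummer theory). All conjugates of `θ i` are `> 0` (`A i > √(A i)`), so `- ∏ θ i` is negative in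
all embeddings: `[L₀ : M] = 2`, `L₀` is totally complex. As
`σ θ i / θ i = (r i s i / θ i) ^ 2` if `σ (r i) = - r i` (indeed `(A - r)(A + r) = A ^ 2 - A = (r s)^2`),
`L₀` is normal over `ℚ`, of degree `2 ^ (2 k + 1)`, and for each `g = (e, a, b)` in
`EG (Fin k → ZMod 2)` (with `b i := b (Pi.single i 1)`) there is exactly one automorphism of `L₀` with
`r i ↦ (-1)^(a i) r i`, `s i ↦ (-1)^(a i + b i) s i`, `δ ↦ (-1)^e δ ∏_{a i = 1} (r i s i / θ i)`
(lift the automorphism of `M`; the two lifts differ by the sign of `δ`). These automorphisms compose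
as the elements of `EG`: for `g` after `g'` the image of `δ` is
`(-1)^(e + e') δ ∏_{a i = 1} (r i s i / θ i) ∏_{a' i = 1} ((-1)^(b i) r i s i / (A i + (-1)^(a i) r i))`,
and for `a i = a' i = 1` the product of the two factors is `(-1)^(b i)`. So
`Gal (L₀ / ℚ) ≃ EG (Fin k → ZMod 2)`; the complex conjugation is the identity on `M` and
`δ ↦ - δ`, that is `⟨1, 0, 0⟩`, for every embedding.
(3) `L = L₀ C` with a totally real cyclic cubic field `C` (for instance inside `ℚ(ζ₇)` or `ℚ(ζ₉)`, or
the splitting field of `x³ - 3x + 1`): the restriction `Gal (L/ℚ) → Gal (L₀/ℚ) × Gal (C/ℚ)` is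
injective, and surjective since the order of `Gal (L/ℚ)` is divisible by the coprime numbers
`2 ^ (2 k + 1)` and `3`. The element of order two which is the identity on `C` and on `M` is the
complex conjugation for every embedding. -/
def S_field : Prop :=
  ∀ k : ℕ, ∃ (L : Type) (_ : Field L) (_ : NumberField L) (_ : IsGalois ℚ L)
    (e : (L ≃ₐ[ℚ] L) ≃* EG (Fin k → ZMod 2) × Multiplicative (ZMod 3)),
    ∀ φ : L →+* ℂ, ComplexEmbedding.IsConj φ (e.symm (⟨1, 0, 0⟩, 1))

/-- JOB ZC-SP. In a Galois number field some prime ideal of prime norm has only the trivial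
decomposition group, and the product of its conjugates is `(p)`.

Proof. Let `θ : 𝓞 L` generate `L` over `ℚ` and `h` its minimal polynomial over `ℤ`. There are
infinitely many primes `p` dividing some value `h (n)` (Schur; or `n` runs through the multiples
of `h (0) D`), so one of them does not divide `D = ∏_{σ ≠ τ} (σ θ - τ θ)` (an integer; or its norm). Let
`p ∣ h (n) = ∏ (n - σ θ)`: some prime ideal `v` above `p` contains `n - θ`. If `σ v = v`, then `v`
contains `n - σ θ` and `θ - σ θ`, so `σ = 1`. So the `σ v` are `[L : ℚ]` different prime ideals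
above `p`, and `p` splits completely (`∑ e f = [L : ℚ]`, see
`Ideal.ncard_primesOver_mul_ramificationIdxIn_mul_inertiaDegIn` in Mathlib or compare norms: the
product of the `σ v` divides `(p)` and its norm is at least `p ^ [L : ℚ]`). -/
def S_split : Prop :=
  ∀ (L : Type) [Field L] [NumberField L] [IsGalois ℚ L], ∃ (p : ℕ) (v : Ideal (𝓞 L)),
    p.Prime ∧ v.IsPrime ∧ Ideal.absNorm v = p ∧ (∀ σ : L ≃ₐ[ℚ] L, σ • v = v → σ = 1) ∧
      ∏ σ : L ≃ₐ[ℚ] L, σ • v = Ideal.span {(p : 𝓞 L)}

/-- JOB ZC-WE. Ordinary Weil numbers of a given CM type.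

Proof. Let `h` be the class number and `I = ∏_{σ ∈ S} σ v`, `I ^ h = (α₀)`. By the hypotheses
`I * c I = ∏_σ σ v = (p)`, so `α₀ * c α₀ = u p ^ h` with a unit `u`, which is fixed by the complex
conjugation `c` and positive in all embeddings. Put `α₁ = α₀ ^ 2 / u`: then
`α₁ * c α₁ = α₀ ^ 2 (c α₀) ^ 2 / u ^ 2 = p ^ (2 h)`, so `|φ α₁| ^ 2 = p ^ (2 h)` for all `φ`
(`φ (c x)` is the complex conjugate of `φ x`), and `(α₁) = I ^ (2 h)`. Let `w` be the number of roots
of unity in `L` and `α = α₁ ^ w`, `a = 2 h w`: if `(∏ (σ α) ^ n σ) ^ N = 1`, then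
`ζ = ∏ (σ α₁) ^ n σ` is a root of unity, so `1 = ζ ^ w = ∏ (σ α) ^ n σ`. -/
def S_weil : Prop :=
  ∀ (L : Type) [Field L] [NumberField L] [IsGalois ℚ L] (c : L ≃ₐ[ℚ] L),
    (∀ φ : L →+* ℂ, ComplexEmbedding.IsConj φ c) → ∀ (p : ℕ) (v : Ideal (𝓞 L)),
    p.Prime → v.IsPrime → ∏ σ : L ≃ₐ[ℚ] L, σ • v = Ideal.span {(p : 𝓞 L)} →
    ∀ S : Finset (L ≃ₐ[ℚ] L), (∀ σ, σ ∈ S ↔ c * σ ∉ S) →
    ∃ (a : ℕ) (α : 𝓞 L), 0 < a ∧ Ideal.span {α} = ∏ σ ∈ S, (σ • v) ^ a ∧
      (∀ φ : L →+* ℂ, ‖φ (α : L)‖ ^ 2 = (p : ℝ) ^ a) ∧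
      ∀ (n : (L ≃ₐ[ℚ] L) → ℤ) (N : ℕ), 0 < N → (∏ σ, (σ (α : L)) ^ n σ) ^ N = 1 →
        ∏ σ, (σ (α : L)) ^ n σ = 1

/-- JOB ZC-HT. From the local condition of Honda and Tate in the field `ℚ(β)` to a Galois extension:
the length of the orbit of `β` under the decomposition group of `v` is the local degree of `ℚ(β)`.

Proof. Let `K = ℚ(β) ⊆ L` and `y = β` as an element of `𝓞 K`, `w = v ∩ 𝓞 K`, with ramification
index `e₁` and residue degree `f₁` over `p`. The hypothesis gives `a ∣ m * f₁ * ord_w (β)`. Now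
`ord_v (β) = e (v/w) ord_w (β)`, `ord_v (p) = e (v/w) e₁`, and the orbit of `β` under the
decomposition group `D` of `v` has `[D : D ∩ Gal (L/K)] = (e f)(v/p) / (e f)(v/w) = e₁ f₁` elements:
see `Mathlib/NumberTheory/RamificationInertia/Galois.lean` (the order of the stabilizer of a prime
is `e f`, over `ℚ` and over `K`). So
`ord_v (p) * a ∣ e (v/w) * e₁ * m * f₁ * ord_w (β) = #(D β) * m * ord_v (β)`. -/
def S_HT : Prop :=
  ∀ (L : Type) [Field L] [NumberField L] [IsGalois ℚ L] (p : ℕ) (v : Ideal (𝓞 L)), p.Prime →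
    v.IsPrime → (p : 𝓞 L) ∈ v → ∀ (β : 𝓞 L), β ≠ 0 → ∀ a m : ℕ,
    (∀ (K : Type) [Field K] [NumberField K] (y : 𝓞 K) (i : K →+* L), i (y : K) = (β : L) →
      Algebra.adjoin ℚ {(y : K)} = ⊤ → ∀ (w : Ideal (𝓞 K)) (f : ℕ), w.IsPrime → 0 < f →
      Ideal.absNorm w = p ^ f → a ∣ m * f * multiplicity w (Ideal.span {y})) →
    multiplicity v (Ideal.span {(p : 𝓞 L)}) * a ∣
      Nat.card {γ : 𝓞 L // ∃ σ : L ≃ₐ[ℚ] L, σ • v = v ∧ σ • β = γ} * m *
        multiplicity v (Ideal.span {β})

/-- JOB ZC-KR. Multiplicative relations between Weil numbers in terms of valuations.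

Proof. (→) Take the valuations of `g (∏ α ^ (c α)) = q ^ m` at `v`. (←) Let
`u = ∏ α ^ (2 c α) / q ^ (∑ c)`. Its valuations at all the conjugates of `v`, that is at all primes
above `p` (transitivity: Mathlib `RamificationInertia/Galois.lean`), are zero by assumption; the
`α` divide a power of `p` (since `α * conj α = q` in `ℂ`: `q / α` is an algebraic integer; `L` need not be a
CM field, but `q / φ α = conj (φ α)` is integral), so `u` is a unit, and `|φ u| = 1` for all
embeddings `φ`. So `u` is a root of unity (Kronecker, `NumberField.Embeddings.pow_eq_one_of_norm_eq_one`),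
and `u = 1` by the last hypothesis. Here the family `α x` is indexed by a finite type `Ω`; `k x = q / α x`
is a member of the family (`bar x`), so `q` is in the group generated by the `α x`. -/
def S_KR : Prop :=
  ∀ (L : Type) [Field L] [NumberField L] [IsGalois ℚ L] (p a : ℕ) (v : Ideal (𝓞 L)), p.Prime →
    0 < a → v.IsPrime → (p : 𝓞 L) ∈ v → ∀ (Ω : Type) [Fintype Ω] (α : Ω → 𝓞 L) (br : Ω → Ω),
    (∀ (x : Ω) (φ : L →+* ℂ), ‖φ (α x : L)‖ ^ 2 = (p : ℝ) ^ a) →
    (∀ x, α x * α (br x) = (p : 𝓞 L) ^ a) →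
    (∀ (n : Ω → ℤ) (N : ℕ), 0 < N → (∏ x, (α x : L) ^ n x) ^ N = 1 →
      ∏ x, (α x : L) ^ n x = 1) →
    ∀ c : Ω → ℕ,
      (∏ x, α x ^ (2 * c x) = ((p : 𝓞 L) ^ a) ^ (∑ x, c x) ↔
        ∀ σ : L ≃ₐ[ℚ] L, ∑ x, (c x : ℤ) * (2 * (multiplicity v (Ideal.span {σ • α x}) : ℤ) -
          a * multiplicity v (Ideal.span {(p : 𝓞 L)})) = 0)

/-- JOB ZC-TL1. If there are no exotic Tate monomials on the `n`-th power, all Tate classes on it are
generated in degree two.

Proof. `K` is algebraically closed and `F` is semisimple, so `V ^ n` has a basis `e_x` of eigenvectors of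
`F ^ (n)`, with eigenvalues `z x`, and each `z` occurs `n * rootMultiplicity z` times. Expand `f` in
the monomials in the dual basis: the coefficient at `I : Fin m × Fin 2 → X` is `f (e ∘ I)`, it is zero
if `I` is not injective, and `f (F v) = q ^ m f v` shows that `∏ l, z (I l) = q ^ m` if it is
not zero. For the function `c z = #{l | z (I l) = z}` this gives (as it is not exotic)
`c z = c (q / z)` for all `z`; the pairs `z ≠ q / z` can be matched, and if `z² = q` then `c z` is
even (compare the signs in the product `∏ z ^ c z = q ^ m`). So the variables are matched in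
pairs with `z x * z y = q` (see `exists_matching` in `Pool/Agent/H204R3/CM/Match.lean` for
involutions without fixed points, and the end of the proof of `hodge_of_nondeg` in `Main.lean` for the
passage from the products of bilinear forms to alternating forms: alternate both sides). -/
def S_TL1 : Prop :=
  ∀ (K V : Type) [Field K] [CharZero K] [IsAlgClosed K] [AddCommGroup V] [Module K V]
    [FiniteDimensional K V] (F : V →ₗ[K] V) (q n : ℕ), 0 < q → Module.End.IsSemisimple F →
    (∀ c : K →₀ ℕ, ¬ ExoticVec q (fun z => n * F.charpoly.rootMultiplicity z) c) →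
    TateGenerated (F.compLeft (Fin n)) q

/-- JOB ZC-TL2. An exotic Tate monomial gives a Tate class that is not generated in degree two.

Proof. With an eigenbasis as in TL1 choose an injective `I₀ : Fin m × Fin 2 → X` with
`#{l | z (I₀ l) = z} = c z` and let `f` be the alternating form which is the alternatization of
`∏ l, e*_{I₀ l} (v l)`. It satisfies `f (F v) = q ^ m f v` and `f (e ∘ I₀) ≠ 0`. A product `g` of forms
`B l` of degree two has `g (e ∘ I₀) = ∑_σ ± ∏ l, B l (e_{I₀ (σ (l, 0))}, e_{I₀ (σ (l, 1))})`, and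
`B l (e_x, e_y) ≠ 0` implies `z x * z y = q`; so `g (e ∘ I₀) ≠ 0` would give a perfect matching
of the variables with `z x * z y = q` and so `c z = c (q / z)` for all `z` (for `z = 0`
also, since `q / 0 = 0`), a contradiction. -/
def S_TL2 : Prop :=
  ∀ (K V : Type) [Field K] [CharZero K] [IsAlgClosed K] [AddCommGroup V] [Module K V]
    [FiniteDimensional K V] (F : V →ₗ[K] V) (q n : ℕ), 0 < q → Module.End.IsSemisimple F →
    ∀ c : K →₀ ℕ, ExoticVec q (fun z => n * F.charpoly.rootMultiplicity z) c →
    ¬ TateGenerated (F.compLeft (Fin n)) q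

end Pool.Agent.Q271.ZC
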