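import Mathlib
import Pool.Agent.Q271.ZC.Min
import Pool.Agent.Q271.ZC.Stm
import Pool.Agent.H977R3.CM.Aut
import Pool.Agent.H204R3.CM.Nondeg

/-!
# The Galois group acting on the embeddings of a family of fields; exotic exponents
-/

set_option autoImplicit false
set_option linter.unusedSectionVars false

namespace Pool.Agent.Q271.ZC

open NumberField Module Pool.Agent.H204R3.CM

section

variable {ι : Type} {E : ι → Type} [∀ i, Field (E i)] {L : Type} [Field L] [NumberField L]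

/-- composition of embeddings with automorphisms of the Galois closure -/
@[reducible] def galAct : MulAction (L ≃ₐ[ℚ] L) (Σ i, (E i →+* L)) where
  smul σ x := ⟨x.1, (σ : L →+* L).comp x.2⟩
  one_smul x := by
    obtain ⟨i, φ⟩ := x
    rfl
  mul_smul σ τ x := by
    obtain ⟨i, φ⟩ := x
    rfl

/-- the embeddings of a number field into a Galois number field are conjugate -/
theorem exists_conj [IsGalois ℚ L] {F : Type} [Field F] [NumberField F] (φ ψ : F →+* L) :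
    ∃ σ : L ≃ₐ[ℚ] L, (σ : L →+* L).comp φ = ψ := by
  let φ' : F →ₐ[ℚ] L := φ.toRatAlgHom
  let ψ' : F →ₐ[ℚ] L := ψ.toRatAlgHom
  obtain ⟨θ, hθ⟩ := Field.exists_primitive_element ℚ F
  have hint : IsIntegral ℚ θ := Algebra.IsIntegral.isIntegral θ
  have h1 : minpoly ℚ (φ' θ) = minpoly ℚ (ψ' θ) := by
    rw [minpoly.algHom_eq φ' φ'.injective, minpoly.algHom_eq ψ' ψ'.injective]
  obtain ⟨σ, hσ⟩ := (Normal.minpoly_eq_iff_mem_orbit (F := ℚ) (E := L)).1 h1.symm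
  refine ⟨σ, ?_⟩
  have h3 : Algebra.adjoin ℚ {θ} = ⊤ := by
    rw [← IntermediateField.adjoin_simple_toSubalgebra_of_isAlgebraic hint.isAlgebraic, hθ,
      IntermediateField.top_toSubalgebra]
  have h2 : (σ : L →ₐ[ℚ] L).comp φ' = ψ' := by
    refine AlgHom.ext_of_adjoin_eq_top h3 ?_
    intro x hx
    rw [Set.mem_singleton_iff.1 hx]
    exact hσ
  ext x
  exact AlgHom.congr_fun h2 x

theorem sg_bar [∀ i, NumberField (E i)] [∀ i, IsCMField (E i)] {Φ : ∀ i, Set (E i →+* ℂ)}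
    (hΦ : ∀ i, IsCMType (Φ i)) (j : L →+* ℂ) (x : Σ i, (E i →+* L)) :
    sg Φ j (bar x) = - sg Φ j x := by
  classical
  have h1 : j.comp (cbar x.2) = ComplexEmbedding.conjugate (j.comp x.2) := comp_cbar _ _
  have h2 := hΦ x.1 (j.comp x.2)
  have h3 : j.comp (bar x).2 ∈ Φ (bar x).1 ↔ j.comp x.2 ∉ Φ x.1 := by
    change j.comp (cbar x.2) ∈ Φ x.1 ↔ _
    rw [h1, h2, not_not]
  unfold sg
  by_cases h : j.comp x.2 ∈ Φ x.1
  · rw [if_pos h, if_neg (by rw [h3]; exact not_not.2 h)]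
  · rw [if_neg h, if_pos (h3.2 h), neg_neg]

theorem bar_bar [∀ i, NumberField (E i)] [∀ i, IsCMField (E i)] (x : Σ i, (E i →+* L)) :
    bar (bar x) = x := by
  obtain ⟨i, φ⟩ := x
  change (⟨i, cbar (cbar φ)⟩ : Σ i, (E i →+* L)) = ⟨i, φ⟩
  rw [cbar_cbar]

theorem abs_sg (Φ : ∀ i, Set (E i →+* ℂ)) (j : L →+* ℂ) (x : Σ i, (E i →+* L)) :
    |((sg Φ j x : ℤ) : ℚ)| ≤ (1 : ℕ) := by
  unfold sg
  split_ifs <;> norm_num

/-- from exotic exponents to small exotic exponents -/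
theorem exotic_small [Fintype ι] [∀ i, NumberField (E i)] [∀ i, IsCMField (E i)] [IsGalois ℚ L]
    {Φ : ∀ i, Set (E i →+* ℂ)} (hΦ : ∀ i, IsCMType (Φ i)) (j : L →+* ℂ) (N : ℕ)
    (hN : 1 ≤ Fintype.card ι) (hL : ∀ i, ∀ ψ : E i →+* ℂ, ∃ φ : E i →+* L, j.comp φ = ψ)
    (Y : ℕ) (hY : Real.exp (20 * min (Real.sqrt (Fintype.card ι * ∑ i, finrank ℚ (E i) : ℕ))
      (((∑ i, finrank ℚ (E i) : ℕ) : ℝ) ^ (2 / 3 : ℝ)) *
        Real.log (3 * (∑ i, finrank ℚ (E i) : ℕ) * (1 + 1))) ≤ Y)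
    (hYN : 2 * Y ≤ N)
    (c : (Σ i, (E i →+* L)) → ℕ) (hc : HVec Φ j c) (hne : ∃ x, c (bar x) ≠ c x) :
    ∃ c' : (Σ i, (E i →+* L)) → ℕ, HVec Φ j c' ∧ (∀ x, c' x ≤ N) ∧ ∃ x, c' (bar x) ≠ c' x := by
  classical
  let _ : MulAction (L ≃ₐ[ℚ] L) (Σ i, (E i →+* L)) := galAct
  have hcard : Fintype.card (Σ i, (E i →+* L)) = ∑ i, finrank ℚ (E i) := by
    rw [Fintype.card_sigma]
    refine Finset.sum_congr rfl fun i _ => ?_
    rw [← Embeddings.card (E i) ℂ]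
    refine Fintype.card_of_bijective (f := fun φ : E i →+* L => j.comp φ) ⟨?_, hL i⟩
    intro φ ψ hφ
    ext x
    exact j.injective (RingHom.congr_fun hφ x)
  have hfin : Fintype.card ι ≤ ∑ i, finrank ℚ (E i) := by
    rw [← Finset.card_univ, Finset.card_eq_sum_ones]
    exact Finset.sum_le_sum fun i _ => Module.finrank_pos
  have key : relQ (L ≃ₐ[ℚ] L) (fun (_ : Unit) x => ((sg Φ j x : ℤ) : ℚ)) ≤
      small (L ≃ₐ[ℚ] L) (fun (_ : Unit) x => ((sg Φ j x : ℤ) : ℚ)) Y := by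
    let φ₀ : ∀ i, E i →+* L := fun i =>
      (hL i (Classical.choice (inferInstance : Nonempty (E i →+* ℂ)))).choose
    refine bound (fun (_ : Unit) x => ((sg Φ j x : ℤ) : ℚ)) (Fintype.card ι)
      (fun k => ⟨(Fintype.equivFin ι).symm k, φ₀ _⟩) ?_ (fun _ _ => 1) ?_ 1 (fun _ x => abs_sg Φ j x)
      ?_ (by rw [hcard]; omega) Y ?_
    · rintro ⟨i, φ⟩
      obtain ⟨k, rfl⟩ := (Fintype.equivFin ι).symm.surjective i
      obtain ⟨σ, hσ⟩ := exists_conj (φ₀ ((Fintype.equivFin ι).symm k)) φ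
      refine ⟨k, σ, ?_⟩
      rw [← hσ]
      rfl
    · exact fun _ x => ⟨le_rfl, orb_pos x⟩
    · intro T _ _ x
      refine ⟨∑ y, T x y * sg Φ j y, ?_⟩
      rw [Nat.cast_one, one_mul, Matrix.mulVec, dotProduct, Int.cast_sum]
      refine Finset.sum_congr rfl fun y _ => ?_
      rw [Int.cast_mul]
      rfl
    · rw [hcard]
      convert hY using 6
      all_goals push_cast
      all_goals rfl
  -- the relations with coefficients at most `Y`
  have hex : ∃ n ∈ relQ (L ≃ₐ[ℚ] L) (fun (_ : Unit) (x : Σ i, (E i →+* L)) => ((sg Φ j x : ℤ) : ℚ)),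
      (∀ x, ∃ z : ℤ, |z| ≤ Y ∧ n x = z) ∧ ∃ x, n (bar x) ≠ n x := by
    by_contra hall
    push Not at hall
    obtain ⟨x, hx⟩ := hne
    apply hx
    let Bal : Submodule ℚ ((Σ i, (E i →+* L)) → ℚ) :=
      { carrier := {n | ∀ x, n (bar x) = n x}
        add_mem' := fun ha hb x => by rw [Pi.add_apply, Pi.add_apply, ha x, hb x]
        zero_mem' := fun x => rfl
        smul_mem' := fun c a ha x => by rw [Pi.smul_apply, Pi.smul_apply, ha x] }
    have h1 : small (L ≃ₐ[ℚ] L) (fun (_ : Unit) (x : Σ i, (E i →+* L)) => ((sg Φ j x : ℤ) : ℚ)) Y ≤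
        Bal := Submodule.span_le.2 fun n hn => hall n hn.1 hn.2
    have h2 : (fun x => (c x : ℚ)) ∈
        relQ (L ≃ₐ[ℚ] L) (fun (_ : Unit) (x : Σ i, (E i →+* L)) => ((sg Φ j x : ℤ) : ℚ)) := by
      intro σ _
      have h3 := hc σ
      have h4 : ((∑ x, (c x : ℤ) * sg Φ j ⟨x.1, (σ : L →+* L).comp x.2⟩ : ℤ) : ℚ) = 0 := by
        rw [h3, Int.cast_zero]
      rw [← h4, Int.cast_sum]
      refine Finset.sum_congr rfl fun x _ => ?_
      rw [Int.cast_mul, Int.cast_natCast]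
      rfl
    have h3 := h1 (key h2) x
    exact_mod_cast h3
  obtain ⟨n, hn, hnz, x₀, hx₀⟩ := hex
  choose z hz hz' using hnz
  have hzY : ∀ x, 0 ≤ z x + Y := fun x => by
    have := (abs_le.1 (hz x)).1
    linarith
  have hcoe : ∀ x, (((z x + Y).toNat : ℕ) : ℤ) = z x + Y := fun x => Int.toNat_of_nonneg (hzY x)
  refine ⟨fun x => (z x + Y).toNat, ?_, ?_, x₀, ?_⟩
  · intro σ
    have h1 : ∑ x, z x * sg Φ j ⟨x.1, (σ : L →+* L).comp x.2⟩ = 0 := by
      have h3 := hn σ ()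
      have h4 : ((∑ x, z x * sg Φ j ⟨x.1, (σ : L →+* L).comp x.2⟩ : ℤ) : ℚ) = 0 := by
        rw [← h3, Int.cast_sum]
        refine Finset.sum_congr rfl fun x _ => ?_
        rw [Int.cast_mul, ← hz']
        rfl
      exact_mod_cast h4
    have h2 : ∑ x : Σ i, (E i →+* L), sg Φ j ⟨x.1, (σ : L →+* L).comp x.2⟩ = 0 := by
      have h3 : ∑ x : Σ i, (E i →+* L), sg Φ j ⟨x.1, (σ : L →+* L).comp x.2⟩ =
          - ∑ x : Σ i, (E i →+* L), sg Φ j ⟨x.1, (σ : L →+* L).comp x.2⟩ := by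
        rw [← Finset.sum_neg_distrib]
        refine Finset.sum_bij (fun x _ => bar x) (fun x _ => Finset.mem_univ _) ?_ ?_ ?_
        · intro x _ y _ hxy
          rw [← bar_bar x, ← bar_bar y, hxy]
        · intro y _
          exact ⟨bar y, Finset.mem_univ _, bar_bar y⟩
        · intro x _
          have h4 := sg_bar hΦ j ⟨x.1, (σ : L →+* L).comp x.2⟩
          have h5 : sg Φ j ⟨(bar x).1, (σ : L →+* L).comp (bar x).2⟩ =
            sg Φ j (bar ⟨x.1, (σ : L →+* L).comp x.2⟩) := rfl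
          rw [h5, h4, neg_neg]
      linarith
    have h3 : ∀ x : Σ i, (E i →+* L), (((z x + Y).toNat : ℕ) : ℤ) *
        sg Φ j ⟨x.1, (σ : L →+* L).comp x.2⟩ = z x * sg Φ j ⟨x.1, (σ : L →+* L).comp x.2⟩ +
          Y * sg Φ j ⟨x.1, (σ : L →+* L).comp x.2⟩ := fun x => by rw [hcoe, add_mul]
    rw [Finset.sum_congr rfl fun x _ => h3 x, Finset.sum_add_distrib, h1, ← Finset.mul_sum, h2,
      mul_zero, add_zero]
  · intro x
    have h1 := hcoe x
    have h2 := (abs_le.1 (hz x)).2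
    have h3 : ((2 * Y : ℕ) : ℤ) ≤ N := by exact_mod_cast hYN
    push_cast at h3
    have h4 : (((z x + Y).toNat : ℕ) : ℤ) ≤ N := by linarith
    exact_mod_cast h4
  · intro h
    apply hx₀
    rw [hz', hz']
    have h1 : (((z (bar x₀) + Y).toNat : ℕ) : ℤ) = (((z x₀ + Y).toNat : ℕ) : ℤ) := by
      exact_mod_cast h
    rw [hcoe, hcoe] at h1
    have h2 : z (bar x₀) = z x₀ := by linarith
    rw [h2]

end

end Pool.Agent.Q271.ZC
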