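import Mathlib
import Pool.Agent.Q271.ZC.Gal
import Pool.Agent.Q277.ZC.Hl2

/-!
# The upper bound for abelian varieties of CM type
-/

set_option autoImplicit false
set_option linter.unusedSectionVars false

namespace Pool.Agent.Q271.ZC

open NumberField Module Pool.Agent.H204R3.CM

theorem sg_eq_iff {ι : Type} {E : ι → Type} [∀ i, Field (E i)] {L : Type} [Field L]
    [NumberField L] (Φ : ∀ i, Set (E i →+* ℂ)) (j : L →+* ℂ) (x y : Σ i, (E i →+* L)) :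
    sg Φ j x = sg Φ j y ↔ (j.comp x.2 ∈ Φ x.1 ↔ j.comp y.2 ∈ Φ y.1) := by
  classical
  unfold sg
  by_cases h : j.comp x.2 ∈ Φ x.1 <;> by_cases h' : j.comp y.2 ∈ Φ y.1 <;> simp [h, h']

theorem redL_of_reduced {ι : Type} {E : ι → Type} [∀ i, Field (E i)] {L : Type} [Field L]
    [NumberField L] [IsGalois ℚ L] (Φ : ∀ i, Set (E i →+* ℂ)) (j : L →+* ℂ) (h : Reduced Φ) :
    RedL Φ j := by
  intro x y hxy
  have h1 : (⟨x.1, j.comp x.2⟩ : Σ i, (E i →+* ℂ)) = ⟨y.1, j.comp y.2⟩ := by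
    apply h
    intro σ
    obtain ⟨g, hg⟩ := Pool.Agent.H977R3.CM.exists_gal j σ
    have h2 := (sg_eq_iff Φ j ⟨x.1, (g : L →+* L).comp x.2⟩ ⟨y.1, (g : L →+* L).comp y.2⟩).1 (hxy g)
    have h3 : (σ : ℂ →+* ℂ).comp (j.comp x.2) = j.comp ((g : L →+* L).comp x.2) := by
      ext z
      exact hg _
    have h4 : (σ : ℂ →+* ℂ).comp (j.comp y.2) = j.comp ((g : L →+* L).comp y.2) := by
      ext z
      exact hg _
    change (σ : ℂ →+* ℂ).comp (j.comp x.2) ∈ Φ x.1 ↔ (σ : ℂ →+* ℂ).comp (j.comp y.2) ∈ Φ y.1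
    rw [h3, h4]
    exact h2
  obtain ⟨i, φ⟩ := x
  obtain ⟨i', ψ⟩ := y
  have h5 : i = i' := congrArg Sigma.fst h1
  subst h5
  have h6 : j.comp φ = j.comp ψ := eq_of_heq (Sigma.mk.inj_iff.1 h1).2
  congr 1
  ext z
  exact j.injective (RingHom.congr_fun h6 z)

/-- numerics -/
theorem num_up (k g N : ℕ) (hk : 1 ≤ k) (hg : 1 ≤ g)
    (hN : Real.exp (200 * min (Real.sqrt (k * g)) ((g : ℝ) ^ (2 / 3 : ℝ)) * Real.log (2 * g)) ≤ N) :
    ∃ Y : ℕ, Real.exp (20 * min (Real.sqrt (k * (2 * g : ℕ) : ℕ)) (((2 * g : ℕ) : ℝ) ^ (2 / 3 : ℝ)) *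
        Real.log (3 * (2 * g : ℕ) * (1 + 1))) ≤ Y ∧ 2 * Y ≤ N := by
  have hkr : (1 : ℝ) ≤ k := by exact_mod_cast hk
  have hgr : (1 : ℝ) ≤ g := by exact_mod_cast hg
  set M := min (Real.sqrt (k * g)) ((g : ℝ) ^ (2 / 3 : ℝ)) with hM
  set l := Real.log (2 * g) with hl
  have hM1 : 1 ≤ M := by
    rw [hM, le_min_iff]
    constructor
    · rw [← Real.sqrt_one]
      exact Real.sqrt_le_sqrt (by nlinarith)
    · exact Real.one_le_rpow hgr (by norm_num)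
  have hl1 : 0.69 ≤ l := by
    have h1 : Real.log 2 ≤ l := Real.log_le_log (by norm_num) (by linarith)
    have h2 := Real.log_two_gt_d9
    linarith
  have hM2 : min (Real.sqrt (k * (2 * g : ℕ) : ℕ)) (((2 * g : ℕ) : ℝ) ^ (2 / 3 : ℝ)) ≤ 2 * M := by
    rw [hM, mul_min_of_nonneg _ _ (by norm_num : (0 : ℝ) ≤ 2)]
    refine min_le_min ?_ ?_
    · push_cast
      have h1 : (2 : ℝ) * Real.sqrt (k * g) = Real.sqrt (4 * (k * g)) := by
        rw [show (4 : ℝ) * (k * g) = 2 ^ 2 * (k * g) by ring,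
          Real.sqrt_mul (show (0 : ℝ) ≤ 2 ^ 2 by norm_num), Real.sqrt_sq (by norm_num)]
      rw [h1]
      apply Real.sqrt_le_sqrt
      nlinarith [mul_nonneg (by linarith : (0 : ℝ) ≤ k) (by linarith : (0 : ℝ) ≤ g)]
    · push_cast
      rw [Real.mul_rpow (by norm_num) (by linarith)]
      have h1 : (2 : ℝ) ^ (2 / 3 : ℝ) ≤ 2 := by
        calc (2 : ℝ) ^ (2 / 3 : ℝ) ≤ (2 : ℝ) ^ (1 : ℝ) :=
              Real.rpow_le_rpow_of_exponent_le (by norm_num) (by norm_num)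
          _ = 2 := Real.rpow_one 2
      gcongr
  have hl2 : Real.log (3 * (2 * g : ℕ) * (1 + 1)) ≤ 4 * l := by
    rw [hl, ← Real.log_rpow (by linarith)]
    apply Real.log_le_log (by positivity)
    push_cast
    have h1 : ((2 : ℝ) * g) ^ (4 : ℝ) = (2 * g) ^ 4 := by norm_cast
    rw [h1]
    have h2 : (1 : ℝ) ≤ (g : ℝ) ^ 3 := one_le_pow₀ hgr
    nlinarith [mul_le_mul_of_nonneg_left h2 (by linarith : (0 : ℝ) ≤ g)]
  have hl3 : 0 ≤ Real.log (3 * (2 * g : ℕ) * (1 + 1)) := by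
    apply Real.log_nonneg
    push_cast
    nlinarith
  set E := 20 * min (Real.sqrt (k * (2 * g : ℕ) : ℕ)) (((2 * g : ℕ) : ℝ) ^ (2 / 3 : ℝ)) *
        Real.log (3 * (2 * g : ℕ) * (1 + 1)) with hE
  have hE1 : E ≤ 160 * (M * l) := by
    have h1 : min (Real.sqrt (k * (2 * g : ℕ) : ℕ)) (((2 * g : ℕ) : ℝ) ^ (2 / 3 : ℝ)) *
        Real.log (3 * (2 * g : ℕ) * (1 + 1)) ≤ (2 * M) * (4 * l) :=
      mul_le_mul hM2 hl2 hl3 (by linarith)
    rw [hE]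
    nlinarith
  have hE0 : 0 ≤ E := by
    rw [hE]
    have h1 : 0 ≤ min (Real.sqrt (k * (2 * g : ℕ) : ℕ)) (((2 * g : ℕ) : ℝ) ^ (2 / 3 : ℝ)) :=
      le_min (Real.sqrt_nonneg _) (by positivity)
    positivity
  refine ⟨⌈Real.exp E⌉₊, Nat.le_ceil _, ?_⟩
  have h1 : (⌈Real.exp E⌉₊ : ℝ) < Real.exp E + 1 := Nat.ceil_lt_add_one (Real.exp_pos E).le
  have h2 : 1 ≤ Real.exp E := Real.one_le_exp hE0
  have h3 : (4 : ℝ) ≤ Real.exp 2 := by
    have h4 : Real.exp 2 = Real.exp 1 * Real.exp 1 := by rw [← Real.exp_add]; norm_num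
    have h5 := Real.exp_one_gt_d9
    rw [h4]
    nlinarith
  have h4 : (2 : ℝ) + E ≤ 200 * M * l := by nlinarith [mul_le_mul hM1 hl1 (by norm_num) (by linarith)]
  have h5 : ((2 * ⌈Real.exp E⌉₊ : ℕ) : ℝ) ≤ N := by
    push_cast
    calc (2 : ℝ) * ⌈Real.exp E⌉₊ ≤ 4 * Real.exp E := by linarith
      _ ≤ Real.exp 2 * Real.exp E := by gcongr
      _ = Real.exp (2 + E) := (Real.exp_add _ _).symm
      _ ≤ Real.exp (200 * M * l) := Real.exp_le_exp.2 h4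
      _ ≤ N := hN
  exact_mod_cast h5

theorem hodge_up (hl1 : S_HL1) : ∃ C : ℝ, 0 < C ∧
    ∀ (ι J : Type) [Fintype ι] [Fintype J] (E : ι → Type) [∀ i, Field (E i)]
      [∀ i, NumberField (E i)] [∀ i, IsCMField (E i)] (Φ : ∀ i, Set (E i →+* ℂ)),
      (∀ i, IsCMType (Φ i)) → Reduced Φ → ∀ t : J → ι, Function.Surjective t →
      ∀ g : ℕ, ∑ i, finrank ℚ (E i) = 2 * g → ∀ N : ℕ,
      Real.exp (C * min (Real.sqrt (Fintype.card ι * g)) ((g : ℝ) ^ (2 / 3 : ℝ)) *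
        Real.log (2 * g)) ≤ N →
      Generated Φ (fun x : J × Fin N => t x.1) → ∀ n, Generated Φ (fun x : J × Fin n => t x.1) := by
  refine ⟨200, by norm_num, ?_⟩
  intro ι J _ _ E _ _ _ Φ hΦ hred t ht g hg N hN hgen n
  obtain ⟨L, _, _, j, hL⟩ := exists_galois E
  refine hl1 ι (J × Fin n) E L Φ _ j hΦ hL ?_
  intro c hc _
  by_contra hne
  push Not at hne
  obtain ⟨x, hx⟩ := hne
  have hk : 1 ≤ Fintype.card ι := Fintype.card_pos_iff.2 ⟨x.1⟩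
  have hg1 : 1 ≤ g := by
    have h1 : 0 < ∑ i, finrank ℚ (E i) := by
      refine Finset.sum_pos (fun i _ => Module.finrank_pos) ⟨x.1, Finset.mem_univ _⟩
    omega
  obtain ⟨Y, hY, hYN⟩ := num_up (Fintype.card ι) g N hk hg1 hN
  rw [← hg] at hY
  obtain ⟨c', hc', hle, y, hy⟩ := exotic_small hΦ j N hk hL Y (by exact_mod_cast hY) hYN c hc ⟨x, hx⟩
  refine Pool.Agent.Q277.ZC.hl2 ι (J × Fin N) E L Φ _ j hΦ hL (redL_of_reduced Φ j hred) c' hc' ?_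
    ⟨y, hy⟩ hgen
  intro z
  obtain ⟨a, ha⟩ := ht z.1
  refine (hle z).trans ?_
  have h1 : Nat.card (Fin N) ≤ Nat.card {a : J × Fin N // t a.1 = z.1} :=
    Nat.card_le_card_of_injective (fun k : Fin N => ⟨(a, k), ha⟩) (by
      intro k k' h
      exact congrArg (fun u : {a : J × Fin N // t a.1 = z.1} => u.1.2) h)
  rwa [Nat.card_eq_fintype_card, Fintype.card_fin] at h1

end Pool.Agent.Q271.ZC
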