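import Mathlib

/-!
# A sparse matrix indexed by the plane over a finite field of characteristic two

The left kernel of the matrix is generated by a vector with very large entries, and the entries on
each diagonal (`row + column` constant) are the Fourier transform of a function with values
`± 1, ± 3`.
-/

set_option autoImplicit false
set_option linter.unusedSectionVars false

namespace Pool.Agent.Q271.ZC.Low

variable {F : Type} [Field F] [Fintype F] [DecidableEq F]

/-- the parameters: a generator of the multiplicative group and an auxiliary element -/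
structure Dat (F : Type) [Field F] where
  om : F
  et : F
  two : (2 : F) = 0
  om0 : om ≠ 0
  om1 : om ≠ 1
  gen : ∀ x : F, x ≠ 0 → ∃ i : ℕ, x = om ^ i
  et0 : et ≠ 0
  et1 : et ≠ 1
  oe : 1 + om * (1 + et) ≠ 0

namespace Dat

variable (d : Dat F)

/-- the factor `1 + η` -/
def be : F := 1 + d.et

include d in
theorem add_self (x : F) : x + x = 0 := by
  rw [← two_mul, d.two, zero_mul]

theorem be0 : d.be ≠ 0 := by
  intro h
  apply d.et1
  have h1 : (1 : F) + d.et = 0 := h
  have h2 := d.add_self 1
  have h3 : (1 : F) + d.et = 1 + 1 := by rw [h1, h2]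
  exact add_left_cancel h3

include d in
theorem add_eq_zero {x y : F} : x + y = 0 ↔ x = y := by
  constructor
  · intro h
    have h2 := d.add_self y
    exact add_right_cancel (h.trans h2.symm)
  · rintro rfl
    exact d.add_self x

/-- the predecessor -/
def pr (p : F × F) : F × F :=
  if p.1 = 0 then (if p.2 = 1 then (0, 0) else (d.om⁻¹, d.om⁻¹ * p.2))
  else if p.1 = 1 then (0, p.2) else (d.om⁻¹ * p.1, p.2)

/-- the row of the large entry in a column -/
def R (q : F × F) : F × F := if q.2 = 0 then (d.et⁻¹ * q.1, 0) else d.pr (q.1, d.be⁻¹ * q.2)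

/-- the row of the small entry in a column -/
def P (q : F × F) : F × F := (q.1, d.be⁻¹ * q.2)

/-- the columns with the label `a` -/
def lab (a : F × F) : Finset (F × F) := Finset.univ.filter fun q => q ≠ 0 ∧ d.R q + q = a

/-- large entries -/
def K0 (r q : F × F) : ℤ := if q ≠ 0 ∧ r = d.R q then 1 else 0

/-- correction of the parity -/
def K1 (r q : F × F) : ℤ := if r = (1, 0) ∧ Even (d.lab (r + q)).card then 1 else 0

/-- small entries -/
def Sm (r q : F × F) : ℤ := if q.2 ≠ 0 ∧ r = d.P q then 1 else 0

/-- the matrix -/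
def M (r q : F × F) : ℤ := Fintype.card F * (d.K0 r q + d.K1 r q) - 2 * d.Sm r q

include d in
theorem add_self' (q : F × F) : q + q = 0 := by
  ext
  · exact d.add_self _
  · exact d.add_self _

include d in
theorem add_eq {r q a : F × F} : r + q = a ↔ r = q + a := by
  constructor
  · rintro rfl
    rw [add_comm r q, ← add_assoc, d.add_self', zero_add]
  · rintro rfl
    rw [add_comm, ← add_assoc, d.add_self', zero_add]

theorem lab_zero {α : F} : (d.lab (α, 0)) = if α = 0 then ∅ else {(d.et * α * d.be⁻¹, 0)} := by
  ext q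
  obtain ⟨x, w⟩ := q
  have h2 : ∀ z : F, d.et⁻¹ * z + z = α ↔ z = d.et * α * d.be⁻¹ := by
    intro z
    have h3 : d.et⁻¹ * z + z = z * d.be * d.et⁻¹ := by
      unfold be
      field_simp [d.et0]
    rw [h3]
    constructor
    · intro h
      rw [← h]
      have := d.et0
      have := d.be0
      field_simp
    · intro h
      rw [h]
      have := d.et0
      have := d.be0
      field_simp
  have h5 : (x, w) ∈ d.lab (α, 0) ↔ w = 0 ∧ x ≠ 0 ∧ x = d.et * α * d.be⁻¹ := by
    unfold lab
    rw [Finset.mem_filter]
    constructor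
    · rintro ⟨-, hq, h⟩
      by_cases hw : w = 0
      · subst hw
        refine ⟨rfl, ?_, ?_⟩
        · intro hx
          apply hq
          rw [hx]
          rfl
        · unfold R at h
          rw [if_pos rfl] at h
          have h4 := congrArg Prod.fst h
          exact (h2 x).1 h4
      · exfalso
        unfold R at h
        rw [if_neg hw] at h
        have h4 := congrArg Prod.snd h
        have h6 : (d.pr (x, d.be⁻¹ * w)).2 + w = 0 := h4
        rw [d.add_eq_zero] at h6
        unfold pr at h6
        by_cases hx : x = 0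
        · simp only [hx, if_true] at h6
          by_cases hy : d.be⁻¹ * w = 1
          · rw [if_pos hy] at h6
            exact hw h6.symm
          · rw [if_neg hy] at h6
            have h7 : d.om⁻¹ * (d.be⁻¹ * w) = w := h6
            have h8 : d.om * d.be = 1 := by
              have h9 : d.om⁻¹ * d.be⁻¹ = 1 := by
                apply mul_right_cancel₀ hw
                rw [one_mul, mul_assoc]
                exact h7
              have h10 : d.om * d.be * (d.om⁻¹ * d.be⁻¹) = 1 := by
                have := d.om0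
                have := d.be0
                field_simp
              rw [h9, mul_one] at h10
              exact h10
            apply d.oe
            unfold be at h8
            rw [h8]
            exact d.add_self 1
        · simp only [hx, if_false] at h6
          have h7 : d.be⁻¹ * w = w := by
            by_cases hx1 : x = 1
            · rw [if_pos hx1] at h6
              exact h6
            · rw [if_neg hx1] at h6
              exact h6
          have h8 : d.be⁻¹ = 1 := mul_right_cancel₀ hw (h7.trans (one_mul w).symm)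
          have h9 : d.be = 1 := inv_eq_one.1 h8
          apply d.et0
          unfold be at h9
          have h10 : (1 : F) + d.et = 1 + 0 := by rw [h9, add_zero]
          exact add_left_cancel h10
    · rintro ⟨rfl, hx, h⟩
      refine ⟨Finset.mem_univ _, fun h' => hx (congrArg Prod.fst h'), ?_⟩
      unfold R
      rw [if_pos rfl]
      have h4 := (h2 x).2 h
      ext
      · exact h4
      · exact add_zero 0
  rw [h5]
  by_cases hα : α = 0
  · rw [if_pos hα]
    constructor
    · rintro ⟨_, hx, h⟩
      exfalso
      apply hx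
      rw [h, hα, mul_zero, zero_mul]
    · intro h
      exact absurd h (Finset.notMem_empty _)
  · rw [if_neg hα, Finset.mem_singleton, Prod.mk_inj]
    constructor
    · rintro ⟨h, _, h'⟩
      exact ⟨h', h⟩
    · rintro ⟨h, h'⟩
      refine ⟨h', ?_, h⟩
      rw [h]
      exact mul_ne_zero (mul_ne_zero d.et0 hα) (inv_ne_zero d.be0)

theorem card_lab_zero {α : F} (hα : α ≠ 0) : (d.lab (α, 0)).card = 1 := by
  rw [d.lab_zero, if_neg hα, Finset.card_singleton]

theorem sum_K0 (x : F × F → ℤ) (q : F × F) :
    ∑ r, x r * d.K0 r q = if q ≠ 0 then x (d.R q) else 0 := by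
  unfold K0
  by_cases hq : q = 0
  · simp only [hq, ne_eq, not_true_eq_false, false_and, if_false, mul_zero,
      Finset.sum_const_zero]
  · simp only [ne_eq, hq, not_false_eq_true, true_and, if_true, mul_ite, mul_one, mul_zero]
    rw [Finset.sum_ite_eq' Finset.univ (d.R q), if_pos (Finset.mem_univ _)]

theorem sum_K1 (x : F × F → ℤ) (q : F × F) :
    ∑ r, x r * d.K1 r q = if Even (d.lab ((1, 0) + q)).card then x (1, 0) else 0 := by
  unfold K1
  rw [Finset.sum_eq_single (1, 0)]
  · by_cases h : Even (d.lab ((1, 0) + q)).card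
    · rw [if_pos ⟨rfl, h⟩, if_pos h, mul_one]
    · rw [if_neg (fun h' => h h'.2), if_neg h, mul_zero]
  · intro r _ hr
    rw [if_neg (fun h' => hr h'.1), mul_zero]
  · intro h
    exact absurd (Finset.mem_univ _) h

theorem sum_Sm (x : F × F → ℤ) (q : F × F) :
    ∑ r, x r * d.Sm r q = if q.2 ≠ 0 then x (d.P q) else 0 := by
  unfold Sm
  by_cases hq : q.2 = 0
  · simp only [hq, ne_eq, not_true_eq_false, false_and, if_false, mul_zero,
      Finset.sum_const_zero]
  · simp only [ne_eq, hq, not_false_eq_true, true_and, if_true, mul_ite, mul_one, mul_zero]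
    rw [Finset.sum_ite_eq' Finset.univ (d.P q), if_pos (Finset.mem_univ _)]

theorem sum_M (x : F × F → ℤ) (q : F × F) :
    ∑ r, x r * d.M r q = Fintype.card F * ((if q ≠ 0 then x (d.R q) else 0) +
      (if Even (d.lab ((1, 0) + q)).card then x (1, 0) else 0)) -
        2 * (if q.2 ≠ 0 then x (d.P q) else 0) := by
  rw [← d.sum_K0, ← d.sum_K1, ← d.sum_Sm, ← Finset.sum_add_distrib, Finset.mul_sum,
    Finset.mul_sum, ← Finset.sum_sub_distrib]
  refine Finset.sum_congr rfl fun r _ => ?_
  unfold M
  ring

theorem cardF : (Fintype.card F : ℤ) ≠ 0 := by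
  exact_mod_cast Fintype.card_ne_zero

/-- the equations of the left kernel -/
theorem ker_one {x : F × F → ℤ} (h : ∀ q, ∑ r, x r * d.M r q = 0) : x (1, 0) = 0 := by
  have h1 := h (d.et, 0)
  rw [d.sum_M] at h1
  have h2 : (d.et, (0 : F)) ≠ 0 := fun h' => d.et0 (congrArg Prod.fst h')
  have h3 : ((1 : F), (0 : F)) + (d.et, 0) = (d.be, 0) := by
    ext
    · rfl
    · exact add_zero 0
  rw [if_pos h2, h3, d.card_lab_zero d.be0, if_neg (by decide), if_neg (by simp)] at h1
  have h4 : d.R (d.et, 0) = (1, 0) := by
    unfold R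
    rw [if_pos rfl]
    ext
    · exact inv_mul_cancel₀ d.et0
    · rfl
  rw [h4, add_zero, mul_zero, sub_zero] at h1
  exact (mul_eq_zero.1 h1).resolve_left cardF

theorem ker_zero {x : F × F → ℤ} (h : ∀ q, ∑ r, x r * d.M r q = 0) (a : F) (ha : a ≠ 0) :
    x (a, 0) = 0 := by
  have h1 := h (d.et * a, 0)
  rw [d.sum_M, d.ker_one h] at h1
  have h2 : (d.et * a, (0 : F)) ≠ 0 := fun h' => (mul_ne_zero d.et0 ha) (congrArg Prod.fst h')
  rw [if_pos h2, ite_self, add_zero, if_neg (by simp), mul_zero, sub_zero] at h1
  have h4 : d.R (d.et * a, 0) = (a, 0) := by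
    unfold R
    rw [if_pos rfl]
    ext
    · exact inv_mul_cancel_left₀ d.et0 a
    · rfl
  rw [h4] at h1
  exact (mul_eq_zero.1 h1).resolve_left cardF

theorem ker_step {x : F × F → ℤ} (h : ∀ q, ∑ r, x r * d.M r q = 0) (p : F × F) (hp : p.2 ≠ 0) :
    2 * x p = Fintype.card F * x (d.pr p) := by
  have h1 := h (p.1, d.be * p.2)
  rw [d.sum_M, d.ker_one h, ite_self, add_zero] at h1
  have h0 : d.be * p.2 ≠ 0 := mul_ne_zero d.be0 hp
  have h2 : (p.1, d.be * p.2) ≠ 0 := fun h' => h0 (congrArg Prod.snd h')
  rw [if_pos h2, if_pos h0] at h1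
  have h3 : d.P (p.1, d.be * p.2) = p := by
    unfold P
    ext
    · rfl
    · exact inv_mul_cancel_left₀ d.be0 p.2
  have h4 : d.R (p.1, d.be * p.2) = d.pr p := by
    unfold R
    rw [if_neg h0]
    exact congrArg d.pr h3
  rw [h3, h4] at h1
  linarith

/-- the column `0` is zero -/
theorem M_zero (r : F × F) : d.M r 0 = 0 := by
  unfold M K0 K1 Sm
  rw [if_neg (fun h => h.1 rfl), if_neg, if_neg (fun h => h.1 rfl)]
  · rfl
  · rintro ⟨rfl, h⟩
    rw [add_zero, d.card_lab_zero one_ne_zero] at h
    exact absurd h (by decide)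

theorem exists_ker : ∃ x : F × F → ℤ, x ≠ 0 ∧ ∀ q, ∑ r, x r * d.M r q = 0 := by
  have h1 : (Matrix.of d.M).det = 0 := Matrix.det_eq_zero_of_column_eq_zero 0 fun i => d.M_zero i
  obtain ⟨v, hv, hv2⟩ := Matrix.exists_vecMul_eq_zero_iff.2 h1
  refine ⟨v, hv, fun q => ?_⟩
  have h2 := congrFun hv2 q
  exact h2

end Dat

end Pool.Agent.Q271.ZC.Low
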