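import Mathlib
import Pool.Agent.Q271.ZC.LowA

/-!
# The diagonals of the sparse matrix
-/

set_option autoImplicit false
set_option linter.unusedSectionVars false

namespace Pool.Agent.Q271.ZC.Low

/-- the sign character -/
def sgn (x : ZMod 2) : ℤ := if x = 0 then 1 else -1

theorem sgn_add (x y : ZMod 2) : sgn (x + y) = sgn x * sgn y := by
  revert x y
  decide

theorem sgn_zero : sgn 0 = 1 := rfl
theorem sgn_one : sgn 1 = -1 := by decide

theorem sgn_sq (x : ZMod 2) : sgn x * sgn x = 1 := by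
  revert x
  decide

theorem sgn_abs (x : ZMod 2) : |sgn x| = 1 := by
  revert x
  decide

theorem sgn_cases (x : ZMod 2) : sgn x = 1 ∨ sgn x = -1 := by
  revert x
  decide

theorem eq_one_of_ne (x : ZMod 2) (h : x ≠ 0) : x = 1 := by
  revert x
  decide

section dual

variable {V : Type} [AddCommGroup V] [Fintype V]

instance finDual : Finite (V →+ ZMod 2) :=
  Finite.of_injective (fun f => (f : V → ZMod 2)) DFunLike.coe_injective

noncomputable instance fintypeDual : Fintype (V →+ ZMod 2) := Fintype.ofFinite _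

theorem exists_dual (h2 : ∀ v : V, v + v = 0) (v : V) (hv : v ≠ 0) : ∃ b : V →+ ZMod 2, b v = 1 := by
  let _ : Module (ZMod 2) V := AddCommGroup.zmodModule (n := 2) (fun x => by rw [two_nsmul, h2])
  have h := (Module.forall_dual_apply_eq_zero_iff (ZMod 2) v).not.2 hv
  push Not at h
  obtain ⟨φ, hφ⟩ := h
  exact ⟨φ.toAddMonoidHom, eq_one_of_ne _ hφ⟩

theorem card_dual (h2 : ∀ v : V, v + v = 0) : Fintype.card (V →+ ZMod 2) = Fintype.card V := by
  let _ : Module (ZMod 2) V := AddCommGroup.zmodModule (n := 2) (fun x => by rw [two_nsmul, h2])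
  have h1 : Nat.card (V →+ ZMod 2) = Nat.card (Module.Dual (ZMod 2) V) := by
    refine Nat.card_congr ⟨fun f => AddMonoidHom.toZModLinearMap 2 f, fun f => f.toAddMonoidHom, ?_, ?_⟩
    · intro f
      ext x
      rfl
    · intro f
      ext x
      rfl
  rw [← Nat.card_eq_fintype_card, h1, ← Nat.card_eq_fintype_card,
    Module.natCard_eq_pow_finrank (K := ZMod 2) (V := Module.Dual (ZMod 2) V),
    Module.natCard_eq_pow_finrank (K := ZMod 2) (V := V), Subspace.dual_finrank_eq]

theorem sum_sgn_dual (h2 : ∀ v : V, v + v = 0) (v : V) [Decidable (v = 0)] :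
    ∑ b : V →+ ZMod 2, sgn (b v) = if v = 0 then (Fintype.card V : ℤ) else 0 := by
  by_cases hv : v = 0
  · rw [if_pos hv, hv]
    simp only [map_zero, sgn_zero, Finset.sum_const, Finset.card_univ, nsmul_eq_mul, mul_one]
    rw [card_dual h2]
  · rw [if_neg hv]
    obtain ⟨b0, hb⟩ := exists_dual h2 v hv
    have h1 : ∑ b : V →+ ZMod 2, sgn (b v) = ∑ b : V →+ ZMod 2, sgn ((b + b0) v) :=
      (Equiv.sum_comp (Equiv.addRight b0) (fun b : V →+ ZMod 2 => sgn (b v))).symm
    have h3 : ∑ b : V →+ ZMod 2, sgn ((b + b0) v) = -∑ b : V →+ ZMod 2, sgn (b v) := by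
      rw [← Finset.sum_neg_distrib]
      refine Finset.sum_congr rfl fun b _ => ?_
      rw [AddMonoidHom.add_apply, sgn_add, hb, sgn_one, mul_neg_one]
    rw [h3] at h1
    linarith

end dual

variable {F : Type} [Field F] [Fintype F] [DecidableEq F]

theorem sum_line (b : F × F →+ ZMod 2) (v : F) [Decidable (∀ x : F, b (x, 0) = 0)] :
    ∑ x : F, sgn (b (x, v)) = Fintype.card F * (if ∀ x : F, b (x, 0) = 0 then sgn (b (0, v)) else 0) := by
  have h0 : ∀ x : F, b (x, v) = b (x, 0) + b (0, v) := by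
    intro x
    rw [← map_add]
    congr 1
    ext
    · exact (add_zero x).symm
    · exact (zero_add v).symm
  by_cases h : ∀ x : F, b (x, 0) = 0
  · rw [if_pos h]
    have h1 : ∀ x : F, sgn (b (x, v)) = sgn (b (0, v)) := by
      intro x
      rw [h0 x, h x, zero_add]
    rw [Finset.sum_congr rfl fun x _ => h1 x, Finset.sum_const, Finset.card_univ, nsmul_eq_mul]
  · rw [if_neg h, mul_zero]
    push Not at h
    obtain ⟨x0, hx0⟩ := h
    have h1 : ∑ x : F, sgn (b (x, v)) = ∑ x : F, sgn (b (x + x0, v)) :=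
      (Equiv.sum_comp (Equiv.addRight x0) (fun x : F => sgn (b (x, v)))).symm
    have h3 : ∑ x : F, sgn (b (x + x0, v)) = -∑ x : F, sgn (b (x, v)) := by
      rw [← Finset.sum_neg_distrib]
      refine Finset.sum_congr rfl fun x _ => ?_
      have h4 : b (x + x0, v) = b (x, v) + b (x0, 0) := by
        rw [← map_add]
        congr 1
        ext
        · rfl
        · exact (add_zero v).symm
      rw [h4, sgn_add, eq_one_of_ne _ hx0, sgn_one, mul_neg_one]
    rw [h3] at h1
    linarith

namespace Dat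

variable (d : Dat F)

/-- members of a diagonal -/
theorem mem_lab {a q : F × F} (ha : a.2 ≠ 0) (hq : q ∈ d.lab a) :
    (a.1 ≠ 0 ∧ q = ((1 + d.om⁻¹)⁻¹ * a.1, d.be * (d.et⁻¹ * a.2))) ∨
      (a.1 = 1 ∧ q = (1, d.be * (d.et⁻¹ * a.2))) ∨
      (a.1 = d.om⁻¹ ∧ q = (0, d.be * ((d.om⁻¹ + d.be)⁻¹ * a.2))) ∨
      (a.1 = 0 ∧ q = (0, d.be)) := by
  unfold lab at hq
  rw [Finset.mem_filter] at hq
  obtain ⟨-, -, hq⟩ := hq
  obtain ⟨x, w⟩ := q
  obtain ⟨a1, a2⟩ := a
  dsimp only at ha ⊢
  have hw : w ≠ 0 := by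
    intro h
    subst h
    unfold R at hq
    rw [if_pos rfl] at hq
    apply ha
    have h1 : (0 : F) + 0 = a2 := congrArg Prod.snd hq
    rw [← h1, add_zero]
  unfold R at hq
  rw [if_neg hw] at hq
  set y := d.be⁻¹ * w with hy
  have hwy : w = d.be * y := by rw [hy, mul_inv_cancel_left₀ d.be0]
  have hy0 : y ≠ 0 := by
    intro h
    apply hw
    rw [hwy, h, mul_zero]
  have hbe : d.be = 1 + d.et := rfl
  have hyy := d.add_self y
  have ho1 : 1 + d.om⁻¹ ≠ 0 := by
    intro h
    rw [d.add_eq_zero] at h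
    exact d.om1 (inv_eq_one.1 h.symm)
  unfold pr at hq
  by_cases hx0 : x = 0
  · subst hx0
    rw [if_pos rfl] at hq
    by_cases hy1 : y = 1
    · rw [if_pos hy1] at hq
      right; right; right
      have h1 := congrArg Prod.fst hq
      have h2 : (0 : F) + 0 = a1 := h1
      rw [← h2, add_zero]
      refine ⟨rfl, ?_⟩
      rw [hwy, hy1, mul_one]
    · rw [if_neg hy1] at hq
      right; right; left
      have h1 : d.om⁻¹ + 0 = a1 := congrArg Prod.fst hq
      have h2 : d.om⁻¹ * y + w = a2 := congrArg Prod.snd hq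
      have h3 : (d.om⁻¹ + d.be) * y = a2 := by rw [← h2, hwy]; ring
      have h4 : d.om⁻¹ + d.be ≠ 0 := by
        intro h
        apply ha
        rw [← h3, h, zero_mul]
      refine ⟨by rw [← h1, add_zero], ?_⟩
      rw [← h3, inv_mul_cancel_left₀ h4, hwy]
  · rw [if_neg hx0] at hq
    have key : ∀ z : F, (z, y) + (x, w) = (a1, a2) → a1 = z + x ∧ w = d.be * (d.et⁻¹ * a2) := by
      intro z hz
      have h1 : z + x = a1 := congrArg Prod.fst hz
      have h2 : y + w = a2 := congrArg Prod.snd hz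
      have h3 : d.et * y = a2 := by
        rw [← h2, hwy, hbe]
        linear_combination -hyy
      refine ⟨h1.symm, ?_⟩
      rw [← h3, inv_mul_cancel_left₀ d.et0, hwy]
    by_cases hx1 : x = 1
    · rw [if_pos hx1] at hq
      obtain ⟨h1, h2⟩ := key 0 hq
      right; left
      rw [zero_add, hx1] at h1
      refine ⟨h1, ?_⟩
      rw [← h2, hx1]
    · rw [if_neg hx1] at hq
      obtain ⟨h1, h2⟩ := key _ hq
      left
      have h3 : a1 = (1 + d.om⁻¹) * x := by rw [h1]; ring
      refine ⟨?_, ?_⟩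
      · rw [h3]
        exact mul_ne_zero ho1 hx0
      · rw [← h2, h3, inv_mul_cancel_left₀ ho1]

theorem card_lab_le_two (a : F × F) : (d.lab a).card ≤ 2 := by
  by_cases ha : a.2 = 0
  · have h1 : a = (a.1, 0) := Prod.ext rfl ha
    rw [h1, d.lab_zero]
    by_cases h2 : a.1 = 0
    · rw [if_pos h2, Finset.card_empty]
      exact Nat.zero_le 2
    · rw [if_neg h2, Finset.card_singleton]
      exact one_le_two
  · by_cases h1 : a.1 = 1
    · refine le_trans (Finset.card_le_card (t := {((1 + d.om⁻¹)⁻¹ * a.1, d.be * (d.et⁻¹ * a.2)),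
        (1, d.be * (d.et⁻¹ * a.2))}) ?_) Finset.card_le_two
      intro q hq
      rcases d.mem_lab ha hq with ⟨_, h⟩ | ⟨_, h⟩ | ⟨h', _⟩ | ⟨h', _⟩
      · rw [h]; exact Finset.mem_insert_self _ _
      · rw [h]; exact Finset.mem_insert_of_mem (Finset.mem_singleton_self _)
      · exact absurd (inv_eq_one.1 (h'.symm.trans h1)) d.om1
      · exact absurd (h'.symm.trans h1) zero_ne_one
    · refine le_trans (Finset.card_le_card (t := {((1 + d.om⁻¹)⁻¹ * a.1, d.be * (d.et⁻¹ * a.2)),
        (if a.1 = 0 then (0, d.be) else (0, d.be * ((d.om⁻¹ + d.be)⁻¹ * a.2)))}) ?_)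
          Finset.card_le_two
      intro q hq
      rcases d.mem_lab ha hq with ⟨_, h⟩ | ⟨h', _⟩ | ⟨h', h⟩ | ⟨h', h⟩
      · rw [h]; exact Finset.mem_insert_self _ _
      · exact absurd h' h1
      · rw [h, if_neg (by rw [h']; exact inv_ne_zero d.om0)]
        exact Finset.mem_insert_of_mem (Finset.mem_singleton_self _)
      · rw [h, if_pos h']
        exact Finset.mem_insert_of_mem (Finset.mem_singleton_self _)

theorem card_lab_le_one (a : F × F) (h0 : a.1 = 0) (ha : a.2 ≠ 0) : (d.lab a).card ≤ 1 := by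
  refine le_trans (Finset.card_le_card (t := {((0 : F), d.be)}) ?_) (Finset.card_singleton _).le
  intro q hq
  rcases d.mem_lab ha hq with ⟨h', _⟩ | ⟨h', _⟩ | ⟨h', _⟩ | ⟨_, h⟩
  · exact absurd h0 h'
  · exact absurd (h0.symm.trans h') zero_ne_one
  · exact absurd (h'.symm.trans h0) (inv_ne_zero d.om0)
  · rw [h]
    exact Finset.mem_singleton_self _

/-- large entries with the correction of parity -/
def K (r q : F × F) : ℤ := d.K0 r q + d.K1 r q

theorem K_nonneg (r q : F × F) : 0 ≤ d.K r q := by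
  unfold K K0 K1
  positivity

theorem sum_K (a : F × F) :
    ∑ q, d.K (q + a) q = (d.lab a).card + (if Even (d.lab a).card then 1 else 0) := by
  unfold K
  rw [Finset.sum_add_distrib]
  congr 1
  · unfold K0
    rw [Finset.sum_ite, Finset.sum_const_zero, add_zero, Finset.sum_const, nsmul_eq_mul, mul_one]
    congr 2
    unfold lab
    ext q
    rw [Finset.mem_filter, Finset.mem_filter]
    refine and_congr_right fun _ => and_congr_right fun _ => ?_
    rw [d.add_eq (r := d.R q)]
    exact eq_comm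
  · rw [Finset.sum_eq_single ((1, 0) + a)]
    · unfold K1
      have h1 : ((1 : F), (0 : F)) + a + a = (1, 0) := by
        rw [add_assoc, d.add_self', add_zero]
      have h2 : ((1 : F), (0 : F)) + ((1, 0) + a) = a := by
        rw [← add_assoc, d.add_self', zero_add]
      rw [h1, h2]
      by_cases h : Even (d.lab a).card
      · rw [if_pos ⟨rfl, h⟩, if_pos h]
      · rw [if_neg (fun h' => h h'.2), if_neg h]
    · intro q _ hq
      unfold K1
      rw [if_neg]
      rintro ⟨h, _⟩
      apply hq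
      rw [d.add_eq] at h
      rw [h, add_comm]
    · intro h
      exact absurd (Finset.mem_univ _) h

theorem sum_K_cases (a : F × F) :
    ∑ q, d.K (q + a) q = 1 ∨ (∑ q, d.K (q + a) q = 3 ∧ ¬ (a.1 = 0 ∧ a.2 ≠ 0)) := by
  rw [d.sum_K]
  have h1 := d.card_lab_le_two a
  have h2 := d.card_lab_le_one a
  generalize (d.lab a).card = n at h1 h2
  interval_cases n
  · left; simp
  · left; simp
  · right
    refine ⟨by norm_num, ?_⟩
    rintro ⟨h3, h4⟩
    have := h2 h3 h4
    omega

open Classical in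
/-- the diagonals of the small entries, transformed -/
noncomputable def tt (a : F × F) (b : F × F →+ ZMod 2) : ℤ :=
  if a.1 = 0 ∧ a.2 ≠ 0 then
    (if ∀ x : F, b (x, 0) = 0 then sgn (b (0, d.be * (d.et⁻¹ * a.2))) else 0) else 0

theorem tt_abs (a : F × F) (b : F × F →+ ZMod 2) : |d.tt a b| ≤ 1 := by
  unfold tt
  split_ifs
  · rw [sgn_abs]
  · simp
  · simp

theorem tt_zero (a : F × F) (b : F × F →+ ZMod 2) (h : ¬ (a.1 = 0 ∧ a.2 ≠ 0)) : d.tt a b = 0 := by
  unfold tt
  rw [if_neg h]

/-- the function with values `± 1, ± 3` -/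
noncomputable def u (a : F × F) (b : F × F →+ ZMod 2) : ℤ :=
  ∑ q, d.K (q + a) q * sgn (b q) - 2 * d.tt a b

theorem sum_Sm' (a : F × F) (b : F × F →+ ZMod 2) :
    ∑ q, d.Sm (q + a) q * sgn (b q) = Fintype.card F * d.tt a b := by
  classical
  have h1 : ∀ q : F × F, (q.2 ≠ 0 ∧ q + a = d.P q) ↔
      ((a.1 = 0 ∧ a.2 ≠ 0) ∧ q.2 = d.be * (d.et⁻¹ * a.2)) := by
    rintro ⟨x, w⟩
    obtain ⟨a1, a2⟩ := a
    unfold P
    dsimp only
    rw [Prod.mk_add_mk, Prod.mk_inj]
    have hww := d.add_self w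
    have hbe : d.be = 1 + d.et := rfl
    have h3 : w + a2 = d.be⁻¹ * w ↔ w = d.be * (d.et⁻¹ * a2) := by
      constructor
      · intro h
        have h4 : d.be * (w + a2) = w := by rw [h, mul_inv_cancel_left₀ d.be0]
        have h5 : d.et * w = d.be * a2 := by
          have h6 : d.be * w + d.be * a2 = w := by rw [← mul_add]; exact h4
          have h7 : d.be * a2 + d.be * a2 = 0 := d.add_self _
          rw [hbe] at h6 h7 ⊢
          linear_combination h6 - h7
        have h6 : w = d.et⁻¹ * (d.be * a2) := by rw [← h5, inv_mul_cancel_left₀ d.et0]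
        rw [h6]; ring
      · intro h
        have h5 : d.et * w = d.be * a2 := by
          rw [h]
          have := d.et0
          field_simp
        have h6 : d.be * (w + a2) = w := by
          rw [mul_add, ← h5, hbe]
          have h7 := d.add_self (d.et * w)
          linear_combination h7
        rw [← h6, inv_mul_cancel_left₀ d.be0, h6]
    rw [h3]
    constructor
    · rintro ⟨hw, h4, h5⟩
      refine ⟨⟨?_, ?_⟩, h5⟩
      · have : x + a1 = x + 0 := by rw [add_zero]; exact h4
        exact add_left_cancel this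
      · intro h6
        apply hw
        rw [h5, h6, mul_zero, mul_zero]
    · rintro ⟨⟨h4, h5⟩, h6⟩
      refine ⟨?_, by rw [h4, add_zero], h6⟩
      rw [h6]
      exact mul_ne_zero d.be0 (mul_ne_zero (inv_ne_zero d.et0) h5)
  have h2 : ∀ q : F × F, d.Sm (q + a) q * sgn (b q) =
      if ((a.1 = 0 ∧ a.2 ≠ 0) ∧ q.2 = d.be * (d.et⁻¹ * a.2)) then sgn (b q) else 0 := by
    intro q
    unfold Sm
    by_cases h : q.2 ≠ 0 ∧ q + a = d.P q
    · rw [if_pos h, if_pos ((h1 q).1 h), one_mul]
    · rw [if_neg h, if_neg (fun h' => h ((h1 q).2 h')), zero_mul]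
  rw [Finset.sum_congr rfl fun q _ => h2 q]
  by_cases ha : a.1 = 0 ∧ a.2 ≠ 0
  · simp only [ha, not_false_eq_true, ne_eq, and_self, true_and]
    rw [Fintype.sum_prod_type]
    have h3 : ∀ x : F, ∑ y : F, (if y = d.be * (d.et⁻¹ * a.2) then sgn (b (x, y)) else 0) =
        sgn (b (x, d.be * (d.et⁻¹ * a.2))) := by
      intro x
      rw [Finset.sum_ite_eq' Finset.univ, if_pos (Finset.mem_univ _)]
    rw [Finset.sum_congr rfl fun x _ => h3 x, sum_line]
    unfold tt
    rw [if_pos ha]
  · rw [d.tt_zero a b ha, mul_zero]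
    refine Finset.sum_eq_zero fun q _ => ?_
    rw [if_neg (fun h => ha h.1)]

theorem card_mul_u (a : F × F) (b : F × F →+ ZMod 2) :
    Fintype.card F * d.u a b = ∑ q, d.M (q + a) q * sgn (b q) := by
  unfold u
  have h1 : ∀ q : F × F, d.M (q + a) q * sgn (b q) =
      Fintype.card F * (d.K (q + a) q * sgn (b q)) - 2 * (d.Sm (q + a) q * sgn (b q)) := by
    intro q
    unfold M K
    ring
  rw [Finset.sum_congr rfl fun q _ => h1 q, Finset.sum_sub_distrib, ← Finset.mul_sum,
    ← Finset.mul_sum, d.sum_Sm' a b]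
  ring

theorem sum_K_sgn_abs (a : F × F) (b : F × F →+ ZMod 2) :
    |∑ q, d.K (q + a) q * sgn (b q)| ≤ ∑ q, d.K (q + a) q := by
  refine (Finset.abs_sum_le_sum_abs _ _).trans (le_of_eq (Finset.sum_congr rfl fun q _ => ?_))
  rw [abs_mul, sgn_abs, mul_one, abs_of_nonneg (d.K_nonneg _ _)]

theorem sum_K_sgn_odd (a : F × F) (b : F × F →+ ZMod 2) :
    Odd (∑ q, d.K (q + a) q * sgn (b q)) := by
  have h1 : Odd (∑ q, d.K (q + a) q) := by
    rcases d.sum_K_cases a with h | ⟨h, _⟩
    · rw [h]; exact odd_one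
    · rw [h]; decide
  have h2 : Even (∑ q, d.K (q + a) q - ∑ q, d.K (q + a) q * sgn (b q)) := by
    rw [← Finset.sum_sub_distrib]
    refine Finset.even_sum _ fun q _ => ?_
    rcases sgn_cases (b q) with h | h
    · rw [h, mul_one, sub_self]
      exact Even.zero
    · rw [h]
      exact ⟨d.K (q + a) q, by ring⟩
  have h3 := h1.sub_even h2
  rwa [sub_sub_cancel] at h3

theorem u_odd (a : F × F) (b : F × F →+ ZMod 2) : Odd (d.u a b) :=
  (d.sum_K_sgn_odd a b).sub_even (even_two_mul _)

theorem u_abs (a : F × F) (b : F × F →+ ZMod 2) : |d.u a b| ≤ 3 := by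
  have h1 := d.sum_K_sgn_abs a b
  have h2 := d.tt_abs a b
  unfold u
  rw [abs_le] at h1 h2 ⊢
  rcases d.sum_K_cases a with h | ⟨h, h'⟩
  · rw [h] at h1
    constructor <;> linarith [h1.1, h1.2, h2.1, h2.2]
  · rw [d.tt_zero a b h', mul_zero, sub_zero]
    rw [h] at h1
    exact h1

theorem u_one : d.u (1, 0) 0 = 1 := by
  unfold u
  rw [d.tt_zero _ _ (by simp), mul_zero, sub_zero]
  have h1 : ∀ q : F × F, d.K (q + (1, 0)) q * sgn ((0 : F × F →+ ZMod 2) q) = d.K (q + (1, 0)) q := by
    intro q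
    rw [AddMonoidHom.zero_apply, sgn_zero, mul_one]
  rw [Finset.sum_congr rfl fun q _ => h1 q, d.sum_K, d.card_lab_zero one_ne_zero]
  simp

/-- Fourier inversion -/
theorem inv_u (a q : F × F) :
    ∑ b : F × F →+ ZMod 2, d.u a b * sgn (b q) = Fintype.card F * d.M (q + a) q := by
  classical
  apply mul_left_cancel₀ (cardF (F := F))
  rw [Finset.mul_sum]
  have h1 : ∀ b : F × F →+ ZMod 2, (Fintype.card F : ℤ) * (d.u a b * sgn (b q)) =
      ∑ q', d.M (q' + a) q' * sgn (b (q' + q)) := by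
    intro b
    rw [← mul_assoc, d.card_mul_u, Finset.sum_mul]
    refine Finset.sum_congr rfl fun q' _ => ?_
    rw [map_add, sgn_add, mul_assoc]
  rw [Finset.sum_congr rfl fun b _ => h1 b, Finset.sum_comm]
  have h2 : ∀ q' : F × F, ∑ b : F × F →+ ZMod 2, d.M (q' + a) q' * sgn (b (q' + q)) =
      if q' = q then (Fintype.card (F × F) : ℤ) * d.M (q + a) q else 0 := by
    intro q'
    rw [← Finset.mul_sum, sum_sgn_dual d.add_self']
    by_cases h : q' = q
    · rw [if_pos h, h, if_pos (d.add_self' q), mul_comm]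
    · rw [if_neg h, if_neg, mul_zero]
      intro h'
      apply h
      rw [d.add_eq] at h'
      rw [h', add_zero]
  rw [Finset.sum_congr rfl fun q' _ => h2 q', Finset.sum_ite_eq' Finset.univ,
    if_pos (Finset.mem_univ _), Fintype.card_prod]
  push_cast
  ring

end Dat

end Pool.Agent.Q271.ZC.Low
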