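import Mathlib
import Pool.Agent.Q271.ZC.LowB

/-!
# Growth of the kernel vector; existence of the parameters
-/

set_option autoImplicit false
set_option linter.unusedSectionVars false

namespace Pool.Agent.Q271.ZC.Low

variable {F : Type} [Field F] [Fintype F] [DecidableEq F]

namespace Dat

variable (d : Dat F)

theorem pow_ne_one {i : ℕ} (h0 : 0 < i) (h1 : i < Fintype.card F - 1) : d.om ^ i ≠ 1 := by
  classical
  set w : Fˣ := Units.mk0 d.om d.om0 with hw
  have h2 : ∀ x : Fˣ, x ∈ Subgroup.zpowers w := by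
    intro x
    obtain ⟨j, hj⟩ := d.gen x x.ne_zero
    refine Subgroup.mem_zpowers_iff.2 ⟨j, ?_⟩
    apply Units.ext
    rw [zpow_natCast, Units.val_pow_eq_pow_val]
    exact hj.symm
  have h3 : orderOf w = Fintype.card F - 1 := by
    rw [orderOf_eq_card_of_forall_mem_zpowers h2, Nat.card_eq_fintype_card, Fintype.card_units]
  intro h
  have h4 : w ^ i = 1 := by
    apply Units.ext
    rw [Units.val_pow_eq_pow_val]
    exact h
  have h5 := orderOf_dvd_of_pow_eq_one h4
  rw [h3] at h5
  exact absurd (Nat.le_of_dvd h0 h5) (not_le.2 h1)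

theorem pow_card : d.om ^ (Fintype.card F - 1) = 1 := FiniteField.pow_card_sub_one_eq_one _ d.om0

theorem pr_one (y : F) : d.pr (1, y) = (0, y) := by
  unfold pr
  rw [if_neg one_ne_zero, if_pos rfl]

theorem pr_pow {i : ℕ} (h1 : i + 1 < Fintype.card F - 1) (y : F) :
    d.pr (d.om ^ (i + 1), y) = (d.om ^ i, y) := by
  unfold pr
  rw [if_neg (pow_ne_zero _ d.om0), if_neg (d.pow_ne_one (Nat.succ_pos i) h1)]
  ext
  · change d.om⁻¹ * d.om ^ (i + 1) = d.om ^ i
    rw [pow_succ', inv_mul_cancel_left₀ d.om0]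
  · rfl

theorem pr_zero_one : d.pr (0, 1) = (0, 0) := by
  unfold pr
  rw [if_pos rfl, if_pos rfl]

theorem pr_zero {j : ℕ} (h1 : j + 1 < Fintype.card F - 1) :
    d.pr (0, d.om ^ (j + 1)) = (d.om ^ (Fintype.card F - 2), d.om ^ j) := by
  unfold pr
  rw [if_pos rfl, if_neg (d.pow_ne_one (Nat.succ_pos j) h1)]
  ext
  · change d.om⁻¹ = _
    have h2 := d.pow_card
    have h3 : Fintype.card F - 1 = Fintype.card F - 2 + 1 := by omega
    rw [h3, pow_succ] at h2
    exact (eq_inv_of_mul_eq_one_left h2).symm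
  · change d.om⁻¹ * d.om ^ (j + 1) = d.om ^ j
    rw [pow_succ', inv_mul_cancel_left₀ d.om0]

variable {x : F × F → ℤ} {h : ℕ}

section ker

variable (hx : ∀ q, ∑ r, x r * d.M r q = 0) (hh : Fintype.card F = 2 * h)

include hx hh

theorem step (p : F × F) (hp : p.2 ≠ 0) : x p = h * x (d.pr p) := by
  have h1 := d.ker_step hx p hp
  rw [hh] at h1
  push_cast at h1
  linarith

theorem row (y : F) (hy : y ≠ 0) : ∀ i : ℕ, i < Fintype.card F - 1 →
    x (d.om ^ i, y) = (h : ℤ) ^ (i + 1) * x (0, y) := by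
  intro i
  induction i with
  | zero =>
    intro _
    rw [pow_zero, d.step hx hh _ hy, d.pr_one]
    ring
  | succ i ih =>
    intro hi
    rw [d.step hx hh _ hy, d.pr_pow hi, ih (by omega)]
    ring

theorem col : ∀ j : ℕ, j < Fintype.card F - 1 →
    x (0, d.om ^ j) = (h : ℤ) ^ (j * Fintype.card F + 1) * x (0, 0) := by
  intro j
  induction j with
  | zero =>
    intro _
    rw [pow_zero, d.step hx hh _ one_ne_zero, d.pr_zero_one]
    ring
  | succ j ih =>
    intro hj
    rw [d.step hx hh _ (pow_ne_zero _ d.om0), d.pr_zero hj,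
      d.row hx hh _ (pow_ne_zero _ d.om0) _ (by omega), ih (by omega)]
    have h1 : Fintype.card F - 2 + 1 + 1 = Fintype.card F := by omega
    have h2 : (h : ℤ) ^ ((j + 1) * Fintype.card F + 1) =
        h ^ (Fintype.card F - 2 + 1 + 1) * h ^ (j * Fintype.card F + 1) := by
      rw [h1, ← pow_add]
      congr 1
      ring
    rw [h2]
    ring

theorem last (hc : 2 ≤ Fintype.card F) :
    x (d.om ^ (Fintype.card F - 2), d.om ^ (Fintype.card F - 2)) =
      (h : ℤ) ^ (Fintype.card F * (Fintype.card F - 1)) * x (0, 0) := by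
  rw [d.row hx hh _ (pow_ne_zero _ d.om0) _ (by omega), d.col hx hh _ (by omega), ← mul_assoc,
    ← pow_add]
  congr 2
  obtain ⟨c, hc'⟩ := Nat.exists_eq_add_of_le hc
  rw [hc']
  have h1 : 2 + c - 2 = c := by omega
  have h2 : 2 + c - 1 = c + 1 := by omega
  rw [h1, h2]
  ring

theorem zero_of (h0 : x (0, 0) = 0) : x = 0 := by
  funext p
  obtain ⟨a, b⟩ := p
  have h1 : ∀ c : F, c ≠ 0 → ∃ i, i < Fintype.card F - 1 ∧ c = d.om ^ i := by
    intro c hc
    obtain ⟨i, hi⟩ := d.gen c hc
    have h2 : 0 < Fintype.card F - 1 := by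
      have := Fintype.one_lt_card (α := F)
      omega
    refine ⟨i % (Fintype.card F - 1), Nat.mod_lt _ h2, ?_⟩
    rw [hi]
    conv_lhs => rw [← Nat.div_add_mod i (Fintype.card F - 1), pow_add, pow_mul, d.pow_card, one_pow,
      one_mul]
  by_cases hb : b = 0
  · subst hb
    by_cases ha : a = 0
    · rw [ha]; exact h0
    · exact d.ker_zero hx a ha
  · obtain ⟨j, hj, rfl⟩ := h1 b hb
    have h3 : x (0, d.om ^ j) = 0 := by rw [d.col hx hh j hj, h0, mul_zero]
    by_cases ha : a = 0
    · rw [ha]; exact h3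
    · obtain ⟨i, hi, rfl⟩ := h1 a ha
      rw [d.row hx hh _ hb i hi, h3, mul_zero]
      rfl

end ker

end Dat

/-- the parameters exist for all fields of characteristic two with at least four elements -/
theorem exists_dat (h2 : (2 : F) = 0) (hc : 3 < Fintype.card F) : ∃ d : Dat F, True := by
  classical
  obtain ⟨w, hw⟩ := IsCyclic.exists_generator (α := Fˣ)
  have hgen : ∀ x : F, x ≠ 0 → ∃ i : ℕ, x = (w : F) ^ i := by
    intro x hx
    obtain ⟨i, hi⟩ := (mem_powers_iff_mem_zpowers (x := w) (y := Units.mk0 x hx)).2 (hw _)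
    refine ⟨i, ?_⟩
    have h3 := congrArg Units.val hi
    have h4 : (w : F) ^ i = x := h3
    exact h4.symm
  have h1 : ∃ e : F, e ∉ ({0, 1, 1 + (w : F)⁻¹} : Finset F) := by
    by_contra hcon
    push Not at hcon
    have h3 : (Finset.univ : Finset F) ⊆ {0, 1, 1 + (w : F)⁻¹} := fun x _ => hcon x
    have h4 := Finset.card_le_card h3
    rw [Finset.card_univ] at h4
    have h5 := Finset.card_le_three (a := (0 : F)) (b := 1) (c := 1 + (w : F)⁻¹)
    omega
  obtain ⟨e, he⟩ := h1
  simp only [Finset.mem_insert, Finset.mem_singleton, not_or] at he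
  refine ⟨⟨w, e, h2, w.ne_zero, ?_, hgen, he.1, he.2.1, ?_⟩, trivial⟩
  · intro hw1
    have h3 : ∀ x : F, x = 0 ∨ x = 1 := by
      intro x
      by_cases hx : x = 0
      · exact Or.inl hx
      · obtain ⟨i, hi⟩ := hgen x hx
        right
        rw [hi, hw1, one_pow]
    exact (h3 e).elim he.1 he.2.1
  · intro h
    apply he.2.2
    have h3 : (w : F) * e = 1 + w := by
      have h4 : (w : F) + w = 0 := by rw [← two_mul, h2, zero_mul]
      have h5 : (1 : F) + 1 = 0 := by rw [← two_mul, h2, zero_mul]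
      linear_combination h - h4 - h5
    have h6 : e = (w : F)⁻¹ * (1 + w) := by
      rw [← h3, inv_mul_cancel_left₀ w.ne_zero]
    rw [h6, mul_add, mul_one, inv_mul_cancel₀ w.ne_zero, add_comm]

end Pool.Agent.Q271.ZC.Low
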