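import Mathlib
import Pool.Agent.Q271.ZC.Def
import Pool.Agent.Q271.ZC.LowC

/-!
# The representation of the extraspecial group
-/

set_option autoImplicit false
set_option linter.unusedSectionVars false

namespace Pool.Agent.Q271.ZC.Low

open Matrix

section group

variable (V : Type) [AddCommGroup V]

/-- the group as a product of sets -/
def egEquiv : ZMod 2 × V × (V →+ ZMod 2) ≃ EG V where
  toFun x := ⟨x.1, x.2.1, x.2.2⟩
  invFun g := (g.e, g.a, g.b)
  left_inv _ := rfl
  right_inv _ := rfl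

variable [Fintype V]

noncomputable instance : Fintype (EG V) := Fintype.ofEquiv _ (egEquiv V)

/-- the Galois group -/
abbrev GG : Type := EG V × Multiplicative (ZMod 3)

variable {V}

theorem sum_EG {M : Type} [AddCommMonoid M] (f : EG V → M) :
    ∑ g, f g = ∑ a, ∑ b, (f ⟨0, a, b⟩ + f ⟨1, a, b⟩) := by
  have h1 : ∑ g, f g = ∑ x : ZMod 2 × V × (V →+ ZMod 2), f (egEquiv V x) :=
    (Equiv.sum_comp (egEquiv V) f).symm
  rw [h1, Fintype.sum_prod_type]
  have h2 : ∀ F : ZMod 2 → M, ∑ e, F e = F 0 + F 1 := fun F => Fin.sum_univ_two F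
  rw [h2, Fintype.sum_prod_type, Fintype.sum_prod_type, ← Finset.sum_add_distrib]
  refine Finset.sum_congr rfl fun a _ => ?_
  rw [← Finset.sum_add_distrib]
  rfl

variable [DecidableEq V]

/-- the representation on functions on `V` -/
def rep (g : EG V) : Matrix V V ℤ := of fun r q => if r = q + g.a then sgn (g.e + g.b q) else 0

theorem rep_apply (g : EG V) (r q : V) : rep g r q = if r = q + g.a then sgn (g.e + g.b q) else 0 :=
  rfl

theorem rep_mul (g h : EG V) : rep (g * h) = rep g * rep h := by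
  ext r q
  rw [Matrix.mul_apply, rep_apply, EG.mul_a, EG.mul_b, EG.mul_e]
  have h1 : ∀ s, rep g r s * rep h s q =
      if s = q + h.a then (if r = q + (g.a + h.a) then
        sgn (g.e + h.e + g.b h.a + (g.b + h.b) q) else 0) else 0 := by
    intro s
    rw [rep_apply, rep_apply]
    by_cases hs : s = q + h.a
    · rw [if_pos hs, if_pos hs, hs]
      have h2 : q + h.a + g.a = q + (g.a + h.a) := by abel
      rw [h2]
      by_cases hr : r = q + (g.a + h.a)
      · rw [if_pos hr, if_pos hr, ← sgn_add, map_add, AddMonoidHom.add_apply]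
        congr 1
        ring
      · rw [if_neg hr, if_neg hr, zero_mul]
    · rw [if_neg hs, if_neg hs, mul_zero]
  rw [Finset.sum_congr rfl fun s _ => h1 s, Finset.sum_ite_eq' Finset.univ, if_pos (Finset.mem_univ _)]

/-- the matrix of an element of the group ring -/
noncomputable def Rn (n : GG V → ℤ) : Matrix V V ℤ := ∑ g, n g • rep g.1

theorem Rn_mul (n t : GG V → ℤ) (h : ∀ k, ∑ g, n g * t (g⁻¹ * k) = 0) : Rn n * Rn t = 0 := by
  unfold Rn
  rw [Finset.sum_mul]
  have h1 : ∀ g : GG V, (n g • rep g.1) * ∑ h, t h • rep h.1 =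
      ∑ k : GG V, (n g * t (g⁻¹ * k)) • rep k.1 := by
    intro g
    rw [Finset.mul_sum, ← Equiv.sum_comp (Equiv.mulLeft g)
      (fun k : GG V => (n g * t (g⁻¹ * k)) • rep k.1)]
    refine Finset.sum_congr rfl fun k _ => ?_
    rw [Equiv.coe_mulLeft, inv_mul_cancel_left, Prod.fst_mul, rep_mul, smul_mul_assoc,
      mul_smul_comm, smul_smul]
  rw [Finset.sum_congr rfl fun g _ => h1 g, Finset.sum_comm]
  refine Finset.sum_eq_zero fun k _ => ?_
  rw [← Finset.sum_smul, h k, zero_smul]

variable (h2 : ∀ v : V, v + v = 0)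

include h2

theorem eq_add_iff (r q a : V) : r = q + a ↔ a = r + q := by
  constructor
  · rintro rfl
    rw [add_comm q a, add_assoc, h2, add_zero]
  · rintro rfl
    rw [add_comm r q, ← add_assoc, h2, zero_add]

theorem Rn_apply (n : GG V → ℤ) (r q : V) :
    Rn n r q = ∑ b : V →+ ZMod 2, (∑ c, (n (⟨0, r + q, b⟩, c) - n (⟨1, r + q, b⟩, c))) *
      sgn (b q) := by
  unfold Rn
  rw [Matrix.sum_apply, Fintype.sum_prod_type, sum_EG, Finset.sum_eq_single (r + q)]
  · refine Finset.sum_congr rfl fun b _ => ?_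
    rw [← Finset.sum_add_distrib, Finset.sum_mul]
    refine Finset.sum_congr rfl fun c _ => ?_
    rw [Matrix.smul_apply, Matrix.smul_apply, rep_apply, rep_apply,
      if_pos ((eq_add_iff h2 _ _ _).2 rfl), if_pos ((eq_add_iff h2 _ _ _).2 rfl), smul_eq_mul,
      smul_eq_mul, zero_add, sgn_add, sgn_one]
    ring
  · intro a _ ha
    refine Finset.sum_eq_zero fun b _ => ?_
    rw [← Finset.sum_add_distrib]
    refine Finset.sum_eq_zero fun c _ => ?_
    rw [Matrix.smul_apply, Matrix.smul_apply, rep_apply, rep_apply,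
      if_neg (fun h => ha ((eq_add_iff h2 _ _ _).1 h)),
      if_neg (fun h => ha ((eq_add_iff h2 _ _ _).1 h)), smul_zero, smul_zero, add_zero]
  · intro h
    exact absurd (Finset.mem_univ _) h

theorem abs_Rn_le (n : GG V → ℤ) (Y : ℤ) (hY : ∀ g, |n g| ≤ Y) (r q : V) :
    |Rn n r q| ≤ 6 * Fintype.card V * Y := by
  rw [Rn_apply h2]
  refine (Finset.abs_sum_le_sum_abs _ _).trans ?_
  have h1 : ∀ b : V →+ ZMod 2, |(∑ c, (n (⟨0, r + q, b⟩, c) - n (⟨1, r + q, b⟩, c))) * sgn (b q)| ≤
      6 * Y := by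
    intro b
    rw [abs_mul, sgn_abs, mul_one]
    refine (Finset.abs_sum_le_sum_abs _ _).trans ?_
    have h3 : ∀ c : Multiplicative (ZMod 3), |n (⟨0, r + q, b⟩, c) - n (⟨1, r + q, b⟩, c)| ≤ 2 * Y := by
      intro c
      have h4 := hY (⟨0, r + q, b⟩, c)
      have h5 := hY (⟨1, r + q, b⟩, c)
      have h6 := abs_sub (n (⟨0, r + q, b⟩, c)) (n (⟨1, r + q, b⟩, c))
      linarith
    refine (Finset.sum_le_sum fun c _ => h3 c).trans ?_
    rw [Finset.sum_const, Finset.card_univ, nsmul_eq_mul, Fintype.card_multiplicative, ZMod.card]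
    push_cast
    linarith
  refine (Finset.sum_le_sum fun b _ => h1 b).trans ?_
  rw [Finset.sum_const, Finset.card_univ, nsmul_eq_mul, card_dual h2]
  exact le_of_eq (by ring)

/-- orthogonality in the other variable -/
theorem sum_sgn_V (b : V →+ ZMod 2) [Decidable (b = 0)] :
    ∑ q : V, sgn (b q) = if b = 0 then (Fintype.card V : ℤ) else 0 := by
  by_cases hb : b = 0
  · rw [if_pos hb, hb]
    simp only [AddMonoidHom.zero_apply, sgn_zero, Finset.sum_const, Finset.card_univ, nsmul_eq_mul,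
      mul_one]
  · rw [if_neg hb]
    have h3 : ∃ q0, b q0 ≠ 0 := by
      by_contra hcon
      push Not at hcon
      exact hb (AddMonoidHom.ext hcon)
    obtain ⟨q0, hq0⟩ := h3
    have h1 : ∑ q : V, sgn (b q) = ∑ q : V, sgn (b (q + q0)) :=
      (Equiv.sum_comp (Equiv.addRight q0) (fun q : V => sgn (b q))).symm
    have h4 : ∑ q : V, sgn (b (q + q0)) = -∑ q : V, sgn (b q) := by
      rw [← Finset.sum_neg_distrib]
      refine Finset.sum_congr rfl fun q _ => ?_
      rw [map_add, sgn_add, eq_one_of_ne _ hq0, sgn_one, mul_neg_one]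
    rw [h4] at h1
    linarith

theorem fourier_zero (w : (V →+ ZMod 2) → ℤ) (h : ∀ q, ∑ b, w b * sgn (b q) = 0) : w = 0 := by
  classical
  funext b'
  have h1 : ∑ q : V, (∑ b, w b * sgn (b q)) * sgn (b' q) = 0 :=
    Finset.sum_eq_zero fun q _ => by rw [h q, zero_mul]
  have h3 : ∀ q : V, (∑ b, w b * sgn (b q)) * sgn (b' q) = ∑ b, w b * sgn ((b + b') q) := by
    intro q
    rw [Finset.sum_mul]
    refine Finset.sum_congr rfl fun b _ => ?_
    rw [AddMonoidHom.add_apply, sgn_add, mul_assoc]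
  rw [Finset.sum_congr rfl fun q _ => h3 q, Finset.sum_comm] at h1
  have h4 : ∀ b : V →+ ZMod 2, ∑ q : V, w b * sgn ((b + b') q) =
      if b = b' then w b * Fintype.card V else 0 := by
    intro b
    rw [← Finset.mul_sum, sum_sgn_V h2]
    have h5 : b + b' = 0 ↔ b = b' := by
      have h6 : ∀ f : V →+ ZMod 2, f + f = 0 := by
        intro f
        ext v
        rw [AddMonoidHom.add_apply, ← map_add, h2, map_zero, AddMonoidHom.zero_apply]
      constructor
      · intro h
        exact add_right_cancel (h.trans (h6 b').symm)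
      · rintro rfl
        exact h6 b
    by_cases hb : b = b'
    · rw [if_pos (h5.2 hb), if_pos hb]
    · rw [if_neg (fun h => hb (h5.1 h)), if_neg hb, mul_zero]
  rw [Finset.sum_congr rfl fun b _ => h4 b, Finset.sum_ite_eq' Finset.univ,
    if_pos (Finset.mem_univ _)] at h1
  have h5 : (Fintype.card V : ℤ) ≠ 0 := by exact_mod_cast Fintype.card_ne_zero
  exact (mul_eq_zero.1 h1).resolve_right h5

/-- if the matrix of `n` is zero then the sums of the odd part over the cyclic factor are zero -/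
theorem sum_zero_of_Rn (n : GG V → ℤ) (h : Rn n = 0) (a : V) (b : V →+ ZMod 2) :
    ∑ c, (n (⟨0, a, b⟩, c) - n (⟨1, a, b⟩, c)) = 0 := by
  have h1 : ∀ q, ∑ b : V →+ ZMod 2, (∑ c, (n (⟨0, a, b⟩, c) - n (⟨1, a, b⟩, c))) * sgn (b q) = 0 := by
    intro q
    have h3 := congrFun (congrFun h (a + q)) q
    rw [Rn_apply h2] at h3
    have h4 : a + q + q = a := by rw [add_assoc, h2, add_zero]
    rw [h4] at h3
    exact h3
  exact congrFun (fourier_zero h2 _ h1) b

end group

end Pool.Agent.Q271.ZC.Low
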