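import Mathlib
import Pool.Agent.Q271.ZC.LowD

/-!
# The components of the nontrivial characters of the cyclic group of order three
-/

set_option autoImplicit false
set_option linter.unusedSectionVars false

namespace Pool.Agent.Q271.ZC.Low

set_option synthInstance.maxHeartbeats 400000 in
set_option synthInstance.maxSize 100000 in
theorem small_aux : ∀ a b c x y z : ZMod 2, a + b + c = 0 → a * x + b * y + c * z = 0 →
    a * z + b * x + c * y = 0 → a * y + b * z + c * x = 0 → ¬ (x = y ∧ y = z) →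
    a = 0 ∧ b = 0 ∧ c = 0 := by
  decide

theorem small_check (ν n : ZMod 3 → ZMod 2) (h1 : ∑ c, ν c = 0)
    (h2 : ∀ x, ∑ y, ν y * n (2 * (x - y)) = 0) (h3 : ∃ c c', n c ≠ n c') : ν = 0 := by
  have hsum : ∀ f : ZMod 3 → ZMod 2, ∑ c, f c = f 0 + f 1 + f 2 := fun f => Fin.sum_univ_three f
  have e0 := h2 0
  have e1 := h2 1
  have e2 := h2 2
  rw [hsum] at h1 e0 e1 e2
  have a00 : (2 : ZMod 3) * (0 - 0) = 0 := by decide
  have a01 : (2 : ZMod 3) * (0 - 1) = 1 := by decide
  have a02 : (2 : ZMod 3) * (0 - 2) = 2 := by decide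
  have a10 : (2 : ZMod 3) * (1 - 0) = 2 := by decide
  have a11 : (2 : ZMod 3) * (1 - 1) = 0 := by decide
  have a12 : (2 : ZMod 3) * (1 - 2) = 1 := by decide
  have a20 : (2 : ZMod 3) * (2 - 0) = 1 := by decide
  have a21 : (2 : ZMod 3) * (2 - 1) = 2 := by decide
  have a22 : (2 : ZMod 3) * (2 - 2) = 0 := by decide
  rw [a00, a01, a02] at e0
  rw [a10, a11, a12] at e1
  rw [a20, a21, a22] at e2
  have hall : ∀ c : ZMod 3, c = 0 ∨ c = 1 ∨ c = 2 := by decide
  obtain ⟨g0, g1, g2⟩ := small_aux _ _ _ _ _ _ h1 e0 e1 e2 (by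
    rintro ⟨h4, h5⟩
    obtain ⟨c, c', hcc⟩ := h3
    apply hcc
    rcases hall c with rfl | rfl | rfl <;> rcases hall c' with rfl | rfl | rfl <;>
      simp [h4, h5])
  funext c
  rcases hall c with rfl | rfl | rfl
  · exact g0
  · exact g1
  · exact g2

section conv

variable {V W : Type} [AddCommGroup V] [AddCommGroup W] [Fintype V] [Fintype W] [DecidableEq V]
  [DecidableEq W]

theorem sum_fixed {A : Type} [Fintype A] [DecidableEq A] (τ : A → A) (hτ : ∀ x, τ (τ x) = x)
    (f : A → ZMod 2) (hf : ∀ x, f (τ x) = f x) :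
    ∑ x, f x = ∑ x ∈ Finset.univ.filter (fun x => τ x = x), f x := by
  rw [← Finset.sum_filter_add_sum_filter_not Finset.univ (fun x => τ x = x)]
  have h1 : ∑ x ∈ Finset.univ.filter (fun x => ¬ τ x = x), f x = 0 := by
    refine Finset.sum_involution (fun x _ => τ x) ?_ ?_ ?_ ?_
    · intro x _
      rw [hf]
      exact CharTwo.add_self_eq_zero _
    · intro x hx _
      exact (Finset.mem_filter.1 hx).2
    · intro x hx
      refine Finset.mem_filter.2 ⟨Finset.mem_univ _, ?_⟩
      rw [hτ]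
      exact fun h => (Finset.mem_filter.1 hx).2 h.symm
    · intro x _
      exact hτ x
  rw [h1, add_zero]

theorem conv_zero (hV : ∀ v : V, v + v = 0) (hW : ∀ w : W, w + w = 0) (T ν : V × W × ZMod 3 → ZMod 2)
    (hn : ∃ c c', ∑ a, ∑ b, T (a, b, c) ≠ ∑ a, ∑ b, T (a, b, c'))
    (hs : ∀ a b, ∑ c, ν (a, b, c) = 0) (hc : ∀ x, ∑ y, ν y * T (x - y) = 0) : ν = 0 := by
  -- the square of `T`
  have hQ : ∀ s : V × W × ZMod 3, ∑ w, T (s - w) * T w =
      if s.1 = 0 ∧ s.2.1 = 0 then ∑ a, ∑ b, T (a, b, 2 * s.2.2) else 0 := by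
    intro s
    rw [sum_fixed (fun w => s - w) (fun w => by rw [sub_sub_cancel]) (fun w => T (s - w) * T w)
      (fun w => by rw [sub_sub_cancel, mul_comm])]
    obtain ⟨s1, s2, s3⟩ := s
    have h1 : ∀ w : V × W × ZMod 3, (s1, s2, s3) - w = w ↔ (s1 = 0 ∧ s2 = 0) ∧ w.2.2 = 2 * s3 := by
      rintro ⟨w1, w2, w3⟩
      rw [sub_eq_iff_eq_add]
      have h4 : ∀ c : ZMod 3, s3 = c + c ↔ c = 2 * s3 := by
        intro c
        revert c
        revert s3
        decide
      constructor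
      · intro h
        have e1 : s1 = w1 + w1 := congrArg Prod.fst h
        have e2 : s2 = w2 + w2 := congrArg (fun z => z.2.1) h
        have e3 : s3 = w3 + w3 := congrArg (fun z => z.2.2) h
        exact ⟨⟨e1.trans (hV _), e2.trans (hW _)⟩, (h4 _).1 e3⟩
      · rintro ⟨⟨e1, e2⟩, e3⟩
        have e4 := (h4 _).2 e3
        ext
        · exact e1.trans (hV _).symm
        · exact e2.trans (hW _).symm
        · exact e4
    have h2 : ∀ w ∈ Finset.univ.filter (fun w => (s1, s2, s3) - w = w),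
        T ((s1, s2, s3) - w) * T w = T w := by
      intro w hw
      rw [(Finset.mem_filter.1 hw).2]
      generalize T w = z
      revert z
      decide
    rw [Finset.sum_congr rfl h2]
    by_cases h3 : s1 = 0 ∧ s2 = 0
    · have h4 : Finset.univ.filter (fun w : V × W × ZMod 3 => (s1, s2, s3) - w = w) =
          Finset.univ.filter (fun w : V × W × ZMod 3 => w.2.2 = 2 * s3) :=
        Finset.filter_congr fun w _ => by rw [h1]; exact ⟨fun h => h.2, fun h => ⟨h3, h⟩⟩
      rw [if_pos h3, h4, Finset.sum_filter, Fintype.sum_prod_type]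
      refine Finset.sum_congr rfl fun a _ => ?_
      rw [Fintype.sum_prod_type]
      refine Finset.sum_congr rfl fun b _ => ?_
      dsimp only
      rw [Finset.sum_ite_eq' Finset.univ, if_pos (Finset.mem_univ _)]
    · rw [if_neg h3]
      refine Finset.sum_eq_zero fun w hw => ?_
      exact absurd ((h1 w).1 (Finset.mem_filter.1 hw).2).1 h3
  -- convolve twice
  have h5 : ∀ x : V × W × ZMod 3, ∑ c, ν (x.1, x.2.1, c) * ∑ a, ∑ b, T (a, b, 2 * (x.2.2 - c)) = 0 := by
    intro x
    have h6 : ∑ w, T (x - w) * ∑ y, ν y * T (w - y) = 0 :=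
      Finset.sum_eq_zero fun w _ => by rw [hc w, mul_zero]
    have h7 : ∑ w, T (x - w) * ∑ y, ν y * T (w - y) = ∑ y, ν y * ∑ w, T ((x - y) - w) * T w := by
      have h8 : ∀ w, T (x - w) * ∑ y, ν y * T (w - y) = ∑ y, ν y * (T (x - w) * T (w - y)) := by
        intro w
        rw [Finset.mul_sum]
        exact Finset.sum_congr rfl fun y _ => by ring
      rw [Finset.sum_congr rfl fun w _ => h8 w, Finset.sum_comm]
      refine Finset.sum_congr rfl fun y _ => ?_
      rw [← Finset.mul_sum]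
      congr 1
      rw [← Equiv.sum_comp (Equiv.addRight y) (fun w => T (x - w) * T (w - y))]
      refine Finset.sum_congr rfl fun w _ => ?_
      rw [Equiv.coe_addRight, add_sub_cancel_right, sub_sub, add_comm y w]
    rw [h7] at h6
    rw [← h6, Fintype.sum_prod_type]
    rw [Finset.sum_eq_single x.1]
    · rw [Fintype.sum_prod_type, Finset.sum_eq_single x.2.1]
      · refine Finset.sum_congr rfl fun c _ => ?_
        rw [hQ]
        rw [if_pos ⟨sub_self _, sub_self _⟩]
        rfl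
      · intro b _ hb
        refine Finset.sum_eq_zero fun c _ => ?_
        rw [hQ, if_neg, mul_zero]
        rintro ⟨_, h9⟩
        exact hb (sub_eq_zero.1 h9).symm
      · intro h
        exact absurd (Finset.mem_univ _) h
    · intro a _ ha
      refine Finset.sum_eq_zero fun y _ => ?_
      rw [hQ, if_neg, mul_zero]
      rintro ⟨h9, _⟩
      exact ha (sub_eq_zero.1 h9).symm
    · intro h
      exact absurd (Finset.mem_univ _) h
  funext x
  obtain ⟨a, b, c⟩ := x
  have h6 := small_check (fun c => ν (a, b, c)) (fun c => ∑ a, ∑ b, T (a, b, c)) (hs a b)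
    (fun x => h5 (a, b, x)) hn
  exact congrFun h6 c

end conv

section descent

variable {V : Type} [AddCommGroup V] [Fintype V] [DecidableEq V] (h2 : ∀ v : V, v + v = 0)

include h2

theorem even_of_rel (T : V × (V →+ ZMod 2) × ZMod 3 → ZMod 2)
    (hn : ∃ c c', ∑ a, ∑ b, T (a, b, c) ≠ ∑ a, ∑ b, T (a, b, c'))
    (σ : V × (V →+ ZMod 2) × ZMod 3 → V × (V →+ ZMod 2) × ZMod 3 → ZMod 2)
    (m : V × (V →+ ZMod 2) × ZMod 3 → ℤ) (hs : ∀ a b, ∑ c, m (a, b, c) = 0)
    (hc : ∀ x, ∑ y, m y * (sgn (σ x y) * ((T (x - y)).val : ℤ)) = 0) : ∀ y, (2 : ℤ) ∣ m y := by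
  classical
  have hW : ∀ f : V →+ ZMod 2, f + f = 0 := by
    intro f
    ext v
    rw [AddMonoidHom.add_apply, ← map_add, h2, map_zero, AddMonoidHom.zero_apply]
  have h1 := conv_zero (V := V) (W := V →+ ZMod 2) h2 hW T (fun y => ((m y : ℤ) : ZMod 2)) hn
    (fun a b => by
      have h := congrArg (fun z : ℤ => (z : ZMod 2)) (hs a b)
      simpa using h)
    (fun x => by
      have h : ((∑ y, m y * (sgn (σ x y) * ((T (x - y)).val : ℤ)) : ℤ) : ZMod 2) = ((0 : ℤ) : ZMod 2) :=
        congrArg (fun z : ℤ => (z : ZMod 2)) (hc x)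
      rw [Int.cast_zero, Int.cast_sum] at h
      rw [← h]
      refine Finset.sum_congr rfl fun y _ => ?_
      rw [Int.cast_mul, Int.cast_mul]
      have h3 : ((sgn (σ x y) : ℤ) : ZMod 2) = 1 := by
        rcases sgn_cases (σ x y) with h' | h' <;> rw [h'] <;> decide
      rw [h3, one_mul, Int.cast_natCast, ZMod.natCast_val, ZMod.cast_id])
  intro y
  have h3 := congrFun h1 y
  exact (ZMod.intCast_zmod_eq_zero_iff_dvd (m y) 2).1 h3

theorem zero_of_rel (T : V × (V →+ ZMod 2) × ZMod 3 → ZMod 2)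
    (hn : ∃ c c', ∑ a, ∑ b, T (a, b, c) ≠ ∑ a, ∑ b, T (a, b, c'))
    (σ : V × (V →+ ZMod 2) × ZMod 3 → V × (V →+ ZMod 2) × ZMod 3 → ZMod 2)
    (m : V × (V →+ ZMod 2) × ZMod 3 → ℤ) (hs : ∀ a b, ∑ c, m (a, b, c) = 0)
    (hc : ∀ x, ∑ y, m y * (sgn (σ x y) * ((T (x - y)).val : ℤ)) = 0) : m = 0 := by
  have key : ∀ k : ℕ, ∀ m : V × (V →+ ZMod 2) × ZMod 3 → ℤ, (∀ a b, ∑ c, m (a, b, c) = 0) →
      (∀ x, ∑ y, m y * (sgn (σ x y) * ((T (x - y)).val : ℤ)) = 0) → ∀ y, (2 : ℤ) ^ k ∣ m y := by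
    intro k
    induction k with
    | zero => intro m _ _ y; rw [pow_zero]; exact one_dvd _
    | succ k ih =>
      intro m hs hc y
      have h1 := even_of_rel h2 T hn σ m hs hc
      choose m' hm' using h1
      have h3 : ∀ a b, ∑ c, m' (a, b, c) = 0 := by
        intro a b
        have h4 := hs a b
        rw [Finset.sum_congr rfl fun c _ => hm' (a, b, c), ← Finset.mul_sum] at h4
        exact (mul_eq_zero.1 h4).resolve_left two_ne_zero
      have h5 : ∀ x, ∑ y, m' y * (sgn (σ x y) * ((T (x - y)).val : ℤ)) = 0 := by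
        intro x
        have h4 := hc x
        have h6 : ∀ y, m y * (sgn (σ x y) * ((T (x - y)).val : ℤ)) =
            2 * (m' y * (sgn (σ x y) * ((T (x - y)).val : ℤ))) := by
          intro y
          rw [hm' y]
          ring
        rw [Finset.sum_congr rfl fun y _ => h6 y, ← Finset.mul_sum] at h4
        exact (mul_eq_zero.1 h4).resolve_left two_ne_zero
      rw [hm' y, pow_succ']
      exact mul_dvd_mul_left 2 (ih m' h3 h5 y)
  funext y
  by_contra h
  have h0 : m y ≠ 0 := h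
  have h3 := Int.le_of_dvd (abs_pos.2 h0) ((dvd_abs _ _).2 (key (m y).natAbs m hs hc y))
  have h4 : (m y).natAbs < 2 ^ (m y).natAbs := Nat.lt_two_pow_self
  have h5 : |m y| = ((m y).natAbs : ℤ) := (Int.natCast_natAbs _).symm
  rw [h5] at h3
  have h6 : (2 : ℤ) ^ (m y).natAbs = ((2 ^ (m y).natAbs : ℕ) : ℤ) := by push_cast; rfl
  rw [h6, Int.ofNat_le] at h3
  omega

end descent

end Pool.Agent.Q271.ZC.Low
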