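import Mathlib
import Pool.Agent.Q271.ZC.LowE

/-!
# Signs on the group with large relations only
-/

set_option autoImplicit false
set_option linter.unusedSectionVars false

namespace Pool.Agent.Q271.ZC.Low

open Matrix

theorem sgn_val (x : ZMod 2) : sgn x = 1 - 2 * (x.val : ℤ) := by
  revert x
  decide

section lift

variable {V W : Type} [Fintype V] [Fintype W] [DecidableEq V] [DecidableEq W]

/-- basic choice of the places of the minus signs -/
def T0 (u : V → W → ℤ) (y : V × W × ZMod 3) : ZMod 2 :=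
  if u y.1 y.2.1 = 3 then 0 else if u y.1 y.2.1 = 1 then (if y.2.2 = 0 then 1 else 0)
    else if u y.1 y.2.1 = -1 then (if y.2.2 = 0 ∨ y.2.2 = 1 then 1 else 0) else 1

theorem sum_three {M : Type} [AddCommMonoid M] (f : ZMod 3 → M) : ∑ c, f c = f 0 + f 1 + f 2 :=
  Fin.sum_univ_three f

theorem odd_cases {x : ℤ} (h1 : Odd x) (h2 : |x| ≤ 3) : x = 3 ∨ x = 1 ∨ x = -1 ∨ x = -3 := by
  rw [abs_le] at h2
  obtain ⟨k, rfl⟩ := h1
  omega

theorem sum_T0 (u : V → W → ℤ) (h1 : ∀ a b, Odd (u a b)) (h2 : ∀ a b, |u a b| ≤ 3) (a : V) (b : W) :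
    ∑ c, sgn (T0 u (a, b, c)) = u a b := by
  rw [sum_three]
  unfold T0
  dsimp only
  have e1 : (1 : ZMod 3) ≠ 0 := by decide
  have e2 : (2 : ZMod 3) ≠ 0 := by decide
  have e3 : (2 : ZMod 3) ≠ 1 := by decide
  rcases odd_cases (h1 a b) (h2 a b) with h | h | h | h <;> rw [h] <;>
    simp [sgn, e1, e2, e3]

theorem exists_T (u : V → W → ℤ) (h1 : ∀ a b, Odd (u a b)) (h2 : ∀ a b, |u a b| ≤ 3) (a0 : V)
    (b0 : W) (h0 : u a0 b0 = 1) : ∃ T : V × W × ZMod 3 → ZMod 2,
      (∀ a b, ∑ c, sgn (T (a, b, c)) = u a b) ∧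
      ∃ c c', ∑ a, ∑ b, T (a, b, c) ≠ ∑ a, ∑ b, T (a, b, c') := by
  by_cases h : ∃ c c', ∑ a, ∑ b, T0 u (a, b, c) ≠ ∑ a, ∑ b, T0 u (a, b, c')
  · exact ⟨T0 u, sum_T0 u h1 h2, h⟩
  · push Not at h
    let D : V × W × ZMod 3 → ZMod 2 := fun y =>
      if y.1 = a0 then (if y.2.1 = b0 then (if y.2.2 = 2 then 0 else 1) else 0) else 0
    refine ⟨fun y => T0 u y + D y, ?_, 0, 2, ?_⟩
    · intro a b
      by_cases hab : a = a0 ∧ b = b0
      · obtain ⟨rfl, rfl⟩ := hab
        rw [sum_three, h0]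
        have e1 : (1 : ZMod 3) ≠ 0 := by decide
        have e2 : (2 : ZMod 3) ≠ 0 := by decide
        have e3 : (1 : ZMod 3) ≠ 2 := by decide
        have e4 : (0 : ZMod 3) ≠ 2 := by decide
        simp only [T0, D, h0, e1, e2, e3, e4, if_true, if_false, sgn_add]
        norm_num [sgn]
      · rw [← sum_T0 u h1 h2 a b]
        refine Finset.sum_congr rfl fun c _ => ?_
        have h3 : D (a, b, c) = 0 := by
          simp only [D]
          by_cases ha : a = a0
          · rw [if_pos ha, if_neg (fun hb => hab ⟨ha, hb⟩)]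
          · rw [if_neg ha]
        change sgn (T0 u (a, b, c) + D (a, b, c)) = _
        rw [h3, add_zero]
    · have h3 : ∀ c, ∑ a, ∑ b, (T0 u (a, b, c) + D (a, b, c)) =
          ∑ a, ∑ b, T0 u (a, b, c) + (if c = 2 then 0 else 1) := by
        intro c
        simp only [Finset.sum_add_distrib, D]
        congr 1
        rw [Finset.sum_eq_single a0]
        · rw [Finset.sum_eq_single b0]
          · rw [if_pos rfl, if_pos rfl]
          · intro b _ hb
            rw [if_pos rfl, if_neg hb]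
          · intro h'
            exact absurd (Finset.mem_univ _) h'
        · intro a _ ha
          refine Finset.sum_eq_zero fun b _ => ?_
          rw [if_neg ha]
        · intro h'
          exact absurd (Finset.mem_univ _) h'
      rw [h3, h3, h 0 2, if_neg (by decide), if_pos rfl, add_zero]
      intro h4
      have h5 : (1 : ZMod 2) = 0 := by
        have h6 := congrArg (fun z => z - ∑ a, ∑ b, T0 u (a, b, 2)) h4
        simp only [add_sub_cancel_left, sub_self] at h6
        exact h6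
      exact absurd h5 (by decide)

end lift

section main

variable {F : Type} [Field F] [Fintype F] [DecidableEq F] (d : Dat F)

/-- the signs on the group -/
def tf (T : (F × F) × (F × F →+ ZMod 2) × ZMod 3 → ZMod 2) (g : GG (F × F)) : ℤ :=
  sgn (g.1.e + T (g.1.a, g.1.b, Multiplicative.toAdd g.2))

theorem tf_mk (T : (F × F) × (F × F →+ ZMod 2) × ZMod 3 → ZMod 2) (k : EG (F × F))
    (k' : Multiplicative (ZMod 3)) (e : ZMod 2) (a : F × F) (b : F × F →+ ZMod 2)
    (c : Multiplicative (ZMod 3)) :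
    tf T ((⟨e, a, b⟩, c)⁻¹ * (k, k')) = sgn e * sgn (b a) * sgn (b k.a) * sgn k.e *
      sgn (T ((k.a, k.b, Multiplicative.toAdd k') - (a, b, Multiplicative.toAdd c))) := by
  unfold tf
  have h1 : ((⟨e, a, b⟩, c)⁻¹ * (k, k') : GG (F × F)).1.e = -e + b a + k.e + -(b k.a) := rfl
  have h2 : ((⟨e, a, b⟩, c)⁻¹ * (k, k') : GG (F × F)).1.a = k.a - a := by
    change -a + k.a = k.a - a
    abel
  have h3 : ((⟨e, a, b⟩, c)⁻¹ * (k, k') : GG (F × F)).1.b = k.b - b := by
    change -b + k.b = k.b - b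
    abel
  have h4 : Multiplicative.toAdd ((⟨e, a, b⟩, c)⁻¹ * (k, k') : GG (F × F)).2 =
      Multiplicative.toAdd k' - Multiplicative.toAdd c := by
    change -(Multiplicative.toAdd c) + Multiplicative.toAdd k' = _
    abel
  rw [h1, h2, h3, h4, sgn_add, sgn_add, sgn_add, sgn_add]
  have h5 : ∀ x : ZMod 2, sgn (-x) = sgn x := by decide
  rw [h5, h5]
  have h6 : ((k.a, k.b, Multiplicative.toAdd k') - (a, b, Multiplicative.toAdd c) :
      (F × F) × (F × F →+ ZMod 2) × ZMod 3) =
      (k.a - a, k.b - b, Multiplicative.toAdd k' - Multiplicative.toAdd c) := rfl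
  rw [h6]
  ring

variable (T : (F × F) × (F × F →+ ZMod 2) × ZMod 3 → ZMod 2)
  (hT : ∀ a b, ∑ c, sgn (T (a, b, c)) = d.u a b)

include hT in
theorem Rn_tf (r q : F × F) : Rn (tf T) r q = 2 * (Fintype.card F * d.M r q) := by
  rw [Rn_apply d.add_self']
  have h1 : ∀ b : F × F →+ ZMod 2, (∑ c, (tf T (⟨0, r + q, b⟩, c) - tf T (⟨1, r + q, b⟩, c))) =
      2 * d.u (r + q) b := by
    intro b
    rw [← hT, Finset.mul_sum]
    refine Fintype.sum_equiv Multiplicative.toAdd _ _ fun c => ?_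
    unfold tf
    dsimp only
    rw [zero_add, sgn_add, sgn_one]
    ring
  rw [Finset.sum_congr rfl fun b _ => by rw [h1 b, mul_assoc], ← Finset.mul_sum, d.inv_u]
  have h2 : q + (r + q) = r := by
    rw [add_comm r q, ← add_assoc, d.add_self', zero_add]
  rw [h2]

variable {h : ℕ} (hh : Fintype.card F = 2 * h)

include hT hh in
theorem Rn_zero (n : GG (F × F) → ℤ) (hn : ∀ k, ∑ g, n g * tf T (g⁻¹ * k) = 0) (Y : ℕ)
    (hY : ∀ g, |n g| ≤ Y)
    (hlt : 6 * (Fintype.card F ^ 2 * Y) < h ^ (Fintype.card F * (Fintype.card F - 1))) :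
    Rn n = 0 := by
  have h1 := Rn_mul n (tf T) hn
  have hD : (2 : ℤ) * Fintype.card F ≠ 0 := mul_ne_zero two_ne_zero Dat.cardF
  funext r
  have h3 : ∀ q, ∑ s, Rn n r s * d.M s q = 0 := by
    intro q
    have h4 := congrFun (congrFun h1 r) q
    rw [Matrix.mul_apply] at h4
    apply mul_left_cancel₀ hD
    rw [mul_zero, Finset.mul_sum]
    have h5 : (0 : Matrix (F × F) (F × F) ℤ) r q = 0 := rfl
    rw [← h5, ← h4]
    refine Finset.sum_congr rfl fun s _ => ?_
    rw [Rn_tf d T hT]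
    ring
  have hc : 2 ≤ Fintype.card F := Fintype.one_lt_card
  have h4 := d.last h3 hh hc
  have h5 := abs_Rn_le d.add_self' n Y hY r
    (d.om ^ (Fintype.card F - 2), d.om ^ (Fintype.card F - 2))
  rw [h4, abs_mul, abs_of_nonneg (by positivity), Fintype.card_prod] at h5
  have h6 : Rn n r (0, 0) = 0 := by
    by_contra hne
    have h7 : 1 ≤ |Rn n r (0, 0)| := Int.one_le_abs hne
    have h8 : (h : ℤ) ^ (Fintype.card F * (Fintype.card F - 1)) ≤
        6 * ((Fintype.card F * Fintype.card F : ℕ) : ℤ) * Y := by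
      refine le_trans ?_ h5
      exact le_mul_of_one_le_right (by positivity) h7
    have h9 : (6 * (Fintype.card F ^ 2 * Y) : ℤ) < h ^ (Fintype.card F * (Fintype.card F - 1)) := by
      exact_mod_cast hlt
    push_cast at h8
    have h10 : (6 * ((Fintype.card F : ℤ) * Fintype.card F) * Y) = 6 * (Fintype.card F ^ 2 * Y) := by
      ring
    rw [h10] at h8
    exact absurd h9 (not_lt.2 h8)
  exact d.zero_of h3 hh h6

include hT hh in
/-- relations with small coefficients are even -/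
theorem even_small (hn3 : ∃ c c', ∑ a, ∑ b, T (a, b, c) ≠ ∑ a, ∑ b, T (a, b, c'))
    (n : GG (F × F) → ℤ) (hn : ∀ k, ∑ g, n g * tf T (g⁻¹ * k) = 0) (Y : ℕ)
    (hY : ∀ g, |n g| ≤ Y)
    (hlt : 6 * (Fintype.card F ^ 2 * Y) < h ^ (Fintype.card F * (Fintype.card F - 1)))
    (a : F × F) (b : F × F →+ ZMod 2) (c : Multiplicative (ZMod 3)) :
    n (⟨0, a, b⟩, c) = n (⟨1, a, b⟩, c) := by
  have h0 := Rn_zero d T hT hh n hn Y hY hlt
  have h1 := sum_zero_of_Rn d.add_self' n h0
  let m : (F × F) × (F × F →+ ZMod 2) × ZMod 3 → ℤ := fun y =>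
    n (⟨0, y.1, y.2.1⟩, Multiplicative.ofAdd y.2.2) - n (⟨1, y.1, y.2.1⟩, Multiplicative.ofAdd y.2.2)
  have hs : ∀ a b, ∑ c, m (a, b, c) = 0 := by
    intro a b
    rw [← h1 a b]
    exact Fintype.sum_equiv Multiplicative.ofAdd _ _ fun c => rfl
  have hm : m = 0 := by
    refine zero_of_rel d.add_self' T hn3 (fun x y => y.2.1 y.1 + y.2.1 x.1) m hs ?_
    intro x
    have h2 := hn (⟨0, x.1, x.2.1⟩, Multiplicative.ofAdd x.2.2)
    rw [Fintype.sum_prod_type, sum_EG] at h2
    have h3 : ∀ (a : F × F) (b : F × F →+ ZMod 2),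
        (∑ c, n (⟨0, a, b⟩, c) * tf T ((⟨0, a, b⟩, c)⁻¹ *
            (⟨0, x.1, x.2.1⟩, Multiplicative.ofAdd x.2.2)) +
          ∑ c, n (⟨1, a, b⟩, c) * tf T ((⟨1, a, b⟩, c)⁻¹ *
            (⟨0, x.1, x.2.1⟩, Multiplicative.ofAdd x.2.2))) =
        ∑ c : ZMod 3, m (a, b, c) * (sgn (b a + b x.1) * sgn (T (x - (a, b, c)))) := by
      intro a b
      rw [← Finset.sum_add_distrib]
      refine Fintype.sum_equiv Multiplicative.toAdd _ _ fun c => ?_
      rw [tf_mk, tf_mk, sgn_zero, sgn_one, sgn_add]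
      have h4 : ((x.1, x.2.1, Multiplicative.toAdd (Multiplicative.ofAdd x.2.2)) -
          (a, b, Multiplicative.toAdd c) : (F × F) × (F × F →+ ZMod 2) × ZMod 3) =
          x - (a, b, Multiplicative.toAdd c) := rfl
      dsimp only
      rw [h4]
      simp only [m, ofAdd_toAdd]
      ring
    rw [Finset.sum_congr rfl fun a _ => Finset.sum_congr rfl fun b _ => h3 a b] at h2
    have h4 : ∀ y : (F × F) × (F × F →+ ZMod 2) × ZMod 3,
        m y * (sgn (y.2.1 y.1 + y.2.1 x.1) * ((T (x - y)).val : ℤ)) * 2 =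
        m y * sgn (y.2.1 y.1 + y.2.1 x.1) -
          m y * (sgn (y.2.1 y.1 + y.2.1 x.1) * sgn (T (x - y))) := by
      intro y
      rw [sgn_val (T (x - y))]
      ring
    apply mul_right_cancel₀ (two_ne_zero (α := ℤ))
    rw [zero_mul, Finset.sum_mul, Finset.sum_congr rfl fun y _ => h4 y, Finset.sum_sub_distrib]
    have h5 : ∑ y : (F × F) × (F × F →+ ZMod 2) × ZMod 3, m y * sgn (y.2.1 y.1 + y.2.1 x.1) = 0 := by
      rw [Fintype.sum_prod_type]
      refine Finset.sum_eq_zero fun a _ => ?_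
      rw [Fintype.sum_prod_type]
      refine Finset.sum_eq_zero fun b _ => ?_
      dsimp only
      rw [← Finset.sum_mul, hs, zero_mul]
    have h6 : ∑ y : (F × F) × (F × F →+ ZMod 2) × ZMod 3,
        m y * (sgn (y.2.1 y.1 + y.2.1 x.1) * sgn (T (x - y))) = 0 := by
      rw [Fintype.sum_prod_type, ← h2]
      refine Finset.sum_congr rfl fun a _ => ?_
      rw [Fintype.sum_prod_type]
    rw [h5, h6, sub_zero]
  have h7 := congrFun hm (a, b, Multiplicative.toAdd c)
  have h8 : n (⟨0, a, b⟩, c) - n (⟨1, a, b⟩, c) = 0 := h7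
  linarith

include hT in
/-- there is a relation that is not even -/
theorem exists_rel : ∃ n : GG (F × F) → ℤ, (∀ k, ∑ g, n g * tf T (g⁻¹ * k) = 0) ∧
    ∃ a b c, n (⟨0, a, b⟩, c) ≠ n (⟨1, a, b⟩, c) := by
  obtain ⟨x, hx0, hx⟩ := d.exists_ker
  obtain ⟨a0, ha0⟩ := Function.ne_iff.1 hx0
  refine ⟨fun g => sgn (g.1.e + g.1.b g.1.a) * x g.1.a, ?_, a0, 0, 1, ?_⟩
  · intro k
    obtain ⟨k, k'⟩ := k
    rw [Fintype.sum_prod_type, sum_EG]
    have h3 : ∀ (a : F × F) (b : F × F →+ ZMod 2),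
        (∑ c, (sgn ((0 : ZMod 2) + b a) * x a) * tf T ((⟨0, a, b⟩, c)⁻¹ * (k, k')) +
          ∑ c, (sgn ((1 : ZMod 2) + b a) * x a) * tf T ((⟨1, a, b⟩, c)⁻¹ * (k, k'))) =
        2 * (sgn k.e * (x a * (sgn (b k.a) * d.u (k.a - a) (k.b - b)))) := by
      intro a b
      rw [← hT, ← Finset.sum_add_distrib, Finset.mul_sum, Finset.mul_sum, Finset.mul_sum,
        Finset.mul_sum]
      refine Fintype.sum_equiv (Multiplicative.toAdd.trans
        (Equiv.subLeft (Multiplicative.toAdd k'))) _ _ fun c => ?_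
      rw [tf_mk, tf_mk, sgn_zero, sgn_one, sgn_add, sgn_add, sgn_zero, sgn_one]
      have h4 : ((k.a, k.b, Multiplicative.toAdd k') - (a, b, Multiplicative.toAdd c) :
          (F × F) × (F × F →+ ZMod 2) × ZMod 3) =
          (k.a - a, k.b - b, Multiplicative.toAdd k' - Multiplicative.toAdd c) := rfl
      rw [h4]
      have h5 : (Multiplicative.toAdd.trans (Equiv.subLeft (Multiplicative.toAdd k'))) c =
          Multiplicative.toAdd k' - Multiplicative.toAdd c := rfl
      rw [h5]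
      have h6 := sgn_sq (b a)
      linear_combination (2 * x a * sgn (b k.a) * sgn k.e * sgn (T (k.a - a, k.b - b,
        Multiplicative.toAdd k' - Multiplicative.toAdd c))) * h6
    have h3' : ∑ a : F × F, ∑ b : F × F →+ ZMod 2,
        (∑ c, (sgn ((0 : ZMod 2) + b a) * x a) * tf T ((⟨0, a, b⟩, c)⁻¹ * (k, k')) +
          ∑ c, (sgn ((1 : ZMod 2) + b a) * x a) * tf T ((⟨1, a, b⟩, c)⁻¹ * (k, k'))) = 0 := by
      rw [Finset.sum_congr rfl fun a _ => Finset.sum_congr rfl fun b _ => h3 a b]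
      have h4 : ∀ a : F × F, ∑ b : F × F →+ ZMod 2,
          2 * (sgn k.e * (x a * (sgn (b k.a) * d.u (k.a - a) (k.b - b)))) =
          2 * (sgn k.e * (sgn (k.b k.a) * Fintype.card F)) * (x a * d.M a k.a) := by
        intro a
        rw [← Finset.mul_sum, ← Finset.mul_sum, ← Finset.mul_sum]
        have h5 : ∑ b : F × F →+ ZMod 2, sgn (b k.a) * d.u (k.a - a) (k.b - b) =
            sgn (k.b k.a) * (Fintype.card F * d.M a k.a) := by
          have h6 := d.inv_u (k.a - a) k.a
          have h7 : k.a + (k.a - a) = a := by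
            have e1 := d.add_self' k.a
            have e2 := d.add_self' a
            have e3 : k.a + (k.a - a) = (k.a + k.a) - (a + a) + a := by abel
            rw [e3, e1, e2, sub_zero, zero_add]
          rw [h7] at h6
          rw [← h6, Finset.mul_sum]
          refine Fintype.sum_equiv (Equiv.subLeft k.b) _ _ fun b => ?_
          rw [Equiv.subLeft_apply, AddMonoidHom.sub_apply]
          have h8 : ∀ p q : ZMod 2, sgn q = sgn p * sgn (p - q) := by decide
          rw [h8 (k.b k.a) (b k.a)]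
          ring
        rw [h5]
        ring
      rw [Finset.sum_congr rfl fun a _ => h4 a, ← Finset.mul_sum, hx k.a, mul_zero]
    exact h3'
  · have h1 : (0 : F × F →+ ZMod 2) a0 = 0 := rfl
    have h3 : x a0 ≠ 0 := ha0
    simp only [h1, add_zero, sgn_zero, sgn_one]
    intro h4
    apply h3
    linarith

end main

end Pool.Agent.Q271.ZC.Low
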