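import Mathlib
import Pool.Agent.Q271.ZC.LowF

/-!
# The combinatorial part of the lower bound
-/

set_option autoImplicit false
set_option linter.unusedSectionVars false

namespace Pool.Agent.Q271.ZC.Low

/-- transport of structure -/
def egCongr {V V' : Type} [AddCommGroup V] [AddCommGroup V'] (e : V ≃+ V') : EG V ≃* EG V' where
  toFun g := ⟨g.e, e g.a, g.b.comp e.symm.toAddMonoidHom⟩
  invFun g := ⟨g.e, e.symm g.a, g.b.comp e.toAddMonoidHom⟩
  left_inv g := by
    apply EG.ext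
    · rfl
    · exact e.symm_apply_apply g.a
    · ext v
      exact congrArg g.b (e.symm_apply_apply v)
  right_inv g := by
    apply EG.ext
    · rfl
    · exact e.apply_symm_apply g.a
    · ext v
      exact congrArg g.b (e.apply_symm_apply v)
  map_mul' g h := by
    apply EG.ext
    · change g.e + h.e + g.b h.a = g.e + h.e + g.b (e.symm (e h.a))
      rw [e.symm_apply_apply]
    · exact map_add e g.a h.a
    · rfl

/-- a group with signs all of whose odd relations are large -/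
structure Large (G : Type) [Group G] [Fintype G] (z : G) (B : ℕ) : Prop where
  /-- the signs -/
  ex : ∃ s : G → ℤ, (∀ g, s g = 1 ∨ s g = -1) ∧ (∀ g, s (z * g) = -s g) ∧
    (∀ n : G → ℤ, (∀ h, ∑ g, n g * s (h * g) = 0) → ∀ Y : ℕ, (∀ g, |n g| ≤ Y) → Y < B →
      ∀ g, n (z * g) = n g) ∧
    ∃ n : G → ℤ, (∀ h, ∑ g, n g * s (h * g) = 0) ∧ ∃ g, n (z * g) ≠ n g

theorem Large.congr {G G' : Type} [Group G] [Group G'] [Fintype G] [Fintype G'] {z : G} {z' : G'}
    {B : ℕ} (h : Large G z B) (e : G' ≃* G) (hz : e z' = z) : Large G' z' B := by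
  obtain ⟨s, h1, h2, h3, n, h4, g0, h5⟩ := h.ex
  refine ⟨fun g => s (e g), fun g => h1 _, fun g => ?_, fun n' hn' Y hY hlt g => ?_,
    fun g => n (e g), fun k => ?_, e.symm g0, ?_⟩
  · change s (e (z' * g)) = -s (e g)
    rw [map_mul, hz, h2]
  · have h6 := h3 (fun g => n' (e.symm g)) (fun k => by
      rw [← hn' (e.symm k)]
      refine Fintype.sum_equiv e.symm.toEquiv _ _ fun g => ?_
      change n' (e.symm g) * s (k * g) = n' (e.symm g) * s (e (e.symm k * e.symm g))
      rw [map_mul, e.apply_symm_apply, e.apply_symm_apply]) Y (fun g => hY _) hlt (e g)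
    change n' (e.symm (z * e g)) = n' (e.symm (e g)) at h6
    rw [← hz, ← map_mul, e.symm_apply_apply, e.symm_apply_apply] at h6
    exact h6
  · rw [← h4 (e k)]
    refine Fintype.sum_equiv e.toEquiv _ _ fun g => ?_
    change n (e g) * s (e (k * g)) = n (e g) * s (e k * e g)
    rw [map_mul]
  · change n (e (z' * e.symm g0)) ≠ n (e (e.symm g0))
    rw [map_mul, hz, e.apply_symm_apply]
    exact h5

/-- the combinatorial core for a finite field -/
theorem large_field {F : Type} [Field F] [Fintype F] [DecidableEq F] (h2 : (2 : F) = 0)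
    (hc : 3 < Fintype.card F) {h : ℕ} (hh : Fintype.card F = 2 * h) (B : ℕ)
    (hB : 6 * (Fintype.card F ^ 2 * B) ≤ h ^ (Fintype.card F * (Fintype.card F - 1))) :
    Large (GG (F × F)) (⟨1, 0, 0⟩, 1) B := by
  obtain ⟨d, -⟩ := exists_dat h2 hc
  obtain ⟨T, hT, hn3⟩ := exists_T d.u d.u_odd d.u_abs (1, 0) 0 d.u_one
  have hz : ∀ (a : F × F) (b : F × F →+ ZMod 2) (c : Multiplicative (ZMod 3)) (e : ZMod 2),
      ((⟨1, 0, 0⟩, 1) : GG (F × F)) * (⟨e, a, b⟩, c) = (⟨1 + e, a, b⟩, c) := by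
    intro a b c e
    refine Prod.ext (EG.ext ?_ ?_ ?_) ?_
    · change (1 : ZMod 2) + e + (0 : F × F →+ ZMod 2) a = 1 + e
      rw [AddMonoidHom.zero_apply, add_zero]
    · exact zero_add a
    · exact zero_add b
    · exact one_mul c
  have he : ∀ e : ZMod 2, e = 0 ∨ e = 1 := by decide
  have hrel : ∀ n : GG (F × F) → ℤ, (∀ k, ∑ g, n g * tf T ((k * g)⁻¹) = 0) ↔
      ∀ k, ∑ g, n g * tf T (g⁻¹ * k) = 0 := by
    intro n
    constructor
    · intro h k
      rw [← h k⁻¹]
      refine Finset.sum_congr rfl fun g _ => ?_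
      rw [mul_inv_rev, inv_inv]
    · intro h k
      rw [← h k⁻¹]
      refine Finset.sum_congr rfl fun g _ => ?_
      rw [mul_inv_rev]
  refine ⟨fun g => tf T g⁻¹, fun g => sgn_cases _, fun g => ?_, fun n hn Y hY hlt g => ?_, ?_⟩
  · obtain ⟨⟨e, a, b⟩, c⟩ := g
    rw [hz]
    have h3 := tf_mk T 1 1 e a b c
    have h4 := tf_mk T 1 1 (1 + e) a b c
    rw [Prod.mk_one_one, mul_one] at h3 h4
    change tf T (⟨1 + e, a, b⟩, c)⁻¹ = -tf T (⟨e, a, b⟩, c)⁻¹
    rw [h3, h4, sgn_add, sgn_one]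
    ring
  · have h3 := (hrel n).1 hn
    have hlt' : 6 * (Fintype.card F ^ 2 * Y) < h ^ (Fintype.card F * (Fintype.card F - 1)) := by
      refine lt_of_lt_of_le ?_ hB
      have : 0 < Fintype.card F ^ 2 := by positivity
      exact Nat.mul_lt_mul_of_pos_left (Nat.mul_lt_mul_of_pos_left hlt this) (by norm_num)
    obtain ⟨⟨e, a, b⟩, c⟩ := g
    rw [hz]
    have h4 := even_small d T hT hh hn3 n h3 Y hY hlt' a b c
    rcases he e with rfl | rfl
    · rw [add_zero]
      exact h4.symm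
    · have h5 : (1 : ZMod 2) + 1 = 0 := by decide
      rw [h5]
      exact h4
  · obtain ⟨n, hn, a, b, c, hne⟩ := exists_rel d T hT
    refine ⟨n, (hrel n).2 hn, (⟨0, a, b⟩, c), ?_⟩
    rw [hz, add_zero]
    exact hne.symm

theorem large (l : ℕ) (hl : 2 ≤ l) (B : ℕ)
    (hB : 6 * (4 ^ l * B) ≤ (2 ^ (l - 1)) ^ (2 ^ l * (2 ^ l - 1))) :
    Large (EG (Fin (2 * l) → ZMod 2) × Multiplicative (ZMod 3)) (⟨1, 0, 0⟩, 1) B := by
  classical
  have : Fact (Nat.Prime 2) := ⟨Nat.prime_two⟩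
  let F := GaloisField 2 l
  have hl0 : l ≠ 0 := by omega
  let _ : Fintype F := Fintype.ofFinite F
  have hcard : Fintype.card F = 2 ^ l := by
    rw [← Nat.card_eq_fintype_card]
    exact GaloisField.card 2 l hl0
  have h2 : (2 : F) = 0 := by
    have := CharP.cast_eq_zero F 2
    exact_mod_cast this
  have h3 : 3 < Fintype.card F := by
    rw [hcard]
    calc 3 < 2 ^ 2 := by norm_num
      _ ≤ 2 ^ l := Nat.pow_le_pow_right (by norm_num) hl
  have hh : Fintype.card F = 2 * 2 ^ (l - 1) := by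
    rw [hcard, ← pow_succ']
    congr 1
    omega
  have h4 := large_field (F := F) h2 h3 hh B (by
    rw [hcard, ← pow_mul, mul_comm l 2, pow_mul]
    exact hB)
  -- an isomorphism of vector spaces
  have h5 : Nonempty ((Fin (2 * l) → ZMod 2) ≃+ F × F) := by
    have h6 : Module.finrank (ZMod 2) (F × F) = Module.finrank (ZMod 2) (Fin (2 * l) → ZMod 2) := by
      have h7 : Module.finrank (ZMod 2) F = l := GaloisField.finrank 2 hl0
      rw [Module.finrank_prod, h7, Module.finrank_fintype_fun_eq_card, Fintype.card_fin]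
      ring
    obtain ⟨e⟩ := FiniteDimensional.nonempty_linearEquiv_iff_finrank_eq.2 h6.symm
    exact ⟨e.toAddEquiv⟩
  obtain ⟨ψ⟩ := h5
  let e : EG (Fin (2 * l) → ZMod 2) × Multiplicative (ZMod 3) ≃* GG (F × F) :=
    MulEquiv.prodCongr (egCongr ψ) (MulEquiv.refl _)
  refine h4.congr e ?_
  refine Prod.ext (EG.ext ?_ ?_ ?_) ?_
  · rfl
  · exact map_zero ψ
  · rfl
  · rfl

end Pool.Agent.Q271.ZC.Low
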