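import Mathlib
import Pool.Agent.Q271.ZC.HodgeUp
import Pool.Agent.Q271.ZC.LowG
import Pool.Agent.Q237.ZC.Fld

/-!
# The lower bound for abelian varieties of CM type
-/

set_option autoImplicit false
set_option linter.unusedSectionVars false

namespace Pool.Agent.Q271.ZC

open NumberField Module Pool.Agent.H204R3.CM

/-- the order of the group -/
theorem card_EG_le (k : ℕ) : Nat.card (EG (Fin k → ZMod 2) × Multiplicative (ZMod 3)) ≤ 6 * 4 ^ k := by
  have h1 : Nat.card (EG (Fin k → ZMod 2)) ≤ 2 * 4 ^ k := by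
    let f : EG (Fin k → ZMod 2) → ZMod 2 × (Fin k → ZMod 2) × (Fin k → ZMod 2) :=
      fun g => (g.e, g.a, fun i => g.b (Pi.single i 1))
    have hf : Function.Injective f := by
      intro g h hgh
      have h2 : g.e = h.e := congrArg Prod.fst hgh
      have h3 : g.a = h.a := congrArg (fun x => x.2.1) hgh
      have h4 : (fun i => g.b (Pi.single i 1)) = fun i => h.b (Pi.single i 1) :=
        congrArg (fun x => x.2.2) hgh
      refine EG.ext h2 h3 ?_
      refine AddMonoidHom.functions_ext _ _ _ fun i x => ?_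
      have h5 : ∀ x : ZMod 2, x = 0 ∨ x = 1 := by decide
      rcases h5 x with rfl | rfl
      · rw [Pi.single_zero, map_zero, map_zero]
      · exact congrFun h4 i
    refine (Nat.card_le_card_of_injective f hf).trans (le_of_eq ?_)
    rw [Nat.card_prod, Nat.card_prod, Nat.card_fun, Nat.card_zmod, Nat.card_fin, ← mul_pow]
    norm_num
  rw [Nat.card_prod]
  have h2 : Nat.card (Multiplicative (ZMod 3)) = 3 := Nat.card_zmod 3
  rw [h2]
  omega

theorem exists_field (l : ℕ) (hl : 2 ≤ l) (B : ℕ)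
    (hB : 6 * (4 ^ l * B) ≤ (2 ^ (l - 1)) ^ (2 ^ l * (2 ^ l - 1))) :
    ∃ (L : Type) (_ : Field L) (_ : NumberField L) (_ : IsGalois ℚ L) (_ : IsCMField L)
      (z : L ≃ₐ[ℚ] L), (∀ φ : L →+* ℂ, ComplexEmbedding.IsConj φ z) ∧
      finrank ℚ L ≤ 2 * (3 * 16 ^ l) ∧ Low.Large (L ≃ₐ[ℚ] L) z B := by
  obtain ⟨L, _, _, _, e, he⟩ := Pool.Agent.Q237.ZC.field (2 * l)
  have hz1 : e.symm (⟨1, 0, 0⟩, 1) ≠ 1 := by
    intro h
    rw [MulEquiv.symm_apply_eq, map_one] at h
    have h2 : (1 : ZMod 2) = 0 := congrArg (fun x => x.1.e) h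
    exact absurd h2 (by decide)
  have hcx : IsTotallyComplex L := by
    refine ⟨fun w => ?_⟩
    rw [← InfinitePlace.not_isReal_iff_isComplex]
    intro hw
    apply hz1
    rw [InfinitePlace.isReal_iff] at hw
    exact ComplexEmbedding.IsConj.ext (he w.embedding)
      ((ComplexEmbedding.isConj_one_iff (k := ℚ)).2 hw)
  have hcm : IsCMField L := IsCMField.of_forall_isConj L he
  refine ⟨L, inferInstance, inferInstance, inferInstance, hcm, e.symm (⟨1, 0, 0⟩, 1), he, ?_, ?_⟩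
  · have h1 : finrank ℚ L = Nat.card (EG (Fin (2 * l) → ZMod 2) × Multiplicative (ZMod 3)) := by
      rw [← IsGalois.card_aut_eq_finrank ℚ L]
      exact Nat.card_congr e.toEquiv
    rw [h1]
    refine (card_EG_le (2 * l)).trans (le_of_eq ?_)
    rw [pow_mul]
    norm_num
    ring
  · exact (Low.large l hl B hB).congr e (e.apply_symm_apply _)

section

variable {L : Type} [Field L] [NumberField L] [IsGalois ℚ L]

/-- automorphisms as embeddings -/
def emb (τ : L ≃ₐ[ℚ] L) : Σ _ : Unit, (L →+* L) := ⟨(), (τ : L →+* L)⟩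

theorem emb_bij : Function.Bijective (emb : (L ≃ₐ[ℚ] L) → Σ _ : Unit, (L →+* L)) := by
  constructor
  · intro σ τ h
    have h1 : (σ : L →+* L) = τ := eq_of_heq (Sigma.mk.inj_iff.1 h).2
    ext x
    exact RingHom.congr_fun h1 x
  · rintro ⟨⟨⟩, φ⟩
    obtain ⟨σ, hσ⟩ := exists_conj (RingHom.id L) φ
    refine ⟨σ, ?_⟩
    rw [← hσ]
    rfl

/-- the CM type given by signs on the Galois group -/
def cmType (j : L →+* ℂ) (s : (L ≃ₐ[ℚ] L) → ℤ) : Set (L →+* ℂ) :=
  {φ | ∃ σ : L ≃ₐ[ℚ] L, φ = j.comp (σ : L →+* L) ∧ s σ = 1}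

theorem mem_cmType (j : L →+* ℂ) (s : (L ≃ₐ[ℚ] L) → ℤ) (τ : L ≃ₐ[ℚ] L) :
    j.comp (τ : L →+* L) ∈ cmType j s ↔ s τ = 1 := by
  constructor
  · rintro ⟨σ, h1, h2⟩
    have h3 : τ = σ := by
      ext x
      exact j.injective (RingHom.congr_fun h1 x)
    rw [h3, h2]
  · exact fun h => ⟨τ, rfl, h⟩

theorem exists_comp (j φ : L →+* ℂ) : ∃ σ : L ≃ₐ[ℚ] L, φ = j.comp (σ : L →+* L) := by
  have h1 : Function.Bijective (fun τ : L →+* L => j.comp τ) := by
    rw [Fintype.bijective_iff_injective_and_card]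
    constructor
    · intro σ τ h
      ext x
      exact j.injective (RingHom.congr_fun h x)
    · rw [Embeddings.card L ℂ, ← IsGalois.card_aut_eq_finrank ℚ L, Nat.card_eq_fintype_card]
      refine (Fintype.card_of_bijective (f := fun τ : L ≃ₐ[ℚ] L => (τ : L →+* L)) ⟨?_, ?_⟩).symm
      · intro σ τ h
        ext x
        exact RingHom.congr_fun h x
      · intro φ
        obtain ⟨σ, hσ⟩ := exists_conj (RingHom.id L) φ
        exact ⟨σ, by rw [← hσ]; rfl⟩
  obtain ⟨τ, hτ⟩ := h1.2 φ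
  obtain ⟨σ, hσ⟩ := exists_conj (RingHom.id L) τ
  refine ⟨σ, ?_⟩
  rw [← hτ, ← hσ]
  rfl

end

theorem hodge_low_field (hl1 : S_HL1) {L : Type} [Field L] [NumberField L] [IsGalois ℚ L]
    [IsCMField L] (z : L ≃ₐ[ℚ] L) (hz : ∀ φ : L →+* ℂ, ComplexEmbedding.IsConj φ z) (B : ℕ)
    (hB : 2 ≤ B) (h : Low.Large (L ≃ₐ[ℚ] L) z B) :
    ∃ Φ : Set (L →+* ℂ), IsCMType Φ ∧ Reduced (fun _ : Unit => Φ) ∧
      (∀ n < B, Generated (fun _ : Unit => Φ) (fun _ : Fin n => ())) ∧
      ∃ n, ¬ Generated (fun _ : Unit => Φ) (fun _ : Fin n => ()) := by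
  classical
  obtain ⟨s, hs1, hsz, hsm, n₀, hn₀, g₀, hg₀⟩ := h.ex
  have j : L →+* ℂ := Classical.choice inferInstance
  -- the complex conjugation is central
  have hconj : ∀ τ : L ≃ₐ[ℚ] L, ∀ x, j (z (τ x)) = starRingEnd ℂ (j (τ x)) := fun τ x =>
    ((hz j).eq (τ x))
  have hconj2 : ∀ τ : L ≃ₐ[ℚ] L, ∀ x, j (τ (z x)) = starRingEnd ℂ (j (τ x)) := fun τ x =>
    ((hz (j.comp (τ : L →+* L))).eq x)
  have hcentral : ∀ τ : L ≃ₐ[ℚ] L, z * τ = τ * z := by
    intro τ
    ext x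
    apply j.injective
    exact (hconj τ x).trans (hconj2 τ x).symm
  set Φ := cmType j s with hΦdef
  have hmem : ∀ τ : L ≃ₐ[ℚ] L, j.comp (τ : L →+* L) ∈ Φ ↔ s τ = 1 := mem_cmType j s
  have hΦ : IsCMType Φ := by
    intro φ
    obtain ⟨σ, rfl⟩ := exists_comp j φ
    have h1 : ComplexEmbedding.conjugate (j.comp (σ : L →+* L)) =
        j.comp ((z * σ : L ≃ₐ[ℚ] L) : L →+* L) := by
      ext x
      exact (hconj σ x).symm
    rw [h1, hmem, hmem, hsz]
    rcases hs1 σ with h | h <;> rw [h] <;> norm_num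
  have hsg : ∀ τ : L ≃ₐ[ℚ] L, sg (fun _ : Unit => Φ) j (emb τ) = s τ := by
    intro τ
    have h1 : j.comp (emb τ).2 ∈ Φ ↔ s τ = 1 := hmem τ
    unfold sg
    by_cases h2 : s τ = 1
    · rw [if_pos (h1.2 h2), h2]
    · rw [if_neg fun h3 => h2 (h1.1 h3)]
      exact ((hs1 τ).resolve_left h2).symm
  have hbar : ∀ τ : L ≃ₐ[ℚ] L, bar (emb τ) = emb (z * τ) := by
    intro τ
    have h1 : cbar (τ : L →+* L) = ((z * τ : L ≃ₐ[ℚ] L) : L →+* L) := by
      ext x
      apply j.injective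
      have h2 := RingHom.congr_fun (comp_cbar j (τ : L →+* L)) x
      exact h2.trans (hconj τ x).symm
    change (⟨(), cbar (τ : L →+* L)⟩ : Σ _ : Unit, (L →+* L)) = _
    rw [h1]
    rfl
  have hL : ∀ i : Unit, ∀ ψ : L →+* ℂ, ∃ φ : L →+* L, j.comp φ = ψ := by
    intro _ ψ
    obtain ⟨σ, hσ⟩ := exists_comp j ψ
    exact ⟨σ, hσ.symm⟩
  have hsum : ∀ (c : (Σ _ : Unit, (L →+* L)) → ℤ) (σ : L ≃ₐ[ℚ] L),
      ∑ x, c x * sg (fun _ : Unit => Φ) j ⟨x.1, (σ : L →+* L).comp x.2⟩ =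
      ∑ τ, c (emb τ) * s (σ * τ) := by
    intro c σ
    rw [← Function.Bijective.sum_comp (emb_bij (L := L))]
    refine Finset.sum_congr rfl fun τ _ => ?_
    rw [← hsg (σ * τ)]
    rfl
  have hred : Reduced (fun _ : Unit => Φ) := by
    rintro ⟨⟨⟩, φ⟩ ⟨⟨⟩, ψ⟩ h1
    obtain ⟨α, rfl⟩ := exists_comp j φ
    obtain ⟨β, rfl⟩ := exists_comp j ψ
    have h2 : ∀ g : L ≃ₐ[ℚ] L, s (g * α) = s (g * β) := by
      intro g
      obtain ⟨σ, hσ⟩ := Pool.Agent.H977R3.CM.exists_aut j (g : L ≃+* L)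
      have h3 := h1 σ
      have h4 : ∀ α : L ≃ₐ[ℚ] L, (σ : ℂ →+* ℂ).comp (j.comp (α : L →+* L)) =
          j.comp ((g * α : L ≃ₐ[ℚ] L) : L →+* L) := by
        intro α
        ext x
        exact hσ (α x)
      change (σ : ℂ →+* ℂ).comp (j.comp (α : L →+* L)) ∈ Φ ↔
        (σ : ℂ →+* ℂ).comp (j.comp (β : L →+* L)) ∈ Φ at h3
      rw [h4, h4, hmem, hmem] at h3
      rcases hs1 (g * α) with h5 | h5 <;> rcases hs1 (g * β) with h6 | h6 <;>
        rw [h5, h6] at h3 ⊢ <;> norm_num at h3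
    by_cases hαβ : α = β
    · rw [hαβ]
    · exfalso
      have h3 := hsm (fun g => (if g = α then 1 else 0) - (if g = β then 1 else 0)) (by
        intro k
        simp only [sub_mul, ite_mul, one_mul, zero_mul, Finset.sum_sub_distrib,
          Finset.sum_ite_eq', Finset.mem_univ, if_true]
        rw [h2, sub_self]) 1 (by
        intro g
        by_cases h4 : g = α
        · rw [if_pos h4, if_neg (fun h5 => hαβ (h4.symm.trans h5))]
          norm_num
        · rw [if_neg h4]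
          split_ifs <;> norm_num) (by omega) α
      have h4 : z * α ≠ α := by
        intro h5
        have h6 := hsz α
        rw [h5] at h6
        rcases hs1 α with h7 | h7 <;> rw [h7] at h6 <;> norm_num at h6
      simp only [if_neg h4, if_neg hαβ, if_true] at h3
      split_ifs at h3 <;> norm_num at h3
  refine ⟨Φ, hΦ, hred, ?_, ?_⟩
  · intro n hn
    refine hl1 Unit (Fin n) (fun _ => L) L (fun _ => Φ) _ j (fun _ => hΦ) hL ?_
    intro c hc hle x
    obtain ⟨τ, rfl⟩ := emb_bij.2 x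
    rw [hbar]
    have h1 := hsm (fun τ => (c (emb τ) : ℤ)) (by
      intro σ
      have h2 := hc σ
      rw [hsum (fun x => (c x : ℤ)) σ] at h2
      exact h2) n (by
      intro τ
      have h2 := hle (emb τ)
      rw [Nat.abs_cast]
      have h3 : Nat.card {a : Fin n // () = (emb τ).1} ≤ n := by
        refine (Nat.card_le_card_of_injective (fun a : {a : Fin n // () = (emb τ).1} => a.1)
          Subtype.val_injective).trans (le_of_eq ?_)
        rw [Nat.card_fin]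
      exact_mod_cast h2.trans h3) hn τ
    exact_mod_cast h1
  · -- the exotic relation
    obtain ⟨M, hM⟩ : ∃ M : ℕ, ∀ g, |n₀ g| ≤ M := by
      refine ⟨∑ g, (n₀ g).natAbs, fun g => ?_⟩
      rw [Int.abs_eq_natAbs]
      exact_mod_cast Finset.single_le_sum (f := fun g => (n₀ g).natAbs)
        (fun _ _ => Nat.zero_le _) (Finset.mem_univ g)
    have hpos : ∀ g, 0 ≤ n₀ g + M := fun g => by
      have := (abs_le.1 (hM g)).1
      linarith
    have hcoe : ∀ g, (((n₀ g + M).toNat : ℕ) : ℤ) = n₀ g + M := fun g => Int.toNat_of_nonneg (hpos g)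
    let ee := Equiv.ofBijective _ (emb_bij (L := L))
    have hee : ∀ τ, ee.symm (emb τ) = τ := fun τ => ee.symm_apply_apply τ
    refine ⟨2 * M, ?_⟩
    refine Pool.Agent.Q277.ZC.hl2 Unit (Fin (2 * M)) (fun _ => L) L (fun _ => Φ) _ j (fun _ => hΦ) hL
      (redL_of_reduced _ j hred) (fun x => (n₀ (ee.symm x) + M).toNat) ?_ ?_ ⟨emb g₀, ?_⟩
    · intro σ
      rw [hsum (fun x => (((n₀ (ee.symm x) + M).toNat : ℕ) : ℤ)) σ]
      have h1 : ∀ τ : L ≃ₐ[ℚ] L, (((n₀ (ee.symm (emb τ)) + M).toNat : ℕ) : ℤ) * s (σ * τ) =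
          n₀ τ * s (σ * τ) + M * s (σ * τ) := by
        intro τ
        rw [hee, hcoe, add_mul]
      rw [Finset.sum_congr rfl fun τ _ => h1 τ, Finset.sum_add_distrib, hn₀ σ, zero_add,
        ← Finset.mul_sum]
      have h2 : ∑ τ : L ≃ₐ[ℚ] L, s (σ * τ) = 0 := by
        have h3 : ∑ τ : L ≃ₐ[ℚ] L, s (σ * τ) = ∑ τ : L ≃ₐ[ℚ] L, s (z * (σ * τ)) := by
          rw [← Equiv.sum_comp (Equiv.mulLeft z) (fun τ => s (σ * τ))]
          refine Finset.sum_congr rfl fun τ _ => ?_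
          rw [Equiv.coe_mulLeft, ← mul_assoc, ← mul_assoc, hcentral σ]
        rw [Finset.sum_congr rfl fun τ _ => hsz (σ * τ), Finset.sum_neg_distrib] at h3
        linarith
      rw [h2, mul_zero]
    · intro x
      have h3 : Nat.card {a : Fin (2 * M) // () = x.1} = 2 * M := by
        rw [Nat.card_congr (Equiv.subtypeUnivEquiv fun _ => rfl), Nat.card_fin]
      rw [h3]
      have h4 := hcoe (ee.symm x)
      have h5 := (abs_le.1 (hM (ee.symm x))).2
      omega
    · rw [hbar, hee, hee]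
      intro h1
      apply hg₀
      have h2 : (((n₀ (z * g₀) + M).toNat : ℕ) : ℤ) = (((n₀ g₀ + M).toNat : ℕ) : ℤ) := by
        exact_mod_cast h1
      rw [hcoe, hcoe] at h2
      linarith

end Pool.Agent.Q271.ZC
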