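import Mathlib

/-!
# Numerics for the lower bound
-/

set_option autoImplicit false

namespace Pool.Agent.Q271.ZC

theorem num_low (g : ℕ) (hg : 3 * 16 ^ 4 ≤ g) : ∃ l : ℕ, 2 ≤ l ∧ ∃ B : ℕ, 2 ≤ B ∧
    3 * 16 ^ l ≤ g ∧ 6 * (4 ^ l * B) ≤ (2 ^ (l - 1)) ^ (2 ^ l * (2 ^ l - 1)) ∧
    ∀ n : ℕ, (n : ℝ) ≤ Real.exp (1 / 250 * Real.sqrt g * Real.log g) → n < B := by
  obtain ⟨l, hl4, hl1, hl2⟩ : ∃ l, 4 ≤ l ∧ 3 * 16 ^ l ≤ g ∧ g < 3 * 16 ^ (l + 1) := by
    refine ⟨Nat.log 16 (g / 3), ?_, ?_, ?_⟩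
    · exact Nat.le_log_of_pow_le (by norm_num) (by omega)
    · have h1 : 16 ^ Nat.log 16 (g / 3) ≤ g / 3 := Nat.pow_log_le_self 16 (by omega)
      omega
    · have h1 : g / 3 < 16 ^ (Nat.log 16 (g / 3) + 1) := Nat.lt_pow_succ_log_self (by norm_num) _
      omega
  obtain ⟨k, rfl⟩ : ∃ k, l = k + 1 := ⟨l - 1, by omega⟩
  have hk3 : 3 ≤ k := by omega
  refine ⟨k + 1, by omega, 2 ^ ((k + 1) * 4 ^ k), ?_, hl1, ?_, ?_⟩
  · calc 2 = 2 ^ 1 := rfl
      _ ≤ 2 ^ ((k + 1) * 4 ^ k) := Nat.pow_le_pow_right (by norm_num)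
          (Nat.mul_pos (by omega) (by positivity))
  · rw [Nat.add_sub_cancel]
    have h1 : 6 * 4 ^ (k + 1) ≤ 2 ^ (2 * k + 5) := by
      have h2 : 2 ^ (2 * k + 5) = 32 * 4 ^ k := by
        rw [pow_add, pow_mul]
        norm_num
        ring
      rw [h2, pow_succ]
      omega
    have h3 : 2 * k + 5 + (k + 1) * 4 ^ k ≤ k * (2 ^ (k + 1) * (2 ^ (k + 1) - 1)) := by
      have h4 : 4 ^ k = 2 ^ k * 2 ^ k := by
        rw [← mul_pow]
        norm_num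
      have h5 : 2 ^ 3 ≤ 2 ^ k := Nat.pow_le_pow_right (by norm_num) hk3
      have h6 : k < 2 ^ k := Nat.lt_two_pow_self
      obtain ⟨x, hx⟩ : ∃ x, 2 ^ k = x := ⟨_, rfl⟩
      rw [h4, pow_succ, hx]
      rw [hx] at h5 h6
      have h7 : x ≤ x * 2 - 1 := by omega
      have h9 : 2 * k * (x * x) ≤ k * (x * 2 * (x * 2 - 1)) := by
        calc 2 * k * (x * x) = k * (x * 2 * x) := by ring
          _ ≤ k * (x * 2 * (x * 2 - 1)) :=
            Nat.mul_le_mul_left _ (Nat.mul_le_mul_left _ h7)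
      refine le_trans ?_ h9
      have h10 : 2 ^ 3 * x ≤ x * x := Nat.mul_le_mul_right _ h5
      have h11 : 3 * (x * x) ≤ k * (x * x) := Nat.mul_le_mul_right _ hk3
      nlinarith
    calc 6 * (4 ^ (k + 1) * 2 ^ ((k + 1) * 4 ^ k)) = (6 * 4 ^ (k + 1)) * 2 ^ ((k + 1) * 4 ^ k) := by
          ring
      _ ≤ 2 ^ (2 * k + 5) * 2 ^ ((k + 1) * 4 ^ k) := Nat.mul_le_mul_right _ h1
      _ = 2 ^ (2 * k + 5 + (k + 1) * 4 ^ k) := (pow_add _ _ _).symm
      _ ≤ 2 ^ (k * (2 ^ (k + 1) * (2 ^ (k + 1) - 1))) := Nat.pow_le_pow_right (by norm_num) h3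
      _ = (2 ^ k) ^ (2 ^ (k + 1) * (2 ^ (k + 1) - 1)) := pow_mul _ _ _
  · intro n hn
    have h1 : Real.sqrt g ≤ 28 * 4 ^ k := by
      rw [Real.sqrt_le_left (by positivity)]
      have h2 : (g : ℝ) ≤ 3 * 16 ^ (k + 1 + 1) := by exact_mod_cast hl2.le
      refine h2.trans ?_
      have h3 : ((28 : ℝ) * 4 ^ k) ^ 2 = 784 * 16 ^ k := by
        rw [mul_pow, ← pow_mul, mul_comm k 2, pow_mul]
        norm_num
      rw [h3, pow_succ, pow_succ]
      have h4 : (0 : ℝ) < 16 ^ k := by positivity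
      nlinarith
    have hg1 : (1 : ℝ) ≤ g := by
      have : 1 ≤ g := le_trans (by norm_num) hg
      exact_mod_cast this
    have h2 : Real.log g ≤ 5 * (k + 1) := by
      have h3 : Real.log g ≤ Real.log (3 * 16 ^ (k + 1 + 1)) :=
        Real.log_le_log (by linarith) (by exact_mod_cast hl2.le)
      have h4 : Real.log (3 * 16 ^ (k + 1 + 1)) ≤ Real.log ((16 : ℝ) ^ (k + 1 + 1 + 1)) := by
        apply Real.log_le_log (by positivity)
        rw [pow_succ (16 : ℝ) (k + 1 + 1)]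
        have h4 : (0 : ℝ) < 16 ^ (k + 1 + 1) := by positivity
        linarith
      have h5 : Real.log ((16 : ℝ) ^ (k + 1 + 1 + 1)) = (k + 3) * (4 * Real.log 2) := by
        rw [Real.log_pow, show (16 : ℝ) = 2 ^ 4 by norm_num, Real.log_pow]
        push_cast
        ring
      have h6 := Real.log_two_lt_d9
      have h7 : (3 : ℝ) ≤ k := by exact_mod_cast hk3
      have h8 : (k + 3) * (4 * Real.log 2) ≤ 5 * (k + 1 : ℝ) := by nlinarith
      linarith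
    have h3 : 0 ≤ Real.log g := Real.log_nonneg hg1
    have h4 : 0 ≤ Real.sqrt g := Real.sqrt_nonneg _
    have h5 : 1 / 250 * Real.sqrt g * Real.log g ≤ 140 / 250 * ((k + 1) * 4 ^ k) := by
      have h6 := mul_le_mul h1 h2 h3 (by positivity)
      nlinarith
    have h6 : 140 / 250 * ((k + 1 : ℝ) * 4 ^ k) < ((k + 1) * 4 ^ k) * Real.log 2 := by
      have h7 := Real.log_two_gt_d9
      have h8 : (0 : ℝ) < (k + 1) * 4 ^ k := by positivity
      nlinarith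
    have h7 : (n : ℝ) < ((2 ^ ((k + 1) * 4 ^ k) : ℕ) : ℝ) := by
      refine hn.trans_lt ?_
      have h8 : ((2 ^ ((k + 1) * 4 ^ k) : ℕ) : ℝ) = Real.exp (((k + 1) * 4 ^ k) * Real.log 2) := by
        have h9 : ((k : ℝ) + 1) * 4 ^ k * Real.log 2 = (((k + 1) * 4 ^ k : ℕ) : ℝ) * Real.log 2 := by
          push_cast
          ring
        rw [h9, Real.exp_nat_mul, Real.exp_log (by norm_num)]
        push_cast
        rfl
      rw [h8]
      exact Real.exp_lt_exp.2 (h5.trans_lt h6)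
    exact_mod_cast h7

end Pool.Agent.Q271.ZC
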