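import Mathlib
import Pool.Agent.Q271.ZC.Ct

/-!
# Systems of classes on the powers of an abelian variety over a finite field
-/

set_option autoImplicit false
set_option linter.unusedSectionVars false

namespace Pool.Agent.Q271.ZC

open Module
open scoped Pointwise

/-- Let `V` be the rational Tate module of an abelian variety `X`, with coefficients in `K`, so that
the alternating `k`-forms on `V ^ n` are the cohomology group `H ^ k (X ^ n)`, and let `R` be the
endomorphism ring of `X`. A family of `K`-subspaces `cl n k` of these cohomology groups which is closed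
under cup products, pull-back by homomorphisms `X ^ n → X ^ n'` (matrices over `R`) and push-forward by
the projections `X ^ (n + 1) → X ^ n` (such as: the spaces spanned by the classes of algebraic
cycles). -/
structure TSys {K V : Type} [Field K] [AddCommGroup V] [Module K V] (R : Set (V →ₗ[K] V)) where
  /-- the classes in `H ^ k (X ^ n)` -/
  cl : ∀ n k : ℕ, Submodule K ((Fin n → V) [⋀^Fin k]→ₗ[K] K)
  cup_mem : ∀ (n k k' : ℕ) (f : (Fin n → V) [⋀^Fin k]→ₗ[K] K) (f' : (Fin n → V) [⋀^Fin k']→ₗ[K] K)
    (g : (Fin n → V) [⋀^Fin (k + k')]→ₗ[K] K), f ∈ cl n k → f' ∈ cl n k' →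
    (∀ v, g v = cup f f' v) → g ∈ cl n (k + k')
  pull_mem : ∀ (n n' k : ℕ) (γ : Fin n' → Fin n → V →ₗ[K] V), (∀ i j, γ i j ∈ R) →
    ∀ (f : (Fin n' → V) [⋀^Fin k]→ₗ[K] K) (g : (Fin n → V) [⋀^Fin k]→ₗ[K] K), f ∈ cl n' k →
    (∀ v, g v = f (fun l i => ∑ j, γ i j (v l j))) → g ∈ cl n k
  push_mem : ∀ (n k M : ℕ) (b : Basis (Fin M) K V) (f : (Fin (n + 1) → V) [⋀^Fin (k + M)]→ₗ[K] K)
    (g : (Fin n → V) [⋀^Fin k]→ₗ[K] K), f ∈ cl (n + 1) (k + M) →
    (∀ v, g v = f (Fin.append (fun l => Fin.snoc (v l) 0) (fun l => Fin.snoc (fun _ => 0) (b l)))) →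
    g ∈ cl n k

section

variable {K : Type} [Field K]

/-- Polynomials with values in a module. -/
theorem one_var [CharZero K] {M σ : Type} [AddCommGroup M] [Module K M] (U : Submodule K M)
    (s : Finset σ) (d : σ → M) (deg : σ → ℕ) (h : ∀ n : ℕ, ∑ i ∈ s, (n : K) ^ deg i • d i ∈ U)
    (a : K) : ∑ i ∈ s, a ^ deg i • d i ∈ U := by
  by_contra hcon
  obtain ⟨lam, hlam, hU⟩ := Submodule.exists_dual_map_eq_bot_of_notMem hcon inferInstance
  have hU' : ∀ x ∈ U, lam x = 0 := by
    intro x hx
    have h1 : lam x ∈ U.map lam := Submodule.mem_map_of_mem hx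
    rwa [hU, Submodule.mem_bot] at h1
  let P : Polynomial K := ∑ i ∈ s, Polynomial.monomial (deg i) (lam (d i))
  have hP : ∀ a : K, P.eval a = lam (∑ i ∈ s, a ^ deg i • d i) := by
    intro a
    simp only [P, Polynomial.eval_finsetSum, Polynomial.eval_monomial, map_sum, map_smul,
      smul_eq_mul]
    exact Finset.sum_congr rfl fun i _ => mul_comm _ _
  have hP0 : P = 0 := by
    refine Polynomial.eq_zero_of_infinite_isRoot P ?_
    refine Set.infinite_of_injective_forall_mem (f := fun n : ℕ => (n : K)) Nat.cast_injective ?_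
    intro n
    change P.eval (n : K) = 0
    rw [hP]
    exact hU' _ (h n)
  apply hlam
  rw [← hP, hP0, Polynomial.eval_zero]

/-- Pull-back by linear combinations of homomorphisms. -/
theorem polar [CharZero K] {W W' : Type} [AddCommGroup W] [Module K W] [AddCommGroup W']
    [Module K W'] {k : ℕ} (U : Submodule K ((Fin k → W) → K))
    (f : MultilinearMap K (fun _ : Fin k => W') K) (H : AddSubgroup (W →ₗ[K] W'))
    (h : ∀ a ∈ H, (fun v : Fin k → W => f (fun l => a (v l))) ∈ U) (a : W →ₗ[K] W')
    (ha : a ∈ Submodule.span K (H : Set (W →ₗ[K] W'))) :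
    (fun v : Fin k → W => f (fun l => a (v l))) ∈ U := by
  classical
  -- a stronger statement
  have key : ∀ a ∈ AddSubmonoid.closure ((Set.univ : Set K) • (H : Set (W →ₗ[K] W'))),
      ∀ b ∈ H, (fun v : Fin k → W => f (fun l => (b + a) (v l))) ∈ U := by
    intro a ha
    induction ha using AddSubmonoid.closure_induction_left with
    | zero =>
      intro b hb
      rw [add_zero]
      exact h b hb
    | add_left x₀ hx₀ y _ ih =>
      obtain ⟨c, -, x, hx, rfl⟩ := Set.mem_smul.1 hx₀
      intro b hb
      have hexp : ∀ c : K, (fun v : Fin k → W => f (fun l => (b + (c • x + y)) (v l))) =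
          ∑ s ∈ (Finset.univ : Finset (Finset (Fin k))), c ^ s.card •
            (fun v : Fin k → W => f (s.piecewise (fun l => x (v l)) (fun l => (b + y) (v l)))) := by
        intro c
        funext v
        have h1 : (fun l => (b + (c • x + y)) (v l)) =
            (fun l => c • x (v l)) + (fun l => (b + y) (v l)) := by
          funext l
          simp only [LinearMap.add_apply, LinearMap.smul_apply, Pi.add_apply]
          abel
        rw [h1, f.map_add_univ, Finset.sum_apply]
        refine Finset.sum_congr rfl fun s _ => ?_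
        rw [Pi.smul_apply, smul_eq_mul]
        have h2 : s.piecewise (fun l => c • x (v l)) (fun l => (b + y) (v l)) =
            s.piecewise (fun l => (fun _ => c) l • (s.piecewise (fun l => x (v l))
              (fun l => (b + y) (v l))) l) (s.piecewise (fun l => x (v l))
              (fun l => (b + y) (v l))) := by
          funext l
          by_cases hl : l ∈ s
          · simp [Finset.piecewise_eq_of_mem _ _ _ hl]
          · simp [Finset.piecewise_eq_of_notMem _ _ _ hl]
        rw [h2, f.map_piecewise_smul, Finset.prod_const, smul_eq_mul]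
      rw [hexp]
      refine one_var U _ _ _ ?_ c
      intro n
      rw [← hexp]
      have h3 : b + ((n : K) • x + y) = (b + n • x) + y := by
        rw [Nat.cast_smul_eq_nsmul, add_assoc]
      rw [h3]
      exact ih _ (H.add_mem hb (H.nsmul_mem hx n))
  have h1 : a ∈ AddSubmonoid.closure ((Set.univ : Set K) • (H : Set (W →ₗ[K] W'))) := by
    rw [← Submodule.span_eq_closure]
    exact ha
  have h2 := key a h1 0 H.zero_mem
  rwa [zero_add] at h2

/-- the cup product as an alternating map -/
theorem exists_cupK {W : Type} [AddCommGroup W] [Module K W] {k k' : ℕ} (f : W [⋀^Fin k]→ₗ[K] K)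
    (f' : W [⋀^Fin k']→ₗ[K] K) : ∃ g : W [⋀^Fin (k + k')]→ₗ[K] K, ∀ v, g v = cup f f' v := by
  let m : MultilinearMap K (fun _ : Fin (k + k') => W) K :=
    ((LinearMap.mul' K K).compMultilinearMap
      (MultilinearMap.domCoprod f.toMultilinearMap f'.toMultilinearMap)).domDomCongr finSumFinEquiv
  refine ⟨MultilinearMap.alternatization m, fun v => ?_⟩
  rw [MultilinearMap.alternatization_apply, cup]
  refine Finset.sum_congr rfl fun σ _ => ?_
  rw [Units.smul_def, zsmul_eq_mul]
  congr 1

/-- contraction of an alternating map -/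
theorem exists_pushK {W W' : Type} [AddCommGroup W] [Module K W] [AddCommGroup W'] [Module K W']
    {k M : ℕ} (f : W' [⋀^Fin (k + M)]→ₗ[K] K) (i : W →ₗ[K] W') (e : Fin M → W') :
    ∃ g : W [⋀^Fin k]→ₗ[K] K, ∀ v, g v = f (Fin.append (fun l => i (v l)) e) := by
  have hupd : ∀ (v : Fin k → W) (l : Fin k) (x : W),
      Fin.append (fun m => i (Function.update v l x m)) e =
        Function.update (Fin.append (fun m => i (v m)) e) (Fin.castAdd M l) (i x) := by
    intro v l x
    funext a
    refine Fin.addCases (fun m => ?_) (fun m => ?_) a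
    · rw [Fin.append_left]
      by_cases h : m = l
      · rw [h, Function.update_self, Function.update_self]
      · rw [Function.update_of_ne h, Function.update_of_ne, Fin.append_left]
        intro h'
        exact h (Fin.castAdd_injective k M h')
    · rw [Fin.append_right, Function.update_of_ne, Fin.append_right]
      intro h
      have h2 := congrArg Fin.val h
      simp only [Fin.val_natAdd, Fin.val_castAdd] at h2
      omega
  refine ⟨{ toFun := fun v => f (Fin.append (fun l => i (v l)) e)
            map_update_add' := ?_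
            map_update_smul' := ?_
            map_eq_zero_of_eq' := ?_ }, fun v => rfl⟩
  · intro inst v l x y
    have : inst = instDecidableEqFin k := Subsingleton.elim _ _
    subst this
    rw [hupd, hupd, hupd, map_add]
    exact f.map_update_add _ _ _ _
  · intro inst v l c x
    have : inst = instDecidableEqFin k := Subsingleton.elim _ _
    subst this
    rw [hupd, hupd, map_smul]
    exact f.map_update_smul _ _ _ _
  · intro v l m h hlm
    refine f.map_eq_zero_of_eq _ (i := Fin.castAdd M l) (j := Fin.castAdd M m) ?_ ?_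
    · rw [Fin.append_left, Fin.append_left, h]
    · intro h'
      exact hlm (Fin.castAdd_injective k M h')

/-- alternating maps as functions -/
def coeL {W : Type} [AddCommGroup W] [Module K W] {k : ℕ} :
    (W [⋀^Fin k]→ₗ[K] K) →ₗ[K] ((Fin k → W) → K) where
  toFun f := f
  map_add' _ _ := rfl
  map_smul' _ _ := rfl

variable {V : Type} [AddCommGroup V] [Module K V] {R : Set (V →ₗ[K] V)} (𝒜 : TSys R)

/-- the classes of the system as functions -/
def TSys.fn (n k : ℕ) : Submodule K ((Fin k → Fin n → V) → K) := (𝒜.cl n k).map coeL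

theorem TSys.cupT {n k k' : ℕ} {f : (Fin k → Fin n → V) → K} (hf : f ∈ 𝒜.fn n k)
    {f' : (Fin k' → Fin n → V) → K} (hf' : f' ∈ 𝒜.fn n k') : cup f f' ∈ 𝒜.fn n (k + k') := by
  obtain ⟨f, hf, rfl⟩ := hf
  obtain ⟨f', hf', rfl⟩ := hf'
  obtain ⟨g, hg⟩ := exists_cupK f f'
  exact ⟨g, 𝒜.cup_mem n k k' f f' g hf hf' hg, funext hg⟩

theorem TSys.pushT {n k M : ℕ} (b : Basis (Fin M) K V)
    {f : (Fin (k + M) → Fin (n + 1) → V) → K} (hf : f ∈ 𝒜.fn (n + 1) (k + M)) :
    (fun v : Fin k → Fin n → V => f (Fin.append (fun l => Fin.snoc (v l) 0)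
      (fun l => Fin.snoc (fun _ => 0) (b l)))) ∈ 𝒜.fn n k := by
  obtain ⟨f, hf, rfl⟩ := hf
  let i : (Fin n → V) →ₗ[K] (Fin (n + 1) → V) :=
    { toFun := fun w => Fin.snoc w 0
      map_add' := by
        intro w w'
        funext x
        refine Fin.lastCases ?_ (fun x => ?_) x
        · simp only [Fin.snoc_last, Pi.add_apply, add_zero]
        · simp only [Fin.snoc_castSucc, Pi.add_apply]
      map_smul' := by
        intro c w
        funext x
        refine Fin.lastCases ?_ (fun x => ?_) x
        · simp only [Fin.snoc_last, Pi.smul_apply, smul_zero, RingHom.id_apply]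
        · simp only [Fin.snoc_castSucc, Pi.smul_apply, RingHom.id_apply] }
  obtain ⟨g, hg⟩ := exists_pushK f i (fun l => Fin.snoc (fun _ => 0) (b l))
  exact ⟨g, 𝒜.push_mem n k M b f g hf hg, funext hg⟩

/-- Pull-back by linear combinations of homomorphisms. -/
theorem TSys.pullT [CharZero K] (hR0 : (0 : V →ₗ[K] V) ∈ R) (hRadd : ∀ a ∈ R, ∀ b ∈ R, a + b ∈ R)
    (hRneg : ∀ a ∈ R, -a ∈ R) {n n' k : ℕ} (γ : Fin n' → Fin n → V →ₗ[K] V)
    (hγ : ∀ i j, γ i j ∈ Submodule.span K R) {f : (Fin k → Fin n' → V) → K} (hf : f ∈ 𝒜.fn n' k) :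
    (fun v : Fin k → Fin n → V => f (fun l i => ∑ j, γ i j (v l j))) ∈ 𝒜.fn n k := by
  classical
  obtain ⟨f, hf, rfl⟩ := hf
  -- the linear map of a matrix
  let mat : (Fin n' → Fin n → V →ₗ[K] V) →ₗ[K] ((Fin n → V) →ₗ[K] (Fin n' → V)) :=
    { toFun := fun γ => LinearMap.pi fun i => ∑ j, (γ i j).comp (LinearMap.proj j)
      map_add' := by
        intro γ γ'
        apply LinearMap.ext
        intro w
        funext i
        simp only [LinearMap.pi_apply, LinearMap.sum_apply, LinearMap.comp_apply, LinearMap.proj_apply,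
          LinearMap.add_apply, Pi.add_apply, Finset.sum_add_distrib]
      map_smul' := by
        intro c γ
        apply LinearMap.ext
        intro w
        funext i
        simp only [LinearMap.pi_apply, LinearMap.sum_apply, LinearMap.comp_apply, LinearMap.proj_apply,
          LinearMap.smul_apply, Pi.smul_apply, Finset.smul_sum, RingHom.id_apply] }
  have hmat : ∀ (γ : Fin n' → Fin n → V →ₗ[K] V) (w : Fin n → V),
      mat γ w = fun i => ∑ j, γ i j (w j) := by
    intro γ w
    funext i
    simp only [mat, LinearMap.coe_mk, AddHom.coe_mk, LinearMap.pi_apply, LinearMap.sum_apply,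
      LinearMap.comp_apply, LinearMap.proj_apply]
  let R' : AddSubgroup (V →ₗ[K] V) :=
    { carrier := R
      add_mem' := fun {a b} ha hb => hRadd a ha b hb
      zero_mem' := hR0
      neg_mem' := fun {a} ha => hRneg a ha }
  let G : AddSubgroup (Fin n' → Fin n → V →ₗ[K] V) :=
    { carrier := {γ | ∀ i j, γ i j ∈ R'}
      add_mem' := fun {a b} ha hb i j => R'.add_mem (ha i j) (hb i j)
      zero_mem' := fun i j => R'.zero_mem
      neg_mem' := fun {a} ha i j => R'.neg_mem (ha i j) }
  let H : AddSubgroup ((Fin n → V) →ₗ[K] (Fin n' → V)) := G.map mat.toAddMonoidHom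
  have h1 : ∀ a ∈ H, (fun v : Fin k → Fin n → V => f.toMultilinearMap (fun l => a (v l))) ∈
      𝒜.fn n k := by
    rintro a ⟨γ, hγ, rfl⟩
    refine ⟨f.compLinearMap (mat γ), 𝒜.pull_mem n n' k γ hγ f _ hf fun v => ?_, rfl⟩
    rw [AlternatingMap.compLinearMap_apply]
    congr 1
    funext l
    exact hmat γ (v l)
  have h2 : mat γ ∈ Submodule.span K (H : Set ((Fin n → V) →ₗ[K] (Fin n' → V))) := by
    have h3 : γ = ∑ i, ∑ j, Pi.single i (Pi.single j (γ i j)) := by
      funext i j
      rw [Finset.sum_apply, Finset.sum_eq_single i, Finset.sum_apply, Finset.sum_apply,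
        Finset.sum_eq_single j, Pi.single_eq_same, Pi.single_eq_same]
      · intro j' _ hj
        rw [Pi.single_eq_same, Pi.single_eq_of_ne hj.symm]
      · intro h
        exact absurd (Finset.mem_univ _) h
      · intro i' _ hi
        rw [Finset.sum_apply]
        refine Finset.sum_eq_zero fun j' _ => ?_
        rw [Pi.single_eq_of_ne hi.symm]
      · intro h
        exact absurd (Finset.mem_univ _) h
    rw [h3, map_sum]
    refine Submodule.sum_mem _ fun i _ => ?_
    rw [map_sum]
    refine Submodule.sum_mem _ fun j _ => ?_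
    let ent : (V →ₗ[K] V) →ₗ[K] ((Fin n → V) →ₗ[K] (Fin n' → V)) :=
      mat.comp ((LinearMap.single K (fun _ : Fin n' => Fin n → V →ₗ[K] V) i).comp
        (LinearMap.single K (fun _ : Fin n => V →ₗ[K] V) j))
    have h4 : mat (Pi.single i (Pi.single j (γ i j))) = ent (γ i j) := rfl
    rw [h4]
    have h5 : Submodule.span K R ≤ (Submodule.span K (H : Set ((Fin n → V) →ₗ[K] (Fin n' → V)))).comap
        ent := by
      refine Submodule.span_le.2 fun r hr => ?_
      refine Submodule.subset_span ⟨Pi.single i (Pi.single j r), ?_, rfl⟩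
      intro i' j'
      by_cases hi : i' = i
      · subst hi
        rw [Pi.single_eq_same]
        by_cases hj : j' = j
        · subst hj
          rw [Pi.single_eq_same]
          exact hr
        · rw [Pi.single_eq_of_ne hj]
          exact R'.zero_mem
      · rw [Pi.single_eq_of_ne hi]
        exact R'.zero_mem
    exact h5 (hγ i j)
  have h6 := polar (𝒜.fn n k) f.toMultilinearMap H h1 (mat γ) h2
  have h7 : (fun v : Fin k → Fin n → V => (coeL f) (fun l i => ∑ j, γ i j (v l j))) =
      (fun v : Fin k → Fin n → V => f.toMultilinearMap (fun l => mat γ (v l))) := by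
    funext v
    change f _ = f _
    congr 1
    funext l
    exact (hmat γ (v l)).symm
  rw [h7]
  exact h6

end

end Pool.Agent.Q271.ZC
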