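import Mathlib
import Pool.Agent.Q271.ZC.TSys
import Pool.Agent.Q211.ZC.Cup

/-!
# The exponents of the monomials in a system of classes (finite fields)
-/

set_option autoImplicit false
set_option linter.unusedSectionVars false

namespace Pool.Agent.Q271.ZC

open Module

section

variable {K V X Ω : Type} [Field K] [CharZero K] [AddCommGroup V] [Module K V] [Fintype X]
  [DecidableEq X] (e : Basis X K V) (tp : X → Ω) {R : Set (V →ₗ[K] V)} (𝒜 : TSys R)

/-- the coordinates on `V ^ n` -/
noncomputable def cht {n : ℕ} : X × Fin n → (Fin n → V) → K := fun y w => e.coord y.1 (w y.2)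

/-- the type of a coordinate -/
def tyt {n : ℕ} (y : X × Fin n) : Ω := tp y.1

/-- the exponents whose monomials belong to the system, on all powers -/
def SST : Set (Ω → ℕ) :=
  {c | ∀ (n k : ℕ) (J : Fin k → X × Fin n), Function.Injective J → ct (tyt tp) J = c →
    mono (cht e) J ∈ 𝒜.fn n k}

theorem SST_add [Fintype Ω] (c c' : Ω → ℕ) (hc : c ∈ SST e tp 𝒜) (hc' : c' ∈ SST e tp 𝒜) :
    c + c' ∈ SST e tp 𝒜 := by
  classical
  intro n k J hJ h
  obtain ⟨k₁, k₂, hk, s, I, I', hI, hI', hcI, hcI', hE⟩ := exists_split_vars (tyt tp) J hJ c c' h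
  subst hk
  have h1 := 𝒜.cupT (hc n k₁ I hI hcI) (hc' n k₂ I' hI' hcI')
  have h2 : cup (mono (cht e) I) (mono (cht e) I') =
      ((k₁.factorial * k₂.factorial : ℕ) : K) • mono (cht e) (Fin.append I I') := by
    funext v
    exact Pool.Agent.Q211.ZC.s_CUP _ _ K (cht e) k₁ k₂ I I' v
  rw [h2, ← hE] at h1
  have h3 : ((k₁.factorial * k₂.factorial : ℕ) : K) ≠ 0 := by
    rw [Nat.cast_ne_zero]
    positivity
  have h4 := (Submodule.smul_mem_iff _ h3).1 h1
  have h5 : (fun l : Fin (k₁ + k₂) => J (Fin.cast rfl l)) = J := rfl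
  rw [h5, mono_perm] at h4
  have h6 : ((Equiv.Perm.sign s : ℤ) : K) ≠ 0 := by
    rcases Int.units_eq_one_or (Equiv.Perm.sign s) with h7 | h7 <;> rw [h7] <;> simp
  exact (Submodule.smul_mem_iff _ h6).1 h4

theorem card_tyt (N : ℕ) (x : Ω) :
    Nat.card {y : X × Fin N // tyt tp y = x} = N * Nat.card {y : X // tp y = x} := by
  let E : {y : X × Fin N // tyt tp y = x} ≃ Fin N × {y : X // tp y = x} :=
    { toFun := fun y => (y.1.2, ⟨y.1.1, y.2⟩)
      invFun := fun z => ⟨(z.2.1, z.1), z.2.2⟩
      left_inv := fun _ => rfl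
      right_inv := fun _ => rfl }
  rw [Nat.card_congr E, Nat.card_prod, Nat.card_eq_fintype_card, Fintype.card_fin]

/-- pull-back of a monomial -/
theorem SST_pull (hR0 : (0 : V →ₗ[K] V) ∈ R) (hRadd : ∀ a ∈ R, ∀ b ∈ R, a + b ∈ R)
    (hRneg : ∀ a ∈ R, -a ∈ R) (F : V →ₗ[K] V) (ev : Ω → K) (hF : ∀ x, F (e x) = ev (tp x) • e x)
    (hspan : ∀ a : V →ₗ[K] V, a ∘ₗ F = F ∘ₗ a → a ∈ Submodule.span K R)
    {n N k : ℕ} (I : Fin k → X × Fin N) (J : Fin k → X × Fin n) (hI : Function.Injective I)
    (hIJ : ∀ l, tyt tp (I l) = tyt tp (J l)) (h : mono (cht e) I ∈ 𝒜.fn N k) :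
    mono (cht e) J ∈ 𝒜.fn n k := by
  classical
  let γ : Fin N → Fin n → V →ₗ[K] V := fun i j =>
    ∑ l : Fin k, if (I l).2 = i ∧ (J l).2 = j then
      (e.coord (J l).1).smulRight (e (I l).1) else 0
  have hcF : ∀ (x : X) (v : V), e.coord x (F v) = ev (tp x) * e.coord x v := by
    intro x v
    have h1 : (e.coord x).comp F = ev (tp x) • e.coord x := by
      apply e.ext
      intro y
      rw [LinearMap.comp_apply, hF, map_smul, LinearMap.smul_apply, Basis.coord_apply,
        Basis.repr_self, smul_eq_mul, smul_eq_mul, Finsupp.single_apply]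
      by_cases h2 : y = x
      · subst h2
        rfl
      · rw [if_neg h2, mul_zero, mul_zero]
    exact LinearMap.congr_fun h1 v
  have hγ : ∀ i j, γ i j ∈ Submodule.span K R := by
    intro i j
    apply hspan
    apply LinearMap.ext
    intro v
    simp only [γ, LinearMap.comp_apply, LinearMap.sum_apply, map_sum]
    refine Finset.sum_congr rfl fun l _ => ?_
    by_cases hl : (I l).2 = i ∧ (J l).2 = j
    · rw [if_pos hl, LinearMap.smulRight_apply, LinearMap.smulRight_apply, map_smul, hF, hcF,
        smul_smul]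
      have h1 : tp (I l).1 = tp (J l).1 := hIJ l
      rw [h1, mul_comm]
    · rw [if_neg hl, LinearMap.zero_apply, LinearMap.zero_apply, map_zero]
  have h1 := 𝒜.pullT hR0 hRadd hRneg γ hγ h
  have h2 : (fun v : Fin k → Fin n → V => mono (cht e) I (fun l i => ∑ j, γ i j (v l j))) =
      mono (cht e) J := by
    funext v
    unfold mono
    refine Finset.sum_congr rfl fun σ _ => ?_
    congr 1
    refine Finset.prod_congr rfl fun l _ => ?_
    change e.coord (I l).1 (∑ j, γ (I l).2 j (v (σ l) j)) = e.coord (J l).1 (v (σ l) (J l).2)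
    rw [map_sum]
    simp only [γ, LinearMap.sum_apply, map_sum]
    rw [Finset.sum_comm, Finset.sum_eq_single l]
    · rw [Finset.sum_eq_single (J l).2]
      · rw [if_pos ⟨rfl, rfl⟩, LinearMap.smulRight_apply, map_smul, Basis.coord_apply,
          Basis.coord_apply, Basis.repr_self, Finsupp.single_eq_same, smul_eq_mul, mul_one]
      · intro j _ hj
        rw [if_neg (fun h3 => hj h3.2.symm), LinearMap.zero_apply, map_zero]
      · intro h3
        exact absurd (Finset.mem_univ _) h3
    · intro l' _ hl'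
      refine Finset.sum_eq_zero fun j _ => ?_
      by_cases h3 : (I l').2 = (I l).2 ∧ (J l').2 = j
      · rw [if_pos h3, LinearMap.smulRight_apply, map_smul, Basis.coord_apply, Basis.coord_apply,
          Basis.repr_self, Finsupp.single_eq_of_ne, smul_zero]
        intro h4
        exact hl' (hI (Prod.ext h4.symm h3.1))
      · rw [if_neg h3, LinearMap.zero_apply, map_zero]
    · intro h3
      exact absurd (Finset.mem_univ _) h3
  rw [h2] at h1
  exact h1

/-- monomials with small exponents -/
theorem SST_small (hR0 : (0 : V →ₗ[K] V) ∈ R) (hRadd : ∀ a ∈ R, ∀ b ∈ R, a + b ∈ R)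
    (hRneg : ∀ a ∈ R, -a ∈ R) (F : V →ₗ[K] V) (ev : Ω → K) (hF : ∀ x, F (e x) = ev (tp x) • e x)
    (hspan : ∀ a : V →ₗ[K] V, a ∘ₗ F = F ∘ₗ a → a ∈ Submodule.span K R) (N q : ℕ)
    (hfull : ∀ (m : ℕ) (f : (Fin N → V) [⋀^Fin (2 * m)]→ₗ[K] K),
      (∀ v, f (fun l => F.compLeft (Fin N) (v l)) = (q : K) ^ m * f v) → f ∈ 𝒜.cl N (2 * m))
    [Fintype Ω] (c : Ω → ℕ) (m : ℕ) (hm : ∑ x, c x = 2 * m) (hprod : ∏ x, ev x ^ c x = (q : K) ^ m)
    (hle : ∀ x, c x ≤ N * Nat.card {y : X // tp y = x}) : c ∈ SST e tp 𝒜 := by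
  classical
  intro n k J hJ h
  obtain ⟨I, hI, hIJ⟩ := exists_retype (X := X × Fin N) (tyt tp) (tyt tp) J (fun x => by
    rw [h, card_tyt]
    exact hle x)
  refine SST_pull e tp 𝒜 hR0 hRadd hRneg F ev hF hspan I J hI hIJ ?_
  have hk : k = 2 * m := by
    rw [← hm, ← h]
    exact (sum_ct (tyt tp) J).symm
  subst hk
  -- the monomial as an alternating map
  have hcF : ∀ (x : X) (v : V), e.coord x (F v) = ev (tp x) * e.coord x v := by
    intro x v
    have h1 : (e.coord x).comp F = ev (tp x) • e.coord x := by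
      apply e.ext
      intro y
      rw [LinearMap.comp_apply, hF, map_smul, LinearMap.smul_apply, Basis.coord_apply,
        Basis.repr_self, smul_eq_mul, smul_eq_mul, Finsupp.single_apply]
      by_cases h2 : y = x
      · subst h2
        rfl
      · rw [if_neg h2, mul_zero, mul_zero]
    exact LinearMap.congr_fun h1 v
  let b : MultilinearMap K (fun _ : Fin (2 * m) => (Fin N → V)) K :=
    (MultilinearMap.mkPiAlgebra K (Fin (2 * m)) K).compLinearMap
      (fun l => (e.coord (I l).1).comp (LinearMap.proj (I l).2))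
  have hb : ∀ v, b v = ∏ l, cht e (I l) (v l) := by
    intro v
    rw [MultilinearMap.compLinearMap_apply, MultilinearMap.mkPiAlgebra_apply]
    rfl
  have hmono : ∀ v, MultilinearMap.alternatization b v = mono (cht e) I v := by
    intro v
    rw [MultilinearMap.alternatization_apply, mono]
    refine Finset.sum_congr rfl fun σ _ => ?_
    rw [Units.smul_def, zsmul_eq_mul, MultilinearMap.domDomCongr_apply, hb]
  refine ⟨MultilinearMap.alternatization b, hfull m _ fun v => ?_, funext hmono⟩
  rw [hmono, hmono]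
  unfold mono
  rw [Finset.mul_sum]
  refine Finset.sum_congr rfl fun σ _ => ?_
  have h1 : ∏ l, cht e (I l) (F.compLeft (Fin N) (v (σ l))) =
      (∏ l, ev (tp (I l).1)) * ∏ l, cht e (I l) (v (σ l)) := by
    rw [← Finset.prod_mul_distrib]
    exact Finset.prod_congr rfl fun l _ => hcF _ _
  have h2 : ∏ l, ev (tp (I l).1) = (q : K) ^ m := by
    rw [← hprod]
    have h3 : ∀ x, ev x ^ c x = ∏ l : Fin (2 * m), if tyt tp (I l) = x then ev x else 1 := by
      intro x
      rw [← Finset.prod_filter, Finset.prod_const, ← h]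
      congr 1
      rw [← ct_congr (tyt tp) (tyt tp) I J hIJ, ct_filter]
    rw [Finset.prod_congr rfl fun x _ => h3 x, Finset.prod_comm]
    refine Finset.prod_congr rfl fun l _ => ?_
    rw [Finset.prod_ite_eq Finset.univ (tyt tp (I l)), if_pos (Finset.mem_univ _)]
    rfl
  rw [h1, h2]
  ring

/-- removal of a copy of `X` -/
theorem SST_top [Fintype Ω] (c : Ω → ℕ)
    (h : c + (fun x => Nat.card {y : X // tp y = x}) ∈ SST e tp 𝒜) : c ∈ SST e tp 𝒜 := by
  classical
  intro n k J hJ hc
  let s : Fin (Fintype.card X) ≃ X := (Fintype.equivFin X).symm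
  let b : Basis (Fin (Fintype.card X)) K V := e.reindex s.symm
  let J' : Fin k → X × Fin (n + 1) := fun l => ((J l).1, Fin.castSucc (J l).2)
  let top : Fin (Fintype.card X) → X × Fin (n + 1) := fun a => (s a, Fin.last n)
  have hK : Function.Injective (Fin.append J' top) := by
    rw [Fin.append_injective_iff]
    refine ⟨?_, ?_, ?_⟩
    · intro l l' hl
      apply hJ
      have h1 : (J l).1 = (J l').1 := congrArg (fun z : X × Fin (n + 1) => z.1) hl
      have h2 : Fin.castSucc (J l).2 = Fin.castSucc (J l').2 :=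
        congrArg (fun z : X × Fin (n + 1) => z.2) hl
      exact Prod.ext h1 (Fin.castSucc_injective n h2)
    · intro a a' ha
      exact s.injective (congrArg Prod.fst ha)
    · intro l a h1
      have h2 : Fin.castSucc (J l).2 = Fin.last n := congrArg Prod.snd h1
      exact (Fin.castSucc_lt_last _).ne h2
  have hct : ct (tyt tp) (Fin.append J' top) = c + (fun x => Nat.card {y : X // tp y = x}) := by
    rw [ct_append]
    have h1 : ct (tyt tp) J' = c := by
      rw [← hc]
      exact ct_congr _ _ J' J fun l => rfl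
    have h2 : ct (tyt tp) top = (fun x => Nat.card {y : X // tp y = x}) := by
      funext x
      exact Nat.card_congr (Equiv.subtypeEquiv s fun a => Iff.rfl)
    rw [h1, h2]
  have h2 := 𝒜.pushT b (h (n + 1) _ _ hK hct)
  have h3 : (fun v => mono (cht e) (Fin.append J' top)
      (Fin.append (fun l => Fin.snoc (v l) 0) (fun l => Fin.snoc (fun _ => 0) (b l)))) =
      (Matrix.of fun i j => cht e (top i) (Fin.snoc (fun _ => 0) (b j))).det • mono (cht e) J := by
    funext v
    rw [Pi.smul_apply, smul_eq_mul, mul_comm]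
    refine mono_push (cht e) (cht e) J J' top v (fun l => Fin.snoc (v l) 0)
      (fun l => Fin.snoc (fun _ => 0) (b l)) (fun l m => ?_) (fun l i => ?_) (fun i m => ?_)
    · change e.coord (J l).1 ((Fin.snoc (v m) 0 : Fin (n + 1) → V) (Fin.castSucc (J l).2)) = _
      rw [Fin.snoc_castSucc]
      rfl
    · change e.coord (J l).1 ((Fin.snoc (fun _ => 0) (b i) : Fin (n + 1) → V)
        (Fin.castSucc (J l).2)) = 0
      rw [Fin.snoc_castSucc, map_zero]
    · change e.coord (s i) ((Fin.snoc (v m) 0 : Fin (n + 1) → V) (Fin.last n)) = 0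
      rw [Fin.snoc_last, map_zero]
  rw [h3] at h2
  have h4 : (Matrix.of fun i j => cht e (top i) (Fin.snoc (fun _ => 0) (b j) :
      Fin (n + 1) → V)).det ≠ 0 := by
    have h5 : (Matrix.of fun i j => cht e (top i) (Fin.snoc (fun _ => 0) (b j) :
        Fin (n + 1) → V)) = (1 : Matrix (Fin (Fintype.card X)) (Fin (Fintype.card X)) K) := by
      ext i j
      rw [Matrix.of_apply]
      change e.coord (s i) ((Fin.snoc (fun _ => 0) (b j) : Fin (n + 1) → V) (Fin.last n)) = _
      rw [Fin.snoc_last, Basis.reindex_apply, Equiv.symm_symm, Basis.coord_apply, Basis.repr_self,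
        Matrix.one_apply, Finsupp.single_apply]
      by_cases hij : i = j
      · rw [if_pos hij, hij, if_pos rfl]
      · rw [if_neg hij, if_neg (fun h6 => hij (s.injective h6.symm))]
    rw [h5, Matrix.det_one]
    exact one_ne_zero
  exact (Submodule.smul_mem_iff _ h4).1 h2

/-- Tate classes are combinations of monomials -/
theorem tate_expand (F : V →ₗ[K] V) (ev : Ω → K) (hF : ∀ x, F (e x) = ev (tp x) • e x)
    [Fintype Ω] (q : ℕ) {n m : ℕ} (f : (Fin n → V) [⋀^Fin (2 * m)]→ₗ[K] K)
    (hf : ∀ v, f (fun l => F.compLeft (Fin n) (v l)) = (q : K) ^ m * f v)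
    (hall : ∀ c : Ω → ℕ, ∑ x, c x = 2 * m → ∏ x, ev x ^ c x = (q : K) ^ m → c ∈ SST e tp 𝒜) :
    f ∈ 𝒜.cl n (2 * m) := by
  classical
  -- a basis of `V ^ n`
  let E : Basis (Fin n × X) K (Fin n → V) := (Pi.basis (fun _ : Fin n => e)).reindex
    (Equiv.sigmaEquivProd (Fin n) X)
  have hE : ∀ y, E y = Pi.single y.1 (e y.2) := by
    rintro ⟨a, x⟩
    simp only [E]
    rw [Basis.reindex_apply, Pi.basis_apply]
    rfl
  have hEc : ∀ y w, E.coord y w = cht e (y.2, y.1) w := by
    rintro ⟨a, x⟩ w
    have h1 : E.coord (a, x) = (e.coord x).comp (LinearMap.proj a) := by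
      apply E.ext
      rintro ⟨a', x'⟩
      rw [Basis.coord_apply, Basis.repr_self, hE, LinearMap.comp_apply, LinearMap.proj_apply,
        Finsupp.single_apply]
      dsimp only
      by_cases ha : a = a'
      · subst ha
        rw [Pi.single_eq_same, Basis.coord_apply, Basis.repr_self, Finsupp.single_apply]
        by_cases hx : x' = x
        · rw [if_pos hx, hx, if_pos rfl]
        · rw [if_neg hx, if_neg (fun h2 => hx (congrArg Prod.snd h2))]
      · rw [Pi.single_eq_of_ne ha, map_zero, if_neg (fun h2 => ha (congrArg Prod.fst h2).symm)]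
    exact LinearMap.congr_fun h1 w
  have hEF : ∀ y, F.compLeft (Fin n) (E y) = ev (tp y.2) • E y := by
    rintro ⟨a, x⟩
    rw [hE]
    funext a'
    rw [LinearMap.compLeft_apply, Pi.smul_apply]
    dsimp only
    by_cases ha : a' = a
    · subst ha
      simp only [Function.comp_apply, Pi.single_eq_same]
      exact hF x
    · simp only [Function.comp_apply, Pi.single_eq_of_ne ha, map_zero, smul_zero]
  -- expansion
  have hexp : ∀ v, f v = ∑ I : Fin (2 * m) → Fin n × X, f (fun l => E (I l)) *
      ∏ l, E.coord (I l) (v l) := by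
    intro v
    have h1 : v = fun l => ∑ x, E.coord x (v l) • E x := by
      funext l
      exact (E.sum_repr (v l)).symm
    conv_lhs => rw [h1]
    have h2 := f.toMultilinearMap.map_sum (fun (l : Fin (2 * m)) (x : Fin n × X) =>
      E.coord x (v l) • E x)
    refine h2.trans (Finset.sum_congr rfl fun I _ => ?_)
    have h3 := f.toMultilinearMap.map_smul_univ (fun l => E.coord (I l) (v l)) (fun l => E (I l))
    refine h3.trans ?_
    rw [smul_eq_mul, mul_comm]
    rfl
  have hfun : (coeL f : (Fin (2 * m) → Fin n → V) → K) =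
      ∑ I : Fin (2 * m) → Fin n × X, ((((2 * m).factorial : ℕ) : K)⁻¹ * f (fun l => E (I l))) •
        mono (cht e) (fun l => ((I l).2, (I l).1)) := by
    funext v
    have hk : (((2 * m).factorial : ℕ) : K) ≠ 0 := Nat.cast_ne_zero.2 (Nat.factorial_ne_zero _)
    have e1 : ∀ σ : Equiv.Perm (Fin (2 * m)), ((Equiv.Perm.sign σ : ℤ) : K) * f (fun l => v (σ l)) =
        f v := by
      intro σ
      have e2 : f (fun l => v (σ l)) = Equiv.Perm.sign σ • f v := f.map_perm v σ
      rw [e2, Units.smul_def, zsmul_eq_mul, ← mul_assoc, ← Int.cast_mul, ← Units.val_mul,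
        Int.units_mul_self, Units.val_one, Int.cast_one, one_mul]
    have e3 : (((2 * m).factorial : ℕ) : K) * f v = ∑ I : Fin (2 * m) → Fin n × X,
        f (fun l => E (I l)) * mono (cht e) (fun l => ((I l).2, (I l).1)) v := by
      have e4 : (((2 * m).factorial : ℕ) : K) * f v =
          ∑ σ : Equiv.Perm (Fin (2 * m)), ((Equiv.Perm.sign σ : ℤ) : K) * f (fun l => v (σ l)) := by
        rw [Finset.sum_congr rfl fun σ _ => e1 σ, Finset.sum_const, Finset.card_univ,
          Fintype.card_perm, Fintype.card_fin, nsmul_eq_mul]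
      rw [e4]
      have e5 : ∀ σ : Equiv.Perm (Fin (2 * m)), ((Equiv.Perm.sign σ : ℤ) : K) *
          f (fun l => v (σ l)) = ∑ I : Fin (2 * m) → Fin n × X, f (fun l => E (I l)) *
            (((Equiv.Perm.sign σ : ℤ) : K) * ∏ l, cht e ((I l).2, (I l).1) (v (σ l))) := by
        intro σ
        rw [hexp (fun l => v (σ l)), Finset.mul_sum]
        refine Finset.sum_congr rfl fun I _ => ?_
        rw [Finset.prod_congr rfl fun l _ => hEc (I l) (v (σ l))]
        ring
      rw [Finset.sum_congr rfl fun σ _ => e5 σ, Finset.sum_comm]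
      refine Finset.sum_congr rfl fun I _ => ?_
      rw [← Finset.mul_sum]
      rfl
    rw [Finset.sum_apply]
    have e6 : ∑ I : Fin (2 * m) → Fin n × X, (((((2 * m).factorial : ℕ) : K)⁻¹ *
        f (fun l => E (I l))) • mono (cht e) (fun l => ((I l).2, (I l).1))) v =
        (((2 * m).factorial : ℕ) : K)⁻¹ * ∑ I : Fin (2 * m) → Fin n × X,
          f (fun l => E (I l)) * mono (cht e) (fun l => ((I l).2, (I l).1)) v := by
      rw [Finset.mul_sum]
      refine Finset.sum_congr rfl fun I _ => ?_
      rw [Pi.smul_apply, smul_eq_mul, mul_assoc]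
    rw [e6, ← e3, ← mul_assoc, inv_mul_cancel₀ hk, one_mul]
    rfl
  have hmem : (coeL f : (Fin (2 * m) → Fin n → V) → K) ∈ 𝒜.fn n (2 * m) := by
    rw [hfun]
    refine Submodule.sum_mem _ fun I _ => ?_
    by_cases hI : f (fun l => E (I l)) = 0
    · rw [hI, mul_zero, zero_smul]
      exact Submodule.zero_mem _
    · refine Submodule.smul_mem _ _ ?_
      have hinj : Function.Injective I := by
        intro l l' hll
        by_contra hne
        exact hI (f.map_eq_zero_of_eq _ (by simp only [hll]) hne)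
      have hprod : ∏ l, ev (tp (I l).2) = (q : K) ^ m := by
        have h2 := hf (fun l => E (I l))
        have h3 : (fun l => F.compLeft (Fin n) (E (I l))) = fun l => ev (tp (I l).2) • E (I l) := by
          funext l
          exact hEF _
        rw [h3] at h2
        have h4 : f (fun l => ev (tp (I l).2) • E (I l)) =
            (∏ l, ev (tp (I l).2)) • f (fun l => E (I l)) :=
          f.toMultilinearMap.map_smul_univ (fun l => ev (tp (I l).2)) (fun l => E (I l))
        rw [h4, smul_eq_mul] at h2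
        exact mul_right_cancel₀ hI h2
      let J : Fin (2 * m) → X × Fin n := fun l => ((I l).2, (I l).1)
      refine hall (ct (tyt tp) J) (sum_ct _ J) ?_ n (2 * m) J ?_ rfl
      · rw [← hprod]
        have h3 : ∀ x, ev x ^ ct (tyt tp) J x =
            ∏ l : Fin (2 * m), if tyt tp (J l) = x then ev x else 1 := by
          intro x
          rw [← Finset.prod_filter, Finset.prod_const, ct_filter]
        rw [Finset.prod_congr rfl fun x _ => h3 x, Finset.prod_comm]
        refine Finset.prod_congr rfl fun l _ => ?_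
        rw [Finset.prod_ite_eq Finset.univ (tyt tp (J l)), if_pos (Finset.mem_univ _)]
        rfl
      · intro l l' hl
        exact hinj (Prod.ext (congrArg Prod.snd hl) (congrArg Prod.fst hl))
  obtain ⟨f', hf', hff⟩ := hmem
  have h1 : f' = f := by
    ext v
    exact congrFun hff v
  rw [← h1]
  exact hf'

end

end Pool.Agent.Q271.ZC
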