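import Mathlib
import Pool.Agent.Q271.ZC.Min
import Pool.Agent.Q271.ZC.Stm

/-!
# Characteristic polynomials of Frobenius endomorphisms and their roots
-/

set_option autoImplicit false
set_option linter.unusedSectionVars false

namespace Pool.Agent.Q271.ZC

open NumberField Polynomial
open scoped Pointwise

/-- The monic polynomial `P` is the characteristic polynomial of the Frobenius endomorphism of an
abelian variety over the field with `p ^ a` elements (theorem of Honda and Tate): the absolute values of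
the roots are the square root of `p ^ a`, the multiplicities of real roots are even and those of the
other roots satisfy the condition at the primes above `p`. -/
structure IsFrob (p a : ℕ) (P : ℤ[X]) : Prop where
  monic : P.Monic
  weil : ∀ z : ℂ, (P.map (Int.castRingHom ℂ)).IsRoot z → ‖z‖ ^ 2 = (p : ℝ) ^ a
  real : ∀ x : ℝ, Even ((P.map (Int.castRingHom ℝ)).rootMultiplicity x)
  loc : ∀ (K : Type) [Field K] [NumberField K] (y : 𝓞 K), Algebra.adjoin ℚ {(y : K)} = ⊤ →
    ∀ (v : Ideal (𝓞 K)) (f : ℕ), v.IsPrime → 0 < f → Ideal.absNorm v = p ^ f →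
    a ∣ (P.map (Int.castRingHom K)).rootMultiplicity (y : K) * f * multiplicity v (Ideal.span {y})

/-- The group generated by the roots of `P` has no torsion (this holds for the abelian variety over
a finite extension of the base field; all Tate classes over further extensions are then defined over
the base field). -/
def Neat (P : ℤ[X]) : Prop :=
  ∀ u ∈ Subgroup.closure {u : ℂˣ | (P.map (Int.castRingHom ℂ)).IsRoot (u : ℂ)}, ∀ k : ℕ, 0 < k →
    u ^ k = 1 → u = 1

section

variable (P : ℤ[X])

theorem map_cast {A B : Type*} [Ring A] [Ring B] (φ : A →+* B) :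
    (P.map (Int.castRingHom A)).map φ = P.map (Int.castRingHom B) := by
  rw [Polynomial.map_map]
  congr 1
  exact RingHom.ext_int _ _

theorem root_map {A B : Type*} [Field A] [Field B] (φ : A →+* B) (x : A) :
    (P.map (Int.castRingHom B)).IsRoot (φ x) ↔ (P.map (Int.castRingHom A)).IsRoot x := by
  rw [← map_cast P φ]
  exact isRoot_map_iff φ.injective

theorem mult_map {A B : Type*} [Field A] [Field B] (φ : A →+* B) (x : A) :
    (P.map (Int.castRingHom B)).rootMultiplicity (φ x) =
      (P.map (Int.castRingHom A)).rootMultiplicity x := by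
  rw [← map_cast P φ]
  exact (eq_rootMultiplicity_map φ.injective x).symm

theorem exists_root {A B : Type*} [Field A] [Field B] [CharZero B] (hP : P.Monic)
    (hs : (P.map (Int.castRingHom A)).Splits) (φ : A →+* B) (z : B)
    (hz : (P.map (Int.castRingHom B)).IsRoot z) :
    ∃ x : A, (P.map (Int.castRingHom A)).IsRoot x ∧ φ x = z := by
  classical
  have h0 : P.map (Int.castRingHom B) ≠ 0 := (hP.map _).ne_zero
  have h1 : z ∈ (P.map (Int.castRingHom B)).roots := (mem_roots h0).2 hz
  rw [← map_cast P φ, hs.roots_map φ, Multiset.mem_map] at h1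
  obtain ⟨x, hx, rfl⟩ := h1
  exact ⟨x, (mem_roots'.1 hx).2, rfl⟩

/-- the roots of `P` in a number field -/
abbrev Rt (L : Type) [Field L] [NumberField L] : Type :=
  {α : 𝓞 L // (P.map (Int.castRingHom L)).IsRoot (α : L)}

variable {L : Type} [Field L] [NumberField L]

theorem exists_rt (hP : P.Monic) (x : L) (hx : (P.map (Int.castRingHom L)).IsRoot x) :
    ∃ y : Rt P L, (y.1 : L) = x := by
  have h1 : IsIntegral ℤ x := ⟨P, hP, by rw [IsRoot.def, eval_map] at hx; exact hx⟩
  exact ⟨⟨⟨x, h1⟩, hx⟩, rfl⟩

theorem rt_finite (hP : P.Monic) : Finite (Rt P L) := by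
  have h0 : P.map (Int.castRingHom L) ≠ 0 := (hP.map _).ne_zero
  have h1 : (P.map (Int.castRingHom L)).rootSet L = {x | (P.map (Int.castRingHom L)).IsRoot x} := by
    ext x
    rw [mem_rootSet]
    simp [h0]
  have h2 : Finite {x : L | (P.map (Int.castRingHom L)).IsRoot x} := by
    rw [← h1]
    exact (rootSet_finite _ _).to_subtype
  refine Finite.of_injective (fun x : Rt P L => (⟨(x.1 : L), x.2⟩ :
    {x : L | (P.map (Int.castRingHom L)).IsRoot x})) ?_
  intro x y h
  simp only [Subtype.mk.injEq] at h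
  exact Subtype.ext (RingOfIntegers.ext h)

theorem card_rt_le (hP : P.Monic) : Nat.card (Rt P L) ≤ P.natDegree := by
  classical
  have h0 : P.map (Int.castRingHom L) ≠ 0 := (hP.map _).ne_zero
  have h1 : Nat.card (Rt P L) ≤ Nat.card ((P.map (Int.castRingHom L)).roots.toFinset) := by
    refine Nat.card_le_card_of_injective (fun x : Rt P L => (⟨(x.1 : L), ?_⟩ :
      (P.map (Int.castRingHom L)).roots.toFinset)) ?_
    · rw [Multiset.mem_toFinset]
      exact (mem_roots h0).2 x.2
    · intro x y h
      simp only [Subtype.mk.injEq] at h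
      exact Subtype.ext (RingOfIntegers.ext h)
  rw [Nat.card_eq_fintype_card (α := (P.map (Int.castRingHom L)).roots.toFinset),
    Fintype.card_coe] at h1
  refine h1.trans ((Multiset.toFinset_card_le _).trans ((card_roots' _).trans ?_))
  rw [hP.natDegree_map]

theorem coe_smul (σ : L ≃ₐ[ℚ] L) (x : 𝓞 L) : ((σ • x : 𝓞 L) : L) = σ (x : L) := rfl

theorem root_smul (σ : L ≃ₐ[ℚ] L) (x : 𝓞 L) (hx : (P.map (Int.castRingHom L)).IsRoot (x : L)) :
    (P.map (Int.castRingHom L)).IsRoot ((σ • x : 𝓞 L) : L) :=
  (root_map P (σ : L →+* L) (x : L)).2 hx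

/-- the Galois group acts on the roots -/
@[reducible] noncomputable def rtAct : MulAction (L ≃ₐ[ℚ] L) (Rt P L) := subAct _ (root_smul P)

/-- the multiplicity of a root -/
noncomputable def mu (x : Rt P L) : ℕ := (P.map (Int.castRingHom L)).rootMultiplicity (x.1 : L)

theorem mu_pos (hP : P.Monic) (x : Rt P L) : 1 ≤ mu P x :=
  (rootMultiplicity_pos (hP.map _).ne_zero).2 x.2

theorem mu_le (hP : P.Monic) (x : Rt P L) : mu P x ≤ P.natDegree := by
  classical
  have h0 : P.map (Int.castRingHom L) ≠ 0 := (hP.map _).ne_zero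
  rw [mu, ← count_roots, ← hP.natDegree_map (Int.castRingHom L)]
  exact (Multiset.count_le_card _ _).trans (card_roots' _)

/-- the other root of the pair -/
theorem exists_br {p a : ℕ} (hP : IsFrob p a P) (hs : (P.map (Int.castRingHom L)).Splits)
    (x : Rt P L) : ∃ y : Rt P L, x.1 * y.1 = (p : 𝓞 L) ^ a ∧ mu P y = mu P x := by
  have φ : L →+* ℂ := Classical.choice inferInstance
  have h1 : (P.map (Int.castRingHom ℂ)).IsRoot (φ x.1) := (root_map P φ _).2 x.2
  have h2 : (P.map (Int.castRingHom ℂ)).IsRoot (starRingEnd ℂ (φ x.1)) :=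
    (root_map P (starRingEnd ℂ) _).2 h1
  obtain ⟨w, hw, hw2⟩ := exists_root P hP.monic hs φ _ h2
  obtain ⟨y, hy⟩ := exists_rt P hP.monic w hw
  refine ⟨y, ?_, ?_⟩
  · apply RingOfIntegers.ext
    apply φ.injective
    have h3 : ((x.1 * y.1 : 𝓞 L) : L) = (x.1 : L) * (y.1 : L) := rfl
    have h4 : (((p : 𝓞 L) ^ a : 𝓞 L) : L) = (p : L) ^ a := by
      rw [RingOfIntegers.coe_eq_algebraMap, map_pow, map_natCast]
    rw [h3, h4, map_mul, hy, hw2, Complex.mul_conj, Complex.normSq_eq_norm_sq, hP.weil _ h1, map_pow,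
      map_natCast]
    push_cast
    rfl
  · rw [mu, mu, ← mult_map P φ, ← mult_map P φ, hy, hw2]
    exact mult_map P (starRingEnd ℂ) _

end

end Pool.Agent.Q271.ZC
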