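import Mathlib
import Pool.Agent.Q271.ZC.Roots
import Pool.Agent.Q178.ZC.Ht
import Pool.Agent.Q277.ZC.Kr

/-!
# The slopes of the roots
-/

set_option autoImplicit false
set_option linter.unusedSectionVars false

namespace Pool.Agent.Q271.ZC

open NumberField Polynomial
open scoped Pointwise

/-- a sum over the orbits -/
theorem int_of_orbits {D Ω : Type} [Group D] [Fintype Ω] [MulAction D Ω] (h : Ω → ℚ)
    (hinv : ∀ (d : D) x, h (d • x) = h x)
    (hint : ∀ x, ∃ z : ℤ, (Nat.card {y // ∃ d : D, d • x = y} : ℚ) * h x = z) :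
    ∃ z : ℤ, ∑ x, h x = z := by
  classical
  let Q := Quotient (MulAction.orbitRel D Ω)
  let _ : Fintype Q := Fintype.ofFinite _
  choose z hz using hint
  refine ⟨∑ q : Q, z q.out, ?_⟩
  rw [Int.cast_sum, ← Finset.sum_fiberwise Finset.univ (fun x : Ω => (Quotient.mk _ x : Q)) h]
  refine Finset.sum_congr rfl fun q _ => ?_
  rw [← hz]
  have hmk : ∀ x : Ω, (Quotient.mk _ x : Q) = q ↔ ∃ d : D, d • q.out = x := by
    intro x
    constructor
    · rintro rfl
      have h1 : (MulAction.orbitRel D Ω).r (Quotient.out (Quotient.mk (MulAction.orbitRel D Ω) x)) x :=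
        Quotient.exact (Quotient.out_eq (Quotient.mk (MulAction.orbitRel D Ω) x))
      obtain ⟨g, hg⟩ := (MulAction.orbitRel D Ω).symm h1
      exact ⟨g, hg⟩
    · rintro ⟨d, rfl⟩
      have h2 : (Quotient.mk _ (d • q.out) : Q) = Quotient.mk _ q.out := Quotient.sound ⟨d, rfl⟩
      rw [h2]
      exact Quotient.out_eq q
  have h3 : ∀ x ∈ Finset.univ.filter (fun x : Ω => (Quotient.mk _ x : Q) = q), h x = h q.out := by
    intro x hx
    obtain ⟨d, rfl⟩ := (hmk x).1 (Finset.mem_filter.1 hx).2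
    exact hinv d _
  rw [Finset.sum_congr rfl h3, Finset.sum_const, nsmul_eq_mul]
  congr 2
  rw [← Fintype.card_subtype, ← Nat.card_eq_fintype_card]
  exact Nat.card_congr (Equiv.subtypeEquivRight hmk)

section

variable {L : Type} [Field L] [NumberField L] (v : Ideal (𝓞 L))

/-- the valuation -/
noncomputable def od (x : 𝓞 L) : ℕ := multiplicity v (Ideal.span {x})

theorem od_mul (hv : Prime v) {x y : 𝓞 L} (hx : x ≠ 0) (hy : y ≠ 0) :
    od v (x * y) = od v x + od v y := by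
  unfold od
  rw [← Ideal.span_singleton_mul_span_singleton]
  refine multiplicity_mul hv ?_
  rw [Ideal.span_singleton_mul_span_singleton]
  exact Pool.Agent.Q277.ZC.fin_mult hv (mul_ne_zero hx hy)

theorem od_pow (hv : Prime v) {x : 𝓞 L} (hx : x ≠ 0) (n : ℕ) : od v (x ^ n) = n * od v x := by
  unfold od
  rw [← Ideal.span_singleton_pow]
  exact (Pool.Agent.Q277.ZC.fin_mult hv hx).multiplicity_pow hv

theorem od_pos (hv : Prime v) {x : 𝓞 L} (hx : x ≠ 0) (hxv : x ∈ v) : 0 < od v x := by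
  unfold od
  apply multiplicity_pos_of_dvd
  exact Ideal.dvd_iff_le.2 ((Ideal.span_singleton_le_iff_mem _).2 hxv)

theorem od_smul {σ : L ≃ₐ[ℚ] L} (hσ : σ • v = v) (x : 𝓞 L) : od v (σ • x) = od v x := by
  unfold od
  have h1 := Pool.Agent.Q277.ZC.emult_smul σ v (Ideal.span {x})
  rw [Pool.Agent.Q277.ZC.smul_span, hσ] at h1
  exact multiplicity_eq_of_emultiplicity_eq h1

variable {P : ℤ[X]} {p a : ℕ}

/-- the normalized slope of a root, times the multiplicity of the root -/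
noncomputable def slope (p a : ℕ) (x : Rt P L) : ℚ :=
  mu P x * (2 * od v x.1 / (a * od v (p : 𝓞 L)) - 1)

end

section

variable {L : Type} [Field L] [NumberField L] [IsGalois ℚ L] {v : Ideal (𝓞 L)} {P : ℤ[X]} {p a : ℕ}

theorem rt_ne_zero (hp : p.Prime) (hP : IsFrob p a P) (hs : (P.map (Int.castRingHom L)).Splits)
    (x : Rt P L) : x.1 ≠ 0 := by
  obtain ⟨y, hy, -⟩ := exists_br P hP hs x
  intro h
  rw [h, zero_mul] at hy
  exact pow_ne_zero _ (Nat.cast_ne_zero.2 hp.ne_zero) hy.symm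

theorem slope_br (hp : p.Prime) (ha : 0 < a) (hP : IsFrob p a P)
    (hs : (P.map (Int.castRingHom L)).Splits) (hv : Prime v) (hpv : (p : 𝓞 L) ∈ v) (x y : Rt P L)
    (hxy : x.1 * y.1 = (p : 𝓞 L) ^ a) (hm : mu P y = mu P x) :
    slope v p a y = - slope v p a x := by
  have hp0 : (p : 𝓞 L) ≠ 0 := Nat.cast_ne_zero.2 hp.ne_zero
  have h1 := od_mul v hv (rt_ne_zero hp hP hs x) (rt_ne_zero hp hP hs y)
  rw [hxy, od_pow v hv hp0] at h1
  have h2 := od_pos v hv hp0 hpv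
  have h3 : ((a : ℚ) * od v (p : 𝓞 L)) = od v x.1 + od v y.1 := by exact_mod_cast h1
  have h4 : ((a : ℚ) * od v (p : 𝓞 L)) ≠ 0 := by positivity
  unfold slope
  rw [hm]
  have h5 : (od v y.1 : ℚ) = a * od v (p : 𝓞 L) - od v x.1 := by linarith
  rw [h5]
  field_simp
  ring

theorem abs_slope (hp : p.Prime) (ha : 0 < a) (hP : IsFrob p a P)
    (hs : (P.map (Int.castRingHom L)).Splits) (hv : Prime v) (hpv : (p : 𝓞 L) ∈ v) (x : Rt P L) :
    |slope v p a x| ≤ (P.natDegree : ℕ) := by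
  obtain ⟨y, hxy, hm⟩ := exists_br P hP hs x
  have hp0 : (p : 𝓞 L) ≠ 0 := Nat.cast_ne_zero.2 hp.ne_zero
  have h1 := od_mul v hv (rt_ne_zero hp hP hs x) (rt_ne_zero hp hP hs y)
  rw [hxy, od_pow v hv hp0] at h1
  have h2 := od_pos v hv hp0 hpv
  have h3 : ((a : ℚ) * od v (p : 𝓞 L)) = od v x.1 + od v y.1 := by exact_mod_cast h1
  have h4 : 0 < ((a : ℚ) * od v (p : 𝓞 L)) := by positivity
  have h5 : |(2 * (od v x.1 : ℚ) / (a * od v (p : 𝓞 L)) - 1)| ≤ 1 := by
    rw [abs_le]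
    have h6 : (0 : ℚ) ≤ od v x.1 := Nat.cast_nonneg _
    have h7 : (0 : ℚ) ≤ od v y.1 := Nat.cast_nonneg _
    constructor
    · have : 0 ≤ 2 * (od v x.1 : ℚ) / (a * od v (p : 𝓞 L)) := by positivity
      linarith
    · have : 2 * (od v x.1 : ℚ) / (a * od v (p : 𝓞 L)) ≤ 2 := by
        rw [div_le_iff₀ h4]
        linarith
      linarith
  unfold slope
  rw [abs_mul, Nat.abs_cast]
  calc (mu P x : ℚ) * _ ≤ mu P x * 1 := by gcongr
    _ ≤ _ := by rw [mul_one]; exact_mod_cast mu_le P hP.monic x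

theorem mu_smul (σ : L ≃ₐ[ℚ] L) (x y : Rt P L) (h : y.1 = σ • x.1) : mu P y = mu P x := by
  unfold mu
  rw [h]
  exact mult_map P (σ : L →+* L) _

theorem slope_smul (σ : L ≃ₐ[ℚ] L) (hσ : σ • v = v) (x y : Rt P L) (h : y.1 = σ • x.1) :
    slope v p a y = slope v p a x := by
  unfold slope
  rw [mu_smul σ x y h, h, od_smul v hσ]

/-- the integrality of the slopes -/
theorem slope_int (hp : p.Prime) (ha : 0 < a) (hP : IsFrob p a P)
    (hs : (P.map (Int.castRingHom L)).Splits) (hv : v.IsPrime) (hpv : (p : 𝓞 L) ∈ v) (x : Rt P L) :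
    ∃ z : ℤ, (Nat.card {γ : 𝓞 L // ∃ σ : L ≃ₐ[ℚ] L, σ • v = v ∧ σ • x.1 = γ} : ℚ) *
      slope v p a x = z := by
  have hp0 : (p : 𝓞 L) ≠ 0 := Nat.cast_ne_zero.2 hp.ne_zero
  have hv0 : v ≠ ⊥ := by
    rintro rfl
    exact hp0 (Ideal.mem_bot.1 hpv)
  have hvp : Prime v := Ideal.prime_of_isPrime hv0 hv
  have h2 := od_pos v hvp hp0 hpv
  obtain ⟨k, hk⟩ := Pool.Agent.Q178.ZC.ht L p v hp hv hpv x.1 (rt_ne_zero hp hP hs x) a (mu P x) (by
    intro K _ _ y i hi had w f hw hf hnw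
    have h3 := hP.loc K y had w f hw hf hnw
    have h4 : (P.map (Int.castRingHom K)).rootMultiplicity (y : K) = mu P x := by
      unfold mu
      rw [← hi]
      exact (mult_map P i _).symm
    rwa [h4] at h3)
  refine ⟨2 * k - Nat.card {γ : 𝓞 L // ∃ σ : L ≃ₐ[ℚ] L, σ • v = v ∧ σ • x.1 = γ} * mu P x, ?_⟩
  have h5 : ((Nat.card {γ : 𝓞 L // ∃ σ : L ≃ₐ[ℚ] L, σ • v = v ∧ σ • x.1 = γ} : ℚ) * mu P x *
      od v x.1) = od v (p : 𝓞 L) * a * k := by exact_mod_cast hk
  have h4 : ((a : ℚ) * od v (p : 𝓞 L)) ≠ 0 := by positivity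
  unfold slope
  push_cast
  field_simp
  linear_combination 2 * h5

end

end Pool.Agent.Q271.ZC
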