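import Mathlib
import Pool.Agent.Q271.ZC.Slope
import Pool.Agent.Q271.ZC.Gal
import Pool.Agent.Q277.ZC.Tl

/-!
# Exotic Tate monomials in terms of the roots in a Galois number field
-/

set_option autoImplicit false
set_option linter.unusedSectionVars false

namespace Pool.Agent.Q271.ZC

open NumberField Polynomial Matrix
open scoped Pointwise

section

variable {L : Type} [Field L] [NumberField L] [IsGalois ℚ L] {P : ℤ[X]} {p a : ℕ}
  [Fintype (Rt P L)]

theorem zz_inj {K : Type} [Field K] (i : L →+* K) :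
    Function.Injective fun x : Rt P L => i (x.1 : L) := by
  intro x y h
  exact Subtype.ext (RingOfIntegers.ext (i.injective h))

theorem exists_zz (hP : IsFrob p a P) (hs : (P.map (Int.castRingHom L)).Splits) {K : Type}
    [Field K] [CharZero K] (i : L →+* K) (z : K) (hz : (P.map (Int.castRingHom K)).IsRoot z) :
    ∃ x : Rt P L, i (x.1 : L) = z := by
  obtain ⟨x, hx, rfl⟩ := exists_root P hP.monic hs i z hz
  obtain ⟨y, hy⟩ := exists_rt P hP.monic x hx
  exact ⟨y, congrArg i hy⟩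

theorem zz_br {K : Type} [Field K] [CharZero K] (i : L →+* K) (hp : p.Prime) (x y : Rt P L)
    (h : x.1 * y.1 = (p : 𝓞 L) ^ a) : ((p ^ a : ℕ) : K) / i (x.1 : L) = i (y.1 : L) := by
  have h1 : ((x.1 * y.1 : 𝓞 L) : L) = (x.1 : L) * (y.1 : L) := rfl
  have h2 : (((p : 𝓞 L) ^ a : 𝓞 L) : L) = (p : L) ^ a := by
    rw [RingOfIntegers.coe_eq_algebraMap, map_pow, map_natCast]
  have h3 : i (x.1 : L) * i (y.1 : L) = (p : K) ^ a := by
    rw [← map_mul, ← h1, h, h2, map_pow, map_natCast]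
  have h4 : i (x.1 : L) ≠ 0 := fun h5 => pow_ne_zero a (Nat.cast_ne_zero.2 hp.ne_zero : (p : K) ≠ 0)
    (by rw [← h3, h5, zero_mul])
  rw [Nat.cast_pow, ← h3, mul_div_cancel_left₀ _ h4]

theorem coe_prod_rt {K : Type} [Field K] (i : L →+* K) (c : Rt P L → ℕ) :
    i ((∏ x : Rt P L, x.1 ^ c x : 𝓞 L) : L) = ∏ x : Rt P L, i (x.1 : L) ^ c x := by
  rw [RingOfIntegers.coe_eq_algebraMap, map_prod, map_prod]
  refine Finset.prod_congr rfl fun x _ => ?_
  rw [map_pow, map_pow]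

theorem coe_pow_p {K : Type} [Field K] (i : L →+* K) (k : ℕ) :
    i ((((p : 𝓞 L) ^ a) ^ k : 𝓞 L) : L) = ((p : K) ^ a) ^ k := by
  rw [RingOfIntegers.coe_eq_algebraMap, map_pow, map_pow, map_pow, map_pow, map_natCast,
    map_natCast]

theorem exotic_down (hp : p.Prime) (hP : IsFrob p a P)
    (hs : (P.map (Int.castRingHom L)).Splits) (br : Rt P L → Rt P L)
    (hbr : ∀ x, x.1 * (br x).1 = (p : 𝓞 L) ^ a) (n : ℕ)
    {K : Type} [Field K] [CharZero K] (i : L →+* K) (c : K →₀ ℕ)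
    (hc : ExoticVec (p ^ a) (fun z => n * (P.map (Int.castRingHom K)).rootMultiplicity z) c) :
    ∏ x : Rt P L, x.1 ^ (2 * c (i (x.1 : L))) =
      ((p : 𝓞 L) ^ a) ^ (∑ x : Rt P L, c (i (x.1 : L))) ∧
    (∀ x : Rt P L, c (i (x.1 : L)) ≤ n * mu P x) ∧
    ∃ x : Rt P L, c (i ((br x).1 : L)) ≠ c (i (x.1 : L)) := by
  classical
  have hpK : (p : K) ≠ 0 := Nat.cast_ne_zero.2 hp.ne_zero
  obtain ⟨hle, ⟨m, hm, hpr⟩, z, hz⟩ := hc
  have hle' : ∀ z, c z ≤ n * (P.map (Int.castRingHom K)).rootMultiplicity z := hle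
  have hc0 : ∀ z, (¬ ∃ x : Rt P L, i (x.1 : L) = z) → c z = 0 := by
    intro z h1
    have h2 := hle' z
    rw [rootMultiplicity_eq_zero (fun h3 => h1 (exists_zz hP hs i z h3)), mul_zero] at h2
    omega
  have hsupp : c.support ⊆ Finset.univ.image fun x : Rt P L => i (x.1 : L) := by
    intro z h1
    rw [Finsupp.mem_support_iff] at h1
    by_contra h2
    apply h1
    apply hc0
    rintro ⟨x, rfl⟩
    exact h2 (Finset.mem_image_of_mem _ (Finset.mem_univ _))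
  have hsum : ∑ x : Rt P L, c (i (x.1 : L)) = 2 * m := by
    rw [← hm, Finsupp.sum_of_support_subset c hsupp _ (fun _ _ => rfl),
      Finset.sum_image fun x _ y _ h => zz_inj i h]
  have hprod : ∏ x : Rt P L, i (x.1 : L) ^ c (i (x.1 : L)) = ((p : K) ^ a) ^ m := by
    rw [← Nat.cast_pow, ← hpr, Finsupp.prod_of_support_subset c hsupp _ (fun _ _ => pow_zero _),
      Finset.prod_image fun x _ y _ h => zz_inj i h]
  refine ⟨?_, fun x => ?_, ?_⟩
  · apply RingOfIntegers.ext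
    apply i.injective
    rw [coe_prod_rt, coe_pow_p, hsum]
    have h1 : ∀ x : Rt P L, i (x.1 : L) ^ (2 * c (i (x.1 : L))) =
        (i (x.1 : L) ^ c (i (x.1 : L))) ^ 2 := fun x => by rw [← pow_mul, mul_comm]
    rw [Finset.prod_congr rfl fun x _ => h1 x, Finset.prod_pow, hprod, ← pow_mul, mul_comm m 2]
  · have h1 := hle' (i (x.1 : L))
    rwa [mult_map P i] at h1
  · by_cases h1 : ∃ x : Rt P L, i (x.1 : L) = z
    · obtain ⟨x, rfl⟩ := h1
      refine ⟨x, fun h2 => hz ?_⟩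
      rw [zz_br i hp x (br x) (hbr x)]
      exact h2.symm
    · by_cases h2 : ∃ x : Rt P L, i (x.1 : L) = ((p ^ a : ℕ) : K) / z
      · exfalso
        obtain ⟨x, hx⟩ := h2
        apply h1
        refine ⟨br x, ?_⟩
        rw [← zz_br i hp x (br x) (hbr x), hx]
        have h3 : ((p ^ a : ℕ) : K) ≠ 0 := by
          rw [Nat.cast_pow]
          exact pow_ne_zero a hpK
        rw [div_div_cancel₀ h3]
      · exfalso
        apply hz
        rw [hc0 z h1, hc0 _ h2]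

theorem exotic_up (hp : p.Prime) (br : Rt P L → Rt P L)
    (hbr : ∀ x, x.1 * (br x).1 = (p : 𝓞 L) ^ a) (N : ℕ)
    {K : Type} [Field K] [CharZero K] (i : L →+* K) (c₁ : Rt P L → ℕ)
    (hc : ∏ x : Rt P L, x.1 ^ (2 * c₁ x) = ((p : 𝓞 L) ^ a) ^ (∑ x : Rt P L, c₁ x))
    (hle : ∀ x, 2 * c₁ x ≤ N * mu P x) (hne : ∃ x, c₁ (br x) ≠ c₁ x) :
    ∃ c' : K →₀ ℕ,
      ExoticVec (p ^ a) (fun z => N * (P.map (Int.castRingHom K)).rootMultiplicity z) c' := by
  classical
  obtain ⟨x₀, hx₀⟩ := hne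
  set c' : K →₀ ℕ := Finsupp.embDomain ⟨fun x : Rt P L => i (x.1 : L), zz_inj i⟩
    (Finsupp.equivFunOnFinite.symm fun x => 2 * c₁ x) with hc'
  have hc'1 : ∀ x : Rt P L, c' (i (x.1 : L)) = 2 * c₁ x := fun x =>
    Finsupp.embDomain_apply_self ⟨fun x : Rt P L => i (x.1 : L), zz_inj i⟩
      (Finsupp.equivFunOnFinite.symm fun x => 2 * c₁ x) x
  have hc'0 : ∀ z, (¬ ∃ x : Rt P L, i (x.1 : L) = z) → c' z = 0 := by
    intro z h1
    refine Finsupp.embDomain_of_notMem_range _ _ _ ?_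
    rintro ⟨x, hx⟩
    exact h1 ⟨x, hx⟩
  refine ⟨c', ?_, ⟨∑ x, c₁ x, ?_, ?_⟩, i (x₀.1 : L), ?_⟩
  · intro z
    change c' z ≤ N * (P.map (Int.castRingHom K)).rootMultiplicity z
    by_cases h1 : ∃ x : Rt P L, i (x.1 : L) = z
    · obtain ⟨x, rfl⟩ := h1
      rw [hc'1, mult_map P i]
      exact hle x
    · rw [hc'0 z h1]
      exact Nat.zero_le _
  · rw [hc', Finsupp.sum_embDomain, Finsupp.sum_fintype _ _ (fun _ => rfl), Finset.mul_sum]
    rfl
  · rw [hc', Finsupp.prod_embDomain, Finsupp.prod_fintype _ _ (fun _ => pow_zero _), Nat.cast_pow,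
      ← coe_pow_p i, ← hc, coe_prod_rt]
    rfl
  · rw [zz_br i hp x₀ (br x₀) (hbr x₀), hc'1, hc'1]
    intro h1
    exact hx₀ (by omega)

end

end Pool.Agent.Q271.ZC
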