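import Mathlib
import Pool.Agent.Q271.ZC.Slope
import Pool.Agent.Q271.ZC.Gal
import Pool.Agent.Q277.ZC.Tl

/-!
# The upper bound for abelian varieties over finite fields
-/

set_option autoImplicit false
set_option linter.unusedSectionVars false

namespace Pool.Agent.Q271.ZC

open NumberField Polynomial Matrix
open scoped Pointwise

section

variable {L : Type} [Field L] [NumberField L] [IsGalois ℚ L] {v : Ideal (𝓞 L)} {P : ℤ[X]} {p a : ℕ}
  [Fintype (Rt P L)] [DecidableEq (Rt P L)]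

/-- the length of the orbit under the decomposition group -/
noncomputable def ww (v : Ideal (𝓞 L)) (x : Rt P L) : ℕ :=
  Nat.card {γ : 𝓞 L // ∃ σ : L ≃ₐ[ℚ] L, σ • v = v ∧ σ • x.1 = γ}

theorem slope_hint (hp : p.Prime) (ha : 0 < a) (hP : IsFrob p a P)
    (hs : (P.map (Int.castRingHom L)).Splits) (hv : v.IsPrime) (hpv : (p : 𝓞 L) ∈ v)
    (T : Matrix (Rt P L) (Rt P L) ℤ) (hT : letI := rtAct (L := L) P
      T.map (Int.castRingHom ℚ) ∈ comm (L ≃ₐ[ℚ] L) (Rt P L)) (x : Rt P L) :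
    ∃ z : ℤ, (ww v x : ℚ) * (T.map (Int.castRingHom ℚ) *ᵥ (slope v p a)) x = z := by
  classical
  let _ : MulAction (L ≃ₐ[ℚ] L) (Rt P L) := rtAct P
  let D := MulAction.stabilizer (L ≃ₐ[ℚ] L) v
  have hD : ∀ d : D, d.1 • v = v := fun d => d.2
  have hcoe : ∀ (d : D) (y : Rt P L), (d • y).1 = d.1 • y.1 := fun _ _ => rfl
  have hcard : ∀ y : Rt P L, Nat.card {z : Rt P L // ∃ d : D, d • y = z} =
      Nat.card {γ : 𝓞 L // ∃ σ : L ≃ₐ[ℚ] L, σ • v = v ∧ σ • y.1 = γ} := by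
    intro y
    refine Nat.card_congr ⟨fun z => ⟨z.1.1, ?_⟩, fun γ => ⟨⟨γ.1, ?_⟩, ?_⟩, fun z => rfl, fun γ => rfl⟩
    · obtain ⟨d, hd⟩ := z.2
      exact ⟨d.1, d.2, by rw [← hd]; rfl⟩
    · obtain ⟨σ, -, h2⟩ := γ.2
      rw [← h2]
      exact root_smul P σ y.1 y.2
    · obtain ⟨σ, h1, h2⟩ := γ.2
      exact ⟨⟨σ, h1⟩, Subtype.ext h2⟩
  set Ts : Rt P L → ℚ := T.map (Int.castRingHom ℚ) *ᵥ (slope v p a) with hTs
  have hTsapp : ∀ y, Ts y = ∑ z, (T y z : ℚ) * slope v p a z := fun y => rfl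
  have hsl : ∀ (d : D) (y : Rt P L), slope v p a (d • y) = slope v p a y := fun d y =>
    slope_smul d.1 (hD d) y (d • y) (hcoe d y)
  have hTT : ∀ (d : D) (y z : Rt P L), T (d • y) (d • z) = T y z := by
    intro d y z
    have h1 := hT d.1 y z
    rw [map_apply, map_apply] at h1
    exact Int.cast_injective (α := ℚ) h1
  have hTinv : ∀ (d : D) (y : Rt P L), Ts (d • y) = Ts y := by
    intro d y
    rw [hTsapp, hTsapp, ← Equiv.sum_comp (MulAction.toPerm d) (fun z => (T (d • y) z : ℚ) * slope v p a z)]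
    refine Finset.sum_congr rfl fun z _ => ?_
    rw [MulAction.toPerm_apply, hTT, hsl]
  set O : Finset (Rt P L) := Finset.univ.filter fun z => ∃ d : D, d • x = z with hO
  have hOm : ∀ z, z ∈ O ↔ ∃ d : D, d • x = z := by
    intro z
    rw [hO, Finset.mem_filter]
    exact ⟨fun h => h.2, fun h => ⟨Finset.mem_univ _, h⟩⟩
  have hOc : O.card = ww v x := by
    rw [ww, ← hcard, Nat.card_eq_fintype_card, Fintype.card_subtype]
  have h1 : (ww v x : ℚ) * Ts x = ∑ z, ((∑ y ∈ O, T y z : ℤ) : ℚ) * slope v p a z := by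
    have h2 : ∑ y ∈ O, Ts y = (ww v x : ℚ) * Ts x := by
      rw [← hOc, ← nsmul_eq_mul, ← Finset.sum_const]
      refine Finset.sum_congr rfl fun y hy => ?_
      obtain ⟨d, rfl⟩ := (hOm y).1 hy
      exact hTinv d x
    rw [← h2]
    simp only [hTsapp]
    rw [Finset.sum_comm]
    refine Finset.sum_congr rfl fun z _ => ?_
    rw [Int.cast_sum, Finset.sum_mul]
  rw [h1]
  refine int_of_orbits (D := D) _ ?_ ?_
  · intro d z
    rw [hsl]
    congr 2
    refine Finset.sum_nbij' (fun y => d⁻¹ • y) (fun y => d • y) ?_ ?_ ?_ ?_ ?_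
    · intro y hy
      obtain ⟨e, rfl⟩ := (hOm y).1 hy
      exact (hOm _).2 ⟨d⁻¹ * e, mul_smul _ _ _⟩
    · intro y hy
      obtain ⟨e, rfl⟩ := (hOm y).1 hy
      exact (hOm _).2 ⟨d * e, mul_smul _ _ _⟩
    · intro y _
      exact smul_inv_smul _ _
    · intro y _
      exact inv_smul_smul _ _
    · intro y _
      rw [← hTT d (d⁻¹ • y) z, smul_inv_smul]
  · intro z
    obtain ⟨k, hk⟩ := slope_int (a := a) hp ha hP hs hv hpv z
    refine ⟨(∑ y ∈ O, T y z) * k, ?_⟩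
    rw [hcard z, Int.cast_mul, ← hk]
    ring

theorem tate_small (hp : p.Prime) (ha : 0 < a) (hP : IsFrob p a P)
    (hs : (P.map (Int.castRingHom L)).Splits) (hv : v.IsPrime) (hpv : (p : 𝓞 L) ∈ v)
    (hvp : Prime v) (t : ℕ) (f : Fin t → Rt P L)
    (hf : ∀ x : Rt P L, ∃ i, ∃ g : L ≃ₐ[ℚ] L, g • (f i).1 = x.1) (Y : ℕ)
    (hY : Real.exp (20 * min (Real.sqrt (t * Fintype.card (Rt P L)))
      ((Fintype.card (Rt P L) : ℝ) ^ (2 / 3 : ℝ)) *
        Real.log (3 * Fintype.card (Rt P L) * (P.natDegree + 1))) ≤ Y)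
    (br : Rt P L → Rt P L) (n : Rt P L → ℚ)
    (hn : ∀ (σ : L ≃ₐ[ℚ] L) (sx : Rt P L → Rt P L), (∀ x, (sx x).1 = σ • x.1) →
      ∑ x, n x * slope v p a (sx x) = 0) (hne : ∃ x, n (br x) ≠ n x) :
    ∃ n' : Rt P L → ℤ, (∀ (σ : L ≃ₐ[ℚ] L) (sx : Rt P L → Rt P L), (∀ x, (sx x).1 = σ • x.1) →
      ∑ x, (n' x : ℚ) * slope v p a (sx x) = 0) ∧ (∀ x, |n' x| ≤ Y) ∧ ∃ x, n' (br x) ≠ n' x := by
  classical
  let _ : MulAction (L ≃ₐ[ℚ] L) (Rt P L) := rtAct P
  have hcoe : ∀ (σ : L ≃ₐ[ℚ] L) (y : Rt P L), (σ • y).1 = σ • y.1 := fun _ _ => rfl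
  have key : relQ (L ≃ₐ[ℚ] L) (fun (_ : Unit) (x : Rt P L) => slope v p a x) ≤
      small (L ≃ₐ[ℚ] L) (fun (_ : Unit) (x : Rt P L) => slope v p a x) Y := by
    refine bound _ t f ?_ (fun _ x => ww v x) ?_ P.natDegree (fun _ x => ?_) ?_ ?_ Y hY
    · intro x
      obtain ⟨i, g, h⟩ := hf x
      exact ⟨i, g, Subtype.ext h⟩
    · intro _ x
      have hfin : Finite {γ : 𝓞 L // ∃ σ : L ≃ₐ[ℚ] L, σ • v = v ∧ σ • x.1 = γ} := by
        have h1 : {γ : 𝓞 L | ∃ σ : L ≃ₐ[ℚ] L, σ • v = v ∧ σ • x.1 = γ} ⊆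
            Set.range fun σ : L ≃ₐ[ℚ] L => σ • x.1 := by
          rintro γ ⟨σ, -, h⟩
          exact ⟨σ, h⟩
        exact ((Set.finite_range _).subset h1).to_subtype
      constructor
      · change 0 < Nat.card _
        rw [Nat.card_pos_iff]
        exact ⟨⟨⟨x.1, 1, one_smul _ _, one_smul _ _⟩⟩, hfin⟩
      · rw [ww, orb, ← Fintype.card_subtype, ← Nat.card_eq_fintype_card]
        refine Nat.card_le_card_of_injective (fun γ : {γ : 𝓞 L // ∃ σ : L ≃ₐ[ℚ] L, σ • v = v ∧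
          σ • x.1 = γ} => (⟨⟨γ.1, ?_⟩, ?_⟩ : {y : Rt P L // ∃ g : L ≃ₐ[ℚ] L, g • x = y})) ?_
        · obtain ⟨σ, -, h2⟩ := γ.2
          rw [← h2]
          exact root_smul P σ x.1 x.2
        · obtain ⟨σ, -, h2⟩ := γ.2
          exact ⟨σ, Subtype.ext h2⟩
        · intro γ γ' h
          exact Subtype.ext (congrArg (fun u : {y : Rt P L // ∃ g : L ≃ₐ[ℚ] L, g • x = y} => u.1.1) h)
    · exact abs_slope hp ha hP hs hvp hpv x
    · intro T hT _ x
      exact slope_hint hp ha hP hs hv hpv T hT x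
    · obtain ⟨x, -⟩ := hne
      exact Fintype.card_pos_iff.2 ⟨x⟩
  obtain ⟨x₀, hx₀⟩ := hne
  have hex : ∃ m ∈ relQ (L ≃ₐ[ℚ] L) (fun (_ : Unit) (x : Rt P L) => slope v p a x),
      (∀ x, ∃ z : ℤ, |z| ≤ Y ∧ m x = z) ∧ m (br x₀) ≠ m x₀ := by
    by_contra hall
    push Not at hall
    apply hx₀
    let Bal : Submodule ℚ (Rt P L → ℚ) :=
      { carrier := {m | m (br x₀) = m x₀}
        add_mem' := fun {a b} ha hb => by
          change (a + b) (br x₀) = (a + b) x₀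
          rw [Pi.add_apply, Pi.add_apply, ha, hb]
        zero_mem' := rfl
        smul_mem' := fun c a ha => by
          change (c • a) (br x₀) = (c • a) x₀
          rw [Pi.smul_apply, Pi.smul_apply, ha] }
    have h1 : small (L ≃ₐ[ℚ] L) (fun (_ : Unit) (x : Rt P L) => slope v p a x) Y ≤ Bal :=
      Submodule.span_le.2 fun m hm => hall m hm.1 hm.2
    exact h1 (key (fun σ _ => hn σ (fun x => σ • x) fun x => rfl))
  obtain ⟨m, hm, hmz, hmx⟩ := hex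
  choose z hz hz' using hmz
  refine ⟨z, fun σ sx hsx => ?_, hz, x₀, fun h => hmx ?_⟩
  · have h1 := hm σ ()
    rw [← h1]
    refine Finset.sum_congr rfl fun x _ => ?_
    rw [hz']
    have h2 : sx x = σ • x := Subtype.ext (hsx x)
    rw [h2]
  · rw [hz', hz', h]

end

end Pool.Agent.Q271.ZC
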