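import Mathlib
import Pool.Agent.Q271.ZC.TateUp

/-!
# Exotic Tate monomials with small exponents
-/

set_option autoImplicit false
set_option linter.unusedSectionVars false

namespace Pool.Agent.Q271.ZC

open NumberField Polynomial Matrix
open scoped Pointwise

section

variable {L : Type} [Field L] [NumberField L] [IsGalois ℚ L] {v : Ideal (𝓞 L)} {P : ℤ[X]} {p a : ℕ}
  [Fintype (Rt P L)]

theorem neat_prod (hn : Neat P) (hx : ∀ x : Rt P L, x.1 ≠ 0) (n : Rt P L → ℤ) (N : ℕ) (hN : 0 < N)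
    (h : (∏ x : Rt P L, (x.1 : L) ^ n x) ^ N = 1) : ∏ x : Rt P L, (x.1 : L) ^ n x = 1 := by
  have φ : L →+* ℂ := Classical.choice inferInstance
  have h0 : ∀ x : Rt P L, φ (x.1 : L) ≠ 0 := fun x h1 => hx x (by
    have h2 : (x.1 : L) = 0 := (map_eq_zero φ).1 h1
    exact_mod_cast h2)
  let u : Rt P L → ℂˣ := fun x => Units.mk0 (φ (x.1 : L)) (h0 x)
  let U : ℂˣ := ∏ x, u x ^ n x
  have hU : (U : ℂ) = φ (∏ x : Rt P L, (x.1 : L) ^ n x) := by
    simp only [U, u, map_prod, map_zpow₀, Units.coe_prod, Units.val_zpow_eq_zpow_val, Units.val_mk0]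
  have hmem : U ∈ Subgroup.closure {u : ℂˣ | (P.map (Int.castRingHom ℂ)).IsRoot (u : ℂ)} := by
    refine Subgroup.prod_mem _ fun x _ => Subgroup.zpow_mem _ (Subgroup.subset_closure ?_) _
    exact (root_map P φ _).2 x.2
  have h1 : U = 1 := by
    apply hn U hmem N hN
    apply Units.ext
    rw [Units.val_pow_eq_pow_val, hU, ← map_pow, h, map_one, Units.val_one]
  apply φ.injective
  rw [← hU, h1, map_one, Units.val_one]

theorem rel_slope (c : Rt P L → ℕ) (k : Rt P L → ℚ) (hck : ∀ x, (c x : ℚ) = mu P x * k x)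
    (h4 : ((a : ℚ) * od v (p : 𝓞 L)) ≠ 0) (σ : L ≃ₐ[ℚ] L) (sx : Rt P L → Rt P L)
    (hsx : ∀ x, (sx x).1 = σ • x.1) :
    ((∑ x : Rt P L, (c x : ℤ) * (2 * (multiplicity v (Ideal.span {σ • x.1}) : ℤ) -
      a * multiplicity v (Ideal.span {(p : 𝓞 L)})) : ℤ) : ℚ) =
      (a * od v (p : 𝓞 L)) * ∑ x, k x * slope v p a (sx x) := by
  rw [Int.cast_sum, Finset.mul_sum]
  refine Finset.sum_congr rfl fun x _ => ?_
  have h1 : mu P (sx x) = mu P x := mu_smul σ x (sx x) (hsx x)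
  unfold slope
  rw [h1, hsx]
  have h2 : (multiplicity v (Ideal.span {σ • x.1}) : ℤ) = od v (σ • x.1) := rfl
  have h3 : (multiplicity v (Ideal.span {(p : 𝓞 L)}) : ℤ) = od v (p : 𝓞 L) := rfl
  rw [h2, h3]
  push_cast
  rw [hck]
  obtain ⟨h5, h6⟩ := mul_ne_zero_iff.1 h4
  field_simp

theorem tate_rel_small (hp : p.Prime) (ha : 0 < a) (hP : IsFrob p a P) (hneat : Neat P)
    (hs : (P.map (Int.castRingHom L)).Splits) (hv : v.IsPrime) (hpv : (p : 𝓞 L) ∈ v)
    (t : ℕ) (f : Fin t → Rt P L)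
    (hf : ∀ x : Rt P L, ∃ i, ∃ g : L ≃ₐ[ℚ] L, g • (f i).1 = x.1) (Y : ℕ)
    (hY : Real.exp (20 * min (Real.sqrt (t * Fintype.card (Rt P L)))
      ((Fintype.card (Rt P L) : ℝ) ^ (2 / 3 : ℝ)) *
        Real.log (3 * Fintype.card (Rt P L) * (P.natDegree + 1))) ≤ Y)
    (br : Rt P L → Rt P L) (hbr : ∀ x, x.1 * (br x).1 = (p : 𝓞 L) ^ a)
    (hmu : ∀ x, mu P (br x) = mu P x) (c : Rt P L → ℕ)
    (hc : ∏ x : Rt P L, x.1 ^ (2 * c x) = ((p : 𝓞 L) ^ a) ^ (∑ x, c x))
    (hne : ∃ x, c (br x) ≠ c x) :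
    ∃ c' : Rt P L → ℕ, (∀ x, c' x ≤ 2 * Y * mu P x) ∧
      ∏ x : Rt P L, x.1 ^ (2 * c' x) = ((p : 𝓞 L) ^ a) ^ (∑ x, c' x) ∧ ∃ x, c' (br x) ≠ c' x := by
  classical
  have hp0 : (p : 𝓞 L) ≠ 0 := Nat.cast_ne_zero.2 hp.ne_zero
  have hv0 : v ≠ ⊥ := by
    rintro rfl
    exact hp0 (Ideal.mem_bot.1 hpv)
  have hvp : Prime v := Ideal.prime_of_isPrime hv0 hv
  have h2 := od_pos v hvp hp0 hpv
  have h4 : ((a : ℚ) * od v (p : 𝓞 L)) ≠ 0 := by positivity
  have hx0 : ∀ x : Rt P L, x.1 ≠ 0 := rt_ne_zero hp hP hs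
  have hmu0 : ∀ x : Rt P L, (mu P x : ℚ) ≠ 0 := fun x => by
    have := mu_pos P hP.monic x
    positivity
  have kr := Pool.Agent.Q277.ZC.kr L p a v hp ha hv hpv (Rt P L) (fun x => x.1) br
    (fun x φ => hP.weil _ ((root_map P φ _).2 x.2)) hbr (fun n N hN h => neat_prod hneat hx0 n N hN h)
  have hsx : ∀ σ : L ≃ₐ[ℚ] L, ∃ sx : Rt P L → Rt P L, ∀ x, (sx x).1 = σ • x.1 := fun σ =>
    ⟨fun x => ⟨σ • x.1, root_smul P σ x.1 x.2⟩, fun x => rfl⟩
  -- the relation in terms of slopes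
  set n : Rt P L → ℚ := fun x => c x / mu P x with hn
  have hcn : ∀ x, (c x : ℚ) = mu P x * n x := by
    intro x
    rw [hn]
    field_simp [hmu0 x]
  have hrel : ∀ (σ : L ≃ₐ[ℚ] L) (sx : Rt P L → Rt P L), (∀ x, (sx x).1 = σ • x.1) →
      ∑ x, n x * slope v p a (sx x) = 0 := by
    intro σ sx hs'
    have h5 := (kr c).1 hc σ
    have h6 := rel_slope (v := v) c n hcn h4 σ sx hs'
    rw [h5, Int.cast_zero] at h6
    exact (mul_eq_zero.1 h6.symm).resolve_left h4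
  obtain ⟨n', hn', hY', x₀, hx₀⟩ := tate_small hp ha hP hs hv hpv hvp t f hf Y hY br n hrel (by
    obtain ⟨x, hx⟩ := hne
    refine ⟨x, fun h => hx ?_⟩
    have h5 : (c (br x) : ℚ) = c x := by rw [hcn, hcn, hmu, h]
    exact_mod_cast h5)
  have hpos : ∀ x, 0 ≤ n' x + Y := fun x => by
    have := (abs_le.1 (hY' x)).1
    linarith
  have hcoe : ∀ x, (((n' x + Y).toNat : ℕ) : ℤ) = n' x + Y := fun x => Int.toNat_of_nonneg (hpos x)
  -- the sum of the slopes
  have hbrinj : Function.Injective br := by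
    intro x y h
    apply Subtype.ext
    have h5 := hbr x
    rw [h, ← hbr y] at h5
    exact mul_right_cancel₀ (hx0 (br y)) h5
  have hsum0 : ∑ x : Rt P L, slope v p a x = 0 := by
    have h5 : ∑ x : Rt P L, slope v p a (br x) = ∑ x : Rt P L, slope v p a x :=
      Function.Bijective.sum_comp (Finite.injective_iff_bijective.1 hbrinj) _
    have h6 : ∑ x : Rt P L, slope v p a (br x) = - ∑ x : Rt P L, slope v p a x := by
      rw [← Finset.sum_neg_distrib]
      exact Finset.sum_congr rfl fun x _ => slope_br hp ha hP hs hvp hpv x (br x) (hbr x) (hmu x)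
    linarith
  refine ⟨fun x => mu P x * (n' x + Y).toNat, ?_, ?_, x₀, ?_⟩
  · intro x
    have h5 := (abs_le.1 (hY' x)).2
    have h6 := hcoe x
    have h7 : (n' x + Y).toNat ≤ 2 * Y := by omega
    calc mu P x * (n' x + Y).toNat ≤ mu P x * (2 * Y) := Nat.mul_le_mul_left _ h7
      _ = 2 * Y * mu P x := by ring
  · rw [kr (fun x => mu P x * (n' x + Y).toNat)]
    intro σ
    obtain ⟨sx, hs'⟩ := hsx σ
    have h6 := rel_slope (v := v) (fun x => mu P x * (n' x + Y).toNat) (fun x => (n' x : ℚ) + Y)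
      (fun x => by
        push_cast
        congr 1
        have := hcoe x
        exact_mod_cast this) h4 σ sx hs'
    have h7 : ∑ x, ((n' x : ℚ) + Y) * slope v p a (sx x) = 0 := by
      simp only [add_mul]
      rw [Finset.sum_add_distrib, hn' σ sx hs', zero_add, ← Finset.mul_sum]
      have h8 : Function.Injective sx := by
        intro x y h
        apply Subtype.ext
        have h9 : σ • x.1 = σ • y.1 := by rw [← hs', ← hs', h]
        exact smul_left_cancel σ h9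
      rw [Function.Bijective.sum_comp (Finite.injective_iff_bijective.1 h8) (fun x => slope v p a x),
        hsum0, mul_zero]
    rw [h7, mul_zero] at h6
    exact_mod_cast h6
  · intro h
    apply hx₀
    simp only [hmu] at h
    have h5 := Nat.eq_of_mul_eq_mul_left (mu_pos P hP.monic x₀) h
    have h6 : (((n' (br x₀) + Y).toNat : ℕ) : ℤ) = (((n' x₀ + Y).toNat : ℕ) : ℤ) := by
      exact_mod_cast h5
    rw [hcoe, hcoe] at h6
    linarith

end

end Pool.Agent.Q271.ZC
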