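import Mathlib
import Pool.Agent.Q271.ZC.TateRel
import Pool.Agent.Q271.ZC.TateExo

/-!
# The upper bound over finite fields
-/

set_option autoImplicit false
set_option linter.unusedSectionVars false

namespace Pool.Agent.Q271.ZC

open NumberField Polynomial Matrix
open scoped Pointwise

section

variable {L : Type} [Field L] [NumberField L] [IsGalois ℚ L] {v : Ideal (𝓞 L)} {P : ℤ[X]} {p a : ℕ}
  [Fintype (Rt P L)]

theorem exotic_transfer (hp : p.Prime) (ha : 0 < a) (hP : IsFrob p a P) (hneat : Neat P)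
    (hs : (P.map (Int.castRingHom L)).Splits) (hv : v.IsPrime) (hpv : (p : 𝓞 L) ∈ v)
    (t : ℕ) (f : Fin t → Rt P L)
    (hf : ∀ x : Rt P L, ∃ i, ∃ g : L ≃ₐ[ℚ] L, g • (f i).1 = x.1) (Y N n : ℕ)
    (hY : Real.exp (20 * min (Real.sqrt (t * Fintype.card (Rt P L)))
      ((Fintype.card (Rt P L) : ℝ) ^ (2 / 3 : ℝ)) *
        Real.log (3 * Fintype.card (Rt P L) * (P.natDegree + 1))) ≤ Y)
    (hN : 4 * Y ≤ N) {K : Type} [Field K] [CharZero K] (i : L →+* K) (c : K →₀ ℕ)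
    (hc : ExoticVec (p ^ a) (fun z => n * (P.map (Int.castRingHom K)).rootMultiplicity z) c) :
    ∃ c' : K →₀ ℕ,
      ExoticVec (p ^ a) (fun z => N * (P.map (Int.castRingHom K)).rootMultiplicity z) c' := by
  classical
  choose br hbr hmu using exists_br (L := L) P hP hs
  obtain ⟨h1, -, h2⟩ := exotic_down hp hP hs br hbr n i c hc
  obtain ⟨c₁, hc1, hc2, hc3⟩ := tate_rel_small hp ha hP hneat hs hv hpv t f hf Y hY br hbr hmu
    (fun x => c (i (x.1 : L))) h1 h2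
  refine exotic_up hp br hbr N i c₁ hc2 (fun x => ?_) hc3
  calc 2 * c₁ x ≤ 2 * (2 * Y * mu P x) := Nat.mul_le_mul_left _ (hc1 x)
    _ = 4 * Y * mu P x := by ring
    _ ≤ N * mu P x := Nat.mul_le_mul_right _ hN

end

/-- numerics -/
theorem num_up2 (t r d g N : ℕ) (ht : 1 ≤ t) (htr : t ≤ r) (hd : 1 ≤ d) (hdg : d ≤ 2 * g)
    (hN : Real.exp (250 * min (Real.sqrt (r * g)) ((g : ℝ) ^ (2 / 3 : ℝ)) * Real.log (2 * g)) ≤ N) :
    ∃ Y : ℕ, Real.exp (20 * min (Real.sqrt (t * d)) ((d : ℝ) ^ (2 / 3 : ℝ)) *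
        Real.log (3 * d * ((2 * g : ℕ) + 1))) ≤ Y ∧ 4 * Y ≤ N := by
  have htr' : (t : ℝ) ≤ r := by exact_mod_cast htr
  have htr1 : (1 : ℝ) ≤ t := by exact_mod_cast ht
  have hdr : (1 : ℝ) ≤ d := by exact_mod_cast hd
  have hdgr : (d : ℝ) ≤ 2 * g := by exact_mod_cast hdg
  have hg : 1 ≤ g := by omega
  have hgr : (1 : ℝ) ≤ g := by exact_mod_cast hg
  set M := min (Real.sqrt (r * g)) ((g : ℝ) ^ (2 / 3 : ℝ)) with hM
  set l := Real.log (2 * g) with hl
  have hM1 : 1 ≤ M := by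
    rw [hM, le_min_iff]
    constructor
    · rw [← Real.sqrt_one]
      exact Real.sqrt_le_sqrt (by nlinarith)
    · exact Real.one_le_rpow hgr (by norm_num)
  have hl1 : 0.69 ≤ l := by
    have h1 : Real.log 2 ≤ l := Real.log_le_log (by norm_num) (by linarith)
    have h2 := Real.log_two_gt_d9
    linarith
  have hM2 : min (Real.sqrt (t * d)) ((d : ℝ) ^ (2 / 3 : ℝ)) ≤ 2 * M := by
    rw [hM, mul_min_of_nonneg _ _ (by norm_num : (0 : ℝ) ≤ 2)]
    refine min_le_min ?_ ?_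
    · have h1 : (2 : ℝ) * Real.sqrt (r * g) = Real.sqrt (4 * (r * g)) := by
        rw [show (4 : ℝ) * (r * g) = 2 ^ 2 * (r * g) by ring,
          Real.sqrt_mul (show (0 : ℝ) ≤ 2 ^ 2 by norm_num), Real.sqrt_sq (by norm_num)]
      rw [h1]
      apply Real.sqrt_le_sqrt
      have h2 : (t : ℝ) * d ≤ r * (2 * g) := mul_le_mul htr' hdgr (by linarith) (by linarith)
      nlinarith [mul_nonneg (by linarith : (0 : ℝ) ≤ r) (by linarith : (0 : ℝ) ≤ g)]
    · calc (d : ℝ) ^ (2 / 3 : ℝ) ≤ (2 * g) ^ (2 / 3 : ℝ) :=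
            Real.rpow_le_rpow (by linarith) hdgr (by norm_num)
        _ = 2 ^ (2 / 3 : ℝ) * (g : ℝ) ^ (2 / 3 : ℝ) := Real.mul_rpow (by norm_num) (by linarith)
        _ ≤ 2 * (g : ℝ) ^ (2 / 3 : ℝ) := by
          have h1 : (2 : ℝ) ^ (2 / 3 : ℝ) ≤ 2 := by
            calc (2 : ℝ) ^ (2 / 3 : ℝ) ≤ (2 : ℝ) ^ (1 : ℝ) :=
                  Real.rpow_le_rpow_of_exponent_le (by norm_num) (by norm_num)
              _ = 2 := Real.rpow_one 2
          gcongr
  have hl2 : Real.log (3 * d * ((2 * g : ℕ) + 1)) ≤ 5 * l := by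
    rw [hl, ← Real.log_rpow (by linarith)]
    apply Real.log_le_log (by positivity)
    push_cast
    have h1 : ((2 : ℝ) * g) ^ (5 : ℝ) = (2 * g) ^ 5 := by norm_cast
    rw [h1]
    have h2 : (1 : ℝ) ≤ (g : ℝ) ^ 3 := one_le_pow₀ hgr
    have h3 : 3 * (d : ℝ) * (2 * g + 1) ≤ 18 * g ^ 2 := by nlinarith
    have h4 : (18 : ℝ) * g ^ 2 ≤ (2 * g) ^ 5 := by
      have h5 : ((2 : ℝ) * g) ^ 5 = 32 * g ^ 2 * g ^ 3 := by ring
      rw [h5]
      nlinarith [mul_le_mul_of_nonneg_left h2 (by positivity : (0 : ℝ) ≤ 32 * g ^ 2),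
        sq_nonneg (g : ℝ)]
    linarith
  have hl3 : 0 ≤ Real.log (3 * d * ((2 * g : ℕ) + 1)) := by
    apply Real.log_nonneg
    push_cast
    nlinarith
  set E := 20 * min (Real.sqrt (t * d)) ((d : ℝ) ^ (2 / 3 : ℝ)) *
        Real.log (3 * d * ((2 * g : ℕ) + 1)) with hE
  have hE1 : E ≤ 200 * (M * l) := by
    have h1 : min (Real.sqrt (t * d)) ((d : ℝ) ^ (2 / 3 : ℝ)) *
        Real.log (3 * d * ((2 * g : ℕ) + 1)) ≤ (2 * M) * (5 * l) :=
      mul_le_mul hM2 hl2 hl3 (by linarith)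
    rw [hE]
    nlinarith
  have hE0 : 0 ≤ E := by
    rw [hE]
    have h1 : 0 ≤ min (Real.sqrt (t * d)) ((d : ℝ) ^ (2 / 3 : ℝ)) :=
      le_min (Real.sqrt_nonneg _) (by positivity)
    positivity
  refine ⟨⌈Real.exp E⌉₊, Nat.le_ceil _, ?_⟩
  have h1 : (⌈Real.exp E⌉₊ : ℝ) < Real.exp E + 1 := Nat.ceil_lt_add_one (Real.exp_pos E).le
  have h2 : 1 ≤ Real.exp E := Real.one_le_exp hE0
  have h3 : (8 : ℝ) ≤ Real.exp 3 := by
    have h4 : Real.exp 3 = Real.exp 1 * Real.exp 1 * Real.exp 1 := by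
      rw [← Real.exp_add, ← Real.exp_add]
      norm_num
    have h5 := Real.exp_one_gt_d9
    rw [h4]
    nlinarith [mul_pos (Real.exp_pos 1) (Real.exp_pos 1)]
  have h4 : (3 : ℝ) + E ≤ 250 * M * l := by nlinarith [mul_le_mul hM1 hl1 (by norm_num) (by linarith)]
  have h5 : ((4 * ⌈Real.exp E⌉₊ : ℕ) : ℝ) ≤ N := by
    push_cast
    calc (4 : ℝ) * ⌈Real.exp E⌉₊ ≤ 8 * Real.exp E := by linarith
      _ ≤ Real.exp 3 * Real.exp E := by gcongr
      _ = Real.exp (3 + E) := (Real.exp_add _ _).symm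
      _ ≤ Real.exp (250 * M * l) := Real.exp_le_exp.2 h4
      _ ≤ N := hN
  exact_mod_cast h5

theorem exists_prime_above {L : Type} [Field L] [NumberField L] {p : ℕ} (hp : p.Prime) :
    ∃ v : Ideal (𝓞 L), v.IsPrime ∧ (p : 𝓞 L) ∈ v := by
  have h1 : (Ideal.span {(p : ℤ)}).IsMaximal :=
    (Ideal.span_singleton_prime (by exact_mod_cast hp.ne_zero)).2
      (Nat.prime_iff_prime_int.1 hp) |>.isMaximal (by
        rw [Ne, Ideal.span_singleton_eq_bot]
        exact_mod_cast hp.ne_zero)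
  obtain ⟨v, hv, hl⟩ := Ideal.exists_maximal_ideal_liesOver_of_isIntegral (S := 𝓞 L)
    (Ideal.span {(p : ℤ)})
  refine ⟨v, hv.isPrime, ?_⟩
  have h2 : (p : ℤ) ∈ Ideal.span {(p : ℤ)} := Ideal.mem_span_singleton_self _
  rw [Ideal.mem_of_liesOver v (Ideal.span {(p : ℤ)})] at h2
  simpa using h2

theorem exists_split (P : ℤ[X]) : ∃ (L : Type) (_ : Field L) (_ : NumberField L)
    (_ : IsGalois ℚ L), (P.map (Int.castRingHom L)).Splits := by
  have h1 : NumberField (P.map (Int.castRingHom ℚ)).SplittingField := NumberField.mk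
  have h0 : IsSplittingField ℚ (P.map (Int.castRingHom ℚ)).SplittingField
      (P.map (Int.castRingHom ℚ)) := by
    convert IsSplittingField.splittingField (P.map (Int.castRingHom ℚ))
    exact Subsingleton.elim _ _
  have h2 : Normal ℚ (P.map (Int.castRingHom ℚ)).SplittingField :=
    Normal.of_isSplittingField (P.map (Int.castRingHom ℚ))
  have h3 : IsGalois ℚ (P.map (Int.castRingHom ℚ)).SplittingField := ⟨⟩
  refine ⟨(P.map (Int.castRingHom ℚ)).SplittingField, inferInstance, h1, h3, ?_⟩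
  have h4 := h0.splits
  rwa [map_cast P] at h4

theorem tate_up : ∃ C : ℝ, 0 < C ∧ ∀ (p a : ℕ) (P : ℤ[X]), p.Prime → 0 < a → IsFrob p a P →
    Neat P → ∀ g r : ℕ, P.natDegree = 2 * g →
    {Q : ℚ[X] | Q.Monic ∧ Irreducible Q ∧ Q ∣ P.map (Int.castRingHom ℚ)}.ncard = r →
    ∀ N : ℕ, Real.exp (C * min (Real.sqrt (r * g)) ((g : ℝ) ^ (2 / 3 : ℝ)) * Real.log (2 * g)) ≤ N →
    ∀ (K V : Type) [Field K] [CharZero K] [IsAlgClosed K] [AddCommGroup V] [Module K V]
      [FiniteDimensional K V] (F : V →ₗ[K] V), Module.End.IsSemisimple F →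
      F.charpoly = P.map (Int.castRingHom K) → TateGenerated (F.compLeft (Fin N)) (p ^ a) →
      ∀ n, TateGenerated (F.compLeft (Fin n)) (p ^ a) := by
  classical
  refine ⟨250, by norm_num, ?_⟩
  intro p a P hp ha hP hneat g r hg hr N hN K V _ _ _ _ _ _ F hF hch hgen n
  have hq : 0 < p ^ a := pow_pos hp.pos a
  refine Pool.Agent.Q277.ZC.tl1 K V F (p ^ a) n hq hF ?_
  intro c hc
  rw [hch] at hc
  set Pq := P.map (Int.castRingHom ℚ) with hPq
  obtain ⟨L, _, _, _, hs⟩ := exists_split P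
  obtain ⟨v, hv, hpv⟩ := exists_prime_above (L := L) hp
  have hfin := rt_finite (L := L) P hP.monic
  let _ : Fintype (Rt P L) := Fintype.ofFinite _
  let i : L →+* K := (IsAlgClosed.lift : L →ₐ[ℚ] K)
  -- representatives
  set S : Finset ℚ[X] := Finset.univ.image fun x : Rt P L => minpoly ℚ (x.1 : L) with hS
  have hSr : S.card ≤ r := by
    have hP0 : Pq ≠ 0 := (hP.monic.map _).ne_zero
    have hfac : {Q : ℚ[X] | Q.Monic ∧ Irreducible Q ∧ Q ∣ Pq} =
        ((UniqueFactorizationMonoid.normalizedFactors Pq).toFinset : Set ℚ[X]) := by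
      ext Q
      rw [Finset.mem_coe, Multiset.mem_toFinset, Polynomial.mem_normalizedFactors_iff hP0]
      exact ⟨fun h => ⟨h.2.1, h.1, h.2.2⟩, fun h => ⟨h.2.1, h.1, h.2.2⟩⟩
    rw [hfac, Set.ncard_coe_finset] at hr
    rw [← hr]
    refine Finset.card_le_card ?_
    intro Q hQ
    obtain ⟨x, -, rfl⟩ := Finset.mem_image.1 hQ
    have hint : IsIntegral ℚ (x.1 : L) := Algebra.IsIntegral.isIntegral _
    rw [Multiset.mem_toFinset, Polynomial.mem_normalizedFactors_iff hP0]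
    refine ⟨minpoly.irreducible hint, minpoly.monic hint, minpoly.dvd ℚ _ ?_⟩
    have h1 := x.2
    have h5 : ∀ y : L, aeval y Pq = eval y (P.map (Int.castRingHom L)) := by
      intro y
      rw [← map_cast P (algebraMap ℚ L), eval_map, aeval_def]
    rw [h5]
    exact h1
  have hne : Nonempty (Rt P L) := by
    by_contra hemp
    rw [not_nonempty_iff] at hemp
    obtain ⟨hle, -, z, hz⟩ := hc
    have h0 : ∀ z, c z = 0 := by
      intro z
      have h2 : c z ≤ n * (P.map (Int.castRingHom K)).rootMultiplicity z := hle z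
      have h3 : ¬ (P.map (Int.castRingHom K)).IsRoot z := by
        intro h4
        obtain ⟨x, hx, -⟩ := exists_root P hP.monic hs i z h4
        obtain ⟨y, -⟩ := exists_rt P hP.monic x hx
        exact hemp.false y
      rw [rootMultiplicity_eq_zero h3, mul_zero] at h2
      omega
    exact hz (by rw [h0, h0])
  have hrep : ∀ Q : S, ∃ x : Rt P L, minpoly ℚ (x.1 : L) = Q.1 := by
    rintro ⟨Q, hQ⟩
    obtain ⟨x, -, hx⟩ := Finset.mem_image.1 hQ
    exact ⟨x, hx⟩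
  choose rep hrep using hrep
  have hf : ∀ x : Rt P L, ∃ k : Fin S.card, ∃ g : L ≃ₐ[ℚ] L,
      g • (rep (S.equivFin.symm k)).1 = x.1 := by
    intro x
    refine ⟨S.equivFin ⟨minpoly ℚ (x.1 : L), Finset.mem_image_of_mem _ (Finset.mem_univ _)⟩, ?_⟩
    rw [Equiv.symm_apply_apply]
    have h1 := hrep ⟨minpoly ℚ (x.1 : L), Finset.mem_image_of_mem _ (Finset.mem_univ _)⟩
    obtain ⟨σ, hσ⟩ := (Normal.minpoly_eq_iff_mem_orbit (F := ℚ) (E := L)).1 h1.symm
    exact ⟨σ, RingOfIntegers.ext hσ⟩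
  have hcard : Fintype.card (Rt P L) ≤ 2 * g := by
    rw [← hg, ← Nat.card_eq_fintype_card]
    exact card_rt_le P hP.monic
  have hcard1 : 1 ≤ Fintype.card (Rt P L) := Fintype.card_pos
  have hS1 : 1 ≤ S.card := by
    obtain ⟨x⟩ := hne
    exact Finset.card_pos.2 ⟨_, Finset.mem_image_of_mem _ (Finset.mem_univ x)⟩
  obtain ⟨Y, hY, hYN⟩ := num_up2 S.card r (Fintype.card (Rt P L)) g N hS1 hSr hcard1 hcard hN
  rw [← hg] at hY
  obtain ⟨c', hc'⟩ := exotic_transfer hp ha hP hneat hs hv hpv S.card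
    (fun k => rep (S.equivFin.symm k)) hf Y N n hY hYN i c hc
  refine Pool.Agent.Q277.ZC.tl2 K V F (p ^ a) N hq hF c' ?_ hgen
  rw [hch]
  exact hc'

end Pool.Agent.Q271.ZC
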