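import Mathlib
import Pool.Agent.Q271.ZC.TSysB
import Pool.Agent.Q271.ZC.TateK
import Pool.Agent.Q246.ZC.Gen

/-!
# The Tate conjecture for one power of an abelian variety over a finite field
-/

set_option autoImplicit false
set_option linter.unusedSectionVars false

namespace Pool.Agent.Q271.ZC

open NumberField Polynomial Matrix Module
open scoped Pointwise

section

variable {L : Type} [Field L] [NumberField L] [IsGalois ℚ L] {v : Ideal (𝓞 L)} {P : ℤ[X]} {p a : ℕ}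
  [Fintype (Rt P L)] [DecidableEq (Rt P L)]

theorem tate_key (hp : p.Prime) (ha : 0 < a) (hP : IsFrob p a P)
    (hs : (P.map (Int.castRingHom L)).Splits) (hv : v.IsPrime) (hpv : (p : 𝓞 L) ∈ v)
    (hvp : Prime v) (t : ℕ) (f : Fin t → Rt P L)
    (hf : ∀ x : Rt P L, ∃ i, ∃ g : L ≃ₐ[ℚ] L, g • (f i).1 = x.1) (Y : ℕ)
    (hY : Real.exp (20 * min (Real.sqrt (t * Fintype.card (Rt P L)))
      ((Fintype.card (Rt P L) : ℝ) ^ (2 / 3 : ℝ)) *
        Real.log (3 * Fintype.card (Rt P L) * (P.natDegree + 1))) ≤ Y)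
    (hne : Nonempty (Rt P L)) :
    letI : MulAction (L ≃ₐ[ℚ] L) (Rt P L) := rtAct P
    relQ (L ≃ₐ[ℚ] L) (fun (_ : Unit) (x : Rt P L) => slope v p a x) ≤
      small (L ≃ₐ[ℚ] L) (fun (_ : Unit) (x : Rt P L) => slope v p a x) Y := by
  classical
  let _ : MulAction (L ≃ₐ[ℚ] L) (Rt P L) := rtAct P
  refine bound _ t f ?_ (fun _ x => ww v x) ?_ P.natDegree (fun _ x => ?_) ?_ ?_ Y hY
  · intro x
    obtain ⟨i, g, h⟩ := hf x
    exact ⟨i, g, Subtype.ext h⟩
  · intro _ x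
    have hfin : Finite {γ : 𝓞 L // ∃ σ : L ≃ₐ[ℚ] L, σ • v = v ∧ σ • x.1 = γ} := by
      have h1 : {γ : 𝓞 L | ∃ σ : L ≃ₐ[ℚ] L, σ • v = v ∧ σ • x.1 = γ} ⊆
          Set.range fun σ : L ≃ₐ[ℚ] L => σ • x.1 := by
        rintro γ ⟨σ, -, h⟩
        exact ⟨σ, h⟩
      exact ((Set.finite_range _).subset h1).to_subtype
    constructor
    · change 0 < Nat.card _
      rw [Nat.card_pos_iff]
      exact ⟨⟨⟨x.1, 1, one_smul _ _, one_smul _ _⟩⟩, hfin⟩
    · rw [ww, orb, ← Fintype.card_subtype, ← Nat.card_eq_fintype_card]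
      refine Nat.card_le_card_of_injective (fun γ : {γ : 𝓞 L // ∃ σ : L ≃ₐ[ℚ] L, σ • v = v ∧
        σ • x.1 = γ} => (⟨⟨γ.1, ?_⟩, ?_⟩ : {y : Rt P L // ∃ g : L ≃ₐ[ℚ] L, g • x = y})) ?_
      · obtain ⟨σ, -, h2⟩ := γ.2
        rw [← h2]
        exact root_smul P σ x.1 x.2
      · obtain ⟨σ, -, h2⟩ := γ.2
        exact ⟨σ, Subtype.ext h2⟩
      · intro γ γ' h
        exact Subtype.ext (congrArg (fun u : {y : Rt P L // ∃ g : L ≃ₐ[ℚ] L, g • x = y} => u.1.1) h)
  · exact abs_slope hp ha hP hs hvp hpv x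
  · intro T hT _ x
    exact slope_hint hp ha hP hs hv hpv T hT x
  · exact Fintype.card_pos

/-- the difference of the valuations of the two roots of a pair -/
noncomputable def tt (v : Ideal (𝓞 L)) (p a : ℕ) (x : 𝓞 L) : ℤ :=
  2 * (multiplicity v (Ideal.span {x}) : ℤ) - a * multiplicity v (Ideal.span {(p : 𝓞 L)})

theorem tt_br (hp : p.Prime) (hv : Prime v) (x y : 𝓞 L) (hx : x ≠ 0) (hy : y ≠ 0)
    (hxy : x * y = (p : 𝓞 L) ^ a) : tt v p a y = - tt v p a x := by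
  have hp0 : (p : 𝓞 L) ≠ 0 := Nat.cast_ne_zero.2 hp.ne_zero
  have h1 := od_mul v hv hx hy
  rw [hxy, od_pow v hv hp0] at h1
  unfold od at h1
  unfold tt
  zify at h1
  linarith

variable (v p a) in
/-- the exponents of the Tate monomials -/
noncomputable def TLam (P : ℤ[X]) [Fintype (Rt P L)] : AddSubgroup (Rt P L → ℤ) where
  carrier := {c | (∃ m : ℤ, ∑ x, c x = 2 * m) ∧ ∀ σ : L ≃ₐ[ℚ] L, ∑ x, c x * tt v p a (σ • x.1) = 0}
  add_mem' := by
    rintro c c' ⟨⟨m, hm⟩, hc⟩ ⟨⟨m', hm'⟩, hc'⟩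
    refine ⟨⟨m + m', ?_⟩, fun σ => ?_⟩
    · simp only [Pi.add_apply, Finset.sum_add_distrib]
      rw [hm, hm']
      ring
    · simp only [Pi.add_apply, add_mul, Finset.sum_add_distrib]
      rw [hc, hc', add_zero]
  zero_mem' := ⟨⟨0, by simp⟩, fun σ => by simp⟩
  neg_mem' := by
    rintro c ⟨⟨m, hm⟩, hc⟩
    refine ⟨⟨-m, ?_⟩, fun σ => ?_⟩
    · simp only [Pi.neg_apply, Finset.sum_neg_distrib]
      rw [hm]
      ring
    · simp only [Pi.neg_apply, neg_mul, Finset.sum_neg_distrib]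
      rw [hc, neg_zero]

theorem mem_TLam (c : Rt P L → ℤ) : c ∈ TLam v p a P ↔ (∃ m : ℤ, ∑ x, c x = 2 * m) ∧
    ∀ σ : L ≃ₐ[ℚ] L, ∑ x, c x * tt v p a (σ • x.1) = 0 := Iff.rfl

theorem sum_mu (hP : P.Monic) (hs : (P.map (Int.castRingHom L)).Splits) :
    ∑ x : Rt P L, mu P x = P.natDegree := by
  classical
  have h0 : P.map (Int.castRingHom L) ≠ 0 := (hP.map _).ne_zero
  have h1 : (P.map (Int.castRingHom L)).roots.card = P.natDegree := by
    rw [← hP.natDegree_map (Int.castRingHom L)]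
    exact hs.natDegree_eq_card_roots.symm
  rw [← h1, ← Multiset.toFinset_sum_count_eq]
  refine Finset.sum_bij (fun x _ => (x.1 : L)) ?_ ?_ ?_ ?_
  · intro x _
    rw [Multiset.mem_toFinset]
    exact (mem_roots h0).2 x.2
  · intro x _ y _ h
    exact Subtype.ext (RingOfIntegers.ext h)
  · intro y hy
    rw [Multiset.mem_toFinset] at hy
    obtain ⟨x, hx⟩ := exists_rt P hP y ((mem_roots h0).1 hy)
    exact ⟨x, Finset.mem_univ _, hx⟩
  · intro x _
    exact (count_roots _).symm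

/-- real roots are at least double -/
theorem mu_two (hp : p.Prime) (hP : IsFrob p a P) (x : Rt P L) (hx : x.1 * x.1 = (p : 𝓞 L) ^ a) :
    2 ≤ mu P x := by
  have φ : L →+* ℂ := Classical.choice inferInstance
  have h1 : φ (x.1 : L) * φ (x.1 : L) = (p : ℂ) ^ a := by
    have h3 : ((x.1 * x.1 : 𝓞 L) : L) = (x.1 : L) * (x.1 : L) := rfl
    have h4 : (((p : 𝓞 L) ^ a : 𝓞 L) : L) = (p : L) ^ a := by
      rw [RingOfIntegers.coe_eq_algebraMap, map_pow, map_natCast]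
    rw [← map_mul, ← h3, hx, h4, map_pow, map_natCast]
  have h2 : ∃ t : ℝ, φ (x.1 : L) = t := by
    have h5 : φ (x.1 : L) * φ (x.1 : L) = ((Real.sqrt ((p : ℝ) ^ a) : ℝ) : ℂ) *
        ((Real.sqrt ((p : ℝ) ^ a) : ℝ) : ℂ) := by
      rw [h1, ← Complex.ofReal_mul, Real.mul_self_sqrt (by positivity)]
      push_cast
      rfl
    rcases mul_self_eq_mul_self_iff.1 h5 with h6 | h6
    · exact ⟨_, h6⟩
    · exact ⟨- Real.sqrt ((p : ℝ) ^ a), by rw [h6]; push_cast; rfl⟩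
  obtain ⟨t, ht⟩ := h2
  have h3 := hP.real t
  have h4 : (P.map (Int.castRingHom ℝ)).rootMultiplicity t = mu P x := by
    rw [mu, ← mult_map P φ, ht]
    exact (mult_map P (Complex.ofRealHom) t).symm
  rw [h4] at h3
  have h5 := mu_pos P hP.monic x
  obtain ⟨m, hm⟩ := h3
  omega

/-- Tate exponents and the group of relations -/
theorem rel_iff (hp : p.Prime) (ha : 0 < a) (hP : IsFrob p a P) (hneat : Neat P)
    (hs : (P.map (Int.castRingHom L)).Splits) (hv : v.IsPrime) (hpv : (p : 𝓞 L) ∈ v)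
    (br : Rt P L → Rt P L) (hbr : ∀ x, x.1 * (br x).1 = (p : 𝓞 L) ^ a) (c : Rt P L → ℕ) (m : ℕ)
    (hm : ∑ x, c x = 2 * m) :
    ∏ x : Rt P L, x.1 ^ c x = ((p : 𝓞 L) ^ a) ^ m ↔
      ∀ σ : L ≃ₐ[ℚ] L, ∑ x, (c x : ℤ) * tt v p a (σ • x.1) = 0 := by
  have hx0 : ∀ x : Rt P L, x.1 ≠ 0 := rt_ne_zero hp hP hs
  have kr := Pool.Agent.Q277.ZC.kr L p a v hp ha hv hpv (Rt P L) (fun x => x.1) br
    (fun x φ => hP.weil _ ((root_map P φ _).2 x.2)) hbr (fun n N hN h => neat_prod hneat hx0 n N hN h) c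
  have hsq : ∏ x : Rt P L, x.1 ^ (2 * c x) = (∏ x : Rt P L, x.1 ^ c x) ^ 2 := by
    rw [← Finset.prod_pow]
    refine Finset.prod_congr rfl fun x _ => ?_
    rw [← pow_mul, mul_comm]
  have hsq2 : ((p : 𝓞 L) ^ a) ^ (∑ x, c x) = (((p : 𝓞 L) ^ a) ^ m) ^ 2 := by
    rw [hm, ← pow_mul, ← pow_mul, ← pow_mul]
    congr 1
    ring
  change _ ↔ ∀ σ : L ≃ₐ[ℚ] L, ∑ x, (c x : ℤ) * (2 * (multiplicity v (Ideal.span {σ • x.1}) : ℤ) -
          a * multiplicity v (Ideal.span {(p : 𝓞 L)})) = 0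
  rw [← kr, hsq, hsq2]
  constructor
  · intro h
    rw [h]
  · intro h
    rcases isEmpty_or_nonempty (Rt P L) with hemp | ⟨⟨x₀⟩⟩
    · have h1 : ∑ x : Rt P L, c x = 0 := Finset.sum_eq_zero fun x _ => (hemp.false x).elim
      have h2 : m = 0 := by omega
      rw [h2, pow_zero]
      exact Finset.prod_eq_one fun x _ => (hemp.false x).elim
    · -- the quotient is in the group generated by the roots
      have hLx : ∀ x : Rt P L, (x.1 : L) ≠ 0 := fun x h1 => hx0 x (by exact_mod_cast h1)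
      let n : Rt P L → ℤ := fun x => c x - m * ((Pi.single x₀ 1 : Rt P L → ℤ) x +
        (Pi.single (br x₀) 1 : Rt P L → ℤ) x)
      have hsing : ∀ y : Rt P L, ∏ x : Rt P L, (x.1 : L) ^ ((Pi.single y 1 : Rt P L → ℤ) x) = y.1 := by
        intro y
        rw [Finset.prod_eq_single y]
        · rw [Pi.single_eq_same, zpow_one]
        · intro x _ hx
          rw [Pi.single_eq_of_ne hx, zpow_zero]
        · intro h1
          exact absurd (Finset.mem_univ _) h1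
      have hpq : (x₀.1 : L) * ((br x₀).1 : L) = (p : L) ^ a := by
        have h3 : ((x₀.1 * (br x₀).1 : 𝓞 L) : L) = (x₀.1 : L) * ((br x₀).1 : L) := rfl
        have h4 : (((p : 𝓞 L) ^ a : 𝓞 L) : L) = (p : L) ^ a := by
          rw [RingOfIntegers.coe_eq_algebraMap, map_pow, map_natCast]
        rw [← h3, hbr, h4]
      have hq0 : ((p : L) ^ a) ≠ 0 := pow_ne_zero _ (Nat.cast_ne_zero.2 hp.ne_zero)
      have hn : ∏ x : Rt P L, (x.1 : L) ^ n x = (∏ x : Rt P L, (x.1 : L) ^ c x) / ((p : L) ^ a) ^ m := by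
        have h5 : ∀ x : Rt P L, (x.1 : L) ^ n x = (x.1 : L) ^ c x /
            ((x.1 : L) ^ ((Pi.single x₀ 1 : Rt P L → ℤ) x) *
              (x.1 : L) ^ ((Pi.single (br x₀) 1 : Rt P L → ℤ) x)) ^ m := by
          intro x
          change (x.1 : L) ^ ((c x : ℤ) - m * ((Pi.single x₀ 1 : Rt P L → ℤ) x +
            (Pi.single (br x₀) 1 : Rt P L → ℤ) x)) = _
          rw [zpow_sub₀ (hLx x), zpow_natCast, mul_comm (m : ℤ), _root_.zpow_mul, zpow_natCast,
            zpow_add₀ (hLx x)]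
        rw [Finset.prod_congr rfl fun x _ => h5 x, Finset.prod_div_distrib, Finset.prod_pow,
          Finset.prod_mul_distrib, hsing, hsing, hpq]
      have hcoe1 : (((∏ x : Rt P L, x.1 ^ c x : 𝓞 L)) : L) = ∏ x : Rt P L, (x.1 : L) ^ c x := by
        rw [RingOfIntegers.coe_eq_algebraMap, map_prod]
        exact Finset.prod_congr rfl fun x _ => map_pow _ _ _
      have hcoe2 : ((((p : 𝓞 L) ^ a) ^ m : 𝓞 L) : L) = ((p : L) ^ a) ^ m := by
        rw [RingOfIntegers.coe_eq_algebraMap, map_pow, map_pow, map_natCast]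
      have h6 : (∏ x : Rt P L, (x.1 : L) ^ n x) ^ 2 = 1 := by
        rw [hn, div_pow]
        have h7 := congrArg (fun y : 𝓞 L => (y : L)) h
        have h8 : (((∏ x : Rt P L, x.1 ^ c x) ^ 2 : 𝓞 L) : L) =
            (∏ x : Rt P L, (x.1 : L) ^ c x) ^ 2 := by
          rw [← hcoe1]
          rfl
        have h9 : (((((p : 𝓞 L) ^ a) ^ m) ^ 2 : 𝓞 L) : L) = (((p : L) ^ a) ^ m) ^ 2 := by
          rw [← hcoe2]
          rfl
        rw [h8, h9] at h7
        rw [h7]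
        exact div_self (pow_ne_zero _ (pow_ne_zero _ hq0))
      have h7 := neat_prod hneat hx0 n 2 (by norm_num) h6
      rw [hn, div_eq_one_iff_eq (pow_ne_zero _ hq0)] at h7
      apply RingOfIntegers.ext
      rw [hcoe1, hcoe2, h7]

end

end Pool.Agent.Q271.ZC
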