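import Mathlib
import Pool.Agent.Q271.ZC.TateFin

/-!
# The Tate conjecture for one power of an abelian variety over a finite field: the theorem
-/

set_option autoImplicit false
set_option linter.unusedSectionVars false

namespace Pool.Agent.Q271.ZC

open NumberField Polynomial Matrix Module
open scoped Pointwise

/-- A basis of eigenvectors -/
theorem exists_eigen {K V : Type} [Field K] [IsAlgClosed K] [AddCommGroup V] [Module K V]
    [FiniteDimensional K V] (F : V →ₗ[K] V) (hF : Module.End.IsSemisimple F) :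
    ∃ (X : Type) (_ : Fintype X) (_ : DecidableEq X) (e : Basis X K V) (z : X → K),
      (∀ x, F (e x) = z x • e x) ∧
        ∀ w : K, Nat.card {x // z x = w} = F.charpoly.rootMultiplicity w := by
  classical
  have hint : DirectSum.IsInternal (fun μ : K => Module.End.eigenspace F μ) :=
    DirectSum.isInternal_submodule_of_iSupIndep_of_iSup_eq_top
      (Module.End.eigenspaces_iSupIndep F) hF.iSup_eigenspace_eq_top
  let b := hint.collectedBasis (fun μ => Module.finBasis K (Module.End.eigenspace F μ))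
  have : Fintype (Σ μ : K, Fin (finrank K (Module.End.eigenspace F μ))) :=
    FiniteDimensional.fintypeBasisIndex b
  have hb : ∀ i, F (b i) = i.1 • b i := by
    intro i
    exact Module.End.mem_eigenspace_iff.1 (hint.collectedBasis_mem _ i)
  have hch : F.charpoly = ∏ i : (Σ μ : K, Fin (finrank K (Module.End.eigenspace F μ))),
      (Polynomial.X - Polynomial.C i.1) := by
    have h1 : LinearMap.toMatrix b b F =
        Matrix.diagonal (fun i : (Σ μ : K, Fin (finrank K (Module.End.eigenspace F μ))) => i.1) := by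
      ext i j
      rw [LinearMap.toMatrix_apply, hb, map_smul, Basis.repr_self, Finsupp.smul_single,
        Finsupp.single_apply, Matrix.diagonal_apply]
      by_cases h : i = j
      · subst h
        simp
      · rw [if_neg (fun h' => h h'.symm), if_neg h]
    rw [← LinearMap.charpoly_toMatrix F b, h1, Matrix.charpoly_diagonal]
  refine ⟨Σ μ : K, Fin (finrank K (Module.End.eigenspace F μ)), inferInstance, inferInstance, b,
    fun x => x.1, hb, ?_⟩
  intro w
  have h1 : (∏ i : (Σ μ : K, Fin (finrank K (Module.End.eigenspace F μ))),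
      (Polynomial.X - Polynomial.C i.1)).roots =
      (Finset.univ : Finset (Σ μ : K, Fin (finrank K (Module.End.eigenspace F μ)))).val.map
        Sigma.fst := by
    rw [Finset.prod_eq_multiset_prod, ← Polynomial.roots_multiset_prod_X_sub_C
      ((Finset.univ : Finset (Σ μ : K, Fin (finrank K (Module.End.eigenspace F μ)))).val.map
        Sigma.fst), Multiset.map_map]
    rfl
  rw [hch, ← Polynomial.count_roots, h1, Multiset.count_map, Nat.card_eq_fintype_card,
    Fintype.card_subtype]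
  simp only [eq_comm]
  rfl

/-- numerics -/
theorem num_sys2 (t r d g N : ℕ) (ht : 1 ≤ t) (htr : t ≤ r) (hd : 1 ≤ d) (hdg : d ≤ 2 * g)
    (hN : Real.exp (250 * min (Real.sqrt (r * g)) ((g : ℝ) ^ (2 / 3 : ℝ)) * Real.log (2 * g)) ≤ N) :
    ∃ Y : ℕ, Real.exp (20 * min (Real.sqrt (t * d)) ((d : ℝ) ^ (2 / 3 : ℝ)) *
        Real.log (3 * d * ((2 * g : ℕ) + 1))) ≤ Y ∧ 2 * d * (2 * Y) ≤ N := by
  have htr' : (t : ℝ) ≤ r := by exact_mod_cast htr
  have htr1 : (1 : ℝ) ≤ t := by exact_mod_cast ht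
  have hdr : (1 : ℝ) ≤ d := by exact_mod_cast hd
  have hdgr : (d : ℝ) ≤ 2 * g := by exact_mod_cast hdg
  have hg : 1 ≤ g := by omega
  have hgr : (1 : ℝ) ≤ g := by exact_mod_cast hg
  set M := min (Real.sqrt (r * g)) ((g : ℝ) ^ (2 / 3 : ℝ)) with hM
  set l := Real.log (2 * g) with hl
  have hM1 : 1 ≤ M := by
    rw [hM, le_min_iff]
    constructor
    · rw [← Real.sqrt_one]
      exact Real.sqrt_le_sqrt (by nlinarith)
    · exact Real.one_le_rpow hgr (by norm_num)
  have hl1 : 0.69 ≤ l := by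
    have h1 : Real.log 2 ≤ l := Real.log_le_log (by norm_num) (by linarith)
    have h2 := Real.log_two_gt_d9
    linarith
  have hM2 : min (Real.sqrt (t * d)) ((d : ℝ) ^ (2 / 3 : ℝ)) ≤ 2 * M := by
    rw [hM, mul_min_of_nonneg _ _ (by norm_num : (0 : ℝ) ≤ 2)]
    refine min_le_min ?_ ?_
    · have h1 : (2 : ℝ) * Real.sqrt (r * g) = Real.sqrt (4 * (r * g)) := by
        rw [show (4 : ℝ) * (r * g) = 2 ^ 2 * (r * g) by ring,
          Real.sqrt_mul (show (0 : ℝ) ≤ 2 ^ 2 by norm_num), Real.sqrt_sq (by norm_num)]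
      rw [h1]
      apply Real.sqrt_le_sqrt
      have h2 : (t : ℝ) * d ≤ r * (2 * g) := mul_le_mul htr' hdgr (by linarith) (by linarith)
      nlinarith [mul_nonneg (by linarith : (0 : ℝ) ≤ r) (by linarith : (0 : ℝ) ≤ g)]
    · calc (d : ℝ) ^ (2 / 3 : ℝ) ≤ (2 * g) ^ (2 / 3 : ℝ) :=
            Real.rpow_le_rpow (by linarith) hdgr (by norm_num)
        _ = 2 ^ (2 / 3 : ℝ) * (g : ℝ) ^ (2 / 3 : ℝ) := Real.mul_rpow (by norm_num) (by linarith)
        _ ≤ 2 * (g : ℝ) ^ (2 / 3 : ℝ) := by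
          have h1 : (2 : ℝ) ^ (2 / 3 : ℝ) ≤ 2 := by
            calc (2 : ℝ) ^ (2 / 3 : ℝ) ≤ (2 : ℝ) ^ (1 : ℝ) :=
                  Real.rpow_le_rpow_of_exponent_le (by norm_num) (by norm_num)
              _ = 2 := Real.rpow_one 2
          gcongr
  have hl2 : Real.log (3 * d * ((2 * g : ℕ) + 1)) ≤ 5 * l := by
    rw [hl, ← Real.log_rpow (by linarith)]
    apply Real.log_le_log (by positivity)
    push_cast
    have h1 : ((2 : ℝ) * g) ^ (5 : ℝ) = (2 * g) ^ 5 := by norm_cast
    rw [h1]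
    have h2 : (1 : ℝ) ≤ (g : ℝ) ^ 3 := one_le_pow₀ hgr
    have h3 : 3 * (d : ℝ) * (2 * g + 1) ≤ 18 * g ^ 2 := by nlinarith
    have h4 : (18 : ℝ) * g ^ 2 ≤ (2 * g) ^ 5 := by
      have h5 : ((2 : ℝ) * g) ^ 5 = 32 * g ^ 2 * g ^ 3 := by ring
      rw [h5]
      nlinarith [mul_le_mul_of_nonneg_left h2 (by positivity : (0 : ℝ) ≤ 32 * g ^ 2),
        sq_nonneg (g : ℝ)]
    linarith
  have hl3 : 0 ≤ Real.log (3 * d * ((2 * g : ℕ) + 1)) := by
    apply Real.log_nonneg
    push_cast
    nlinarith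
  set E := 20 * min (Real.sqrt (t * d)) ((d : ℝ) ^ (2 / 3 : ℝ)) *
        Real.log (3 * d * ((2 * g : ℕ) + 1)) with hE
  have hE1 : E ≤ 200 * (M * l) := by
    have h1 : min (Real.sqrt (t * d)) ((d : ℝ) ^ (2 / 3 : ℝ)) *
        Real.log (3 * d * ((2 * g : ℕ) + 1)) ≤ (2 * M) * (5 * l) :=
      mul_le_mul hM2 hl2 hl3 (by linarith)
    rw [hE]
    nlinarith
  have hE0 : 0 ≤ E := by
    rw [hE]
    have h1 : 0 ≤ min (Real.sqrt (t * d)) ((d : ℝ) ^ (2 / 3 : ℝ)) :=
      le_min (Real.sqrt_nonneg _) (by positivity)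
    positivity
  refine ⟨⌈Real.exp E⌉₊, Nat.le_ceil _, ?_⟩
  have h1 : (⌈Real.exp E⌉₊ : ℝ) < Real.exp E + 1 := Nat.ceil_lt_add_one (Real.exp_pos E).le
  have h2 : 1 ≤ Real.exp E := Real.one_le_exp hE0
  have h3 : (8 : ℝ) ≤ Real.exp 3 := by
    have h4 : Real.exp 3 = Real.exp 1 * Real.exp 1 * Real.exp 1 := by
      rw [← Real.exp_add, ← Real.exp_add]
      norm_num
    have h5 := Real.exp_one_gt_d9
    rw [h4]
    nlinarith [mul_pos (Real.exp_pos 1) (Real.exp_pos 1)]
  have h3' : (2 * g : ℝ) = Real.exp l := by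
    rw [hl, Real.exp_log (by linarith)]
  have hMl : l ≤ M * l := by nlinarith
  have h4 : (3 : ℝ) + l + E ≤ 250 * M * l := by
    nlinarith [mul_le_mul hM1 hl1 (by norm_num) (by linarith)]
  have h5 : ((2 * d * (2 * ⌈Real.exp E⌉₊) : ℕ) : ℝ) ≤ N := by
    push_cast
    calc (2 : ℝ) * d * (2 * ⌈Real.exp E⌉₊) ≤ 2 * (2 * g) * (2 * (2 * Real.exp E)) := by
          gcongr
          linarith
      _ = 8 * (2 * g) * Real.exp E := by ring
      _ ≤ Real.exp 3 * (2 * g) * Real.exp E := by gcongr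
      _ = Real.exp (3 + l + E) := by rw [h3', Real.exp_add, Real.exp_add]
      _ ≤ Real.exp (250 * M * l) := Real.exp_le_exp.2 h4
      _ ≤ N := hN
  exact_mod_cast h5

theorem tate_sys : ∃ C : ℝ, 0 < C ∧ ∀ (p a : ℕ) (P : ℤ[X]), p.Prime → 0 < a → IsFrob p a P →
    Neat P → ∀ g r : ℕ, P.natDegree = 2 * g →
    {Q : ℚ[X] | Q.Monic ∧ Irreducible Q ∧ Q ∣ P.map (Int.castRingHom ℚ)}.ncard = r →
    ∀ N : ℕ, Real.exp (C * min (Real.sqrt (r * g)) ((g : ℝ) ^ (2 / 3 : ℝ)) * Real.log (2 * g)) ≤ N →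
    ∀ (K V : Type) [Field K] [CharZero K] [IsAlgClosed K] [AddCommGroup V] [Module K V]
      [FiniteDimensional K V] (F : V →ₗ[K] V), Module.End.IsSemisimple F →
      F.charpoly = P.map (Int.castRingHom K) →
      ∀ R : AddSubgroup (V →ₗ[K] V),
      (∀ b : V →ₗ[K] V, b ∘ₗ F = F ∘ₗ b ↔ b ∈ Submodule.span K (R : Set (V →ₗ[K] V))) →
      ∀ 𝒜 : TSys (R : Set (V →ₗ[K] V)),
      (∀ (m : ℕ) (f : (Fin N → V) [⋀^Fin (2 * m)]→ₗ[K] K),
        (∀ v, f (fun l => F.compLeft (Fin N) (v l)) = ((p ^ a : ℕ) : K) ^ m * f v) →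
        f ∈ 𝒜.cl N (2 * m)) →
      ∀ (n m : ℕ) (f : (Fin n → V) [⋀^Fin (2 * m)]→ₗ[K] K),
        (∀ v, f (fun l => F.compLeft (Fin n) (v l)) = ((p ^ a : ℕ) : K) ^ m * f v) →
        f ∈ 𝒜.cl n (2 * m) := by
  classical
  refine ⟨250, by norm_num, ?_⟩
  intro p a P hp ha hP hneat g r hg hr N hN K V _ _ _ _ _ _ F hF hch R hR 𝒜 hfull n m₀ f hf
  set Pq := P.map (Int.castRingHom ℚ) with hPq
  obtain ⟨L, _, _, _, hs⟩ := exists_split P
  obtain ⟨v, hv, hpv⟩ := exists_prime_above (L := L) hp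
  have hp0 : (p : 𝓞 L) ≠ 0 := Nat.cast_ne_zero.2 hp.ne_zero
  have hv0 : v ≠ ⊥ := by
    rintro rfl
    exact hp0 (Ideal.mem_bot.1 hpv)
  have hvp : Prime v := Ideal.prime_of_isPrime hv0 hv
  have hfin := rt_finite (L := L) P hP.monic
  let _ : Fintype (Rt P L) := Fintype.ofFinite _
  let i : L →+* K := (IsAlgClosed.lift : L →ₐ[ℚ] K)
  -- the eigenbasis
  obtain ⟨X, _, _, e, z, hez, hcount⟩ := exists_eigen F hF
  have htp : ∀ x : X, ∃ y : Rt P L, i (y.1 : L) = z x := by
    intro x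
    refine exists_zz hP hs i (z x) ?_
    have h1 : 0 < Nat.card {y // z y = z x} := by
      rw [Nat.card_pos_iff]
      exact ⟨⟨⟨x, rfl⟩⟩, inferInstance⟩
    rw [hcount, hch] at h1
    exact (rootMultiplicity_pos (hP.monic.map _).ne_zero).1 h1
  choose tp htp using htp
  let ev : Rt P L → K := fun y => i (y.1 : L)
  have hev : ∀ x, F (e x) = ev (tp x) • e x := by
    intro x
    rw [hez]
    congr 1
    exact (htp x).symm
  have hcard : ∀ y : Rt P L, Nat.card {x : X // tp x = y} = mu P y := by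
    intro y
    have h1 : Nat.card {x : X // tp x = y} = Nat.card {x : X // z x = i (y.1 : L)} := by
      refine Nat.card_congr (Equiv.subtypeEquivRight fun x => ?_)
      constructor
      · rintro rfl
        exact (htp x).symm
      · intro h2
        exact zz_inj i (by
          change i ((tp x).1 : L) = i (y.1 : L)
          rw [htp, h2])
    rw [h1, hcount, hch, mult_map P i]
    rfl
  choose br hbr hmu using exists_br (L := L) P hP hs
  have hx0 : ∀ x : Rt P L, x.1 ≠ 0 := rt_ne_zero hp hP hs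
  have hbrbr : ∀ x, br (br x) = x := by
    intro x
    apply Subtype.ext
    have h1 := hbr (br x)
    rw [← hbr x, mul_comm x.1] at h1
    exact mul_left_cancel₀ (hx0 (br x)) h1
  have hbrinj : Function.Bijective br :=
    ⟨fun x y h => by rw [← hbrbr x, h, hbrbr], fun x => ⟨br x, hbrbr x⟩⟩
  -- the group of relations
  let Λ := TLam v p a P
  have htt : ∀ (σ : L ≃ₐ[ℚ] L) (x : Rt P L), tt v p a (σ • (br x).1) = - tt v p a (σ • x.1) := by
    intro σ x
    refine tt_br hp hvp _ _ ?_ ?_ ?_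
    · exact (smul_ne_zero_iff_ne σ).2 (hx0 x)
    · exact (smul_ne_zero_iff_ne σ).2 (hx0 _)
    · have h1 : σ • (p : 𝓞 L) = (p : 𝓞 L) := by
        apply RingOfIntegers.ext
        rw [coe_smul]
        simp
      rw [← smul_mul', hbr, smul_pow', h1]
  have hR0 : (0 : V →ₗ[K] V) ∈ (R : Set (V →ₗ[K] V)) := R.zero_mem
  have hRadd : ∀ b ∈ (R : Set (V →ₗ[K] V)), ∀ c ∈ (R : Set (V →ₗ[K] V)),
      b + c ∈ (R : Set (V →ₗ[K] V)) := fun b hb c hc => R.add_mem hb hc
  have hRneg : ∀ b ∈ (R : Set (V →ₗ[K] V)), -b ∈ (R : Set (V →ₗ[K] V)) := fun b hb => R.neg_mem hb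
  -- integral relations give Tate monomials
  have hrel : ∀ (c : Rt P L → ℕ) (m : ℕ), ∑ x, c x = 2 * m →
      (∏ x, ev x ^ c x = ((p ^ a : ℕ) : K) ^ m ↔ (fun x => (c x : ℤ)) ∈ Λ) := by
    intro c m hm
    have h1 := rel_iff (v := v) hp ha hP hneat hs hv hpv br hbr c m hm
    have h2 : ∏ x, ev x ^ c x = ((p ^ a : ℕ) : K) ^ m ↔
        ∏ x : Rt P L, x.1 ^ c x = ((p : 𝓞 L) ^ a) ^ m := by
      rw [Nat.cast_pow, ← coe_pow_p (L := L) i, ← coe_prod_rt]
      constructor
      · intro h3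
        exact RingOfIntegers.ext (i.injective h3)
      · intro h3
        rw [h3]
    rw [h2, h1]
    change _ ↔ (∃ m : ℤ, ∑ x, (c x : ℤ) = 2 * m) ∧
      ∀ σ : L ≃ₐ[ℚ] L, ∑ x, (c x : ℤ) * tt v p a (σ • x.1) = 0
    rw [and_iff_right ⟨(m : ℤ), by exact_mod_cast hm⟩]
  have hsmall : ∀ c : Rt P L → ℕ, (fun x => (c x : ℤ)) ∈ Λ → (∀ x, c x ≤ N * mu P x) →
      c ∈ SST e tp 𝒜 := by
    intro c hc hle
    obtain ⟨m, hm⟩ := hc.1
    change ∑ x, (c x : ℤ) = 2 * m at hm
    have hm0 : 0 ≤ m := by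
      have h1 : (0 : ℤ) ≤ ∑ x, (c x : ℤ) := Finset.sum_nonneg fun x _ => Nat.cast_nonneg _
      omega
    lift m to ℕ using hm0
    have hm' : ∑ x, c x = 2 * m := by exact_mod_cast hm
    refine SST_small e tp 𝒜 hR0 hRadd hRneg F ev hev (fun b hb => (hR b).1 hb) N (p ^ a) hfull c m
      hm' ((hrel c m hm').2 hc) fun x => ?_
    rw [hcard]
    exact hle x
  have hN1 : 1 ≤ N := by
    have h2 : (0 : ℝ) < N := (Real.exp_pos _).trans_le hN
    exact_mod_cast h2
  have hmuΛ : (fun x => (mu P x : ℤ)) ∈ Λ := by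
    refine ⟨⟨g, ?_⟩, fun σ => ?_⟩
    · have h1 := sum_mu (L := L) hP.monic hs
      rw [hg] at h1
      change ∑ x, (mu P x : ℤ) = 2 * g
      exact_mod_cast h1
    · have h3 : ∑ x : Rt P L, (mu P x : ℤ) * tt v p a (σ • x.1) =
          - ∑ x : Rt P L, (mu P x : ℤ) * tt v p a (σ • x.1) := by
        rw [← Finset.sum_neg_distrib, ← Function.Bijective.sum_comp hbrinj]
        refine Finset.sum_congr rfl fun x _ => ?_
        rw [hmu, htt]
        ring
      linarith
  refine tate_expand e tp 𝒜 F ev hev (p ^ a) f hf ?_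
  intro c hcm hcp
  have hcΛ : (fun x => (c x : ℤ)) ∈ Λ := (hrel c m₀ hcm).1 hcp
  rcases isEmpty_or_nonempty (Rt P L) with hemp | hne
  · exact hsmall c hcΛ fun x => (hemp.false x).elim
  -- representatives of the orbits
  set S : Finset ℚ[X] := Finset.univ.image fun x : Rt P L => minpoly ℚ (x.1 : L) with hS
  have hSr : S.card ≤ r := by
    have hP0 : Pq ≠ 0 := (hP.monic.map _).ne_zero
    have hfac : {Q : ℚ[X] | Q.Monic ∧ Irreducible Q ∧ Q ∣ Pq} =
        ((UniqueFactorizationMonoid.normalizedFactors Pq).toFinset : Set ℚ[X]) := by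
      ext Q
      rw [Finset.mem_coe, Multiset.mem_toFinset, Polynomial.mem_normalizedFactors_iff hP0]
      exact ⟨fun h => ⟨h.2.1, h.1, h.2.2⟩, fun h => ⟨h.2.1, h.1, h.2.2⟩⟩
    rw [hfac, Set.ncard_coe_finset] at hr
    rw [← hr]
    refine Finset.card_le_card ?_
    intro Q hQ
    obtain ⟨x, -, rfl⟩ := Finset.mem_image.1 hQ
    have hint : IsIntegral ℚ (x.1 : L) := Algebra.IsIntegral.isIntegral _
    rw [Multiset.mem_toFinset, Polynomial.mem_normalizedFactors_iff hP0]
    refine ⟨minpoly.irreducible hint, minpoly.monic hint, minpoly.dvd ℚ _ ?_⟩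
    have h1 := x.2
    have h5 : ∀ y : L, aeval y Pq = eval y (P.map (Int.castRingHom L)) := by
      intro y
      rw [← map_cast P (algebraMap ℚ L), eval_map, aeval_def]
    rw [h5]
    exact h1
  have hrep : ∀ Q : S, ∃ x : Rt P L, minpoly ℚ (x.1 : L) = Q.1 := by
    rintro ⟨Q, hQ⟩
    obtain ⟨x, -, hx⟩ := Finset.mem_image.1 hQ
    exact ⟨x, hx⟩
  choose rep hrep using hrep
  have hfr : ∀ x : Rt P L, ∃ k : Fin S.card, ∃ g : L ≃ₐ[ℚ] L,
      g • (rep (S.equivFin.symm k)).1 = x.1 := by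
    intro x
    refine ⟨S.equivFin ⟨minpoly ℚ (x.1 : L), Finset.mem_image_of_mem _ (Finset.mem_univ _)⟩, ?_⟩
    rw [Equiv.symm_apply_apply]
    have h1 := hrep ⟨minpoly ℚ (x.1 : L), Finset.mem_image_of_mem _ (Finset.mem_univ _)⟩
    obtain ⟨σ, hσ⟩ := (Normal.minpoly_eq_iff_mem_orbit (F := ℚ) (E := L)).1 h1.symm
    exact ⟨σ, RingOfIntegers.ext hσ⟩
  have hcardr : Fintype.card (Rt P L) ≤ 2 * g := by
    rw [← hg, ← Nat.card_eq_fintype_card]
    exact card_rt_le P hP.monic
  have hcard1 : 1 ≤ Fintype.card (Rt P L) := Fintype.card_pos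
  have hS1 : 1 ≤ S.card := by
    obtain ⟨x⟩ := hne
    exact Finset.card_pos.2 ⟨_, Finset.mem_image_of_mem _ (Finset.mem_univ x)⟩
  obtain ⟨Y, hY, hYN⟩ := num_sys2 S.card r (Fintype.card (Rt P L)) g N hS1 hSr hcard1 hcardr hN
  rw [← hg] at hY
  have hkey := tate_key hp ha hP hs hv hpv hvp S.card (fun k => rep (S.equivFin.symm k)) hfr Y hY hne
  have hmu0 : ∀ x : Rt P L, (mu P x : ℚ) ≠ 0 := fun x => by
    have := mu_pos P hP.monic x
    positivity
  have h2 := od_pos v hvp hp0 hpv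
  have h4 : ((a : ℚ) * od v (p : 𝓞 L)) ≠ 0 := by positivity
  have hslope : ∀ (c : Rt P L → ℤ) (σ : L ≃ₐ[ℚ] L) (sx : Rt P L → Rt P L),
      (∀ x, (sx x).1 = σ • x.1) → ((∑ x : Rt P L, c x * tt v p a (σ • x.1) : ℤ) : ℚ) =
      (a * od v (p : 𝓞 L)) * ∑ x, (c x / mu P x : ℚ) * slope v p a (sx x) := by
    intro c σ sx hsx
    rw [Int.cast_sum, Finset.mul_sum]
    refine Finset.sum_congr rfl fun x _ => ?_
    have h1 : mu P (sx x) = mu P x := mu_smul σ x (sx x) (hsx x)
    unfold slope tt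
    rw [h1, hsx]
    have h2 : (multiplicity v (Ideal.span {σ • x.1}) : ℤ) = od v (σ • x.1) := rfl
    have h3 : (multiplicity v (Ideal.span {(p : 𝓞 L)}) : ℤ) = od v (p : 𝓞 L) := rfl
    rw [h2, h3]
    push_cast
    obtain ⟨h5, h6⟩ := mul_ne_zero_iff.1 h4
    have h7 := hmu0 x
    field_simp
  refine Pool.Agent.Q246.ZC.t_GEN (Rt P L) br (mu P) (2 * Y) Λ hbrbr hmu ?_ hmuΛ ?_
    (SST e tp 𝒜) ?_ (fun c hc c' hc' => SST_add e tp 𝒜 c c' hc hc') ?_ c hcΛ
  · -- stability under the involution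
    rintro c ⟨⟨m, hm⟩, hc⟩
    refine ⟨⟨m, ?_⟩, fun σ => ?_⟩
    · rw [← hm]
      exact Function.Bijective.sum_comp hbrinj _
    · have h3 : ∑ x : Rt P L, c (br x) * tt v p a (σ • x.1) =
          - ∑ x : Rt P L, c x * tt v p a (σ • x.1) := by
        rw [← Finset.sum_neg_distrib, ← Function.Bijective.sum_comp hbrinj (fun x => -(c x * _))]
        refine Finset.sum_congr rfl fun x _ => ?_
        rw [htt]
        ring
      rw [h3, hc, neg_zero]
  · -- generation by small relations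
    intro c hc
    let _ : MulAction (L ≃ₐ[ℚ] L) (Rt P L) := rtAct P
    have hn : (fun x => (c x / mu P x : ℚ)) ∈ relQ (L ≃ₐ[ℚ] L)
        (fun (_ : Unit) (x : Rt P L) => slope v p a x) := by
      intro σ _
      have h5 := hslope c σ (fun x => σ • x) fun x => rfl
      rw [hc.2 σ, Int.cast_zero] at h5
      exact (mul_eq_zero.1 h5.symm).resolve_left h4
    have hn2 := hkey hn
    -- multiplication by the multiplicities
    let T : (Rt P L → ℚ) →ₗ[ℚ] (Rt P L → ℚ) :=
      { toFun := fun n x => (mu P x : ℚ) * n x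
        map_add' := fun n n' => by
          funext x
          simp only [Pi.add_apply]
          ring
        map_smul' := fun q n => by
          funext x
          simp only [Pi.smul_apply, smul_eq_mul, RingHom.id_apply]
          ring }
    have hT : (fun x => (c x : ℚ)) = T (fun x => (c x / mu P x : ℚ)) := by
      funext x
      change (c x : ℚ) = (mu P x : ℚ) * (c x / mu P x : ℚ)
      have := hmu0 x
      field_simp
    rw [hT]
    have hle : small (L ≃ₐ[ℚ] L) (fun (_ : Unit) (x : Rt P L) => slope v p a x) Y ≤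
        (Submodule.span ℚ {u : Rt P L → ℚ | ∃ z : Rt P L → ℤ, z ∈ Λ ∧
          (∀ x, |z x| ≤ ((2 * Y : ℕ) : ℤ) * mu P x) ∧ ∀ x, u x = z x}).comap T := by
      refine Submodule.span_le.2 ?_
      rintro u ⟨hu, huz⟩
      choose w hw hw' using huz
      have h6 : (2 : ℚ) • T u ∈ Submodule.span ℚ {u : Rt P L → ℚ | ∃ z : Rt P L → ℤ, z ∈ Λ ∧
          (∀ x, |z x| ≤ ((2 * Y : ℕ) : ℤ) * mu P x) ∧ ∀ x, u x = z x} := by
        refine Submodule.subset_span ⟨fun x => 2 * (mu P x * w x), ⟨⟨∑ x, mu P x * w x, ?_⟩,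
          fun σ => ?_⟩, fun x => ?_, fun x => ?_⟩
        · rw [Finset.mul_sum]
        · have h7 := hslope (fun x => 2 * (mu P x * w x)) σ (fun x => σ • x) fun x => rfl
          have h8 : ∑ x, (((2 * (mu P x * w x) : ℤ) : ℚ) / mu P x) * slope v p a (σ • x) = 0 := by
            have h9 := hu σ ()
            have h10 : ∀ x, (((2 * (mu P x * w x) : ℤ) : ℚ) / mu P x) * slope v p a (σ • x) =
                2 * (u x * slope v p a (σ • x)) := by
              intro x
              rw [hw']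
              have := hmu0 x
              push_cast
              field_simp
            rw [Finset.sum_congr rfl fun x _ => h10 x, ← Finset.mul_sum, h9, mul_zero]
          rw [h8, mul_zero] at h7
          exact_mod_cast h7
        · rw [abs_mul, abs_mul, abs_of_nonneg (by norm_num : (0 : ℤ) ≤ 2), Nat.abs_cast]
          push_cast
          calc (2 : ℤ) * (mu P x * |w x|) ≤ 2 * (mu P x * Y) := by
                gcongr
                exact hw x
            _ = 2 * Y * mu P x := by ring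
        · change (2 : ℚ) * ((mu P x : ℚ) * u x) = ((2 * (mu P x * w x) : ℤ) : ℚ)
          rw [hw']
          push_cast
          ring
      change T u ∈ Submodule.span ℚ _
      exact (Submodule.smul_mem_iff _ (by norm_num : (2 : ℚ) ≠ 0)).1 h6
    exact hle hn2
  · -- small monomials
    intro c hc hle
    refine hsmall c hc fun x => (hle x).trans ?_
    exact Nat.mul_le_mul_right _ hYN
  · -- removal of a pair
    intro c x hcx
    apply SST_top e tp 𝒜 c
    have hge : ∀ y, (Pi.single x 1 : Rt P L → ℕ) y + (Pi.single (br x) 1 : Rt P L → ℕ) y ≤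
        mu P y := by
      intro y
      have h5 := mu_pos P hP.monic y
      by_cases h6 : y = x
      · subst h6
        by_cases h7 : br y = y
        · have h8 := mu_two hp hP y (by
            have h9 := hbr y
            rwa [h7] at h9)
          rw [h7, Pi.single_eq_same]
          omega
        · rw [Pi.single_eq_same, Pi.single_eq_of_ne (Ne.symm h7)]
          omega
      · rw [Pi.single_eq_of_ne h6]
        by_cases h7 : y = br x
        · rw [h7, Pi.single_eq_same]
          have h8 := mu_pos P hP.monic (br x)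
          omega
        · rw [Pi.single_eq_of_ne h7]
          omega
    let rr : Rt P L → ℕ := fun y => mu P y - ((Pi.single x 1 : Rt P L → ℕ) y +
      (Pi.single (br x) 1 : Rt P L → ℕ) y)
    have hrr : ∀ y, (rr y : ℤ) = mu P y - ((Pi.single x 1 : Rt P L → ℤ) y +
        (Pi.single (br x) 1 : Rt P L → ℤ) y) := by
      intro y
      have h5 := hge y
      have h6 : ∀ w : Rt P L, (((Pi.single w 1 : Rt P L → ℕ) y : ℕ) : ℤ) =
          (Pi.single w 1 : Rt P L → ℤ) y := by
        intro w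
        by_cases h7 : y = w
        · rw [h7, Pi.single_eq_same, Pi.single_eq_same, Nat.cast_one]
        · rw [Pi.single_eq_of_ne h7, Pi.single_eq_of_ne h7, Nat.cast_zero]
      rw [← h6, ← h6]
      change ((mu P y - ((Pi.single x 1 : Rt P L → ℕ) y +
        (Pi.single (br x) 1 : Rt P L → ℕ) y) : ℕ) : ℤ) = _
      rw [Nat.cast_sub h5]
      push_cast
      ring
    have hsumsingle : ∀ (w : Rt P L) (h : Rt P L → ℤ),
        ∑ y, (Pi.single w 1 : Rt P L → ℤ) y * h y = h w := by
      intro w h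
      rw [Finset.sum_eq_single w]
      · rw [Pi.single_eq_same, one_mul]
      · intro y _ hy
        rw [Pi.single_eq_of_ne hy, zero_mul]
      · intro h5
        exact absurd (Finset.mem_univ _) h5
    have hrS : rr ∈ SST e tp 𝒜 := by
      have hrΛ : (∃ m : ℤ, ∑ y, (rr y : ℤ) = 2 * m) ∧
          ∀ σ : L ≃ₐ[ℚ] L, ∑ y, (rr y : ℤ) * tt v p a (σ • y.1) = 0 := by
        refine ⟨⟨g - 1, ?_⟩, fun σ => ?_⟩
        · have h5 : ∑ y, (rr y : ℤ) = ∑ y : Rt P L, (mu P y : ℤ) - (1 + 1) := by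
            have h6 : ∀ w : Rt P L, ∑ y, (Pi.single w 1 : Rt P L → ℤ) y = 1 := by
              intro w
              have h7 := hsumsingle w (fun _ => 1)
              simpa using h7
            rw [Finset.sum_congr rfl fun y _ => hrr y, Finset.sum_sub_distrib,
              Finset.sum_add_distrib, h6, h6]
          have h6 := sum_mu (L := L) hP.monic hs
          rw [hg] at h6
          have h7 : ∑ y : Rt P L, (mu P y : ℤ) = 2 * g := by exact_mod_cast h6
          rw [h5, h7]
          ring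
        · have h5 : ∑ y, (rr y : ℤ) * tt v p a (σ • y.1) = ∑ y : Rt P L, (mu P y : ℤ) *
              tt v p a (σ • y.1) - (tt v p a (σ • x.1) + tt v p a (σ • (br x).1)) := by
            rw [← hsumsingle x (fun y => tt v p a (σ • y.1)),
              ← hsumsingle (br x) (fun y => tt v p a (σ • y.1)), ← Finset.sum_add_distrib,
              ← Finset.sum_sub_distrib]
            refine Finset.sum_congr rfl fun y _ => ?_
            rw [hrr]
            ring
          have h6 : ∑ y : Rt P L, (mu P y : ℤ) * tt v p a (σ • y.1) = 0 := hmuΛ.2 σ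
          rw [h5, h6, htt]
          ring
      refine hsmall rr hrΛ fun y => ?_
      have h5 : rr y ≤ mu P y := Nat.sub_le _ _
      calc rr y ≤ 1 * mu P y := by rwa [one_mul]
        _ ≤ N * mu P y := Nat.mul_le_mul_right _ hN1
    have h5 := SST_add e tp 𝒜 _ _ hcx hrS
    have h6 : c + Pi.single x 1 + Pi.single (br x) 1 + rr =
        c + (fun y => Nat.card {x : X // tp x = y}) := by
      funext y
      have h7 := hge y
      rw [Pi.add_apply, Pi.add_apply, Pi.add_apply, Pi.add_apply, hcard]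
      change c y + (Pi.single x 1 : Rt P L → ℕ) y + (Pi.single (br x) 1 : Rt P L → ℕ) y +
        (mu P y - ((Pi.single x 1 : Rt P L → ℕ) y + (Pi.single (br x) 1 : Rt P L → ℕ) y)) = _
      omega
    rwa [h6] at h5

end Pool.Agent.Q271.ZC
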