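import Mathlib
import Pool.Agent.Q271.ZC.TateOne

/-!
# Systems of cohomology classes: definitions
-/

set_option autoImplicit false
set_option linter.unusedSectionVars false

namespace Pool.Agent.Q271.ZC

open NumberField Module Pool.Agent.H204R3.CM Polynomial

/-- The subspaces of the space of alternating `k`-forms on `W`, that is, of the cohomology group
`H ^ k` of an abelian variety with homology `W`. -/
abbrev Cls (K W : Type) [Field K] [AddCommGroup W] [Module K W] (k : ℕ) : Type :=
  Submodule K (W [⋀^Fin k]→ₗ[K] K)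

section

variable {K W W' U : Type} [Field K] [AddCommGroup W] [Module K W] [AddCommGroup W'] [Module K W']
  [AddCommGroup U] [Module K U]

/-- closed under cup products -/
def CupClosed (c : ∀ k, Cls K W k) : Prop :=
  ∀ (k k' : ℕ) (f : W [⋀^Fin k]→ₗ[K] K) (f' : W [⋀^Fin k']→ₗ[K] K)
    (g : W [⋀^Fin (k + k')]→ₗ[K] K), f ∈ c k → f' ∈ c k' → (∀ v, g v = cup f f' v) → g ∈ c (k + k')

/-- closed under the pull-back by the homomorphism which is `h` on the homology -/
def PullClosed (c : ∀ k, Cls K W k) (c' : ∀ k, Cls K W' k) (h : W →ₗ[K] W') : Prop :=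
  ∀ k, ∀ f ∈ c' k, f.compLinearMap h ∈ c k

/-- closed under the push-forward by a projection: the homology of the source is the sum of `i W`
and `l U`, where `i W` is mapped to the homology `W` of the target by the inverse of `i`, and `l U`
is the homology of the fibre -/
def PushClosed (c : ∀ k, Cls K W k) (c' : ∀ k, Cls K W' k) (i : W → W') (l : U → W') : Prop :=
  ∀ (k M : ℕ) (b : Basis (Fin M) K U) (f : W' [⋀^Fin (k + M)]→ₗ[K] K) (g : W [⋀^Fin k]→ₗ[K] K),
    f ∈ c' (k + M) → (∀ v, g v = f (Fin.append (fun a => i (v a)) (fun j => l (b j)))) → g ∈ c k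

end

/-- Let `V` be the rational Tate module of an abelian variety `X`, with coefficients in `K`, so that
the alternating `k`-forms on `V ^ n` are the cohomology group `H ^ k (X ^ n)`, and let `R` be the
endomorphism ring of `X`. A family of `K`-subspaces `cl n k` of these cohomology groups which is closed
under cup products, pull-back by homomorphisms `X ^ n → X ^ m` (matrices over `R`) and push-forward by
the projections `X ^ (n + 1) → X ^ n` (such as: the spaces spanned by the classes of algebraic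
cycles). -/
structure TateSystem {K V : Type} [Field K] [AddCommGroup V] [Module K V]
    (R : Set (V →ₗ[K] V)) where
  /-- the classes in `H ^ k (X ^ n)` -/
  cl : ∀ n k : ℕ, Cls K (Fin n → V) k
  cup_mem : ∀ n : ℕ, CupClosed (cl n)
  pull_mem : ∀ (n m : ℕ) (h : (Fin n → V) →ₗ[K] (Fin m → V)),
    (∀ i, ∃ γ : Fin n → V →ₗ[K] V, (∀ j, γ j ∈ R) ∧ ∀ w, h w i = ∑ j, γ j (w j)) →
    PullClosed (cl n) (cl m) h
  push_mem : ∀ n : ℕ, PushClosed (cl n) (cl (n + 1)) (fun w => Fin.snoc w 0)
    (fun u : V => Fin.snoc (fun _ => 0) u)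

/-- All Tate classes on `X ^ n` belong to the system (`F` is the Frobenius endomorphism on the Tate
module, `q` the number of elements of the base field). -/
def TateSystem.All {K V : Type} [Field K] [AddCommGroup V] [Module K V] {R : Set (V →ₗ[K] V)}
    (𝒜 : TateSystem R) (F : V →ₗ[K] V) (q n : ℕ) : Prop :=
  ∀ (m : ℕ) (f : (Fin n → V) [⋀^Fin (2 * m)]→ₗ[K] K),
    (∀ v, f (fun l => F.compLeft (Fin n) (v l)) = (q : K) ^ m * f v) → f ∈ 𝒜.cl n (2 * m)

/-- the old form -/
def TateSystem.old {K V : Type} [Field K] [AddCommGroup V] [Module K V] {R : Set (V →ₗ[K] V)}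
    (𝒜 : TateSystem R) : TSys R where
  cl := 𝒜.cl
  cup_mem n := 𝒜.cup_mem n
  pull_mem := by
    intro n m k γ hγ f g hf hg
    let h : (Fin n → V) →ₗ[K] (Fin m → V) :=
      LinearMap.pi fun i => ∑ j, (γ i j).comp (LinearMap.proj j)
    have hh : ∀ (w : Fin n → V) (i : Fin m), h w i = ∑ j, γ i j (w j) := by
      intro w i
      simp only [h, LinearMap.pi_apply, LinearMap.sum_apply, LinearMap.comp_apply,
        LinearMap.proj_apply]
    have h1 := 𝒜.pull_mem n m h (fun i => ⟨γ i, hγ i, fun w => hh w i⟩) k f hf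
    have h2 : g = f.compLinearMap h := by
      ext v
      rw [hg, AlternatingMap.compLinearMap_apply]
      congr 1
      funext l i
      exact (hh (v l) i).symm
    rw [h2]
    exact h1
  push_mem n k M b f g hf hg := 𝒜.push_mem n k M b f g hf hg

/-- `V` is the rational Tate module, with coefficients in `K`, of an abelian variety over a finite field
with characteristic polynomial of Frobenius `P`, `F` is the Frobenius endomorphism of `V`, which is
semisimple, and the endomorphism ring `R` of the abelian variety spans the centralizer of `F` (theorem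
of Tate). -/
structure IsTate {K V : Type} [Field K] [AddCommGroup V] [Module K V] [FiniteDimensional K V]
    (P : ℤ[X]) (F : V →ₗ[K] V) (R : AddSubgroup (V →ₗ[K] V)) : Prop where
  semisimple : Module.End.IsSemisimple F
  charpoly : F.charpoly = P.map (Int.castRingHom K)
  commutant : ∀ b : V →ₗ[K] V, b ∘ₗ F = F ∘ₗ b ↔ b ∈ Submodule.span K (R : Set (V →ₗ[K] V))

theorem tate_one : ∃ C : ℝ, 0 < C ∧ ∀ (p a : ℕ) (P : ℤ[X]), p.Prime → 0 < a → IsFrob p a P →
    Neat P → ∀ g r : ℕ, P.natDegree = 2 * g →
    {Q : ℚ[X] | Q.Monic ∧ Irreducible Q ∧ Q ∣ P.map (Int.castRingHom ℚ)}.ncard = r →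
    ∀ N : ℕ, Real.exp (C * min (Real.sqrt (r * g)) ((g : ℝ) ^ (2 / 3 : ℝ)) * Real.log (2 * g)) ≤ N →
    ∀ (K V : Type) [Field K] [CharZero K] [IsAlgClosed K] [AddCommGroup V] [Module K V]
      [FiniteDimensional K V] (F : V →ₗ[K] V) (R : AddSubgroup (V →ₗ[K] V)), IsTate P F R →
      ∀ 𝒜 : TateSystem (R : Set (V →ₗ[K] V)), 𝒜.All F (p ^ a) N → ∀ n, 𝒜.All F (p ^ a) n := by
  obtain ⟨C, hC, h⟩ := tate_sys
  refine ⟨C, hC, ?_⟩
  intro p a P hp ha hP hneat g r hg hr N hN K V _ _ _ _ _ _ F R hF 𝒜 hfull n
  exact h p a P hp ha hP hneat g r hg hr N hN K V F hF.1 hF.2 R hF.3 𝒜.old hfull n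

end Pool.Agent.Q271.ZC
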