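import Mathlib
import Pool.Agent.Q271.ZC.TateExo
import Pool.Agent.Q271.ZC.HodgeLow
import Pool.Agent.Q178.ZC.We

/-!
# Ordinary Weil numbers of a given CM type
-/

set_option autoImplicit false
set_option linter.unusedSectionVars false

namespace Pool.Agent.Q271.ZC

open NumberField Polynomial
open scoped Pointwise

section

variable {L : Type} [Field L] [NumberField L] [IsGalois ℚ L]

/-- the element `α` generates an ideal which is a power, and has the absolute values and slopes of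
an ordinary Weil number; the slopes are given by signs on the Galois group -/
structure WD (z : L ≃ₐ[ℚ] L) (s : (L ≃ₐ[ℚ] L) → ℤ) (p a : ℕ) (v : Ideal (𝓞 L)) (α : 𝓞 L) :
    Prop where
  hz : ∀ φ : L →+* ℂ, ComplexEmbedding.IsConj φ z
  cases : ∀ g, s g = 1 ∨ s g = -1
  s_z : ∀ g, s (z * g) = -s g
  sep : ∀ g h, (∀ k, s (k * g) = s (k * h)) → g = h
  hp : p.Prime
  ha : 0 < a
  hv : v.IsPrime
  hpv : (p : 𝓞 L) ∈ v
  ideal : ∃ I : Ideal (𝓞 L), Ideal.span {α} = I ^ a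
  abs : ∀ φ : L →+* ℂ, ‖φ (α : L)‖ ^ 2 = (p : ℝ) ^ a
  tor : ∀ (n : (L ≃ₐ[ℚ] L) → ℤ) (N : ℕ), 0 < N → (∏ σ, (σ (α : L)) ^ n σ) ^ N = 1 →
    ∏ σ, (σ (α : L)) ^ n σ = 1
  od_one : ∀ σ : L ≃ₐ[ℚ] L, s σ = 1 → od v (σ • α) = a * od v (p : 𝓞 L)
  od_neg : ∀ σ : L ≃ₐ[ℚ] L, s σ = -1 → od v (σ • α) = 0

theorem conj_central {z : L ≃ₐ[ℚ] L} (hz : ∀ φ : L →+* ℂ, ComplexEmbedding.IsConj φ z)
    (τ : L ≃ₐ[ℚ] L) : z * τ = τ * z := by
  have j : L →+* ℂ := Classical.choice inferInstance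
  ext x
  apply j.injective
  exact ((hz j).eq (τ x)).trans ((hz (j.comp (τ : L →+* L))).eq x).symm

theorem conj_sq {z : L ≃ₐ[ℚ] L} (hz : ∀ φ : L →+* ℂ, ComplexEmbedding.IsConj φ z) : z * z = 1 := by
  have j : L →+* ℂ := Classical.choice inferInstance
  ext x
  apply j.injective
  change j (z (z x)) = j x
  rw [(hz j).eq, (hz j).eq]
  exact Complex.conj_conj _

theorem smul_le_self {v : Ideal (𝓞 L)} (g : L ≃ₐ[ℚ] L) (h : g • v ≤ v) : g • v = v := by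
  have h1 : ∀ k : ℕ, (g ^ k) • v ≤ v := by
    intro k
    induction k with
    | zero => rw [pow_zero, one_smul]
    | succ k ih =>
      rw [pow_succ', mul_smul]
      exact (Ideal.pointwise_smul_le_pointwise_smul_iff.2 ih).trans h
  refine le_antisymm h ?_
  have h2 := h1 (orderOf g - 1)
  have h3 : g ^ (orderOf g - 1) = g⁻¹ := by
    rw [eq_inv_iff_mul_eq_one, ← pow_succ, Nat.sub_add_cancel (orderOf_pos g), pow_orderOf_eq_one]
  rw [h3] at h2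
  have h4 := (Ideal.pointwise_smul_le_pointwise_smul_iff (a := g)).2 h2
  rwa [smul_inv_smul] at h4

theorem conj_mul {z : L ≃ₐ[ℚ] L} (hz : ∀ φ : L →+* ℂ, ComplexEmbedding.IsConj φ z) {p a : ℕ}
    {α : 𝓞 L} (habs : ∀ φ : L →+* ℂ, ‖φ (α : L)‖ ^ 2 = (p : ℝ) ^ a) (σ : L ≃ₐ[ℚ] L) :
    (σ • α) * ((z * σ) • α) = (p : 𝓞 L) ^ a := by
  have j : L →+* ℂ := Classical.choice inferInstance
  apply RingOfIntegers.ext
  apply j.injective
  have h1 : (((σ • α) * ((z * σ) • α) : 𝓞 L) : L) = σ (α : L) * z (σ (α : L)) := rfl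
  have h2 : (((p : 𝓞 L) ^ a : 𝓞 L) : L) = (p : L) ^ a := by
    rw [RingOfIntegers.coe_eq_algebraMap, map_pow, map_natCast]
  have h3 := habs (j.comp (σ : L →+* L))
  rw [h1, h2, map_mul, (hz j).eq]
  change j (σ (α : L)) * starRingEnd ℂ (j (σ (α : L))) = _
  rw [Complex.mul_conj, Complex.normSq_eq_norm_sq, map_pow, map_natCast]
  have h4 : ‖j (σ (α : L))‖ ^ 2 = (p : ℝ) ^ a := h3
  rw [h4]
  push_cast
  rfl

theorem exists_wd (hsp : S_split) (z : L ≃ₐ[ℚ] L)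
    (hz : ∀ φ : L →+* ℂ, ComplexEmbedding.IsConj φ z) (s : (L ≃ₐ[ℚ] L) → ℤ)
    (hs1 : ∀ g, s g = 1 ∨ s g = -1) (hsz : ∀ g, s (z * g) = -s g)
    (hsep : ∀ g h, (∀ k, s (k * g) = s (k * h)) → g = h) :
    ∃ (p a : ℕ) (v : Ideal (𝓞 L)) (α : 𝓞 L), WD z s p a v α := by
  classical
  obtain ⟨p, v, hp, hv, hnorm, hstab, hprod⟩ := hsp L
  have hcentral := conj_central hz
  have hz2 := conj_sq hz
  have hzi : z⁻¹ = z := inv_eq_of_mul_eq_one_left hz2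
  set S : Finset (L ≃ₐ[ℚ] L) := Finset.univ.filter fun σ => s σ⁻¹ = 1 with hS
  have hSm : ∀ σ, σ ∈ S ↔ s σ⁻¹ = 1 := by
    intro σ
    rw [hS, Finset.mem_filter]
    exact ⟨fun h => h.2, fun h => ⟨Finset.mem_univ _, h⟩⟩
  have hSz : ∀ σ, σ ∈ S ↔ z * σ ∉ S := by
    intro σ
    rw [hSm, hSm, mul_inv_rev, hzi, ← hcentral, hsz]
    rcases hs1 σ⁻¹ with h | h <;> rw [h] <;> norm_num
  obtain ⟨a, α, ha, hspan, habs, htor⟩ := Pool.Agent.Q178.ZC.we L z hz p v hp hv hprod S hSz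
  have hpv : (p : 𝓞 L) ∈ v := by
    rw [← hnorm]
    exact Ideal.absNorm_mem v
  have hp0 : (p : 𝓞 L) ≠ 0 := Nat.cast_ne_zero.2 hp.ne_zero
  have hv0 : v ≠ ⊥ := by
    rintro rfl
    exact hp0 (Ideal.mem_bot.1 hpv)
  have hvp : Prime v := Ideal.prime_of_isPrime hv0 hv
  have hα0 : α ≠ 0 := by
    intro h
    have h1 := conj_mul hz habs 1
    rw [h, smul_zero, zero_mul] at h1
    exact pow_ne_zero a hp0 h1.symm
  have hneg : ∀ σ : L ≃ₐ[ℚ] L, s σ = -1 → od v (σ • α) = 0 := by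
    intro σ hσ
    unfold od
    rw [multiplicity_eq_zero, ← Pool.Agent.Q277.ZC.smul_span, hspan]
    intro h
    have h1 : σ • ∏ τ ∈ S, (τ • v) ^ a = ∏ τ ∈ S, ((σ * τ) • v) ^ a := by
      rw [Finset.smul_prod']
      refine Finset.prod_congr rfl fun τ _ => ?_
      rw [smul_pow', mul_smul]
    rw [h1] at h
    obtain ⟨τ, hτ, h2⟩ := (Prime.dvd_finsetProd_iff hvp _).1 h
    have h3 := hvp.dvd_of_dvd_pow h2
    have h4 := smul_le_self (σ * τ) (Ideal.dvd_iff_le.1 h3)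
    have h5 := hstab _ h4
    have h6 : τ = σ⁻¹ := eq_inv_of_mul_eq_one_right h5
    rw [hSm, h6, inv_inv, hσ] at hτ
    norm_num at hτ
  refine ⟨p, a, v, α, hz, hs1, hsz, hsep, hp, ha, hv, hpv, ⟨∏ σ ∈ S, σ • v, ?_⟩, habs, htor, ?_, hneg⟩
  · rw [hspan, Finset.prod_pow]
  · intro σ hσ
    have h1 := hneg (z * σ) (by rw [hsz, hσ])
    have h2 := od_mul v hvp ((smul_ne_zero_iff_ne σ).2 hα0) ((smul_ne_zero_iff_ne (z * σ)).2 hα0)
    rw [conj_mul hz habs, od_pow v hvp hp0, h1, add_zero] at h2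
    exact h2.symm

end

end Pool.Agent.Q271.ZC
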