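import Mathlib
import Pool.Agent.Q271.ZC.Wd

/-!
# The characteristic polynomial of Frobenius given by an ordinary Weil number
-/

set_option autoImplicit false
set_option linter.unusedSectionVars false

namespace Pool.Agent.Q271.ZC

open NumberField Polynomial
open scoped Pointwise

section

variable {L : Type} [Field L] [NumberField L] [IsGalois ℚ L] {z : L ≃ₐ[ℚ] L}
  {s : (L ≃ₐ[ℚ] L) → ℤ} {p a : ℕ} {v : Ideal (𝓞 L)} {α : 𝓞 L} (w : WD z s p a v α)

include w

theorem WD.prime : Prime v := by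
  have hp0 : (p : 𝓞 L) ≠ 0 := Nat.cast_ne_zero.2 w.hp.ne_zero
  refine Ideal.prime_of_isPrime ?_ w.hv
  rintro rfl
  exact hp0 (Ideal.mem_bot.1 w.hpv)

theorem WD.od_pos : 0 < od v (p : 𝓞 L) :=
  Pool.Agent.Q271.ZC.od_pos v w.prime (Nat.cast_ne_zero.2 w.hp.ne_zero) w.hpv

theorem WD.s_eq {σ τ : L ≃ₐ[ℚ] L} (h : σ • α = τ • α) : s σ = s τ := by
  have h1 := w.od_pos
  have h2 := w.ha
  have h3 : 0 < a * od v (p : 𝓞 L) := Nat.mul_pos h2 h1
  rcases w.cases σ with hσ | hσ <;> rcases w.cases τ with hτ | hτ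
  · rw [hσ, hτ]
  · exfalso
    have h4 := w.od_one σ hσ
    rw [h, w.od_neg τ hτ] at h4
    omega
  · exfalso
    have h4 := w.od_neg σ hσ
    rw [h, w.od_one τ hτ] at h4
    omega
  · rw [hσ, hτ]

theorem WD.inj : Function.Injective fun σ : L ≃ₐ[ℚ] L => σ • α := by
  intro σ τ h
  apply w.sep
  intro k
  apply w.s_eq
  rw [mul_smul, mul_smul]
  exact congrArg (fun x => k • x) h

theorem WD.z_ne (σ : L ≃ₐ[ℚ] L) : z * σ ≠ σ := by
  intro h
  have h1 := w.s_z σ
  rw [h] at h1
  rcases w.cases σ with h2 | h2 <;> rw [h2] at h1 <;> norm_num at h1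

omit w

/-- the polynomial -/
noncomputable def PP (α : 𝓞 L) : ℤ[X] := minpoly ℤ (α : L)

theorem PP_monic (α : 𝓞 L) : (PP α).Monic := minpoly.monic α.isIntegral_coe

theorem PP_map (α : 𝓞 L) : (PP α).map (Int.castRingHom ℚ) = minpoly ℚ (α : L) :=
  (minpoly.isIntegrallyClosed_eq_field_fractions' ℚ α.isIntegral_coe).symm

theorem PP_mapL (α : 𝓞 L) :
    (PP α).map (Int.castRingHom L) = (minpoly ℚ (α : L)).map (algebraMap ℚ L) := by
  rw [← PP_map, map_cast]

theorem PP_splits (α : 𝓞 L) : ((PP α).map (Int.castRingHom L)).Splits := by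
  rw [PP_mapL]
  exact Normal.splits inferInstance (α : L)

theorem PP_root (α : 𝓞 L) (x : L) :
    ((PP α).map (Int.castRingHom L)).IsRoot x ↔ ∃ σ : L ≃ₐ[ℚ] L, σ (α : L) = x := by
  have hint : IsIntegral ℚ (α : L) := Algebra.IsIntegral.isIntegral _
  rw [PP_mapL, IsRoot.def, eval_map]
  constructor
  · intro h
    have h1 : minpoly ℚ (α : L) = minpoly ℚ x :=
      minpoly.eq_of_irreducible_of_monic (minpoly.irreducible hint) h (minpoly.monic hint)
    obtain ⟨σ, hσ⟩ := (Normal.minpoly_eq_iff_mem_orbit (F := ℚ) (E := L)).1 h1.symm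
    exact ⟨σ, hσ⟩
  · rintro ⟨σ, rfl⟩
    have h1 := minpoly.aeval ℚ (α : L)
    have h2 : aeval (σ (α : L)) (minpoly ℚ (α : L)) = σ (aeval (α : L) (minpoly ℚ (α : L))) :=
      aeval_algHom_apply (σ : L →ₐ[ℚ] L) _ _
    rw [h1, map_zero] at h2
    exact h2

theorem PP_sep (α : 𝓞 L) (K : Type) [Field K] [CharZero K] :
    ((PP α).map (Int.castRingHom K)).Separable := by
  have hint : IsIntegral ℚ (α : L) := Algebra.IsIntegral.isIntegral _
  rw [← map_cast (PP α) (algebraMap ℚ K), PP_map]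
  exact (minpoly.irreducible hint).separable.map

theorem PP_mult (α : 𝓞 L) (K : Type) [Field K] [CharZero K] (x : K) :
    ((PP α).map (Int.castRingHom K)).rootMultiplicity x ≤ 1 :=
  rootMultiplicity_le_one_of_separable (PP_sep α K) x

theorem PP_irr (α : 𝓞 L) : Irreducible (PP α) :=
  (minpoly.prime_of_isIntegrallyClosed α.isIntegral_coe).irreducible

include w

theorem WD.natDegree : (PP α).natDegree = Module.finrank ℚ L := by
  classical
  have hint : IsIntegral ℚ (α : L) := Algebra.IsIntegral.isIntegral _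
  have h1 : (PP α).natDegree = (minpoly ℚ (α : L)).natDegree := by
    rw [← PP_map, (PP_monic α).natDegree_map]
  have h2 : Fintype.card ((minpoly ℚ (α : L)).rootSet L) = (minpoly ℚ (α : L)).natDegree :=
    card_rootSet_eq_natDegree (minpoly.irreducible hint).separable
      (Normal.splits inferInstance (α : L))
  rw [h1, ← h2, ← IsGalois.card_aut_eq_finrank ℚ L, ← Nat.card_eq_fintype_card]
  have hroot : ∀ x : L, x ∈ (minpoly ℚ (α : L)).rootSet L ↔ ∃ σ : L ≃ₐ[ℚ] L, σ (α : L) = x := by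
    intro x
    rw [← PP_root, PP_mapL, mem_rootSet, IsRoot.def, eval_map]
    exact ⟨fun h => h.2, fun h => ⟨minpoly.ne_zero hint, h⟩⟩
  symm
  refine Nat.card_congr (Equiv.ofBijective (fun σ : L ≃ₐ[ℚ] L =>
    (⟨σ (α : L), (hroot _).2 ⟨σ, rfl⟩⟩ : (minpoly ℚ (α : L)).rootSet L)) ⟨?_, ?_⟩)
  · intro σ τ h
    simp only [Subtype.mk.injEq] at h
    exact w.inj (RingOfIntegers.ext h)
  · rintro ⟨x, hx⟩
    obtain ⟨σ, hσ⟩ := (hroot x).1 hx
    exact ⟨σ, Subtype.ext hσ⟩

theorem WD.rootC (φ : L →+* ℂ) (y : ℂ) (hy : ((PP α).map (Int.castRingHom ℂ)).IsRoot y) :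
    ∃ σ : L ≃ₐ[ℚ] L, φ (σ (α : L)) = y := by
  obtain ⟨x, hx, rfl⟩ := exists_root (PP α) (PP_monic α) (PP_splits α) φ y hy
  obtain ⟨σ, rfl⟩ := (PP_root α x).1 hx
  exact ⟨σ, rfl⟩

/-- the local condition -/
theorem WD.loc (K : Type) [Field K] [NumberField K] (y : 𝓞 K)
    (had : Algebra.adjoin ℚ {(y : K)} = ⊤) (u : Ideal (𝓞 K)) (f : ℕ) (hu : u.IsPrime)
    (hnu : Ideal.absNorm u = p ^ f) :
    a ∣ ((PP α).map (Int.castRingHom K)).rootMultiplicity (y : K) * f *
      multiplicity u (Ideal.span {y}) := by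
  by_cases hy : ((PP α).map (Int.castRingHom K)).IsRoot (y : K)
  · have hint : IsIntegral ℚ (α : L) := Algebra.IsIntegral.isIntegral _
    have hyint : IsIntegral ℚ (y : K) := Algebra.IsIntegral.isIntegral _
    have h1 : minpoly ℚ (α : L) = minpoly ℚ (y : K) := by
      refine minpoly.eq_of_irreducible_of_monic (minpoly.irreducible hint) ?_ (minpoly.monic hint)
      rw [← map_cast (PP α) (algebraMap ℚ K), PP_map, IsRoot.def, eval_map] at hy
      exact hy
    let pb := PowerBasis.ofAdjoinEqTop hyint had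
    have hgen : pb.gen = (y : K) := rfl
    let i : K →ₐ[ℚ] L := pb.lift (α : L) (by rw [hgen, ← h1]; exact minpoly.aeval ℚ _)
    have hiy : i (y : K) = (α : L) := by
      exact pb.lift_gen (α : L) (by rw [hgen, ← h1]; exact minpoly.aeval ℚ _)
    have hrank : Module.finrank ℚ K = Module.finrank ℚ L := by
      rw [pb.finrank, ← w.natDegree, ← (PP_monic α).natDegree_map (Int.castRingHom ℚ), PP_map, h1]
      rfl
    have hbij : Function.Bijective i := by
      refine ⟨i.injective, ?_⟩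
      have h3 := LinearMap.injective_iff_surjective_of_finrank_eq_finrank (f := i.toLinearMap) hrank
      exact h3.1 i.injective
    let e : K ≃+* L := RingEquiv.ofBijective (i : K →+* L) hbij
    let ee := RingOfIntegers.mapRingEquiv e
    have hey : ee y = α := RingOfIntegers.ext hiy
    obtain ⟨I, hI⟩ := w.ideal
    have hspan : Ideal.span {y} = (I.map ee.symm) ^ a := by
      rw [← Ideal.map_pow, ← hI, Ideal.map_span, Set.image_singleton]
      congr 2
      change y = ee.symm α
      rw [← hey, ee.symm_apply_apply]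
    have hu0 : u ≠ ⊥ := by
      rintro rfl
      rw [Ideal.absNorm_bot] at hnu
      exact pow_ne_zero f w.hp.ne_zero hnu.symm
    have hup : Prime u := Ideal.prime_of_isPrime hu0 hu
    have hI0 : I.map ee.symm ≠ 0 := by
      intro h
      have hy0 : y ≠ 0 := by
        intro h2
        rw [h2, map_zero] at hey
        have h3 := conj_mul w.hz w.abs 1
        rw [← hey, smul_zero, zero_mul] at h3
        exact pow_ne_zero a (Nat.cast_ne_zero.2 w.hp.ne_zero : (p : 𝓞 L) ≠ 0) h3.symm
      rw [h, zero_pow w.ha.ne', Ideal.zero_eq_bot, Ideal.span_singleton_eq_bot] at hspan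
      exact hy0 hspan
    have hfm : FiniteMultiplicity u (I.map ee.symm) := FiniteMultiplicity.of_not_isUnit hup.not_isUnit hI0
    rw [hspan, hfm.multiplicity_pow hup]
    exact (dvd_mul_right a _).mul_left _
  · rw [rootMultiplicity_eq_zero hy, zero_mul, zero_mul]
    exact dvd_zero _

theorem WD.isFrob : IsFrob p a (PP α) where
  monic := PP_monic α
  weil := by
    intro y hy
    have j : L →+* ℂ := Classical.choice inferInstance
    obtain ⟨σ, rfl⟩ := w.rootC j y hy
    exact w.abs (j.comp (σ : L →+* L))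
  real := by
    intro x
    have j : L →+* ℂ := Classical.choice inferInstance
    rw [rootMultiplicity_eq_zero]
    · exact ⟨0, rfl⟩
    · intro hx
      have h1 : ((PP α).map (Int.castRingHom ℂ)).IsRoot (Complex.ofRealHom x) :=
        (root_map (PP α) Complex.ofRealHom x).2 hx
      obtain ⟨σ, hσ⟩ := w.rootC j _ h1
      have h2 : j ((z * σ) (α : L)) = j (σ (α : L)) := by
        have h3 : j ((z * σ) (α : L)) = starRingEnd ℂ (j (σ (α : L))) := (w.hz j).eq _
        rw [h3, hσ]
        exact Complex.conj_ofReal x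
      exact w.z_ne σ (w.inj (RingOfIntegers.ext (j.injective h2)))
  loc := fun K _ _ y had u f hu _ hnu => w.loc K y had u f hu hnu

theorem WD.neat : Neat (PP α) := by
  classical
  have j : L →+* ℂ := Classical.choice inferInstance
  have hα0 : ∀ σ : L ≃ₐ[ℚ] L, σ (α : L) ≠ 0 := by
    intro σ h
    have h1 : (α : L) = 0 := (map_eq_zero_iff σ σ.injective).1 h
    have h2 := w.abs j
    rw [h1, map_zero, norm_zero] at h2
    have h3 : (0 : ℝ) < (p : ℝ) ^ a := pow_pos (Nat.cast_pos.2 w.hp.pos) a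
    rw [← h2] at h3
    norm_num at h3
  intro u hu k hk huk
  have key : ∃ n : (L ≃ₐ[ℚ] L) → ℤ, (u : ℂ) = j (∏ σ : L ≃ₐ[ℚ] L, (σ (α : L)) ^ n σ) := by
    clear huk
    induction hu using Subgroup.closure_induction with
    | mem x hx =>
      obtain ⟨σ, hσ⟩ := w.rootC j _ hx
      refine ⟨fun τ => if τ = σ then 1 else 0, ?_⟩
      rw [← hσ]
      congr 1
      rw [Finset.prod_eq_single σ]
      · simp
      · intro τ _ hτ
        simp [hτ]
      · intro h
        exact absurd (Finset.mem_univ _) h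
    | one =>
      refine ⟨fun _ => 0, ?_⟩
      simp
    | mul x y _ _ hx hy =>
      obtain ⟨n, hn⟩ := hx
      obtain ⟨m, hm⟩ := hy
      refine ⟨fun σ => n σ + m σ, ?_⟩
      rw [Units.val_mul, hn, hm, ← map_mul, ← Finset.prod_mul_distrib]
      congr 1
      exact Finset.prod_congr rfl fun σ _ => (zpow_add₀ (hα0 σ) _ _).symm
    | inv x _ hx =>
      obtain ⟨n, hn⟩ := hx
      refine ⟨fun σ => - n σ, ?_⟩
      rw [Units.val_inv_eq_inv_val, hn, ← map_inv₀, ← Finset.prod_inv_distrib]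
      congr 1
      exact Finset.prod_congr rfl fun σ _ => (zpow_neg _ _).symm
  obtain ⟨n, hn⟩ := key
  apply Units.ext
  rw [hn, w.tor n k hk, map_one, Units.val_one]
  apply j.injective
  rw [map_pow, ← hn, ← Units.val_pow_eq_pow_val, huk, Units.val_one, map_one]

end

end Pool.Agent.Q271.ZC
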