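import Mathlib
import Pool.Agent.Q271.ZC.WdB
import Pool.Agent.Q271.ZC.TateRel

/-!
# Tate classes on the powers of the abelian variety given by an ordinary Weil number
-/

set_option autoImplicit false
set_option linter.unusedSectionVars false

namespace Pool.Agent.Q271.ZC

open NumberField Polynomial
open scoped Pointwise

section

variable {L : Type} [Field L] [NumberField L] [IsGalois ℚ L] {z : L ≃ₐ[ℚ] L}
  {s : (L ≃ₐ[ℚ] L) → ℤ} {p a : ℕ} {v : Ideal (𝓞 L)} {α : 𝓞 L} (w : WD z s p a v α)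

/-- the conjugates of `α` as roots of its minimal polynomial -/
def eRt (α : 𝓞 L) (σ : L ≃ₐ[ℚ] L) : Rt (PP α) L := ⟨σ • α, (PP_root α _).2 ⟨σ, rfl⟩⟩

include w

theorem WD.eRt_bij : Function.Bijective (eRt α) := by
  constructor
  · intro σ τ h
    exact w.inj (congrArg Subtype.val h)
  · rintro ⟨x, hx⟩
    obtain ⟨σ, hσ⟩ := (PP_root α _).1 hx
    exact ⟨σ, Subtype.ext (RingOfIntegers.ext hσ)⟩

/-- multiplicative relations in terms of signs -/
theorem WD.rel [Fintype (Rt (PP α) L)] (c : Rt (PP α) L → ℕ) :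
    ∏ x : Rt (PP α) L, x.1 ^ (2 * c x) = ((p : 𝓞 L) ^ a) ^ (∑ x, c x) ↔
      ∀ h : L ≃ₐ[ℚ] L, ∑ g : L ≃ₐ[ℚ] L, (c (eRt α g) : ℤ) * s (h * g) = 0 := by
  classical
  choose br hbr hmu using exists_br (L := L) (PP α) w.isFrob (PP_splits α)
  have hx0 : ∀ x : Rt (PP α) L, x.1 ≠ 0 := rt_ne_zero w.hp w.isFrob (PP_splits α)
  rw [Pool.Agent.Q277.ZC.kr L p a v w.hp w.ha w.hv w.hpv (Rt (PP α) L) (fun x => x.1) br
    (fun x φ => w.isFrob.weil _ ((root_map (PP α) φ _).2 x.2)) hbr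
    (fun n N hN h => neat_prod w.neat hx0 n N hN h) c]
  refine forall_congr' fun h => ?_
  have h1 : ∑ x : Rt (PP α) L, (c x : ℤ) * (2 * (multiplicity v (Ideal.span {h • x.1}) : ℤ) -
      a * multiplicity v (Ideal.span {(p : 𝓞 L)})) =
      (a * od v (p : 𝓞 L) : ℤ) * ∑ g : L ≃ₐ[ℚ] L, (c (eRt α g) : ℤ) * s (h * g) := by
    rw [← Function.Bijective.sum_comp w.eRt_bij, Finset.mul_sum]
    refine Finset.sum_congr rfl fun g _ => ?_
    have h2 : h • (eRt α g).1 = (h * g) • α := (mul_smul h g α).symm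
    have h3 : multiplicity v (Ideal.span {(h * g) • α}) = od v ((h * g) • α) := rfl
    have h4 : multiplicity v (Ideal.span {(p : 𝓞 L)}) = od v (p : 𝓞 L) := rfl
    rw [h2, h3, h4]
    rcases w.cases (h * g) with h5 | h5
    · rw [w.od_one _ h5, h5]
      push_cast
      ring
    · rw [w.od_neg _ h5, h5]
      push_cast
      ring
  rw [h1]
  have h6 : (a * od v (p : 𝓞 L) : ℤ) ≠ 0 := by
    have := w.od_pos
    have := w.ha
    positivity
  exact ⟨fun h7 => (mul_eq_zero.1 h7).resolve_left h6, fun h7 => by rw [h7, mul_zero]⟩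

theorem WD.mu_eq (x : Rt (PP α) L) : mu (PP α) x = 1 :=
  le_antisymm (PP_mult α L _) (mu_pos (PP α) (PP_monic α) x)

theorem WD.exists_br' : ∃ br : Rt (PP α) L → Rt (PP α) L,
    (∀ x, x.1 * (br x).1 = (p : 𝓞 L) ^ a) ∧ ∀ g, br (eRt α g) = eRt α (z * g) := by
  let ee := Equiv.ofBijective _ w.eRt_bij
  have hee : ∀ g, ee.symm (eRt α g) = g := fun g => ee.symm_apply_apply g
  refine ⟨fun x => eRt α (z * ee.symm x), fun x => ?_, fun g => by simp only [hee]⟩
  obtain ⟨g, rfl⟩ := w.eRt_bij.2 x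
  simp only [hee]
  exact conj_mul w.hz w.abs g

theorem WD.gen (B : ℕ)
    (hsm : ∀ n : (L ≃ₐ[ℚ] L) → ℤ, (∀ h, ∑ g, n g * s (h * g) = 0) → ∀ Y : ℕ, (∀ g, |n g| ≤ Y) →
      Y < B → ∀ g, n (z * g) = n g) (n : ℕ) (hn : n < B)
    (K V : Type) [Field K] [CharZero K] [IsAlgClosed K] [AddCommGroup V] [Module K V]
    [FiniteDimensional K V] (F : V →ₗ[K] V) (hF : Module.End.IsSemisimple F)
    (hch : F.charpoly = (PP α).map (Int.castRingHom K)) :
    TateGenerated (F.compLeft (Fin n)) (p ^ a) := by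
  classical
  have hfin := rt_finite (L := L) (PP α) (PP_monic α)
  let _ : Fintype (Rt (PP α) L) := Fintype.ofFinite _
  let i : L →+* K := (IsAlgClosed.lift : L →ₐ[ℚ] K)
  refine Pool.Agent.Q277.ZC.tl1 K V F (p ^ a) n (pow_pos w.hp.pos a) hF ?_
  intro c hc
  rw [hch] at hc
  obtain ⟨br, hbr, hbre⟩ := w.exists_br'
  obtain ⟨h1, h2, x, hx⟩ := exotic_down w.hp w.isFrob (PP_splits α) br hbr n i c hc
  obtain ⟨g, rfl⟩ := w.eRt_bij.2 x
  apply hx
  have h3 := (w.rel (fun x => c (i (x.1 : L)))).1 h1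
  have h4 := hsm (fun g => (c (i ((eRt α g).1 : L)) : ℤ)) h3 n (fun g => by
    rw [Nat.abs_cast]
    have h5 := h2 (eRt α g)
    rw [w.mu_eq, mul_one] at h5
    exact_mod_cast h5) hn g
  rw [hbre]
  exact_mod_cast h4

theorem WD.not_gen (n₀ : (L ≃ₐ[ℚ] L) → ℤ) (hn₀ : ∀ h, ∑ g, n₀ g * s (h * g) = 0)
    (hne : ∃ g, n₀ (z * g) ≠ n₀ g) :
    ∃ n : ℕ, ∀ (K V : Type) [Field K] [CharZero K] [IsAlgClosed K] [AddCommGroup V] [Module K V]
    [FiniteDimensional K V] (F : V →ₗ[K] V), Module.End.IsSemisimple F →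
    F.charpoly = (PP α).map (Int.castRingHom K) →
    ¬ TateGenerated (F.compLeft (Fin n)) (p ^ a) := by
  classical
  have hfin := rt_finite (L := L) (PP α) (PP_monic α)
  let _ : Fintype (Rt (PP α) L) := Fintype.ofFinite _
  obtain ⟨M, hM⟩ : ∃ M : ℕ, ∀ g, |n₀ g| ≤ M := by
    refine ⟨∑ g, (n₀ g).natAbs, fun g => ?_⟩
    rw [Int.abs_eq_natAbs]
    exact_mod_cast Finset.single_le_sum (f := fun g => (n₀ g).natAbs)
      (fun _ _ => Nat.zero_le _) (Finset.mem_univ g)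
  have hpos : ∀ g, 0 ≤ n₀ g + M := fun g => by
    have := (abs_le.1 (hM g)).1
    linarith
  have hcoe : ∀ g, (((n₀ g + M).toNat : ℕ) : ℤ) = n₀ g + M := fun g => Int.toNat_of_nonneg (hpos g)
  let ee := Equiv.ofBijective _ w.eRt_bij
  have hee : ∀ g, ee.symm (eRt α g) = g := fun g => ee.symm_apply_apply g
  obtain ⟨br, hbr, hbre⟩ := w.exists_br'
  refine ⟨4 * M, ?_⟩
  intro K V _ _ _ _ _ _ F hF hch
  let i : L →+* K := (IsAlgClosed.lift : L →ₐ[ℚ] K)
  obtain ⟨c', hc'⟩ := exotic_up w.hp br hbr (4 * M) i (fun x => (n₀ (ee.symm x) + M).toNat) (by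
      rw [w.rel]
      intro h
      have h1 : ∀ g : L ≃ₐ[ℚ] L, (((n₀ (ee.symm (eRt α g)) + M).toNat : ℕ) : ℤ) * s (h * g) =
          n₀ g * s (h * g) + M * s (h * g) := by
        intro g
        rw [hee, hcoe, add_mul]
      rw [Finset.sum_congr rfl fun g _ => h1 g, Finset.sum_add_distrib, hn₀ h, zero_add,
        ← Finset.mul_sum]
      have h2 : ∑ g : L ≃ₐ[ℚ] L, s (h * g) = 0 := by
        have h3 : ∑ g : L ≃ₐ[ℚ] L, s (h * g) = ∑ g : L ≃ₐ[ℚ] L, s (z * (h * g)) := by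
          rw [← Equiv.sum_comp (Equiv.mulLeft z) (fun g => s (h * g))]
          refine Finset.sum_congr rfl fun g _ => ?_
          rw [Equiv.coe_mulLeft, ← mul_assoc, ← mul_assoc, conj_central w.hz h]
        rw [Finset.sum_congr rfl fun g _ => w.s_z (h * g), Finset.sum_neg_distrib] at h3
        linarith
      rw [h2, mul_zero]) (by
      intro x
      rw [w.mu_eq, mul_one]
      have h4 := hcoe (ee.symm x)
      have h5 := (abs_le.1 (hM (ee.symm x))).2
      omega) (by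
      obtain ⟨g, hg⟩ := hne
      refine ⟨eRt α g, ?_⟩
      rw [hbre, hee, hee]
      intro h1
      apply hg
      have h2 : (((n₀ (z * g) + M).toNat : ℕ) : ℤ) = (((n₀ g + M).toNat : ℕ) : ℤ) := by
        exact_mod_cast h1
      rw [hcoe, hcoe] at h2
      linarith)
  refine Pool.Agent.Q277.ZC.tl2 K V F (p ^ a) (4 * M) (pow_pos w.hp.pos a) hF c' ?_
  rw [hch]
  exact hc'

end

end Pool.Agent.Q271.ZC
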