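import Mathlib
import Pool.Agent.Q271.ZC.WdC
import Pool.Agent.Q271.ZC.TateK
import Pool.Agent.Q271.ZC.NumLow
import Pool.Agent.Q177.ZC.SP

/-!
# The lower bound for abelian varieties over finite fields
-/

set_option autoImplicit false
set_option linter.unusedSectionVars false

namespace Pool.Agent.Q271.ZC

open NumberField Polynomial
open scoped Pointwise

/-- a coefficient of a polynomial which is prime to `p` -/
theorem coeff_ord {R : Type} [CommRing R] [IsDomain R] (v : Ideal R) (p : ℕ) (hv : v.IsPrime)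
    (hpv : (p : R) ∈ v) {G : Type} [Fintype G] (α : G → R) (P : ℤ[X])
    (hP : P.map (Int.castRingHom R) = ∏ g, (X - C (α g))) (k : ℕ)
    (hk : Nat.card {g // α g ∈ v} = k) : ¬ (p : ℤ) ∣ P.coeff k := by
  classical
  intro hdvd
  have hdom : IsDomain (R ⧸ v) := Ideal.Quotient.isDomain v
  let π := Ideal.Quotient.mk v
  have h1 : (P.map (Int.castRingHom R)).map π = ∏ g, (X - C (π (α g))) := by
    rw [hP, Polynomial.map_prod]
    exact Finset.prod_congr rfl fun g _ => by rw [Polynomial.map_sub, map_X, map_C]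
  have h2 : (P.map (Int.castRingHom R)).map π =
      X ^ k * ∏ g ∈ Finset.univ.filter (fun g => α g ∉ v), (X - C (π (α g))) := by
    rw [h1, ← Finset.prod_filter_mul_prod_filter_not Finset.univ (fun g => α g ∈ v)]
    congr 1
    rw [← hk, Nat.card_eq_fintype_card, Fintype.card_subtype, ← Finset.prod_const]
    refine Finset.prod_congr rfl fun g hg => ?_
    rw [Ideal.Quotient.eq_zero_iff_mem.2 (Finset.mem_filter.1 hg).2, C_0, sub_zero]
  have h3 : ((P.map (Int.castRingHom R)).map π).coeff k = 0 := by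
    rw [coeff_map, coeff_map]
    obtain ⟨c, hc⟩ := hdvd
    rw [hc]
    change π ((((p : ℤ) * c : ℤ)) : R) = 0
    rw [Int.cast_mul, Int.cast_natCast, map_mul, Ideal.Quotient.eq_zero_iff_mem.2 hpv, zero_mul]
  rw [h2, coeff_X_pow_mul', if_pos le_rfl, Nat.sub_self, coeff_zero_eq_eval_zero, eval_prod] at h3
  obtain ⟨g, hg, h4⟩ := Finset.prod_eq_zero_iff.1 h3
  rw [eval_sub, eval_X, eval_C, zero_sub, neg_eq_zero] at h4
  exact (Finset.mem_filter.1 hg).2 (Ideal.Quotient.eq_zero_iff_mem.1 h4)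

section

variable {L : Type} [Field L] [NumberField L] [IsGalois ℚ L] {z : L ≃ₐ[ℚ] L}
  {s : (L ≃ₐ[ℚ] L) → ℤ} {p a : ℕ} {v : Ideal (𝓞 L)} {α : 𝓞 L} (w : WD z s p a v α)

include w

theorem WD.ord : ¬ (p : ℤ) ∣ (PP α).coeff ((PP α).natDegree / 2) := by
  classical
  have hmem : ∀ g : L ≃ₐ[ℚ] L, g • α ∈ v ↔ s g = 1 := by
    intro g
    have h1 := w.od_pos
    have h2 := w.ha
    have h3 : g • α ∈ v ↔ v ∣ Ideal.span {g • α} := by
      rw [Ideal.dvd_span_singleton]
    rw [h3]
    constructor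
    · intro h4
      rcases w.cases g with h5 | h5
      · exact h5
      · exfalso
        have h6 := w.od_neg g h5
        unfold od at h6
        rw [multiplicity_eq_zero] at h6
        exact h6 h4
    · intro h4
      have h6 := w.od_one g h4
      by_contra h7
      rw [← multiplicity_eq_zero] at h7
      unfold od at h6
      rw [h7] at h6
      have h8 : 0 < a * multiplicity v (Ideal.span {(p : 𝓞 L)}) := Nat.mul_pos h2 h1
      omega
  refine coeff_ord v p w.hv w.hpv (fun g : L ≃ₐ[ℚ] L => g • α) (PP α) ?_ _ ?_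
  · -- the factorization
    have hinj : Function.Injective (Polynomial.map (algebraMap (𝓞 L) L)) :=
      map_injective _ RingOfIntegers.coe_injective
    apply hinj
    rw [map_cast, Polynomial.map_prod]
    have h1 := (PP_splits α).eq_prod_roots_of_monic ((PP_monic α).map _)
    rw [h1]
    have h2 : ((PP α).map (Int.castRingHom L)).roots =
        (Finset.univ : Finset (L ≃ₐ[ℚ] L)).val.map fun g => ((g • α : 𝓞 L) : L) := by
      have h3 : ((PP α).map (Int.castRingHom L)).roots.Nodup := nodup_roots (PP_sep α L)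
      have h4 : ((Finset.univ : Finset (L ≃ₐ[ℚ] L)).val.map fun g => ((g • α : 𝓞 L) : L)).Nodup :=
        Multiset.Nodup.map (fun g h hgh => w.inj (RingOfIntegers.ext hgh)) Finset.univ.nodup
      rw [Multiset.Nodup.ext h3 h4]
      intro x
      rw [mem_roots ((PP_monic α).map _).ne_zero, PP_root, Multiset.mem_map]
      exact ⟨fun ⟨σ, h5⟩ => ⟨σ, Finset.mem_univ_val σ, h5⟩, fun ⟨σ, _, h5⟩ => ⟨σ, h5⟩⟩
    rw [h2, Multiset.map_map]
    refine Finset.prod_congr rfl fun g _ => ?_
    rw [Polynomial.map_sub, map_X, map_C]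
    rfl
  · -- half of the roots
    rw [w.natDegree, ← IsGalois.card_aut_eq_finrank ℚ L]
    have h1 : Nat.card {g : L ≃ₐ[ℚ] L // g • α ∈ v} = Nat.card {g : L ≃ₐ[ℚ] L // ¬ g • α ∈ v} := by
      refine Nat.card_congr ⟨fun g => ⟨z * g.1, ?_⟩, fun g => ⟨z * g.1, ?_⟩, fun g => ?_, fun g => ?_⟩
      · have h2 := (hmem g.1).1 g.2
        rw [hmem, w.s_z, h2]
        norm_num
      · have h2 := g.2
        rw [hmem] at h2
        rw [hmem, w.s_z, (w.cases g.1).resolve_left h2]
        norm_num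
      · apply Subtype.ext
        change z * (z * g.1) = g.1
        rw [← mul_assoc, conj_sq w.hz, one_mul]
      · apply Subtype.ext
        change z * (z * g.1) = g.1
        rw [← mul_assoc, conj_sq w.hz, one_mul]
    have h2 : Nat.card (L ≃ₐ[ℚ] L) = Nat.card {g : L ≃ₐ[ℚ] L // g • α ∈ v} +
        Nat.card {g : L ≃ₐ[ℚ] L // ¬ g • α ∈ v} := by
      rw [← Nat.card_sum]
      exact Nat.card_congr (Equiv.sumCompl _).symm
    rw [h2, ← h1]
    omega

end

theorem tate_low : ∃ c : ℝ, 0 < c ∧ ∃ g₀ : ℕ, ∀ g ≥ g₀, ∃ (p a : ℕ) (P : ℤ[X]),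
    p.Prime ∧ 0 < a ∧ IsFrob p a P ∧ Neat P ∧ P.natDegree ≤ 2 * g ∧ Irreducible P ∧
    ¬ (p : ℤ) ∣ P.coeff (P.natDegree / 2) ∧
    (∀ n : ℕ, (n : ℝ) ≤ Real.exp (c * Real.sqrt g * Real.log g) →
      ∀ (K V : Type) [Field K] [CharZero K] [IsAlgClosed K] [AddCommGroup V] [Module K V]
      [FiniteDimensional K V] (F : V →ₗ[K] V), Module.End.IsSemisimple F →
      F.charpoly = P.map (Int.castRingHom K) → TateGenerated (F.compLeft (Fin n)) (p ^ a)) ∧
    ∃ n : ℕ,
      ∀ (K V : Type) [Field K] [CharZero K] [IsAlgClosed K] [AddCommGroup V] [Module K V]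
      [FiniteDimensional K V] (F : V →ₗ[K] V), Module.End.IsSemisimple F →
      F.charpoly = P.map (Int.castRingHom K) → ¬ TateGenerated (F.compLeft (Fin n)) (p ^ a) := by
  classical
  refine ⟨1 / 250, by norm_num, 3 * 16 ^ 4, fun g hg => ?_⟩
  obtain ⟨l, hl, B, hB2, hlg, hB, hn⟩ := num_low g hg
  obtain ⟨L, _, _, _, _, z, hz, hfin, hlarge⟩ := exists_field l hl B hB
  obtain ⟨s, hs1, hsz, hsm, n₀, hn₀, g₀, hg₀⟩ := hlarge.ex
  have hsep : ∀ g h, (∀ k, s (k * g) = s (k * h)) → g = h := by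
    intro α β h2
    by_contra hαβ
    have h3 := hsm (fun g => (if g = α then 1 else 0) - (if g = β then 1 else 0)) (by
      intro k
      simp only [sub_mul, ite_mul, one_mul, zero_mul, Finset.sum_sub_distrib,
        Finset.sum_ite_eq', Finset.mem_univ, if_true]
      rw [h2, sub_self]) 1 (by
      intro g
      by_cases h4 : g = α
      · rw [if_pos h4, if_neg (fun h5 => hαβ (h4.symm.trans h5))]
        norm_num
      · rw [if_neg h4]
        split_ifs <;> norm_num) (by omega) α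
    have h4 : z * α ≠ α := by
      intro h5
      have h6 := hsz α
      rw [h5] at h6
      rcases hs1 α with h7 | h7 <;> rw [h7] at h6 <;> norm_num at h6
    simp only [if_neg h4, if_neg hαβ, if_true] at h3
    split_ifs at h3 <;> norm_num at h3
  obtain ⟨p, a, v, α, w⟩ := exists_wd Pool.Agent.Q177.ZC.split z hz s hs1 hsz hsep
  refine ⟨p, a, PP α, w.hp, w.ha, w.isFrob, w.neat, ?_, PP_irr α, w.ord, ?_, w.not_gen n₀ hn₀ ⟨g₀, hg₀⟩⟩
  · rw [w.natDegree]
    omega
  · intro n hn' K V _ _ _ _ _ _ F hF hch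
    exact w.gen B hsm n (hn n hn') K V F hF hch

end Pool.Agent.Q271.ZC
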